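import Mathlib

/-! A form of Clifford's theorem. -/

set_option autoImplicit false

namespace TUT

open Module

section

variable {G : Type} [Group G] {V : Type} [AddCommGroup V] [Module ℂ V]

private theorem A1_inv (ρ : Representation ℂ G V) (g : G) (v : V) : ρ g⁻¹ (ρ g v) = v := by
  rw [← Module.End.mul_apply, ← map_mul, inv_mul_cancel, map_one, Module.End.one_apply]

private theorem A1_inv' (ρ : Representation ℂ G V) (g : G) (v : V) : ρ g (ρ g⁻¹ v) = v := by
  rw [← Module.End.mul_apply, ← map_mul, mul_inv_cancel, map_one, Module.End.one_apply]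

/-- The image of a submodule. -/
private noncomputable def A1_map (R : Subalgebra ℂ (End ℂ V)) (ρ : Representation ℂ G V)
    (hn : ∀ g, ∀ X ∈ R, ρ g * X * ρ g⁻¹ ∈ R) (g : G) (N : Submodule R V) : Submodule R V where
  carrier := {v | ρ g⁻¹ v ∈ N}
  add_mem' := by
    intro a b ha hb
    show ρ g⁻¹ (a + b) ∈ N
    rw [map_add]
    exact N.add_mem ha hb
  zero_mem' := by
    show ρ g⁻¹ 0 ∈ N
    rw [map_zero]
    exact N.zero_mem
  smul_mem' := by
    rintro ⟨X, hX⟩ v hv
    show ρ g⁻¹ (X v) ∈ N
    have h1 := N.smul_mem ⟨ρ g⁻¹ * X * ρ g⁻¹⁻¹, hn g⁻¹ X hX⟩ hv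
    have h2 : (⟨ρ g⁻¹ * X * ρ g⁻¹⁻¹, hn g⁻¹ X hX⟩ : R) • (ρ g⁻¹ v) = ρ g⁻¹ (X v) := by
      show ρ g⁻¹ (X (ρ g⁻¹⁻¹ (ρ g⁻¹ v))) = _
      rw [inv_inv, A1_inv']
    rw [h2] at h1
    exact h1

variable {R : Subalgebra ℂ (End ℂ V)} {ρ : Representation ℂ G V} (hn : ∀ g, ∀ X ∈ R, ρ g * X * ρ g⁻¹ ∈ R)

private theorem A1_mem {g : G} {N : Submodule R V} {v : V} : v ∈ A1_map R ρ hn g N ↔ ρ g⁻¹ v ∈ N := Iff.rfl

private theorem A1_mul (g g' : G) (N : Submodule R V) : A1_map R ρ hn (g * g') N = A1_map R ρ hn g (A1_map R ρ hn g' N) := by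
  ext v
  rw [A1_mem, A1_mem, A1_mem, mul_inv_rev, map_mul, Module.End.mul_apply]

private theorem A1_one (N : Submodule R V) : A1_map R ρ hn 1 N = N := by
  ext v
  rw [A1_mem, inv_one, map_one, Module.End.one_apply]

private noncomputable def A1_iso (g : G) : Submodule R V ≃o Submodule R V where
  toFun := A1_map R ρ hn g
  invFun := A1_map R ρ hn g⁻¹
  left_inv := fun N => by rw [← A1_mul, inv_mul_cancel, A1_one]
  right_inv := fun N => by rw [← A1_mul, mul_inv_cancel, A1_one]
  map_rel_iff' := by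
    intro N N'
    constructor
    · intro h v hv
      have h1 : ρ g v ∈ A1_map R ρ hn g N := by
        rw [A1_mem, A1_inv]
        exact hv
      have h2 : ρ g v ∈ A1_map R ρ hn g N' := h h1
      rw [A1_mem, A1_inv] at h2
      exact h2
    · intro h v hv
      exact h hv

private theorem A1_stable (g : G) {N : Submodule R V} {v : V} (hN : A1_map R ρ hn g N ≤ N) (hv : v ∈ N) : ρ g v ∈ N := by
  apply hN
  rw [A1_mem, A1_inv]
  exact hv

/-- The socle is stable. -/
private theorem A1_socle (g : G) :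
    A1_map R ρ hn g (sSup {m : Submodule R V | IsSimpleModule R m}) ≤ sSup {m : Submodule R V | IsSimpleModule R m} := by
  have h1 : A1_iso hn g (sSup {m : Submodule R V | IsSimpleModule R m}) = _ := (A1_iso hn g).map_sSup _
  have h2 : A1_map R ρ hn g (sSup {m : Submodule R V | IsSimpleModule R m}) =
      A1_iso hn g (sSup {m : Submodule R V | IsSimpleModule R m}) := rfl
  rw [h2, h1]
  refine iSup₂_le fun a ha => le_sSup ?_
  show IsSimpleModule R (A1_iso hn g a)
  rw [isSimpleModule_iff_isAtom, OrderIso.isAtom_iff, ← isSimpleModule_iff_isAtom]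
  exact ha

/-- Full invariance. -/
private theorem A1_full (g : G) {N : Submodule R V} (hN : N.IsFullyInvariant) : (A1_map R ρ hn g N).IsFullyInvariant := by
  intro f v hv
  show ρ g⁻¹ (f v) ∈ N
  let f' : Module.End R V :=
    { toFun := fun w => ρ g⁻¹ (f (ρ g w))
      map_add' := fun a b => by rw [map_add, map_add, map_add]
      map_smul' := by
        rintro ⟨X, hX⟩ w
        show ρ g⁻¹ (f (ρ g (X w))) = X (ρ g⁻¹ (f (ρ g w)))
        have h1 : ρ g (X w) = (⟨ρ g * X * ρ g⁻¹, hn g X hX⟩ : R) • ρ g w := by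
          show _ = ρ g (X (ρ g⁻¹ (ρ g w)))
          rw [A1_inv]
        rw [h1, map_smul]
        show ρ g⁻¹ (ρ g (X (ρ g⁻¹ (f (ρ g w))))) = _
        rw [A1_inv] }
  have h2 : f' (ρ g⁻¹ v) ∈ N := hN f' hv
  have h3 : f' (ρ g⁻¹ v) = ρ g⁻¹ (f v) := by
    show ρ g⁻¹ (f (ρ g (ρ g⁻¹ v))) = _
    rw [A1_inv']
  rw [← h3]
  exact h2

private noncomputable def A1_act : MulAction G (fullyInvariantSubmodule R V) where
  smul g N := ⟨A1_map R ρ hn g N.1, A1_full hn g N.2⟩
  one_smul N := Subtype.ext (A1_one hn N.1)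
  mul_smul g g' N := Subtype.ext (A1_mul hn g g' N.1)

/-- Eigenspaces in powers. -/
private theorem A1_rank {R : Subalgebra ℂ (End ℂ V)} [FiniteDimensional ℂ V] {n : ℕ} {S : Submodule R V} (φ : V ≃ₗ[R] (Fin n → S))
    (x : R) (c : ℂ) : ∃ m : ℕ, finrank ℂ (LinearMap.ker ((x : End ℂ V) - c • 1)) = n * m := by
  let T : Submodule ℂ (S.restrictScalars ℂ) := LinearMap.ker
    (((x : End ℂ V) - c • 1).comp (S.restrictScalars ℂ).subtype)
  refine ⟨finrank ℂ T, ?_⟩
  have hφc : ∀ (c : ℂ) (v : V), φ (c • v) = c • φ v := fun c v => by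
    have h1 : c • v = (algebraMap ℂ R c) • v := (algebraMap_smul R c v).symm
    have h2 : c • φ v = (algebraMap ℂ R c) • φ v := (algebraMap_smul R c (φ v)).symm
    rw [h1, h2, map_smul]
  have hmem : ∀ v : V, v ∈ LinearMap.ker ((x : End ℂ V) - c • 1) ↔ ∀ i, (x : End ℂ V) (φ v i : V) = c • (φ v i : V) := by
    intro v
    rw [LinearMap.mem_ker, LinearMap.sub_apply, LinearMap.smul_apply, Module.End.one_apply, sub_eq_zero]
    have h1 : (x : End ℂ V) v = x • v := rfl
    rw [h1]
    constructor
    · intro h i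
      have h2 : φ (x • v) = φ (c • v) := by rw [h]
      rw [map_smul, hφc] at h2
      have h3 := congrArg Subtype.val (congrFun h2 i)
      exact h3
    · intro h
      apply φ.injective
      rw [map_smul, hφc]
      funext i
      exact Subtype.ext (h i)
  let e : LinearMap.ker ((x : End ℂ V) - c • 1) ≃ₗ[ℂ] (Fin n → T) :=
    { toFun := fun v i => ⟨⟨(φ v.1 i : V), (φ v.1 i).2⟩, by
        rw [LinearMap.mem_ker]
        show (x : End ℂ V) (φ v.1 i : V) - c • (φ v.1 i : V) = 0
        rw [sub_eq_zero]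
        exact (hmem v.1).1 v.2 i⟩
      invFun := fun u => ⟨φ.symm fun i => ⟨((u i).1 : V), (u i).1.2⟩, by
        rw [hmem]
        intro i
        rw [LinearEquiv.apply_symm_apply]
        have h1 := (u i).2
        rw [LinearMap.mem_ker] at h1
        have h2 : (x : End ℂ V) ((u i).1 : V) - c • ((u i).1 : V) = 0 := h1
        exact sub_eq_zero.1 h2⟩
      left_inv := fun v => Subtype.ext (φ.symm_apply_apply v.1)
      right_inv := fun u => by
        funext i
        apply Subtype.ext
        apply Subtype.ext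
        show (φ (φ.symm _) i : V) = _
        rw [LinearEquiv.apply_symm_apply]
      map_add' := fun v w => by
        funext i
        apply Subtype.ext
        apply Subtype.ext
        show (φ (v.1 + w.1) i : V) = (φ v.1 i : V) + (φ w.1 i : V)
        rw [map_add]
        rfl
      map_smul' := fun c v => by
        funext i
        apply Subtype.ext
        apply Subtype.ext
        show (φ (c • v.1) i : V) = c • (φ v.1 i : V)
        rw [hφc]
        rfl }
  rw [e.finrank_eq, Module.finrank_pi_fintype, Finset.sum_const, Finset.card_univ, Fintype.card_fin, smul_eq_mul]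

end

/-- Let a group `G` act on `V` such that all subgroups of finite index act irreducibly, let `A` be a space of endomorphisms
of `V` which is normalised by `G` and contains an idempotent `h` whose rank and corank are coprime.  Then `A` acts
irreducibly.
PROOF.  (0) If `V = 0` there is nothing to prove.  Let `R = Algebra.adjoin ℂ A` (a subalgebra of `End ℂ V`; `V` is an
`R`-module; the `R`-submodules of `V` are the subspaces stable under `A`).  Let `S` be a simple `R`-submodule of `V`
(finite dimension).  For `g ∈ G` the space `ρ g S` is again an `R`-submodule (`X ρ(g) s = ρ(g) (ρ(g)⁻¹ X ρ(g)) s`) and simple.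
(1) `∑ g, ρ g S` is stable under `G`, so it is `V` (`hirr` for `G' = ⊤`); so `V` is a semisimple `R`-module
(`isSemisimpleModule_of_...`, a sum of simple modules).
(2) Mathlib (`Mathlib/RingTheory/SimpleModule/Isotypic.lean`): `V` is the direct sum of its finitely many isotypic
components; for `R`-submodules `S₁ ≅ S₂` one has `ρ g S₁ ≅ ρ g S₂` (by `ρ g φ ρ g⁻¹`), so `ρ g` maps isotypic components to
isotypic components, bijectively; `G` acts on the finite set of the isotypic components, the subgroup `G'` which fixes all of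
them has finite index, and each component is stable under `G'`; by `hirr` a component is `⊥` or `⊤`, so there is only one and
`V ≅ S ^ k` as an `R`-module (`IsIsotypic...linearEquiv_fun`), `k ≥ 1`.
(3) `h ∈ A` acts on `V ≅ S ^ k` as `h|S` on each factor: `finrank (range h) = k * finrank (range (h|S))`,
`finrank (ker h) = k * finrank (ker (h|S))`; so `k` divides both and `k = 1`: `V` is simple.
(An alternative to (2): let `C` be the commutant of `A`, a semisimple algebra, and use the central idempotents.) -/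
theorem irr_of_group {G : Type} [Group G] {V : Type} [AddCommGroup V] [Module ℂ V] [FiniteDimensional ℂ V]
    (A : Submodule ℂ (End ℂ V)) (ρ : Representation ℂ G V)
    (hirr : ∀ G' : Subgroup G, G'.FiniteIndex → ∀ W : Submodule ℂ V, (∀ g ∈ G', ∀ w ∈ W, ρ g w ∈ W) → W = ⊥ ∨ W = ⊤)
    (hnorm : ∀ g, ∀ X ∈ A, ρ g * X * ρ g⁻¹ ∈ A) (h : End ℂ V) (hA : h ∈ A) (hh : h * h = h)
    (hc : Nat.Coprime (finrank ℂ (LinearMap.range h)) (finrank ℂ (LinearMap.ker h))) (W : Submodule ℂ V)
    (hW : ∀ X ∈ A, ∀ w ∈ W, X w ∈ W) : W = ⊥ ∨ W = ⊤ := by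
  classical
  rcases subsingleton_or_nontrivial V with hV | hV
  · left
    rw [Submodule.eq_bot_iff]
    exact fun x _ => Subsingleton.elim _ _
  let R : Subalgebra ℂ (End ℂ V) := Algebra.adjoin ℂ (A : Set (End ℂ V))
  have hAR : ∀ X ∈ A, X ∈ R := fun X hX => Algebra.subset_adjoin hX
  have hn : ∀ g, ∀ X ∈ R, ρ g * X * ρ g⁻¹ ∈ R := by
    intro g X hX
    induction hX using Algebra.adjoin_induction with
    | mem X hX => exact hAR _ (hnorm g X hX)
    | algebraMap c =>
      have h1 : ρ g * algebraMap ℂ (End ℂ V) c * ρ g⁻¹ = algebraMap ℂ (End ℂ V) c := by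
        rw [← Algebra.commutes, mul_assoc, ← map_mul, mul_inv_cancel, map_one, mul_one]
      rw [h1]
      exact R.algebraMap_mem c
    | add X Y _ _ hX hY =>
      rw [mul_add, add_mul]
      exact R.add_mem hX hY
    | mul X Y _ _ hX hY =>
      have h1 : ρ g * (X * Y) * ρ g⁻¹ = (ρ g * X * ρ g⁻¹) * (ρ g * Y * ρ g⁻¹) := by
        have h2 : ρ g⁻¹ * ρ g = 1 := by rw [← map_mul, inv_mul_cancel, map_one]
        calc ρ g * (X * Y) * ρ g⁻¹ = ρ g * X * 1 * Y * ρ g⁻¹ := by simp only [mul_one, mul_assoc]
          _ = ρ g * X * (ρ g⁻¹ * ρ g) * Y * ρ g⁻¹ := by rw [h2]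
          _ = _ := by simp only [mul_assoc]
      rw [h1]
      exact R.mul_mem hX hY
  have hnoeth : IsNoetherian R V := isNoetherian_of_tower ℂ inferInstance
  have hart : IsArtinian R V := isArtinian_of_tower ℂ inferInstance
  have hfin : Module.Finite R V := Module.IsNoetherian.finite R V
  have hss : IsSemisimpleModule R V := by
    rw [← sSup_simples_eq_top_iff_isSemisimpleModule]
    rcases hirr ⊤ inferInstance ((sSup {m : Submodule R V | IsSimpleModule R m}).restrictScalars ℂ)
      (fun g _ w hw => A1_stable hn g (A1_socle hn g) hw) with h1 | h1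
    · exfalso
      obtain ⟨S, hS⟩ := IsAtomic.exists_atom (Submodule R V)
      have h2 : S ≤ sSup {m : Submodule R V | IsSimpleModule R m} := le_sSup (isSimpleModule_iff_isAtom.2 hS)
      apply hS.1
      rw [Submodule.restrictScalars_eq_bot_iff] at h1
      rw [h1] at h2
      exact le_bot_iff.1 h2
    · rw [Submodule.restrictScalars_eq_top_iff] at h1
      exact h1
  have hiso : IsIsotypic R V := by
    rw [isIsotypic_iff_isFullyInvariant_imp_bot_or_top]
    intro N hN
    let _ := A1_act hn (G := G)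
    have hfinX : Finite (fullyInvariantSubmodule R V) :=
      Finite.of_equiv _ (OrderIso.setIsotypicComponents (R := R) (M := V)).toEquiv
    let N' : fullyInvariantSubmodule R V := ⟨N, hN⟩
    have hidx : (MulAction.stabilizer G N').FiniteIndex := by
      constructor
      rw [MulAction.index_stabilizer]
      exact ((Set.ncard_pos (Set.toFinite _)).2 ⟨N', MulAction.mem_orbit_self N'⟩).ne'
    have hst : ∀ g ∈ MulAction.stabilizer G N', ∀ w ∈ N.restrictScalars ℂ, ρ g w ∈ N.restrictScalars ℂ := by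
      intro g hg w hw
      have h1 : g • N' = N' := hg
      have h2 : A1_map R ρ hn g N = N := congrArg Subtype.val h1
      exact A1_stable hn g h2.le hw
    rcases hirr _ hidx (N.restrictScalars ℂ) hst with h1 | h1
    · left
      rwa [Submodule.restrictScalars_eq_bot_iff] at h1
    · right
      rwa [Submodule.restrictScalars_eq_top_iff] at h1
  obtain ⟨n, hn0, S, hS, ⟨φ⟩⟩ := hiso.linearEquiv_fun
  have hn1 : n = 1 := by
    obtain ⟨m1, h1⟩ := A1_rank φ ⟨h, hAR h hA⟩ 1
    obtain ⟨m0, h0⟩ := A1_rank φ ⟨h, hAR h hA⟩ 0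
    have h3 : LinearMap.ker (h - (1 : ℂ) • 1) = LinearMap.range h := by
      ext v
      rw [LinearMap.mem_ker, LinearMap.sub_apply, one_smul, Module.End.one_apply, sub_eq_zero]
      constructor
      · exact fun h4 => ⟨v, h4⟩
      · rintro ⟨w, rfl⟩
        exact LinearMap.congr_fun hh w
    have h4 : LinearMap.ker (h - (0 : ℂ) • 1) = LinearMap.ker h := by rw [zero_smul, sub_zero]
    have h1' : finrank ℂ (LinearMap.range h) = n * m1 := by rw [← h3]; exact h1
    have h0' : finrank ℂ (LinearMap.ker h) = n * m0 := by rw [← h4]; exact h0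
    have h5 : n ∣ Nat.gcd (finrank ℂ (LinearMap.range h)) (finrank ℂ (LinearMap.ker h)) :=
      Nat.dvd_gcd ⟨m1, h1'⟩ ⟨m0, h0'⟩
    rw [hc] at h5
    exact Nat.dvd_one.1 h5
  subst hn1
  let ψ : V ≃ₗ[R] S := φ.trans (LinearEquiv.funUnique (Fin 1) R S)
  have hsim : IsSimpleModule R V := @IsSimpleModule.congr R _ V _ _ S _ _ ψ hS
  have hWR : ∀ X ∈ R, ∀ v ∈ W, X v ∈ W := by
    intro X hX
    induction hX using Algebra.adjoin_induction with
    | mem X hX => exact fun v hv => hW X hX v hv
    | algebraMap c => exact fun v hv => W.smul_mem c hv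
    | add X Y _ _ hX hY => exact fun v hv => W.add_mem (hX v hv) (hY v hv)
    | mul X Y _ _ hX hY => exact fun v hv => hX _ (hY v hv)
  let W' : Submodule R V :=
    { carrier := W
      add_mem' := W.add_mem
      zero_mem' := W.zero_mem
      smul_mem' := fun X v hv => hWR X.1 X.2 v hv }
  rcases eq_bot_or_eq_top W' with h1 | h1
  · left
    ext v
    have h2 : v ∈ W' ↔ v ∈ (⊥ : Submodule R V) := by rw [h1]
    exact h2
  · right
    ext v
    have h2 : v ∈ W' ↔ v ∈ (⊤ : Submodule R V) := by rw [h1]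
    exact h2

end TUT
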