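import Pool.Agent.Lib.MP_021685_agUT.B1

/-! The bound for the part of degree one. -/

set_option autoImplicit false

namespace TUT

open Module Pool.Agent.Lib.MP_021685_agO

variable {V : Type} [AddCommGroup V] [Module ℂ V] [FiniteDimensional ℂ V] {A : Submodule ℂ (End ℂ V)} {h e f : End ℂ V}

omit [FiniteDimensional ℂ V] in
private theorem B4_x (hp : Pair A h e f) {x : End ℂ V} (hx : x ∈ J1 A h e f) : e * f * x + x * (f * e) = x := by
  obtain ⟨⟨_, xh, hx0⟩, ht⟩ := hx
  have ex : e * x = 0 := by rw [← hp.he.2.1, mul_assoc, hx0, mul_zero]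
  have xe : x * e = 0 := by rw [← xh, mul_assoc, hp.he.2.2, mul_zero]
  have h1 : tau e f * x - x * tau e f = e * f * x + x * (f * e) - f * (e * x) - x * e * f := by
    unfold tau
    noncomm_ring
  rw [h1, ex, xe, mul_zero, zero_mul, sub_zero, sub_zero] at ht
  exact ht

omit [FiniteDimensional ℂ V] in
private theorem B4_y (hp : Pair A h e f) {y : End ℂ V} (hy : y ∈ J1' A h e f) : f * e * y + y * (e * f) = y := by
  obtain ⟨⟨_, hy0, yh⟩, ht⟩ := hy
  have fy : f * y = 0 := by rw [← hy0, ← mul_assoc, hp.hf.2.2, zero_mul]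
  have yf : y * f = 0 := by rw [← hp.hf.2.1, ← mul_assoc, yh, zero_mul]
  have h1 : -(tau e f * y - y * tau e f) = f * e * y + y * (e * f) - e * (f * y) - y * f * e := by
    unfold tau
    noncomm_ring
  rw [ht, neg_neg, fy, yf, mul_zero, zero_mul, sub_zero, sub_zero] at h1
  exact h1.symm

private theorem B4_key (hg : Gr A h) (hp : Prim A h e f) {x y : End ℂ V} (hx : x ∈ J1 A h e f) (hy : y ∈ J1' A h e f) :
    ∃ s : ℂ, x * y * e + e * y * x = s • e ∧ LinearMap.trace ℂ V (x * y) = s * LinearMap.trace ℂ V (e * f) := by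
  have hX := B4_x hp.toPair hx
  have hY := B4_y hp.toPair hy
  have efe := hp.efe
  have hz : x * y * e + e * y * x ∈ gm A h := hg.jpair.tri_add hx.1 hp.he hy.1
  have a1 : e * y * (e * f * x) = 0 := by
    have b1 : y * (e * f) = y - f * e * y := by rw [eq_sub_iff_add_eq, add_comm]; exact hY
    calc e * y * (e * f * x) = e * (y * (e * f)) * x := by simp only [mul_assoc]
      _ = e * y * x - e * f * e * y * x := by rw [b1, mul_sub, sub_mul]; simp only [mul_assoc]
      _ = 0 := by rw [efe, sub_self]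
  have a2 : x * (f * e) = x - e * f * x := by rw [eq_sub_iff_add_eq, add_comm]; exact hX
  have a3 : e * y * x * (f * e) = e * y * x := by
    calc e * y * x * (f * e) = e * y * (x * (f * e)) := by simp only [mul_assoc]
      _ = e * y * x - e * y * (e * f * x) := by rw [a2, mul_sub]
      _ = e * y * x := by rw [a1, sub_zero]
  have a4 : e * f * (x * y * e) = x * y * e := by
    have b1 : e * f * x = x - x * (f * e) := by rw [eq_sub_iff_add_eq]; exact hX
    have b2 : f * e * y = y - y * (e * f) := by rw [eq_sub_iff_add_eq]; exact hY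
    calc e * f * (x * y * e) = e * f * x * y * e := by simp only [mul_assoc]
      _ = x * y * e - x * (f * e * y) * e := by rw [b1, sub_mul, sub_mul]; simp only [mul_assoc]
      _ = x * y * e - (x * y * e - x * y * (e * f * e)) := by
        rw [b2, mul_sub, sub_mul]; simp only [mul_assoc]
      _ = x * y * e := by rw [efe, sub_self, sub_zero]
  have h1 : e * (f * (x * y * e + e * y * x) * f) * e = x * y * e + e * y * x := by
    calc e * (f * (x * y * e + e * y * x) * f) * e
        = e * f * (x * y * e) * (f * e) + e * f * e * y * x * (f * e) := by noncomm_ring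
      _ = x * y * e * (f * e) + e * y * x * (f * e) := by rw [a4, efe]
      _ = x * y * (e * f * e) + e * y * x * (f * e) := by simp only [mul_assoc]
      _ = x * y * e + e * y * x := by rw [efe, a3]
  obtain ⟨s, hs⟩ := hp.prim _ (hg.jpair.tri' _ hz f hp.hf)
  rw [h1] at hs
  refine ⟨s, hs, ?_⟩
  have h2 := congrArg (fun t => LinearMap.trace ℂ V (t * f)) hs
  simp only [smul_mul_assoc, map_smul, smul_eq_mul] at h2
  rw [← h2, add_mul, map_add]
  have h3 : LinearMap.trace ℂ V (e * y * x * f) = LinearMap.trace ℂ V (x * y) - LinearMap.trace ℂ V (x * y * e * f) := by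
    calc LinearMap.trace ℂ V (e * y * x * f) = LinearMap.trace ℂ V (e * (y * x * f)) := by simp only [mul_assoc]
      _ = LinearMap.trace ℂ V (y * (x * (f * e))) := by
        rw [LinearMap.trace_mul_comm]; simp only [mul_assoc]
      _ = LinearMap.trace ℂ V (y * x) - LinearMap.trace ℂ V (y * (e * f * x)) := by rw [a2, mul_sub, map_sub]
      _ = LinearMap.trace ℂ V (x * y) - LinearMap.trace ℂ V (x * y * e * f) := by
        rw [LinearMap.trace_mul_comm ℂ y x]
        have b3 : y * (e * f * x) = (y * e * f) * x := by simp only [mul_assoc]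
        have b4 : x * y * e * f = x * (y * e * f) := by simp only [mul_assoc]
        rw [b3, b4, LinearMap.trace_mul_comm ℂ (y * e * f) x]
  rw [h3]
  ring

/-- PROOF.  `e ∈ gm A h` maps `V₁ = range h` to `V₀ = ker h`, `f` maps `V₀` to `V₁` (`e h = e`, `h e = 0`, `h f = f`, `f h = 0`);
`P = e f` is an idempotent with `h P = P h = 0` and `range P = range e ≤ V₀`, `P' = f e` an idempotent with `h P' = P' = P' h`,
`range P' = range f ≤ V₁`, `finrank (range e) = finrank (range f) = r`.  For `x ∈ gm A h`, `x` is in `J1 A h e f` if and only if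
`P x + x P' = x`; then `x = x' + x''`, `x' = P x (1 - P')`, `x'' = (1 - P) x P'` (and `P x P' = 0`, `(1 - P) x (1 - P') = 0`).
For `y ∈ J1' A h e f`: `y = P' y (1 - P) + (1 - P') y P`.
(1) For `x ∈ J1`, `y ∈ J1'`: `x y e + e y x ∈ gm A h` (`JPair.tri_add` for `hg.jpair`) and it is `P (x y e + e y x) P'`
(`x y e = x' y e` with `y e = y P e = (1 - P') y P e`, so `x'' y e = 0`; `e y x = e P' y x = e (P' y (1 - P)) x = e P' y x''`);
so by `hp.prim` (for `f (x y e + e y x) f ∈ gp A h`, `JPair.tri'`) it is `s e`; and the trace with `f` gives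
`r s = trace (x y P) + trace (P' y x) = trace (x' y) + trace (y x'')`... `= trace (x y)`.  So
`x y e + e y x = (trace (x y) / r) • e`.
(2) Choose `v ∈ range P'` (in `V₁`) with `e v ≠ 0` (`v = f e u`, `e v = e u`), and a linear form `λ` on `V` with
`λ (e v) ≠ 0` and `λ ∘ P = λ` (`λ = λ₀ ∘ P`).  The map `J1 → V × Dual V`, `x ↦ (x'' v, λ ∘ x') = ((1 - P) x v, λ ∘ x ∘ (1 - P'))`
is injective: if `(1 - P) x v = 0` and `λ x (1 - P') = 0` then for all `y ∈ J1'`:
`(trace (x y) / r) λ (e v) = λ (x y e v) + λ (e y x v)`, `λ x y e v = λ x (1 - P') y e v = 0` and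
`e y x v = e y (1 - P) x v + e y P x v`, where `P x v = P x P' v = 0`: `0`.  So `trace (x y) = 0` for all `y ∈ J1'` and
`x = 0` by `(hg.jpair_J1 hp.toPair).nd`.
(3) The first component is in `range (1 - P) ⊓ ker h` (dimension `q - r`), the second in the linear forms which vanish on
`ker h` and on `range P'` (dimension `p - r`).  So `finrank J1 ≤ (q - r) + (p - r)`. -/
theorem Gr.bound (hg : Gr A h) (hp : Prim A h e f) (he : e ≠ 0) :
    finrank ℂ (J1 A h e f) + 2 * finrank ℂ (LinearMap.range e) ≤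
      finrank ℂ (LinearMap.range h) + finrank ℂ (LinearMap.ker h) := by
  have eh := hp.he.2.1
  have he0 := hp.he.2.2
  have efe := hp.efe
  have hf0 := hp.hf.2.1
  have efe' : ∀ u, e (f (e u)) = e u := fun u => LinearMap.congr_fun efe u
  obtain ⟨u, hu⟩ : ∃ u, e u ≠ 0 := by
    by_contra hcon
    exact he (LinearMap.ext fun u => by
      by_contra h1
      exact hcon ⟨u, h1⟩)
  obtain ⟨l₀, hl₀⟩ : ∃ l : Dual ℂ V, l (e u) ≠ 0 := by
    by_contra hcon
    exact hu ((Module.forall_dual_apply_eq_zero_iff ℂ (e u)).1 fun l => by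
      by_contra h1
      exact hcon ⟨l, h1⟩)
  -- the subspaces
  obtain ⟨S1, hS1⟩ : ∃ S : Submodule ℂ V, ∀ w, w ∈ S ↔ e (f w) = 0 ∧ h w = 0 :=
    ⟨LinearMap.ker (e * f) ⊓ LinearMap.ker h, fun w => by
      rw [Submodule.mem_inf, LinearMap.mem_ker, LinearMap.mem_ker]
      rfl⟩
  have dS1 : finrank ℂ S1 + finrank ℂ (LinearMap.range e) ≤ finrank ℂ (LinearMap.ker h) := by
    have h1 : S1 ⊓ LinearMap.range e = ⊥ := by
      rw [Submodule.eq_bot_iff]
      rintro w ⟨hw, ⟨w', rfl⟩⟩
      have h2 := ((hS1 _).1 hw).1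
      rw [efe'] at h2
      exact h2
    have h2 : S1 ⊔ LinearMap.range e ≤ LinearMap.ker h := by
      refine sup_le (fun w hw => ((hS1 w).1 hw).2) ?_
      rintro _ ⟨w, rfl⟩
      exact LinearMap.congr_fun he0 w
    have h3 := Submodule.finrank_sup_add_finrank_inf_eq S1 (LinearMap.range e)
    rw [h1, finrank_bot, add_zero] at h3
    rw [← h3]
    exact Submodule.finrank_mono h2
  obtain ⟨T, hT⟩ : ∃ T : Submodule ℂ V, T = LinearMap.ker h ⊔ LinearMap.range (f * e) := ⟨_, rfl⟩
  have dT : finrank ℂ (LinearMap.ker h) + finrank ℂ (LinearMap.range e) ≤ finrank ℂ T := by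
    have h1 : LinearMap.ker h ⊓ LinearMap.range (f * e) = ⊥ := by
      rw [Submodule.eq_bot_iff]
      rintro w ⟨hw, ⟨w', rfl⟩⟩
      have h2 : h ((f * e) w') = (f * e) w' := LinearMap.congr_fun hf0 (e w')
      rw [← h2]
      exact hw
    have h3 := Submodule.finrank_sup_add_finrank_inf_eq (LinearMap.ker h) (LinearMap.range (f * e))
    rw [h1, finrank_bot, add_zero, ← hT] at h3
    have h4 : finrank ℂ (LinearMap.range e) ≤ finrank ℂ (LinearMap.range (f * e)) := by
      have h5 : LinearMap.range e ≤ (LinearMap.range (f * e)).map e := by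
        rintro _ ⟨w, rfl⟩
        exact ⟨(f * e) w, ⟨w, rfl⟩, efe' w⟩
      exact (Submodule.finrank_mono h5).trans (Submodule.finrank_map_le e _)
    rw [h3]
    exact Nat.add_le_add_left h4 _
  have dn : finrank ℂ (LinearMap.range h) + finrank ℂ (LinearMap.ker h) = finrank ℂ V :=
    LinearMap.finrank_range_add_finrank_ker h
  have dA : finrank ℂ T + finrank ℂ T.dualAnnihilator = finrank ℂ V :=
    Subspace.finrank_add_finrank_dualAnnihilator_eq T
  -- the map
  let φ1 : J1 A h e f →ₗ[ℂ] V :=
    { toFun := fun x => x.1 (f (e u)) - e (f (x.1 (f (e u))))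
      map_add' := fun x y => by
        rw [Submodule.coe_add, LinearMap.add_apply, map_add, map_add]
        abel
      map_smul' := fun a x => by
        rw [Submodule.coe_smul, LinearMap.smul_apply, map_smul, map_smul, RingHom.id_apply, smul_sub] }
  let φ2 : J1 A h e f →ₗ[ℂ] Dual ℂ V :=
    { toFun := fun x => (l₀ ∘ₗ (e * f)) ∘ₗ x.1
      map_add' := fun x y => by
        rw [Submodule.coe_add, LinearMap.comp_add]
      map_smul' := fun a x => by
        rw [Submodule.coe_smul, LinearMap.comp_smul, RingHom.id_apply] }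
  have m1 : ∀ x, φ1 x ∈ S1 := fun x => by
    rw [hS1]
    refine ⟨?_, ?_⟩
    · change e (f (x.1 (f (e u)) - e (f (x.1 (f (e u)))))) = 0
      rw [map_sub, map_sub, efe', sub_self]
    · change h (x.1 (f (e u)) - e (f (x.1 (f (e u))))) = 0
      rw [map_sub]
      have b1 : h (x.1 (f (e u))) = 0 := LinearMap.congr_fun x.2.1.2.2 _
      have b2 : h (e (f (x.1 (f (e u))))) = 0 := LinearMap.congr_fun he0 _
      rw [b1, b2, sub_zero]
  have m2 : ∀ x, φ2 x ∈ T.dualAnnihilator := fun x => by
    rw [Submodule.mem_dualAnnihilator, hT]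
    intro w hw
    obtain ⟨w1, hw1, w2, ⟨w3, rfl⟩, rfl⟩ := Submodule.mem_sup.1 hw
    change l₀ (e (f (x.1 (w1 + f (e w3))))) = 0
    have b1 : x.1 w1 = 0 := by
      have b2 := LinearMap.congr_fun x.2.1.2.1 w1
      rw [← b2, Module.End.mul_apply, LinearMap.mem_ker.1 hw1, map_zero]
    have b3 : e (f (x.1 (f (e w3)))) = 0 := by
      have b4 := LinearMap.congr_fun (B4_x hp.toPair x.2) (f (e w3))
      have b5 : (e * f * x.1 + x.1 * (f * e)) (f (e w3)) = e (f (x.1 (f (e w3)))) + x.1 (f (e (f (e w3)))) := rfl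
      rw [b5, efe'] at b4
      exact add_eq_right.1 b4
    rw [map_add, b1, zero_add, b3, map_zero]
  have hinj : Function.Injective ((φ1.codRestrict S1 m1).prod (φ2.codRestrict T.dualAnnihilator m2)) := by
    rw [injective_iff_map_eq_zero]
    intro x hx
    have c1 : φ1 x = 0 := congrArg (fun t => ((t : S1 × T.dualAnnihilator).1 : V)) hx
    have c2 : φ2 x = 0 := congrArg (fun t => ((t : S1 × T.dualAnnihilator).2 : Dual ℂ V)) hx
    have c1' : x.1 (f (e u)) - e (f (x.1 (f (e u)))) = 0 := c1
    have c2' : ∀ w, l₀ (e (f (x.1 w))) = 0 := fun w => LinearMap.congr_fun c2 w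
    have b3 : e (f (x.1 (f (e u)))) = 0 := by
      have b4 := LinearMap.congr_fun (B4_x hp.toPair x.2) (f (e u))
      have b5 : (e * f * x.1 + x.1 * (f * e)) (f (e u)) = e (f (x.1 (f (e u)))) + x.1 (f (e (f (e u)))) := rfl
      rw [b5, efe'] at b4
      exact add_eq_right.1 b4
    rw [b3, sub_zero] at c1'
    have c3 : x.1 = 0 := by
      refine (hg.jpair_J1 hp.toPair).nd x.1 x.2 fun y hy => ?_
      obtain ⟨s, hs1, hs2⟩ := B4_key hg hp x.2 hy
      have d1 := LinearMap.congr_fun hs1 (f (e u))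
      have d2 : (x.1 * y * e + e * y * x.1) (f (e u)) = x.1 (y (e (f (e u)))) + e (y (x.1 (f (e u)))) := rfl
      rw [d2, c1', map_zero, map_zero, add_zero, LinearMap.smul_apply, efe'] at d1
      have d3 := congrArg (fun t => l₀ (e (f t))) d1
      simp only [c2', map_smul, efe', smul_eq_mul] at d3
      have d4 : s = 0 := (mul_eq_zero.1 d3.symm).resolve_right hl₀
      rw [hs2, d4, zero_mul]
    exact Subtype.ext c3
  have hle := LinearMap.finrank_le_finrank_of_injective hinj
  rw [Module.finrank_prod] at hle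
  omega

end TUT
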