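import Pool.Agent.Lib.MP_021685_agUT.B1

/-! The case of the full parts of degree one. -/

set_option autoImplicit false

namespace TUT

open Module Pool.Agent.Lib.MP_021685_agO

variable {V : Type} [AddCommGroup V] [Module ℂ V] [FiniteDimensional ℂ V] {A : Submodule ℂ (End ℂ V)} {h : End ℂ V}

private theorem B5_app {X Y : End ℂ V} (hXY : X * Y = 0) (v : V) : X (Y v) = 0 := by
  have := congrArg (fun Z : End ℂ V => Z v) hXY
  simpa using this

private theorem B5_app' {X Y Z : End ℂ V} (hXY : X * Y = Z) (v : V) : X (Y v) = Z v := by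
  have := congrArg (fun Z : End ℂ V => Z v) hXY
  simpa using this

/-- An element of degree `-1` as a map from `range h` to `ker h`. -/
private noncomputable def B5_mapM (A : Submodule ℂ (End ℂ V)) (h : End ℂ V) :
    gm A h →ₗ[ℂ] (LinearMap.range h →ₗ[ℂ] LinearMap.ker h) where
  toFun X := LinearMap.codRestrict (LinearMap.ker h) ((X : End ℂ V) ∘ₗ (LinearMap.range h).subtype)
    (fun v => LinearMap.mem_ker.2 (B5_app X.2.2.2 _))
  map_add' X Y := by
    ext v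
    simp
  map_smul' c X := by
    ext v
    simp

/-- An element of degree `1` as a map from `ker h` to `range h`. -/
private noncomputable def B5_mapP (A : Submodule ℂ (End ℂ V)) (h : End ℂ V) :
    gp A h →ₗ[ℂ] (LinearMap.ker h →ₗ[ℂ] LinearMap.range h) where
  toFun X := LinearMap.codRestrict (LinearMap.range h) ((X : End ℂ V) ∘ₗ (LinearMap.ker h).subtype)
    (fun v => LinearMap.mem_range.2 ⟨_, B5_app' X.2.2.1 _⟩)
  map_add' X Y := by
    ext v
    simp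
  map_smul' c X := by
    ext v
    simp

private theorem B5_gm (hd : finrank ℂ (gm A h) = finrank ℂ (LinearMap.range h) * finrank ℂ (LinearMap.ker h))
    {X : End ℂ V} (h1 : X * h = X) (h2 : h * X = 0) : X ∈ gm A h := by
  have inj : Function.Injective (B5_mapM A h) := by
    rw [← LinearMap.ker_eq_bot, LinearMap.ker_eq_bot']
    intro Y hY
    apply Subtype.ext
    refine LinearMap.ext fun v => ?_
    have e1 := congrArg (fun Z : LinearMap.range h →ₗ[ℂ] LinearMap.ker h => ((Z ⟨h v, v, rfl⟩ : LinearMap.ker h) : V)) hY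
    have e2 : (Y : End ℂ V) (h v) = 0 := by
      simpa [B5_mapM] using e1
    rw [← B5_app' Y.2.2.1 v, e2]
    rfl
  have hfr : finrank ℂ (gm A h) = finrank ℂ (LinearMap.range h →ₗ[ℂ] LinearMap.ker h) := by
    rw [hd, Module.finrank_linearMap]
  have surj := (LinearMap.injective_iff_surjective_of_finrank_eq_finrank hfr).1 inj
  obtain ⟨Y, hY⟩ := surj (LinearMap.codRestrict (LinearMap.ker h) (X ∘ₗ (LinearMap.range h).subtype)
    (fun v => LinearMap.mem_ker.2 (B5_app h2 _)))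
  have : X = (Y : End ℂ V) := by
    refine LinearMap.ext fun v => ?_
    have e1 := congrArg (fun Z : LinearMap.range h →ₗ[ℂ] LinearMap.ker h => ((Z ⟨h v, v, rfl⟩ : LinearMap.ker h) : V)) hY
    have e2 : (Y : End ℂ V) (h v) = X (h v) := by
      simpa [B5_mapM] using e1
    rw [← B5_app' Y.2.2.1 v, e2, B5_app' h1 v]
  rw [this]
  exact Y.2

private theorem B5_fr (hg : Gr A h) : finrank ℂ (gm A h) ≤ finrank ℂ (gp A h) := by
  have hJ := hg.jpair
  let T : gm A h →ₗ[ℂ] (Module.Dual ℂ (gp A h)) :=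
    { toFun := fun X =>
        { toFun := fun Y => LinearMap.trace ℂ V ((X : End ℂ V) * (Y : End ℂ V))
          map_add' := fun Y Z => by simp [mul_add]
          map_smul' := fun c Y => by simp }
      map_add' := fun X Y => by
        refine LinearMap.ext fun Z => ?_
        simp [add_mul]
      map_smul' := fun c X => by
        refine LinearMap.ext fun Z => ?_
        simp }
  have inj : Function.Injective T := by
    rw [← LinearMap.ker_eq_bot, LinearMap.ker_eq_bot']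
    intro X hX
    apply Subtype.ext
    refine hJ.nd X.1 X.2 fun y hy => ?_
    exact congrArg (fun Z : Module.Dual ℂ (gp A h) => Z ⟨y, hy⟩) hX
  have := LinearMap.finrank_le_finrank_of_injective inj
  rwa [Subspace.dual_finrank_eq] at this

private theorem B5_gp (hg : Gr A h)
    (hd : finrank ℂ (gm A h) = finrank ℂ (LinearMap.range h) * finrank ℂ (LinearMap.ker h))
    {X : End ℂ V} (h1 : h * X = X) (h2 : X * h = 0) : X ∈ gp A h := by
  have hk : ∀ v : V, v - h v ∈ LinearMap.ker h := fun v => by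
    rw [LinearMap.mem_ker, map_sub, B5_app' hg.idem, sub_self]
  have inj : Function.Injective (B5_mapP A h) := by
    rw [← LinearMap.ker_eq_bot, LinearMap.ker_eq_bot']
    intro Y hY
    apply Subtype.ext
    refine LinearMap.ext fun v => ?_
    have e1 := congrArg (fun Z : LinearMap.ker h →ₗ[ℂ] LinearMap.range h =>
      ((Z ⟨v - h v, hk v⟩ : LinearMap.range h) : V)) hY
    have e2 : (Y : End ℂ V) (v - h v) = 0 := by
      simpa [B5_mapP] using e1
    rw [map_sub, B5_app Y.2.2.2 v, sub_zero] at e2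
    rw [e2]
    rfl
  have hle : finrank ℂ (LinearMap.ker h →ₗ[ℂ] LinearMap.range h) ≤ finrank ℂ (gp A h) := by
    rw [Module.finrank_linearMap, mul_comm, ← hd]
    exact B5_fr hg
  have hfr : finrank ℂ (gp A h) = finrank ℂ (LinearMap.ker h →ₗ[ℂ] LinearMap.range h) :=
    le_antisymm (LinearMap.finrank_le_finrank_of_injective inj) hle
  have surj := (LinearMap.injective_iff_surjective_of_finrank_eq_finrank hfr).1 inj
  obtain ⟨Y, hY⟩ := surj (LinearMap.codRestrict (LinearMap.range h) (X ∘ₗ (LinearMap.ker h).subtype)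
    (fun v => LinearMap.mem_range.2 ⟨_, B5_app' h1 _⟩))
  have : X = (Y : End ℂ V) := by
    refine LinearMap.ext fun v => ?_
    have e1 := congrArg (fun Z : LinearMap.ker h →ₗ[ℂ] LinearMap.range h =>
      ((Z ⟨v - h v, hk v⟩ : LinearMap.range h) : V)) hY
    have e2 : (Y : End ℂ V) (v - h v) = X (v - h v) := by
      simpa [B5_mapP] using e1
    rw [map_sub, map_sub, B5_app Y.2.2.2 v, B5_app h2 v, sub_zero, sub_zero] at e2
    exact e2.symm
  rw [this]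
  exact Y.2

private theorem B5_dual (b : V) (hb : b ≠ 0) : ∃ ψ : V →ₗ[ℂ] ℂ, ψ b = 1 := by
  obtain ⟨ψ, hψ⟩ : ∃ ψ : Module.Dual ℂ V, ψ b ≠ 0 := by
    by_contra hc
    push Not at hc
    exact hb ((Module.forall_dual_apply_eq_zero_iff ℂ b).1 hc)
  exact ⟨(ψ b)⁻¹ • ψ, by rw [LinearMap.smul_apply, smul_eq_mul, inv_mul_cancel₀ hψ]⟩

/-- PROOF.  `M = {X | X h = X, h X = 0}` is isomorphic to `Hom (range h, ker h)`, of dimension `p q`; so `gm A h = M` by
`Submodule.eq_of_le_of_finrank_le`.  `finrank (gp A h) = finrank (gm A h)` (the trace form is a perfect pairing, `hg.jpair`: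
`nd`, `nd'`), so `gp A h = {X | h X = X, X h = 0}`.
Let `V₁ = range h`, `V₀ = ker h`, `φ a = 0`.  Write `a = a₁ + a₀` (`a₁ = h a`), `φ = φ₁ + φ₀` (`φ₁ = φ ∘ h`).  Then
`φ₁ ⊗ a₀ := φ₁.smulRight a₀ ∈ M = gm A h`, `φ₀ ⊗ a₁ ∈ gp A h`, and `φ₁ a₁ + φ₀ a₀ = 0`.  It remains to see that
`φ₁ ⊗ a₁ + φ₀ ⊗ a₀ ∈ A`.  Brackets: `[φ₀ ⊗ a₁, φ₁ ⊗ a₀] = φ₀(a₀) φ₁ ⊗ a₁ - φ₁(a₁) φ₀ ⊗ a₀`
(`(φ ⊗ a) (ψ ⊗ b) = φ b • (ψ ⊗ a)`).  If `s = φ₀(a₀) ≠ 0`: this is `s (φ₁ ⊗ a₁ + φ₀ ⊗ a₀)`.  If `s = 0` then also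
`φ₁ a₁ = 0`; choose `b₀ ∈ V₀`, `ψ₀` (with `ψ₀ ∘ h = 0`) with `ψ₀ b₀ = 1` (`ker h ≠ ⊥`):
`[ψ₀ ⊗ a₁, φ₁ ⊗ b₀] = φ₁ ⊗ a₁ - φ₁(a₁) ψ₀ ⊗ b₀ = φ₁ ⊗ a₁`; the same for `φ₀ ⊗ a₀` with `b₁ ∈ V₁`. -/
theorem Gr.full (hg : Gr A h) (h1 : LinearMap.range h ≠ ⊥) (h0 : LinearMap.ker h ≠ ⊥)
    (hd : finrank ℂ (gm A h) = finrank ℂ (LinearMap.range h) * finrank ℂ (LinearMap.ker h))
    (φ : V →ₗ[ℂ] ℂ) (a : V) (ha : φ a = 0) : φ.smulRight a ∈ A := by
  -- the components
  have hh : ∀ v, h (h v) = h v := fun v => B5_app' hg.idem v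
  have hM : ∀ (ψ : V →ₗ[ℂ] ℂ) (b : V), (∀ v, ψ (h v) = ψ v) → h b = 0 → ψ.smulRight b ∈ A := by
    intro ψ b hψ hb
    refine (B5_gm hd (X := ψ.smulRight b) ?_ ?_).1
    · refine LinearMap.ext fun v => ?_
      simp [Module.End.mul_apply, hψ v]
    · refine LinearMap.ext fun v => ?_
      simp [Module.End.mul_apply, hb]
  have hP : ∀ (ψ : V →ₗ[ℂ] ℂ) (b : V), (∀ v, ψ (h v) = 0) → h b = b → ψ.smulRight b ∈ A := by
    intro ψ b hψ hb
    refine (B5_gp hg hd (X := ψ.smulRight b) ?_ ?_).1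
    · refine LinearMap.ext fun v => ?_
      simp [Module.End.mul_apply, hb]
    · refine LinearMap.ext fun v => ?_
      simp [Module.End.mul_apply, hψ v]
  -- the brackets
  have hB : ∀ (ψ χ : V →ₗ[ℂ] ℂ) (b c : V), (∀ v, ψ (h v) = 0) → h b = b → (∀ v, χ (h v) = χ v) → h c = 0 →
      ψ c • χ.smulRight b - χ b • ψ.smulRight c ∈ A := by
    intro ψ χ b c h1 h2 h3 h4
    have e := hg.lie _ (hP ψ b h1 h2) _ (hM χ c h3 h4)
    have e' : ψ.smulRight b * χ.smulRight c - χ.smulRight c * ψ.smulRight b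
        = ψ c • χ.smulRight b - χ b • ψ.smulRight c := by
      refine LinearMap.ext fun v => ?_
      simp only [LinearMap.sub_apply, Module.End.mul_apply, LinearMap.smulRight_apply, LinearMap.smul_apply, map_smul,
        smul_smul]
      rw [mul_comm (χ v), mul_comm (ψ v)]
    rwa [e'] at e
  obtain ⟨a₁, ha₁⟩ : ∃ a₁, a₁ = h a := ⟨_, rfl⟩
  obtain ⟨a₀, ha₀⟩ : ∃ a₀, a₀ = a - h a := ⟨_, rfl⟩
  obtain ⟨φ₁, hφ₁⟩ : ∃ φ₁ : V →ₗ[ℂ] ℂ, φ₁ = φ ∘ₗ h := ⟨_, rfl⟩
  obtain ⟨φ₀, hφ₀⟩ : ∃ φ₀ : V →ₗ[ℂ] ℂ, φ₀ = φ - φ ∘ₗ h := ⟨_, rfl⟩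
  have k1 : h a₁ = a₁ := by rw [ha₁, hh]
  have k0 : h a₀ = 0 := by rw [ha₀, map_sub, hh, sub_self]
  have l1 : ∀ v, φ₁ (h v) = φ₁ v := fun v => by
    rw [hφ₁, LinearMap.comp_apply, LinearMap.comp_apply, hh]
  have l0 : ∀ v, φ₀ (h v) = 0 := fun v => by
    rw [hφ₀, LinearMap.sub_apply, LinearMap.comp_apply, hh, sub_self]
  have hsum : φ₁ a₁ + φ₀ a₀ = 0 := by
    rw [hφ₁, hφ₀, ha₁, ha₀]
    simp only [LinearMap.comp_apply, LinearMap.sub_apply, map_sub, hh, sub_self, sub_zero, add_sub_cancel]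
    exact ha
  have hdec : φ.smulRight a = φ₁.smulRight a₀ + φ₀.smulRight a₁ + (φ₁.smulRight a₁ + φ₀.smulRight a₀) := by
    refine LinearMap.ext fun v => ?_
    simp only [LinearMap.add_apply, LinearMap.smulRight_apply]
    have e1 : a = a₁ + a₀ := by rw [ha₁, ha₀, add_sub_cancel]
    have e2 : φ v = φ₁ v + φ₀ v := by
      rw [hφ₁, hφ₀, LinearMap.sub_apply, LinearMap.comp_apply, add_sub_cancel]
    rw [e1, e2]
    module
  have hrest : φ₁.smulRight a₁ + φ₀.smulRight a₀ ∈ A := by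
    by_cases hs : φ₀ a₀ = 0
    · have hs1 : φ₁ a₁ = 0 := by rw [hs, add_zero] at hsum; exact hsum
      obtain ⟨b₀, hb₀, hb₀'⟩ := Submodule.exists_mem_ne_zero_of_ne_bot h0
      obtain ⟨b₁, hb₁, hb₁'⟩ := Submodule.exists_mem_ne_zero_of_ne_bot h1
      have hb₀h : h b₀ = 0 := LinearMap.mem_ker.1 hb₀
      have hb₁h : h b₁ = b₁ := by
        obtain ⟨w, hw⟩ := hb₁
        rw [← hw, hh]
      obtain ⟨ψ, hψ⟩ := B5_dual b₀ hb₀'
      obtain ⟨χ, hχ⟩ := B5_dual b₁ hb₁'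
      refine A.add_mem ?_ ?_
      · have e := hB (ψ - ψ ∘ₗ h) φ₁ a₁ b₀ (fun v => by
          rw [LinearMap.sub_apply, LinearMap.comp_apply, hh, sub_self]) k1 l1 hb₀h
        rw [hs1, zero_smul, sub_zero, LinearMap.sub_apply, LinearMap.comp_apply, hb₀h, map_zero, sub_zero, hψ,
          one_smul] at e
        exact e
      · have e := hB φ₀ (χ ∘ₗ h) b₁ a₀ l0 hb₁h (fun v => by
          rw [LinearMap.comp_apply, LinearMap.comp_apply, hh]) k0
        rw [hs, zero_smul, zero_sub, LinearMap.comp_apply, hb₁h, hχ, one_smul] at e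
        exact A.neg_mem_iff.1 e
    · have e := hB φ₀ φ₁ a₁ a₀ l0 k1 l1 k0
      have e2 : φ₁ a₁ = - φ₀ a₀ := eq_neg_of_add_eq_zero_left hsum
      rw [e2, neg_smul, sub_neg_eq_add, ← smul_add] at e
      exact (A.smul_mem_iff hs).1 e
  rw [hdec]
  exact A.add_mem (A.add_mem (hM φ₁ a₀ l1 k0) (hP φ₀ a₁ l0 k1)) hrest

end TUT
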