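import Pool.Agent.Lib.MP_021685_agUT.B3
import Pool.Agent.Lib.MP_021685_agUT.B4
import Pool.Agent.Lib.MP_021685_agUT.B5

/-! The coprime case. -/

set_option autoImplicit false

namespace TUT

open Module Pool.Agent.Lib.MP_021685_agO

variable {V : Type} [AddCommGroup V] [Module ℂ V] [FiniteDimensional ℂ V] {A : Submodule ℂ (End ℂ V)} {h : End ℂ V}

theorem B6_arith {p q r m d : ℕ} (hc : Nat.Coprime p q) (hr : r ≠ 0)
    (h1 : (2 + d) * (p * q) = r * m * (p + q)) (h2 : d + 2 * r ≤ p + q) : m = p * q := by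
  have h3 : (p + q) ∣ (2 + d) * (p * q) := ⟨r * m, by rw [h1, mul_comm]⟩
  have h4 : Nat.Coprime (p + q) (p * q) := by
    refine Nat.Coprime.mul_right ?_ ?_
    · simpa using hc.symm
    · simpa using hc
  have h5 : (p + q) ∣ 2 + d := h4.dvd_of_dvd_mul_right h3
  obtain ⟨t, ht⟩ := h5
  have ht0 : t ≠ 0 := by
    rintro rfl
    omega
  have h6 : (p + q) * 1 ≤ (p + q) * t := Nat.mul_le_mul_left _ (Nat.one_le_iff_ne_zero.2 ht0)
  have hr1 : r = 1 := by omega
  have hd : 2 + d = p + q := by omega
  subst hr1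
  rw [hd, one_mul, mul_comm] at h1
  have h7 : 0 < p + q := by omega
  exact (Nat.eq_of_mul_eq_mul_right h7 h1).symm

/-- An irreducible Lie algebra of endomorphisms of `V` with an idempotent element, whose rank and corank are coprime,
contains all the nilpotent endomorphisms of rank one. -/
theorem Gr.full_of_coprime (hg : Gr A h)
    (hc : Nat.Coprime (finrank ℂ (LinearMap.range h)) (finrank ℂ (LinearMap.ker h)))
    (φ : V →ₗ[ℂ] ℂ) (a : V) (ha : φ a = 0) : φ.smulRight a ∈ A := by
  have hrn := LinearMap.finrank_range_add_finrank_ker h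
  have hone : finrank ℂ V = 1 → φ.smulRight a ∈ A := by
    intro h1
    by_cases ha0 : a = 0
    · have h2 : φ.smulRight a = 0 := by
        ext v
        rw [ha0, LinearMap.smulRight_apply, smul_zero, LinearMap.zero_apply]
      rw [h2]
      exact A.zero_mem
    · have h2 : φ.smulRight a = 0 := by
        ext v
        obtain ⟨c, rfl⟩ := (finrank_eq_one_iff_of_nonzero' a ha0).1 h1 v
        rw [LinearMap.smulRight_apply, map_smul, ha, smul_zero, zero_smul, LinearMap.zero_apply]
      rw [h2]
      exact A.zero_mem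
  by_cases hp : finrank ℂ (LinearMap.range h) = 0
  · rw [hp, Nat.coprime_zero_left] at hc
    exact hone (by omega)
  by_cases hq : finrank ℂ (LinearMap.ker h) = 0
  · rw [hq, Nat.coprime_zero_right] at hc
    exact hone (by omega)
  have h1 : LinearMap.range h ≠ ⊥ := by
    intro h2
    rw [h2, finrank_bot] at hp
    exact hp rfl
  have h0 : LinearMap.ker h ≠ ⊥ := by
    intro h2
    rw [h2, finrank_bot] at hq
    exact hq rfl
  have hne : gm A h ≠ ⊥ := by
    intro hbot
    have hst : ∀ X ∈ A, ∀ w ∈ LinearMap.range h, X w ∈ LinearMap.range h := by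
      rintro X hX _ ⟨w, rfl⟩
      obtain ⟨-, h2, -⟩ := hcomp hg.lie hg.mem hg.idem hX
      rw [hbot, Submodule.mem_bot] at h2
      have h3 := LinearMap.congr_fun h2 w
      refine ⟨X (h w), ?_⟩
      have h4 : ((1 - h) * X * h) w = X (h w) - h (X (h w)) := rfl
      rw [h4, LinearMap.zero_apply, sub_eq_zero] at h3
      exact h3.symm
    rcases hg.irr _ hst with h2 | h2
    · exact h1 h2
    · refine h0 ?_
      rw [LinearMap.ker_eq_bot_iff_range_eq_top]
      exact h2
  obtain ⟨e, f, hpr, he⟩ := hg.exists_prim hne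
  have hr : finrank ℂ (LinearMap.range e) ≠ 0 := by
    intro h2
    rw [Submodule.finrank_eq_zero, LinearMap.range_eq_bot] at h2
    exact he h2
  exact hg.full h1 h0 (B6_arith hc hr (hg.trace_id hpr he) (hg.bound hpr he)) φ a ha

end TUT
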