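import Pool.Agent.Lib.MP_021685_agUT.A3
import Pool.Agent.Lib.MP_021685_agUT.A1
import Pool.Agent.Lib.MP_021685_agUT.B6

/-! The nilpotent endomorphisms of one block. -/

set_option autoImplicit false

namespace TUT

open Module

variable {H : Type} [AddCommGroup H] [Module ℂ H] [FiniteDimensional ℂ H] {J : Type} [Fintype J]
  {e : H →ₗ[ℂ] H →ₗ[ℂ] ℂ} {bar : J → J} {p : J → End ℂ H} {A : Submodule ℂ (End ℂ H)} {c : End ℂ H →ₗ[ℂ] ℂ}

/-- The restriction to the image of `P`. -/
private noncomputable def A2_res {H : Type} [AddCommGroup H] [Module ℂ H] (P : End ℂ H) :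
    End ℂ H →ₗ[ℂ] End ℂ (LinearMap.range P) where
  toFun := fun X => P.rangeRestrict.comp (X.comp (LinearMap.range P).subtype)
  map_add' := fun X Y => by
    ext v
    simp
  map_smul' := fun a X => by
    ext v
    simp

private theorem A2_range {H : Type} [AddCommGroup H] [Module ℂ H] {P : End ℂ H} (hP : P * P = P)
    (v : LinearMap.range P) : P (v : H) = v := by
  obtain ⟨w, hw⟩ := v.2
  rw [← hw]
  exact LinearMap.congr_fun hP w

private theorem A2_coe {H : Type} [AddCommGroup H] [Module ℂ H] (P X : End ℂ H) (v : LinearMap.range P) :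
    ((A2_res P X v : LinearMap.range P) : H) = P (X v) := rfl

private theorem A2_app {H : Type} [AddCommGroup H] [Module ℂ H] {P X : End ℂ H} (hP : P * P = P) (hX : X * P = P * X)
    (v : LinearMap.range P) : ((A2_res P X v : LinearMap.range P) : H) = X v := by
  rw [A2_coe]
  have h1 : P (X (v : H)) = X (P (v : H)) := (LinearMap.congr_fun hX (v : H)).symm
  rw [h1, A2_range hP]

private theorem A2_mul {H : Type} [AddCommGroup H] [Module ℂ H] {P X Y : End ℂ H} (hP : P * P = P) (hX : X * P = P * X)
    (hY : Y * P = P * Y) : A2_res P (X * Y) = A2_res P X * A2_res P Y := by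
  refine LinearMap.ext fun v => Subtype.ext ?_
  have hXY : X * Y * P = P * (X * Y) := by rw [mul_assoc, hY, ← mul_assoc, hX, mul_assoc]
  rw [A2_app hP hXY, Module.End.mul_apply, Module.End.mul_apply, A2_app hP hX, A2_app hP hY]

private theorem A2_one {H : Type} [AddCommGroup H] [Module ℂ H] {P : End ℂ H} (hP : P * P = P) : A2_res P 1 = 1 := by
  refine LinearMap.ext fun v => Subtype.ext ?_
  rw [A2_app hP (by rw [one_mul, mul_one])]
  rfl

private theorem A2_rank {H : Type} [AddCommGroup H] [Module ℂ H] [FiniteDimensional ℂ H] {P X : End ℂ H} (hP : P * P = P)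
    (hX : X * P = P * X) : finrank ℂ (LinearMap.range (A2_res P X)) = finrank ℂ (LinearMap.range (X * P)) := by
  have h1 : (LinearMap.range (A2_res P X)).map (LinearMap.range P).subtype = LinearMap.range (X * P) := by
    ext y
    constructor
    · rintro ⟨_, ⟨v, rfl⟩, rfl⟩
      refine ⟨(v : H), ?_⟩
      rw [Module.End.mul_apply, A2_range hP]
      exact (A2_app hP hX v).symm
    · rintro ⟨w, rfl⟩
      refine ⟨A2_res P X ⟨P w, ⟨w, rfl⟩⟩, ⟨_, rfl⟩, ?_⟩
      exact A2_app hP hX ⟨P w, ⟨w, rfl⟩⟩
  rw [← h1]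
  exact (Submodule.finrank_map_subtype_eq _ _).symm

/-- PROOF.  Let `V = range (p f)` (a submodule of `H`, taken as a type), `B` the image of `A` under the restriction
`End H ∋ X ↦ X|V` (for `X` commuting with `p f`; as a linear map on all of `End H`: `X ↦ (p f X)|V`).  `B` is closed under
brackets, normalised by the restrictions of the `ρ g` (a representation of `G` on `V`), contains the restriction of `h`, an
idempotent whose rank is `finrank (range (h * p f))` and whose corank is `finrank (range (h * p (bar f)))` (`finrank_add`).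
Subgroups `G'` of finite index act irreducibly on `V`: for `w ∈ W ≤ V`, `w ≠ 0`, `u ∈ V`, choose a linear form `φ` on `H` with
`φ w = 1`; `X = p f (φ.smulRight u) p f` commutes with all `p g`, so it is a combination of the `ρ g`, `g ∈ G'` (`hd`), and
`X w = u`, so `u ∈ W`.  By `irr_of_group` (`A1.lean`) `B` is irreducible, by `Gr.full_of_coprime` (`B6.lean`) it contains all
nilpotent endomorphisms of rank one of `V`; for `a ∈ range (p f)`, `b` with `p (bar f) b = b`, `e b a = 0` apply this with
`φ = e b` restricted to `V`. -/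
theorem nilOn_of_group (hb : Blk e bar p) (hA : LieOn e p A c) {G : Type} [Group G] (ρ : Representation ℂ G H)
    (hρp : ∀ g f, ρ g * p f = p f * ρ g)
    (hd : ∀ G' : Subgroup G, G'.FiniteIndex → ∀ X : End ℂ H, (∀ f, X * p f = p f * X) →
      X ∈ Submodule.span ℂ {Y | ∃ g ∈ G', Y = ρ g})
    (hnorm : ∀ g, ∀ X ∈ A, ρ g * X * ρ g⁻¹ ∈ A) (f : J) (h : End ℂ H) (hh : h ∈ A) (hi : h * h = h) (hc : c h = 1)
    (hcop : Nat.Coprime (finrank ℂ (LinearMap.range (h * p f))) (finrank ℂ (LinearMap.range (h * p (bar f))))) :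
    NilOn e bar p A f ∅ := by
  classical
  have hP : p f * p f = p f := hb.idem f
  have hAc : ∀ X ∈ A, X * p f = p f * X := fun X hX => hA.comm X hX f
  have hρc : ∀ g, ρ g * p f = p f * ρ g := fun g => hρp g f
  let ρV : Representation ℂ G (LinearMap.range (p f)) :=
    { toFun := fun g => A2_res (p f) (ρ g)
      map_one' := by rw [map_one, A2_one hP]
      map_mul' := fun g g' => by rw [map_mul, A2_mul hP (hρc g) (hρc g')] }
  have hρV : ∀ g, ρV g = A2_res (p f) (ρ g) := fun g => rfl
  have hirr : ∀ G' : Subgroup G, G'.FiniteIndex → ∀ W : Submodule ℂ (LinearMap.range (p f)),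
      (∀ g ∈ G', ∀ w ∈ W, ρV g w ∈ W) → W = ⊥ ∨ W = ⊤ := by
    intro G' hG' W hW
    by_cases hbot : W = ⊥
    · exact Or.inl hbot
    · right
      obtain ⟨w, hw, hw0⟩ := Submodule.exists_mem_ne_zero_of_ne_bot hbot
      have hwH : (w : H) ≠ 0 := fun h0 => hw0 (Subtype.ext h0)
      obtain ⟨φ, hφ⟩ : ∃ φ : H →ₗ[ℂ] ℂ, φ (w : H) = 1 := by
        by_contra hcon
        push Not at hcon
        refine hwH ((Module.forall_dual_apply_eq_zero_iff ℂ (w : H)).1 fun φ => ?_)
        by_contra hφ
        refine hcon ((φ (w : H))⁻¹ • φ) ?_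
        rw [LinearMap.smul_apply, smul_eq_mul, inv_mul_cancel₀ hφ]
      rw [eq_top_iff]
      intro u _
      have hspan : ∀ Z ∈ Submodule.span ℂ {Y : End ℂ H | ∃ g ∈ G', Y = ρ g}, A2_res (p f) Z w ∈ W := by
        intro Z hZ
        induction hZ using Submodule.span_induction with
        | mem Y hY =>
          obtain ⟨g, hg, rfl⟩ := hY
          exact hW g hg w hw
        | zero =>
          rw [map_zero]
          exact W.zero_mem
        | add Y Z _ _ hY hZ =>
          rw [map_add]
          exact W.add_mem hY hZ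
        | smul a Y _ hY =>
          rw [map_smul]
          exact W.smul_mem a hY
      have hX := hspan (p f * (φ.smulRight (u : H)) * p f) (hd G' hG' _ fun g => by
        by_cases hgf : g = f
        · subst hgf
          have e1 : p g * (φ.smulRight (u : H)) * p g * p g = p g * (φ.smulRight (u : H)) * (p g * p g) := by
            simp only [mul_assoc]
          have e2 : p g * (p g * (φ.smulRight (u : H)) * p g) = p g * p g * (φ.smulRight (u : H)) * p g := by
            simp only [mul_assoc]
          rw [e1, e2, hP]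
        · have e1 : p f * (φ.smulRight (u : H)) * p f * p g = p f * (φ.smulRight (u : H)) * (p f * p g) := by
            simp only [mul_assoc]
          have e2 : p g * (p f * (φ.smulRight (u : H)) * p f) = p g * p f * (φ.smulRight (u : H)) * p f := by
            simp only [mul_assoc]
          rw [e1, e2, hb.orth f g (Ne.symm hgf), hb.orth g f hgf, mul_zero, zero_mul, zero_mul])
      have hu : A2_res (p f) (p f * (φ.smulRight (u : H)) * p f) w = u := by
        refine Subtype.ext ?_
        rw [A2_coe, Module.End.mul_apply, Module.End.mul_apply, A2_range hP, LinearMap.smulRight_apply, hφ, one_smul,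
          A2_range hP, A2_range hP]
      rw [hu] at hX
      exact hX
  have hnormB : ∀ g, ∀ X ∈ A.map (A2_res (p f)), ρV g * X * ρV g⁻¹ ∈ A.map (A2_res (p f)) := by
    rintro g _ ⟨X, hX, rfl⟩
    refine ⟨ρ g * X * ρ g⁻¹, hnorm g X hX, ?_⟩
    have h1 : ρ g * X * p f = p f * (ρ g * X) := by rw [mul_assoc, hAc X hX, ← mul_assoc, hρc, mul_assoc]
    rw [A2_mul hP h1 (hρc g⁻¹), A2_mul hP (hρc g) (hAc X hX), hρV, hρV]
  have hhc := hAc h hh
  have hmem : A2_res (p f) h ∈ A.map (A2_res (p f)) := Submodule.mem_map_of_mem hh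
  have hid : A2_res (p f) h * A2_res (p f) h = A2_res (p f) h := by rw [← A2_mul hP hhc hhc, hi]
  have hr1 := A2_rank hP hhc
  have hr2 := LinearMap.finrank_range_add_finrank_ker (A2_res (p f) h)
  have hr3 := finrank_add hb hA hh hi hc f
  have hker : finrank ℂ (LinearMap.ker (A2_res (p f) h)) = finrank ℂ (LinearMap.range (h * p (bar f))) := by omega
  have hcopB : Nat.Coprime (finrank ℂ (LinearMap.range (A2_res (p f) h))) (finrank ℂ (LinearMap.ker (A2_res (p f) h))) := by
    rw [hr1, hker]
    exact hcop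
  have hg : Gr (A.map (A2_res (p f))) (A2_res (p f) h) :=
    { lie := by
        rintro _ ⟨X, hX, rfl⟩ _ ⟨Y, hY, rfl⟩
        rw [← A2_mul hP (hAc X hX) (hAc Y hY), ← A2_mul hP (hAc Y hY) (hAc X hX), ← map_sub]
        exact Submodule.mem_map_of_mem (hA.lie X hX Y hY)
      irr := irr_of_group _ ρV hirr hnormB _ hmem hid hcopB
      mem := hmem
      idem := hid }
  intro a b ha hb' hab
  obtain ⟨X, hX, hXe⟩ := hg.full_of_coprime hcopB ((e b).comp (LinearMap.range (p f)).subtype) ⟨a, ⟨a, ha⟩⟩ hab
  refine ⟨X, hX, fun g hg' => absurd hg' (Set.notMem_empty g), fun v hv => ?_⟩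
  have h1 := congrArg Subtype.val (LinearMap.congr_fun hXe ⟨v, ⟨v, hv⟩⟩)
  rw [A2_app hP (hAc X hX)] at h1
  exact h1

end TUT
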