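import Pool.Agent.Lib.MP_021685_agUT.C0

/-! Ranks. -/

set_option autoImplicit false

namespace TUT

open Module

variable {H : Type} [AddCommGroup H] [Module ℂ H] [FiniteDimensional ℂ H] {J : Type} [Fintype J]
  {e : H →ₗ[ℂ] H →ₗ[ℂ] ℂ} {bar : J → J} {p : J → End ℂ H} {A : Submodule ℂ (End ℂ H)} {c : End ℂ H →ₗ[ℂ] ℂ}

private theorem A3_rank {e : H →ₗ[ℂ] H →ₗ[ℂ] ℂ} (nd : ∀ v, (∀ w, e v w = 0) → v = 0) {X Y : End ℂ H}
    (h : ∀ v w, e (X v) w = e v (Y w)) :
    finrank ℂ (LinearMap.range X) = finrank ℂ (LinearMap.range Y) := by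
  have hinj : Function.Injective e := by
    rw [injective_iff_map_eq_zero]
    intro v hv
    exact nd v fun w => by rw [hv]; rfl
  have hdim : finrank ℂ H = finrank ℂ (H →ₗ[ℂ] ℂ) := (Subspace.dual_finrank_eq (K := ℂ) (V := H)).symm
  have hsur : Function.Surjective e := by
    have h1 := (LinearMap.injective_iff_surjective_of_finrank_eq_finrank hdim (f := e)).mp hinj
    exact h1
  have h1 : e ∘ₗ X = (LinearMap.dualMap Y) ∘ₗ e := by
    refine LinearMap.ext fun v => LinearMap.ext fun w => ?_
    exact h v w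
  have h2 : finrank ℂ (LinearMap.range (e ∘ₗ X)) = finrank ℂ (LinearMap.range X) := by
    rw [LinearMap.range_comp]
    exact (LinearEquiv.finrank_eq (Submodule.equivMapOfInjective e hinj _)).symm
  have h3 : LinearMap.range ((LinearMap.dualMap Y) ∘ₗ e) = LinearMap.range (LinearMap.dualMap Y) :=
    LinearMap.range_comp_of_range_eq_top _ (LinearMap.range_eq_top.mpr hsur)
  rw [← h2, h1, h3]
  exact LinearMap.finrank_range_dualMap_eq_finrank_range Y

/-- The image of `p f` is the sum of the parts of `h` and `1 - h`, and the part for `1 - h` is dual to the one for `h` and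
`bar f`.
PROOF.  `h` commutes with `p f` (`hA.comm`).  By `hA.mult` with `c h = 1`: `e (h v) w = e v ((1 - h) w)`.  The form `e` is a
perfect pairing of the images of `p f` and `p (bar f)` (`adj`, `nd`), hence of the images of `(1 - h) p f` and `h p (bar f)`
(`e ((1 - h) v) w = e v (h w)`), so they have the same dimension; and `range (p f)` is the direct sum of the images of `h p f`
and `(1 - h) p f`. -/
theorem finrank_add (hb : Blk e bar p) (hA : LieOn e p A c) {h : End ℂ H} (hh : h ∈ A) (hi : h * h = h) (hc : c h = 1)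
    (f : J) : finrank ℂ (LinearMap.range (h * p f)) + finrank ℂ (LinearMap.range (h * p (bar f))) =
      finrank ℂ (LinearMap.range (p f)) := by
  have hcm := hA.comm h hh f
  have hcb := hA.comm h hh (bar f)
  have hr : finrank ℂ (LinearMap.range ((1 - h) * p f)) =
      finrank ℂ (LinearMap.range (h * p (bar f))) := by
    refine A3_rank hb.nd fun v w => ?_
    have h1 := hA.mult h hh (p f v) w
    rw [hc, one_mul] at h1
    have h2 := hb.adj f v (h w)
    have h3 : p (bar f) (h w) = h (p (bar f) w) := by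
      have := congrArg (fun T : End ℂ H => T w) hcb
      exact this.symm
    have h4 : e (((1 - h) * p f) v) w = e (p f v) w - e (h (p f v)) w := by
      rw [Module.End.mul_apply, LinearMap.sub_apply, Module.End.one_apply, map_sub,
        LinearMap.sub_apply]
    rw [h4, ← h1, add_sub_cancel_left, h2, h3, Module.End.mul_apply]
  have hsup : LinearMap.range (h * p f) ⊔ LinearMap.range ((1 - h) * p f) =
      LinearMap.range (p f) := by
    refine le_antisymm (sup_le ?_ ?_) ?_
    · rw [hcm]
      rintro _ ⟨v, rfl⟩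
      exact ⟨h v, rfl⟩
    · have : (1 - h) * p f = p f * (1 - h) := by rw [sub_mul, mul_sub, hcm, one_mul, mul_one]
      rw [this]
      rintro _ ⟨v, rfl⟩
      exact ⟨(1 - h) v, rfl⟩
    · rintro _ ⟨v, rfl⟩
      refine Submodule.mem_sup.mpr ⟨(h * p f) v, ⟨v, rfl⟩, ((1 - h) * p f) v, ⟨v, rfl⟩, ?_⟩
      rw [← LinearMap.add_apply, ← add_mul]
      have : h + (1 - h) = (1 : End ℂ H) := by abel
      rw [this, one_mul]
  have hinf : LinearMap.range (h * p f) ⊓ LinearMap.range ((1 - h) * p f) = ⊥ := by
    rw [Submodule.eq_bot_iff]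
    rintro x ⟨⟨v, hv⟩, ⟨w, hw⟩⟩
    have e1 : h x = x := by
      rw [← hv, ← Module.End.mul_apply, ← mul_assoc, hi]
    have e2 : h x = 0 := by
      rw [← hw, ← Module.End.mul_apply, ← mul_assoc, mul_sub, mul_one, hi, sub_self, zero_mul,
        LinearMap.zero_apply]
    rw [← e1, e2]
  have := Submodule.finrank_sup_add_finrank_inf_eq (LinearMap.range (h * p f))
    (LinearMap.range ((1 - h) * p f))
  rw [hsup, hinf, finrank_bot, add_zero, hr] at this
  exact this.symm

end TUT
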