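import Pool.Agent.Lib.MP_021685_agO.OE

/-! Irreducible Lie algebras of endomorphisms with an idempotent element: the working context. -/

set_option autoImplicit false

namespace TUT

open Module Pool.Agent.Lib.MP_021685_agO

/-- `A` is an irreducible Lie algebra of endomorphisms of `V`, and `h` is an idempotent element of it. -/
structure Gr {V : Type} [AddCommGroup V] [Module ℂ V] (A : Submodule ℂ (End ℂ V)) (h : End ℂ V) : Prop where
  lie : ∀ X ∈ A, ∀ Y ∈ A, X * Y - Y * X ∈ A
  irr : ∀ W : Submodule ℂ V, (∀ X ∈ A, ∀ w ∈ W, X w ∈ W) → W = ⊥ ∨ W = ⊤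
  mem : h ∈ A
  idem : h * h = h

end TUT
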