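import Pool.Agent.Lib.MP_021685_agUT.B0

/-! The trace form of an irreducible Lie algebra; primitive pairs. -/

set_option autoImplicit false

namespace TUT

open Module Pool.Agent.Lib.MP_021685_agO

variable {V : Type} [AddCommGroup V] [Module ℂ V] [FiniteDimensional ℂ V] {A : Submodule ℂ (End ℂ V)} {h e f : End ℂ V}

section B1_copy

variable {k H : Type*} [Field k] [CharZero k] [AddCommGroup H] [Module k H] [FiniteDimensional k H]
  {g : Submodule k (End k H)} {c : End k H → k}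

private structure B1_SS (g : Submodule k (End k H)) : Prop where
  lie : ∀ X ∈ g, ∀ Y ∈ g, X * Y - Y * X ∈ g
  semisimple : ∀ U : Submodule k H, IsStable g U → ∃ U', IsStable g U' ∧ IsCompl U U'

section Lie

attribute [local instance 100] LieRing.ofAssociativeRing

private def B1_lsub (R : Submodule k (End k H)) (hR : ∀ X ∈ R, ∀ Y ∈ R, X * Y - Y * X ∈ R) :
    LieSubalgebra k (End k H) :=
  { R with lie_mem' := fun {X Y} hX hY => hR X hX Y hY }

private def B1_lmod (R : Submodule k (End k H)) (hR : ∀ X ∈ R, ∀ Y ∈ R, X * Y - Y * X ∈ R)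
    (U : Submodule k H) (hU : ∀ X ∈ R, ∀ u ∈ U, X u ∈ U) : LieSubmodule k (B1_lsub R hR) H :=
  { U with lie_mem := fun {X u} hu => hU X.1 X.2 u hu }

omit [CharZero k] in
private theorem B1_engel (R : Submodule k (End k H)) (hR : ∀ X ∈ R, ∀ Y ∈ R, X * Y - Y * X ∈ R)
    (hnil : ∀ Y ∈ R, IsNilpotent Y) (U : Submodule k H) (hU : ∀ X ∈ R, ∀ u ∈ U, X u ∈ U)
    (hne : U ≠ ⊥) : ∃ u ∈ U, u ≠ 0 ∧ ∀ Y ∈ R, Y u = 0 := by
  let L := B1_lsub R hR
  let M := B1_lmod R hR U hU
  have hcoe : ∀ (x : L) (n : ℕ) (u : M),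
      ((((LieModule.toEnd k L M x) ^ n) u : M) : H) = ((x : End k H) ^ n) (u : H) := by
    intro x n
    induction n with
    | zero => intro u; rfl
    | succ n ih =>
      intro u
      rw [pow_succ, pow_succ, Module.End.mul_apply, Module.End.mul_apply, ih]
      rfl
  have hN : LieModule.IsNilpotent L M := by
    rw [LieModule.isNilpotent_iff_forall' (R := k)]
    intro x
    obtain ⟨n, hn⟩ := hnil x.1 x.2
    refine ⟨n, ?_⟩
    ext u
    rw [hcoe x n u, hn]
    rfl
  have hnt : Nontrivial M := by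
    obtain ⟨u, hu, hu0⟩ := Submodule.exists_mem_ne_zero_of_ne_bot hne
    exact ⟨⟨⟨u, hu⟩, 0, fun h => hu0 (congrArg Subtype.val h)⟩⟩
  have hnt2 : Nontrivial (LieModule.maxTrivSubmodule k L M) :=
    LieModule.nontrivial_max_triv_of_isNilpotent k L M
  obtain ⟨u, hu⟩ := exists_ne (0 : LieModule.maxTrivSubmodule k L M)
  have hu1 : ∀ x : L, ⁅x, (u : M)⁆ = 0 := (LieModule.mem_maxTrivSubmodule k L M _).mp u.2
  refine ⟨((u : M) : H), (u : M).2, fun h => hu (Subtype.ext (Subtype.ext h)), fun Y hY => ?_⟩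
  have h1 := congrArg (fun v : M => (v : H)) (hu1 ⟨Y, hY⟩)
  exact h1

end Lie

private theorem B1_nil_zero (hg : B1_SS g) {R : Submodule k (End k H)} (hR : R ≤ g)
    (hid : ∀ X ∈ g, ∀ Y ∈ R, X * Y - Y * X ∈ R) (hnil : ∀ Y ∈ R, IsNilpotent Y) : R = ⊥ := by
  let U : Submodule k H :=
    { carrier := {u | ∀ Y ∈ R, Y u = 0}
      add_mem' := fun {a b} ha hb Y hY => by rw [map_add, ha Y hY, hb Y hY, add_zero]
      zero_mem' := fun Y _ => map_zero Y
      smul_mem' := fun t a ha Y hY => by rw [map_smul, ha Y hY, smul_zero] }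
  have hUst : IsStable g U := fun X hX u hu Y hY => by
    have h1 := hu (X * Y - Y * X) (hid X hX Y hY)
    rw [LinearMap.sub_apply, Module.End.mul_apply, Module.End.mul_apply, hu Y hY, map_zero, zero_sub,
      neg_eq_zero] at h1
    exact h1
  obtain ⟨U', hU', hc⟩ := hg.semisimple U hUst
  have hbot : U' = ⊥ := by
    by_contra hne
    obtain ⟨u, hu, hu0, hu1⟩ := B1_engel R (fun X hX Y hY => hid X (hR hX) Y hY) hnil U'
      (fun X hX u hu => hU' X (hR hX) u hu) hne
    have h2 : u ∈ U ⊓ U' := ⟨hu1, hu⟩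
    rw [hc.inf_eq_bot, Submodule.mem_bot] at h2
    exact hu0 h2
  have htop : U = ⊤ := by
    have h1 := hc.sup_eq_top
    rwa [hbot, sup_bot_eq] at h1
  rw [eq_bot_iff]
  intro Y hY
  rw [Submodule.mem_bot]
  ext u
  have hu : u ∈ U := by rw [htop]; trivial
  exact hu Y hY

omit [CharZero k] [FiniteDimensional k H] in
private theorem B1_tr {t x Z : End k H} {a : k} (hx : t * x - x * t = x)
    (hZ : t * Z - Z * t = a • Z) (ha : a + 1 ≠ 0) : LinearMap.trace k H (x * Z) = 0 := by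
  have h1 : LinearMap.trace k H ((t * x - x * t) * Z) + LinearMap.trace k H (x * (t * Z - Z * t)) = 0 := by
    rw [← map_add]
    have h2 : (t * x - x * t) * Z + x * (t * Z - Z * t) = t * (x * Z) - x * Z * t := by noncomm_ring
    rw [h2, map_sub, LinearMap.trace_mul_comm, sub_self]
  rw [hx, hZ, mul_smul_comm, map_smul, smul_eq_mul] at h1
  have h3 : (a + 1) * LinearMap.trace k H (x * Z) = 0 := by linear_combination h1
  exact (mul_eq_zero.1 h3).resolve_left ha

omit [CharZero k] [FiniteDimensional k H] in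
private theorem B1_tr' {t y Z : End k H} {a : k} (hy : t * y - y * t = -y)
    (hZ : t * Z - Z * t = a • Z) (ha : a - 1 ≠ 0) : LinearMap.trace k H (Z * y) = 0 := by
  have h1 : LinearMap.trace k H ((t * Z - Z * t) * y) + LinearMap.trace k H (Z * (t * y - y * t)) = 0 := by
    rw [← map_add]
    have h2 : (t * Z - Z * t) * y + Z * (t * y - y * t) = t * (Z * y) - Z * y * t := by noncomm_ring
    rw [h2, map_sub, LinearMap.trace_mul_comm, sub_self]
  rw [hy, hZ, smul_mul_assoc, map_smul, smul_eq_mul, mul_neg, map_neg] at h1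
  have h3 : (a - 1) * LinearMap.trace k H (Z * y) = 0 := by linear_combination h1
  exact (mul_eq_zero.1 h3).resolve_left ha

private theorem B1_ideal_central (hg : B1_SS g) {I : Submodule k (End k H)} (hI : I ≤ g)
    (hid : ∀ X ∈ g, ∀ Y ∈ I, X * Y - Y * X ∈ I)
    (htr : ∀ X ∈ I, ∀ Y ∈ I, LinearMap.trace k H (X * Y) = 0) :
    ∀ X ∈ I, ∀ A ∈ g, X * A = A * X := by
  have hlieI : ∀ X ∈ I, ∀ Y ∈ I, X * Y - Y * X ∈ I := fun X hX Y hY => hid X (hI hX) Y hY
  -- first step: the elements of `I` commute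
  have hR1 : Submodule.span k {Z : End k H | ∃ X ∈ I, ∃ Y ∈ I, Z = X * Y - Y * X} ≤ I := by
    rw [Submodule.span_le]
    rintro _ ⟨X, hX, Y, hY, rfl⟩
    exact hlieI X hX Y hY
  have hR : Submodule.span k {Z : End k H | ∃ X ∈ I, ∃ Y ∈ I, Z = X * Y - Y * X} = ⊥ := by
    refine B1_nil_zero hg (hR1.trans hI) ?_ fun Z hZ => cartan hlieI htr hZ
    intro A hA Z hZ
    induction hZ using Submodule.span_induction with
    | mem Z hZ =>
      obtain ⟨X, hX, Y, hY, rfl⟩ := hZ
      have h1 : A * (X * Y - Y * X) - (X * Y - Y * X) * A =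
          ((A * X - X * A) * Y - Y * (A * X - X * A)) + (X * (A * Y - Y * A) - (A * Y - Y * A) * X) := by
        noncomm_ring
      rw [h1]
      exact Submodule.add_mem _ (Submodule.subset_span ⟨_, hid A hA X hX, Y, hY, rfl⟩)
        (Submodule.subset_span ⟨X, hX, _, hid A hA Y hY, rfl⟩)
    | zero =>
      rw [mul_zero, zero_mul, sub_zero]
      exact Submodule.zero_mem _
    | add Z Z' _ _ h1 h2 =>
      rw [mul_add, add_mul, add_sub_add_comm]
      exact Submodule.add_mem _ h1 h2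
    | smul a Z _ h1 =>
      rw [mul_smul_comm, smul_mul_assoc, ← smul_sub]
      exact Submodule.smul_mem _ a h1
  have hcomm : ∀ X ∈ I, ∀ Y ∈ I, X * Y = Y * X := by
    intro X hX Y hY
    have h1 : X * Y - Y * X ∈
        Submodule.span k {Z : End k H | ∃ X ∈ I, ∃ Y ∈ I, Z = X * Y - Y * X} :=
      Submodule.subset_span ⟨X, hX, Y, hY, rfl⟩
    rw [hR, Submodule.mem_bot] at h1
    exact sub_eq_zero.1 h1
  -- second step
  have hidr : ∀ X ∈ I, ∀ A ∈ g, X * A - A * X ∈ I := by
    intro X hX A hA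
    have h1 := I.neg_mem (hid A hA X hX)
    rwa [neg_sub] at h1
  have hR2 : Submodule.span k {Z : End k H | ∃ X ∈ I, ∃ A ∈ g, Z = X * A - A * X} ≤ I := by
    rw [Submodule.span_le]
    rintro _ ⟨X, hX, A, hA, rfl⟩
    exact hidr X hX A hA
  have hR' : Submodule.span k {Z : End k H | ∃ X ∈ I, ∃ A ∈ g, Z = X * A - A * X} = ⊥ := by
    refine B1_nil_zero hg (hR2.trans hI) ?_ ?_
    · intro B hB Z hZ
      induction hZ using Submodule.span_induction with
      | mem Z hZ =>
        obtain ⟨X, hX, A, hA, rfl⟩ := hZ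
        have h1 : B * (X * A - A * X) - (X * A - A * X) * B =
            ((B * X - X * B) * A - A * (B * X - X * B)) +
              (X * (B * A - A * B) - (B * A - A * B) * X) := by
          noncomm_ring
        rw [h1]
        exact Submodule.add_mem _ (Submodule.subset_span ⟨_, hid B hB X hX, A, hA, rfl⟩)
          (Submodule.subset_span ⟨X, hX, _, hg.lie B hB A hA, rfl⟩)
      | zero =>
        rw [mul_zero, zero_mul, sub_zero]
        exact Submodule.zero_mem _
      | add Z Z' _ _ h1 h2 =>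
        rw [mul_add, add_mul, add_sub_add_comm]
        exact Submodule.add_mem _ h1 h2
      | smul a Z _ h1 =>
        rw [mul_smul_comm, smul_mul_assoc, ← smul_sub]
        exact Submodule.smul_mem _ a h1
    · intro Z hZ
      induction hZ using Submodule.span_induction with
      | mem Z hZ =>
        obtain ⟨X, hX, A, hA, rfl⟩ := hZ
        exact jacobson (hcomm X hX _ (hidr X hX A hA))
      | zero => exact IsNilpotent.zero
      | add Z Z' hZ hZ' h1 h2 =>
        exact Commute.isNilpotent_add (hcomm Z (hR2 hZ) Z' (hR2 hZ')) h1 h2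
      | smul a Z _ h1 => exact h1.smul a
  intro X hX A hA
  have h1 : X * A - A * X ∈ Submodule.span k {Z : End k H | ∃ X ∈ I, ∃ A ∈ g, Z = X * A - A * X} :=
    Submodule.subset_span ⟨X, hX, A, hA, rfl⟩
  rw [hR', Submodule.mem_bot] at h1
  exact sub_eq_zero.1 h1

private theorem B1_radical (hg : B1_SS g) {X : End k H} (hX : X ∈ g)
    (h : ∀ Y ∈ g, LinearMap.trace k H (X * Y) = 0) : ∀ A ∈ g, X * A = A * X := by
  let I : Submodule k (End k H) :=
    { carrier := {X | X ∈ g ∧ ∀ Y ∈ g, LinearMap.trace k H (X * Y) = 0}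
      add_mem' := by
        rintro X Y ⟨h1, h2⟩ ⟨h3, h4⟩
        refine ⟨g.add_mem h1 h3, fun Z hZ => ?_⟩
        rw [add_mul, map_add, h2 Z hZ, h4 Z hZ, add_zero]
      zero_mem' := ⟨g.zero_mem, fun Z _ => by rw [zero_mul, map_zero]⟩
      smul_mem' := by
        rintro a X ⟨h1, h2⟩
        refine ⟨g.smul_mem a h1, fun Z hZ => ?_⟩
        rw [smul_mul_assoc, map_smul, h2 Z hZ, smul_zero] }
  have hI : I ≤ g := fun Z hZ => hZ.1
  refine B1_ideal_central hg hI ?_ (fun Z hZ Y hY => hZ.2 Y (hI hY)) X ⟨hX, h⟩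
  intro A hA Z hZ
  refine ⟨hg.lie A hA Z hZ.1, fun Y hY => ?_⟩
  have h1 : LinearMap.trace k H (A * Z * Y) = LinearMap.trace k H (Z * (Y * A)) := by
    rw [mul_assoc, LinearMap.trace_mul_comm, mul_assoc]
  have h2 := hZ.2 (Y * A - A * Y) (hg.lie Y hY A hA)
  rw [sub_mul, map_sub, h1, mul_assoc Z A Y, ← map_sub, ← mul_sub]
  exact h2

private theorem B1_nd_gm (hg : B1_SS g) {h : End k H} (hh : IsHodgeElt g c h) {x : End k H}
    (hx : x ∈ gm g h) (h0 : ∀ y ∈ gp g h, LinearMap.trace k H (x * y) = 0) : x = 0 := by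
  obtain ⟨hxg, hxh, hhx⟩ := mem_gm.1 hx
  have h1 : ∀ Y ∈ g, LinearMap.trace k H (x * Y) = 0 := by
    intro Y hY
    have h2 := h0 _ (hcomp hg.lie hh.1 hh.2.1 hY).1
    have h3 : x * (h * Y * (1 - h)) = x * Y * (1 - h) := by
      rw [← mul_assoc, ← mul_assoc, hxh]
    rw [h3, LinearMap.trace_mul_comm, ← mul_assoc, sub_mul, one_mul, hhx, sub_zero] at h2
    exact h2
  have h4 := B1_radical hg hxg h1 h hh.1
  rw [hxh, hhx] at h4
  exact h4

private theorem B1_nd_gp (hg : B1_SS g) {h : End k H} (hh : IsHodgeElt g c h) {y : End k H}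
    (hy : y ∈ gp g h) (h0 : ∀ x ∈ gm g h, LinearMap.trace k H (x * y) = 0) : y = 0 := by
  obtain ⟨hyg, hhy, hyh⟩ := mem_gp.1 hy
  have h1 : ∀ Y ∈ g, LinearMap.trace k H (y * Y) = 0 := by
    intro Y hY
    have h2 := h0 _ (hcomp hg.lie hh.1 hh.2.1 hY).2.1
    have h3 : (1 - h) * Y * h * y = (1 - h) * (Y * y) := by
      rw [mul_assoc, hhy, mul_assoc]
    rw [h3, LinearMap.trace_mul_comm, mul_assoc, mul_sub, mul_one, hyh, sub_zero,
      LinearMap.trace_mul_comm] at h2
    exact h2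
  have h4 := B1_radical hg hyg h1 h hh.1
  rw [hyh, hhy] at h4
  exact h4.symm

private theorem B1_jpair_gm (hg : B1_SS g) {h : End k H} (hh : IsHodgeElt g c h) :
    JPair (gm g h) (gp g h) := by
  refine ⟨?_, ?_, fun x hx h0 => B1_nd_gm hg hh hx h0, fun y hy h0 => B1_nd_gp hg hh hy h0⟩
  · intro x hx y hy
    obtain ⟨hxg, hxh, hhx⟩ := mem_gm.1 hx
    obtain ⟨hyg, hhy, hyh⟩ := mem_gp.1 hy
    have hxx : x * x = 0 := by
      calc x * x = x * h * x := by rw [hxh]
        _ = 0 := by rw [mul_assoc, hhx, mul_zero]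
    refine mem_gm.2 ⟨?_, ?_, ?_⟩
    · have h1 := hg.lie x hxg _ (hg.lie y hyg x hxg)
      have h2 : x * (y * x - x * y) - (y * x - x * y) * x = (2 : k) • (x * y * x) := by
        have h3 : x * (y * x - x * y) - (y * x - x * y) * x =
            x * y * x + x * y * x - (x * x) * y - y * (x * x) := by noncomm_ring
        rw [h3, hxx, zero_mul, mul_zero, sub_zero, sub_zero, two_smul]
      rw [h2] at h1
      have h4 := g.smul_mem (2 : k)⁻¹ h1
      rwa [smul_smul, inv_mul_cancel₀ (two_ne_zero), one_smul] at h4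
    · rw [mul_assoc, hxh]
    · rw [← mul_assoc, ← mul_assoc, hhx, zero_mul, zero_mul]
  · intro x hx y hy
    obtain ⟨hxg, hxh, hhx⟩ := mem_gm.1 hx
    obtain ⟨hyg, hhy, hyh⟩ := mem_gp.1 hy
    have hyy : y * y = 0 := by
      calc y * y = y * (h * y) := by rw [hhy]
        _ = 0 := by rw [← mul_assoc, hyh, zero_mul]
    refine mem_gp.2 ⟨?_, ?_, ?_⟩
    · have h1 := hg.lie y hyg _ (hg.lie x hxg y hyg)
      have h2 : y * (x * y - y * x) - (x * y - y * x) * y = (2 : k) • (y * x * y) := by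
        have h3 : y * (x * y - y * x) - (x * y - y * x) * y =
            y * x * y + y * x * y - (y * y) * x - x * (y * y) := by noncomm_ring
        rw [h3, hyy, zero_mul, mul_zero, sub_zero, sub_zero, two_smul]
      rw [h2] at h1
      have h4 := g.smul_mem (2 : k)⁻¹ h1
      rwa [smul_smul, inv_mul_cancel₀ (two_ne_zero), one_smul] at h4
    · rw [← mul_assoc, ← mul_assoc, hhy]
    · rw [mul_assoc, hyh, mul_zero]

private theorem B1_jpair_J1 (hg : B1_SS g) {h e f : End k H} (hh : IsHodgeElt g c h)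
    (hp : Pair g h e f) : JPair (J1 g h e f) (J1' g h e f) := by
  have hd2 : ∀ X, tau e f * d2 e f X - d2 e f X * tau e f = (-2 : k) • d2 e f X :=
    fun X => (hp.ad_comp X).1
  have hd1 : ∀ X, tau e f * d1 e f X - d1 e f X * tau e f = (-1 : k) • d1 e f X := by
    intro X
    rw [(hp.ad_comp X).2.1, neg_smul, one_smul]
  have hc0 : ∀ X, tau e f * c0 e f X - c0 e f X * tau e f = (0 : k) • c0 e f X := by
    intro X
    rw [(hp.ad_comp X).2.2.1, zero_smul]
  have hc1 : ∀ X, tau e f * c1 e f X - c1 e f X * tau e f = (1 : k) • c1 e f X := by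
    intro X
    rw [(hp.ad_comp X).2.2.2.1, one_smul]
  have hc2 : ∀ X, tau e f * c2 e f X - c2 e f X * tau e f = (2 : k) • c2 e f X :=
    fun X => (hp.ad_comp X).2.2.2.2
  refine ⟨?_, ?_, ?_, ?_⟩
  · intro x hx y hy
    refine mem_J1.2 ⟨(B1_jpair_gm hg hh).tri x hx.1 y hy.1, ?_⟩
    have h1 : tau e f * (x * y * x) - x * y * x * tau e f =
        (tau e f * x - x * tau e f) * y * x + x * (tau e f * y - y * tau e f) * x +
          x * y * (tau e f * x - x * tau e f) := by noncomm_ring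
    rw [h1, hx.2, hy.2]
    noncomm_ring
  · intro x hx y hy
    refine mem_J1'.2 ⟨(B1_jpair_gm hg hh).tri' x hx.1 y hy.1, ?_⟩
    have h1 : tau e f * (y * x * y) - y * x * y * tau e f =
        (tau e f * y - y * tau e f) * x * y + y * (tau e f * x - x * tau e f) * y +
          y * x * (tau e f * y - y * tau e f) := by noncomm_ring
    rw [h1, hx.2, hy.2]
    noncomm_ring
  · intro x hx h0
    refine B1_nd_gm hg hh hx.1 fun Y hY => ?_
    rw [← sum_comp e f Y, mul_add, mul_add, mul_add, mul_add, map_add, map_add, map_add, map_add,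
      B1_tr hx.2 (hd2 Y) (by norm_num), B1_tr hx.2 (hc0 Y) (by norm_num),
      B1_tr hx.2 (hc1 Y) (by norm_num), B1_tr hx.2 (hc2 Y) (by norm_num),
      h0 _ (hp.d1_mem_J1' hg.lie hY)]
    simp
  · intro y hy h0
    refine B1_nd_gp hg hh hy.1 fun X hX => ?_
    rw [← sum_comp e f X, add_mul, add_mul, add_mul, add_mul, map_add, map_add, map_add, map_add,
      B1_tr' hy.2 (hd2 X) (by norm_num), B1_tr' hy.2 (hd1 X) (by norm_num),
      B1_tr' hy.2 (hc0 X) (by norm_num), B1_tr' hy.2 (hc2 X) (by norm_num),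
      h0 _ (hp.c1_mem_J1 hg.lie hX)]
    simp


end B1_copy

private theorem B1_ss (hg : Gr A h) : B1_SS A := by
  refine ⟨hg.lie, fun U hU => ?_⟩
  rcases hg.irr U hU with h1 | h1
  · refine ⟨⊤, fun X _ u _ => Submodule.mem_top, ?_⟩
    rw [h1]
    exact isCompl_bot_top
  · refine ⟨⊥, fun X _ u hu => ?_, ?_⟩
    · rw [Submodule.mem_bot] at hu ⊢
      rw [hu, map_zero]
    · rw [h1]
      exact isCompl_top_bot

private theorem B1_he (hg : Gr A h) : IsHodgeElt A (fun _ => (1 : ℂ)) h := ⟨hg.mem, hg.idem, rfl⟩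

private theorem B1_exists_aux (hJ : JPair (gm A h) (gp A h)) {x : End ℂ V} (hx : x ∈ gm A h)
    (hx0 : x ≠ 0) : ∃ e f, Prim A h e f ∧ e ≠ 0 := by
  induction hn : finrank ℂ (LinearMap.range x) using Nat.strong_induction_on generalizing x with
  | _ n ih =>
  rcases hJ.split hx hx0 with h1 | ⟨x₁, hx₁, x₂, hx₂, h10, h20, hsum, hrk⟩
  · obtain ⟨f, hf, hefe, hfef⟩ := hJ.partner hx
    exact ⟨x, f, { he := hx, hf := hf, efe := hefe, fef := hfef, prim := h1 }, hx0⟩
  · have hT := hrk ⊤ (fun _ _ _ _ => Submodule.mem_top) (fun _ _ _ _ => Submodule.mem_top)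
    rw [Submodule.map_top, Submodule.map_top, Submodule.map_top] at hT
    have pos : ∀ z : End ℂ V, z ≠ 0 → 0 < finrank ℂ (LinearMap.range z) := by
      intro z hz
      rw [Module.finrank_pos_iff, Submodule.nontrivial_iff_ne_bot]
      intro h0
      exact hz (LinearMap.range_eq_bot.1 h0)
    have p1 := pos x₁ h10
    have p2 := pos x₂ h20
    exact ih _ (by omega) hx₁ h10 rfl

/-- PROOF. COPY AND ADAPT `Pool/Agent/Lib/MP_021685_agO/OB.lean` (`nil_zero`) and `OB2.lean` (`ideal_central`, `radical`,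
`nd_gm`, `nd_gp`, `jpair_gm`), where the Lie algebra satisfies `IsGaloisAlg g c` (fields `lie`, `semisimple`, `span`).
Only `lie` and `semisimple` are used there; `semisimple` follows from `irr` (a stable subspace is `⊥` or `⊤`, the
complement is `⊤` or `⊥`).  `IsHodgeElt g c h` means `h ∈ g ∧ h * h = h ∧ c h = 1`: take `c = fun _ => 1`.
So: replace `hg : IsGaloisAlg g c` by `hg : Gr A h` (with `hg.semisimple` as a lemma), `hh : IsHodgeElt g c h` by
`hg.mem`, `hg.idem`. -/
theorem Gr.jpair (hg : Gr A h) : JPair (gm A h) (gp A h) := by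
  exact B1_jpair_gm (B1_ss hg) (B1_he hg)

/-- PROOF. As `jpair_J1` in `OB2.lean`. -/
theorem Gr.jpair_J1 (hg : Gr A h) (hp : Pair A h e f) : JPair (J1 A h e f) (J1' A h e f) := by
  exact B1_jpair_J1 (B1_ss hg) (B1_he hg) hp

/-- PROOF. As `exists_prim_gm` in `OE.lean`, without the parity condition: strong induction on `finrank (range x)` for
`x ∈ gm A h`, `x ≠ 0`: by `JPair.split` (`OD.lean`) either `x w x ∈ ℂ x` for all `w ∈ gp A h`, and `JPair.partner`
(`OC.lean`) gives `f` with `x f x = x`, `f x f = f`: `(x, f)` is primitive; or `x = x₁ + x₂`, `x₁, x₂ ≠ 0` in `gm A h`,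
with `finrank (⊤.map x) = finrank (⊤.map x₁) + finrank (⊤.map x₂)`, so `x₁` has smaller rank. -/
theorem Gr.exists_prim (hg : Gr A h) (hne : gm A h ≠ ⊥) : ∃ e f, Prim A h e f ∧ e ≠ 0 := by
  obtain ⟨x, hx, hx0⟩ := Submodule.exists_mem_ne_zero_of_ne_bot hne
  exact B1_exists_aux hg.jpair hx hx0

end TUT
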