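import Pool.Agent.Lib.MP_021685_agUT.B0

/-! Schur's lemma for the degree zero part. -/

set_option autoImplicit false

namespace TUT

open Module Pool.Agent.Lib.MP_021685_agO

variable {V : Type} [AddCommGroup V] [Module ℂ V] [FiniteDimensional ℂ V] {A : Submodule ℂ (End ℂ V)} {h e f : End ℂ V}

/-- The argument for an idempotent `p` such that the components of the elements of `A` are in `A`. -/
private theorem B2_aux (hlie : ∀ X ∈ A, ∀ Y ∈ A, X * Y - Y * X ∈ A)
    (hirr : ∀ W : Submodule ℂ V, (∀ X ∈ A, ∀ w ∈ W, X w ∈ W) → W = ⊥ ∨ W = ⊤)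
    {p : End ℂ V} (hp : p * p = p)
    (hA1 : ∀ X ∈ A, p * X * (1 - p) ∈ A) (hA2 : ∀ X ∈ A, (1 - p) * X * p ∈ A)
    (hA3 : ∀ X ∈ A, p * X * p + (1 - p) * X * (1 - p) ∈ A)
    (S : End ℂ V) (h1 : S * p = p * S) (h2 : ∀ X ∈ A, X * p = p * X → X * S = S * X) :
    ∃ s : ℂ, S * p = s • p := by
  by_cases h0 : LinearMap.range p = ⊥
  · refine ⟨0, ?_⟩
    have h3 : p = 0 := LinearMap.range_eq_bot.mp h0
    rw [h3, mul_zero, smul_zero]
  have happ : ∀ (X Y : End ℂ V) (v : V), (X * Y) v = X (Y v) := fun X Y v => rfl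
  have hp' : ∀ x : End ℂ V, p * (p * x) = p * x := fun x => by rw [← mul_assoc, hp]
  have hS : ∀ v ∈ LinearMap.range p, S v ∈ LinearMap.range p := by
    rintro _ ⟨w, rfl⟩
    refine ⟨S w, ?_⟩
    rw [← happ, ← happ, h1]
  have : Nontrivial (LinearMap.range p) := Submodule.nontrivial_iff_ne_bot.mpr h0
  obtain ⟨s, hs⟩ := Module.End.exists_eigenvalue (S.restrict hS)
  obtain ⟨v, hv⟩ := hs.exists_hasEigenvector
  have hv1 : S (v : V) = s • (v : V) := by
    have h3 := congrArg Subtype.val hv.apply_eq_smul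
    simpa using h3
  have hv2 : p (v : V) = v := by
    obtain ⟨w, hw⟩ := v.2
    rw [← hw, ← happ, hp]
  have hv3 : (v : V) ≠ 0 := fun h3 => hv.2 (Subtype.ext h3)
  -- the eigenspace of `S` in the image of `p`
  let U : Submodule ℂ V :=
    { carrier := {u | p u = u ∧ S u = s • u}
      add_mem' := by
        rintro a b ⟨ha, ha'⟩ ⟨hb, hb'⟩
        exact ⟨by rw [map_add, ha, hb], by rw [map_add, ha', hb', smul_add]⟩
      zero_mem' := ⟨by rw [map_zero], by rw [map_zero, smul_zero]⟩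
      smul_mem' := by
        rintro c a ⟨ha, ha'⟩
        exact ⟨by rw [map_smul, ha], by rw [map_smul, ha', smul_comm]⟩ }
  have hU : ∀ u, u ∈ U ↔ p u = u ∧ S u = s • u := fun u => Iff.rfl
  have hvU : (v : V) ∈ U := ⟨hv2, hv1⟩
  -- `U` is stable under the elements of degree zero
  have hU0 : ∀ X ∈ A, X * p = p * X → ∀ u ∈ U, X u ∈ U := by
    intro X hX hXp u hu
    obtain ⟨hu1, hu2⟩ := hu
    refine ⟨?_, ?_⟩
    · rw [← happ, ← hXp, happ, hu1]
    · rw [← happ, ← h2 X hX hXp, happ, hu2, map_smul]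
  let T : Set V := {w | ∃ x ∈ A, x * p = x ∧ p * x = 0 ∧ ∃ u ∈ U, w = x u}
  have hTm : ∀ x ∈ A, x * p = x → p * x = 0 → ∀ u ∈ U, x u ∈ Submodule.span ℂ T :=
    fun x hx hx1 hx2 u hu => Submodule.subset_span ⟨x, hx, hx1, hx2, u, hu, rfl⟩
  have hW1 : ∀ X ∈ A, ∀ u ∈ U, X u ∈ U ⊔ Submodule.span ℂ T := by
    intro X hX u hu
    have hu1 : p u = u := hu.1
    have e1 : X u = (p * X * p + (1 - p) * X * (1 - p)) u + ((1 - p) * X * p) u := by
      simp only [happ, LinearMap.add_apply, LinearMap.sub_apply, Module.End.one_apply, hu1, sub_self,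
        map_zero]
      abel
    rw [e1]
    refine Submodule.add_mem_sup (hU0 _ (hA3 X hX) ?_ u hu) (hTm _ (hA2 X hX) ?_ ?_ u hu)
    · simp only [mul_sub, sub_mul, mul_add, add_mul, mul_one, one_mul, mul_assoc, hp, hp']
      abel
    · simp only [mul_assoc, hp]
    · simp only [sub_mul, mul_sub, one_mul, mul_assoc, hp', sub_self]
  have hW2 : ∀ X ∈ A, ∀ w ∈ T, X w ∈ U ⊔ Submodule.span ℂ T := by
    rintro X hX _ ⟨x, hx, hx1, hx2, u, hu, rfl⟩
    have hu1 : p u = u := hu.1
    have hpx : ∀ z : V, p (x z) = 0 := fun z => by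
      rw [← happ, hx2, LinearMap.zero_apply]
    set y : End ℂ V := p * X * (1 - p) with hy
    set X₀ : End ℂ V := p * X * p + (1 - p) * X * (1 - p) with hX₀
    have hyA : y ∈ A := hA1 X hX
    have hX₀A : X₀ ∈ A := hA3 X hX
    have hX₀p : X₀ * p = p * X₀ := by
      simp only [hX₀, mul_sub, sub_mul, mul_add, add_mul, mul_one, one_mul, mul_assoc, hp, hp']
      abel
    have hyp : y * p = 0 := by
      simp only [hy, mul_sub, sub_mul, mul_one, mul_assoc, hp, sub_self]
    have hpy : p * y = y := by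
      simp only [hy, mul_assoc, hp']
    have hyu : y u = 0 := by
      have h3 : y (p u) = 0 := by rw [← happ, hyp, LinearMap.zero_apply]
      rwa [hu1] at h3
    have e1 : X (x u) = (y * x - x * y) u + ((X₀ * x - x * X₀) u + x (X₀ u)) := by
      have e2 : (y * x - x * y) u = y (x u) := by
        rw [LinearMap.sub_apply, happ y x, happ x y, hyu, map_zero, sub_zero]
      have e3 : (X₀ * x - x * X₀) u + x (X₀ u) = X₀ (x u) := by
        rw [LinearMap.sub_apply, happ X₀ x, happ x X₀, sub_add_cancel]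
      rw [e2, e3, hy, hX₀]
      simp only [happ, LinearMap.add_apply, LinearMap.sub_apply, Module.End.one_apply, hpx, map_zero,
        sub_zero, zero_add]
      abel
    rw [e1]
    refine Submodule.add_mem_sup (hU0 _ (hlie y hyA x hx) ?_ u hu)
      (Submodule.add_mem _ (hTm _ (hlie X₀ hX₀A x hx) ?_ ?_ u hu)
        (hTm x hx hx1 hx2 _ (hU0 X₀ hX₀A hX₀p u hu)))
    · rw [sub_mul, mul_sub, mul_assoc y, hx1, mul_assoc x, hyp, mul_zero, ← mul_assoc p y, hpy,
        ← mul_assoc p x, hx2, zero_mul]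
    · rw [sub_mul, mul_assoc X₀, hx1, mul_assoc x, hX₀p, ← mul_assoc x, hx1]
    · rw [mul_sub, ← mul_assoc, ← hX₀p, mul_assoc, hx2, mul_zero, ← mul_assoc, hx2, zero_mul,
        sub_zero]
  have hW : ∀ X ∈ A, ∀ w ∈ U ⊔ Submodule.span ℂ T, X w ∈ U ⊔ Submodule.span ℂ T := by
    intro X hX w hw
    obtain ⟨a, ha, b, hb, rfl⟩ := Submodule.mem_sup.mp hw
    rw [map_add]
    refine Submodule.add_mem _ (hW1 X hX a ha) ?_
    clear hw
    induction hb using Submodule.span_induction with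
    | mem z hz => exact hW2 X hX z hz
    | zero => rw [map_zero]; exact Submodule.zero_mem _
    | add z z' hz hz' ih ih' =>
      rw [map_add]
      exact Submodule.add_mem _ ih ih'
    | smul c z hz ih =>
      rw [map_smul]
      exact Submodule.smul_mem _ _ ih
  have htop : U ⊔ Submodule.span ℂ T = ⊤ := by
    rcases hirr _ hW with h3 | h3
    · exfalso
      have h4 : (v : V) ∈ U ⊔ Submodule.span ℂ T := Submodule.mem_sup_left hvU
      rw [h3, Submodule.mem_bot] at h4
      exact hv3 h4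
    · exact h3
  have hpU : ∀ w, p w ∈ U := by
    intro w
    have hw : w ∈ U ⊔ Submodule.span ℂ T := by
      rw [htop]
      exact Submodule.mem_top
    obtain ⟨a, ha, b, hb, rfl⟩ := Submodule.mem_sup.mp hw
    have hpb : p b = 0 := by
      have h3 : Submodule.span ℂ T ≤ LinearMap.ker p := by
        rw [Submodule.span_le]
        rintro _ ⟨x, hx, hx1, hx2, u, hu, rfl⟩
        change p (x u) = 0
        rw [← happ, hx2, LinearMap.zero_apply]
      exact h3 hb
    rw [map_add, hpb, add_zero, (ha : p a = a ∧ S a = s • a).1]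
    exact ha
  refine ⟨s, ?_⟩
  ext w
  exact (hpU w).2

/-- Schur's lemma for the degree zero part: an endomorphism `S` which commutes with `h` and with the elements of `A` of
degree zero is a scalar on the image of `h` and a scalar on the kernel of `h`.
PROOF.  Let `A₀ = {X ∈ A | X h = h X}`.  Let `V₁ = range h`, `V₀ = ker h`.
(1) Let `U ≤ V₁`, `U ≠ ⊥`, be stable under `A₀`.  Then `W = U ⊔ span {x u | x ∈ gm A h, u ∈ U}` is stable under `A`: by `hcomp`
(`OA.lean`) every `X ∈ A` is `(h X (1 - h)) + ((1 - h) X h) + (h X h + (1 - h) X (1 - h))` with the parts in `gp A h`,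
`gm A h`, `A₀`; `A₀` maps `x u` to `[X₀, x] u + x (X₀ u)` with `[X₀, x] ∈ gm A h`; `gp A h` kills `U` and maps `x u` to
`[y, x] u` (`y u = 0`), `[y, x] = y x - x y ∈ A₀`; `gm A h` maps `U` to the second part and kills the second part (`x h = x`,
`h x' = 0`, so `x x' = x h x' = 0`).  So `W = ⊤` (`hg.irr`) and, applying `h`: `V₁ = h W = U`.
(2) `S` maps `V₁` to itself; if `V₁ ≠ ⊥` it has an eigenvalue `s` there (`Module.End.exists_eigenvalue` for the restriction),
and `U = {v ∈ V₁ | S v = s v}` is stable under `A₀`, so `U = V₁` by (1).  (If `V₁ = ⊥` take `s = 0`.)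
(3) The same for `V₀`, with the roles of `gp` and `gm` exchanged. -/
theorem Gr.schur (hg : Gr A h) (S : End ℂ V) (h1 : S * h = h * S) (h2 : ∀ X ∈ A, X * h = h * X → X * S = S * X) :
    ∃ s t : ℂ, S * h = s • h ∧ S * (1 - h) = t • (1 - h) := by
  have hA : ∀ X ∈ A, h * X * (1 - h) ∈ A ∧ (1 - h) * X * h ∈ A ∧
      h * X * h + (1 - h) * X * (1 - h) ∈ A := fun X hX =>
    ⟨(hcomp hg.lie hg.mem hg.idem hX).1.1, (hcomp hg.lie hg.mem hg.idem hX).2.1.1,
      (hcomp hg.lie hg.mem hg.idem hX).2.2⟩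
  obtain ⟨s, hs⟩ := B2_aux hg.lie hg.irr hg.idem (fun X hX => (hA X hX).1)
    (fun X hX => (hA X hX).2.1) (fun X hX => (hA X hX).2.2) S h1 h2
  have e0 : (1 : End ℂ V) - (1 - h) = h := sub_sub_cancel 1 h
  have hi : (1 - h) * (1 - h) = 1 - h := by
    rw [mul_sub, sub_mul, sub_mul, mul_one, one_mul, hg.idem, sub_self, sub_zero, mul_one]
  obtain ⟨t, ht⟩ := B2_aux (p := 1 - h) hg.lie hg.irr hi
    (fun X hX => by rw [e0]; exact (hA X hX).2.1)
    (fun X hX => by rw [e0]; exact (hA X hX).1)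
    (fun X hX => by rw [e0, add_comm]; exact (hA X hX).2.2) S
    (by rw [mul_sub, sub_mul, mul_one, one_mul, h1])
    (fun X hX hc => h2 X hX (by
      rw [mul_sub, sub_mul, mul_one, one_mul] at hc
      exact sub_right_injective hc))
  exact ⟨s, t, hs, ht⟩

end TUT
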