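import Pool.Agent.Lib.MP_021685_agUT.B1
import Pool.Agent.Lib.MP_021685_agUT.B2

/-! The trace identity. -/

set_option autoImplicit false

namespace TUT

open Module Pool.Agent.Lib.MP_021685_agO

variable {V : Type} [AddCommGroup V] [Module ℂ V] [FiniteDimensional ℂ V] {A : Submodule ℂ (End ℂ V)} {h e f : End ℂ V}

/-- The trace pairing. -/
private noncomputable def B3_pair (J J' : Submodule ℂ (End ℂ V)) : J' →ₗ[ℂ] J →ₗ[ℂ] ℂ :=
  LinearMap.mk₂ ℂ (fun (y : J') (x : J) => LinearMap.trace ℂ V ((x : End ℂ V) * (y : End ℂ V)))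
    (fun y y' x => by rw [Submodule.coe_add, mul_add, map_add])
    (fun c y x => by rw [Submodule.coe_smul, mul_smul_comm, map_smul])
    (fun y x x' => by rw [Submodule.coe_add, add_mul, map_add])
    (fun c y x => by rw [Submodule.coe_smul, smul_mul_assoc, map_smul])

omit [FiniteDimensional ℂ V] in
private theorem B3_pair_apply (J J' : Submodule ℂ (End ℂ V)) (y : J') (x : J) :
    B3_pair J J' y x = LinearMap.trace ℂ V ((x : End ℂ V) * (y : End ℂ V)) := rfl

private theorem B3_dual {J J' : Submodule ℂ (End ℂ V)} (hJ : JPair J J') :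
    ∃ y : Fin (finrank ℂ J) → J', ∀ (i : Fin (finrank ℂ J)) (x : J),
      LinearMap.trace ℂ V ((x : End ℂ V) * (y i : End ℂ V)) =
        (Module.finBasis ℂ J).coord i x := by
  have h1 : Function.Injective (B3_pair J J') := by
    rw [← LinearMap.ker_eq_bot, LinearMap.ker_eq_bot']
    intro y hy
    refine Subtype.ext (hJ.nd' y y.2 fun x hx => ?_)
    exact (B3_pair_apply J J' y ⟨x, hx⟩).symm.trans (by rw [hy]; rfl)
  have h2 : Function.Injective (B3_pair J J').flip := by
    rw [← LinearMap.ker_eq_bot, LinearMap.ker_eq_bot']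
    intro x hx
    refine Subtype.ext (hJ.nd x x.2 fun y hy => ?_)
    have h3 : (B3_pair J J').flip x ⟨y, hy⟩ = 0 := by
      rw [hx]
      rfl
    exact h3
  have d1 : finrank ℂ J' ≤ finrank ℂ J := by
    have := LinearMap.finrank_le_finrank_of_injective h1
    exact this.trans (le_of_eq (Subspace.dual_finrank_eq (K := ℂ) (V := J)))
  have d2 : finrank ℂ J ≤ finrank ℂ J' := by
    have := LinearMap.finrank_le_finrank_of_injective h2
    exact this.trans (le_of_eq (Subspace.dual_finrank_eq (K := ℂ) (V := J')))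
  have d3 : finrank ℂ J' = finrank ℂ (J →ₗ[ℂ] ℂ) :=
    (le_antisymm d1 d2).trans (Subspace.dual_finrank_eq (K := ℂ) (V := J)).symm
  have hs : Function.Surjective (B3_pair J J') :=
    (LinearMap.injective_iff_surjective_of_finrank_eq_finrank d3).1 h1
  choose y hy using fun i => hs ((Module.finBasis ℂ J).coord i)
  refine ⟨y, fun i x => ?_⟩
  rw [← hy i]
  rfl

private theorem B3_expand {J J' : Submodule ℂ (End ℂ V)} {y : Fin (finrank ℂ J) → J'}
    (hy : ∀ (i : Fin (finrank ℂ J)) (x : J), LinearMap.trace ℂ V ((x : End ℂ V) * (y i : End ℂ V)) =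
      (Module.finBasis ℂ J).coord i x) {w : End ℂ V} (hw : w ∈ J) :
    w = ∑ j, LinearMap.trace ℂ V (w * (y j : End ℂ V)) • ((Module.finBasis ℂ J j : J) : End ℂ V) := by
  have h1 := (Module.finBasis ℂ J).sum_repr ⟨w, hw⟩
  have h2 := congrArg (fun z : J => (z : End ℂ V)) h1
  simp only [Submodule.coe_sum, Submodule.coe_smul] at h2
  refine h2.symm.trans (Finset.sum_congr rfl fun j _ => ?_)
  have h3 := hy j ⟨w, hw⟩
  rw [Basis.coord_apply] at h3
  rw [← h3]

private theorem B3_kron {J J' : Submodule ℂ (End ℂ V)} {y : Fin (finrank ℂ J) → J'}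
    (hy : ∀ (i : Fin (finrank ℂ J)) (x : J), LinearMap.trace ℂ V ((x : End ℂ V) * (y i : End ℂ V)) =
      (Module.finBasis ℂ J).coord i x) (i j : Fin (finrank ℂ J)) :
    LinearMap.trace ℂ V (((Module.finBasis ℂ J j : J) : End ℂ V) * (y i : End ℂ V)) =
      if i = j then 1 else 0 := by
  rw [hy, Basis.coord_apply, Basis.repr_self, Finsupp.single_apply]
  simp only [eq_comm]

private theorem B3_expand' {J J' : Submodule ℂ (End ℂ V)} (hJ : JPair J J')
    {y : Fin (finrank ℂ J) → J'}
    (hy : ∀ (i : Fin (finrank ℂ J)) (x : J), LinearMap.trace ℂ V ((x : End ℂ V) * (y i : End ℂ V)) =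
      (Module.finBasis ℂ J).coord i x) {w : End ℂ V} (hw : w ∈ J') :
    w = ∑ j, LinearMap.trace ℂ V (((Module.finBasis ℂ J j : J) : End ℂ V) * w) • (y j : End ℂ V) := by
  rw [← sub_eq_zero]
  refine hJ.nd' _ (J'.sub_mem hw (J'.sum_mem fun j _ => J'.smul_mem _ (y j).2)) fun x hx => ?_
  rw [mul_sub, Finset.mul_sum, map_sub, map_sum, sub_eq_zero]
  conv_lhs => rw [B3_expand hy hx, Finset.sum_mul, map_sum]
  refine Finset.sum_congr rfl fun j _ => ?_
  rw [smul_mul_assoc, map_smul, mul_smul_comm, map_smul, smul_eq_mul, smul_eq_mul, mul_comm]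

/-- The Casimir element. -/
private theorem B3_comm {J J' : Submodule ℂ (End ℂ V)} (hJ : JPair J J')
    {y : Fin (finrank ℂ J) → J'}
    (hy : ∀ (i : Fin (finrank ℂ J)) (x : J), LinearMap.trace ℂ V ((x : End ℂ V) * (y i : End ℂ V)) =
      (Module.finBasis ℂ J).coord i x) {X : End ℂ V} (h1 : ∀ x ∈ J, X * x - x * X ∈ J)
    (h2 : ∀ z ∈ J', X * z - z * X ∈ J') :
    X * (∑ i, (y i : End ℂ V) * ((Module.finBasis ℂ J i : J) : End ℂ V)) =
        (∑ i, (y i : End ℂ V) * ((Module.finBasis ℂ J i : J) : End ℂ V)) * X ∧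
      X * (∑ i, ((Module.finBasis ℂ J i : J) : End ℂ V) * (y i : End ℂ V)) =
        (∑ i, ((Module.finBasis ℂ J i : J) : End ℂ V) * (y i : End ℂ V)) * X := by
  set x : Fin (finrank ℂ J) → End ℂ V := fun i => ((Module.finBasis ℂ J i : J) : End ℂ V) with hxdef
  set z : Fin (finrank ℂ J) → End ℂ V := fun i => (y i : End ℂ V) with hzdef
  have ex : ∀ i, X * x i - x i * X = ∑ j, LinearMap.trace ℂ V ((X * x i - x i * X) * z j) • x j :=
    fun i => B3_expand hy (h1 _ (Module.finBasis ℂ J i).2)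
  have ez : ∀ i, X * z i - z i * X = ∑ j, LinearMap.trace ℂ V (x j * (X * z i - z i * X)) • z j :=
    fun i => B3_expand' hJ hy (h2 _ (y i).2)
  have hc : ∀ i j, LinearMap.trace ℂ V ((X * x i - x i * X) * z j) =
      -LinearMap.trace ℂ V (x i * (X * z j - z j * X)) := by
    intro i j
    have k1 : LinearMap.trace ℂ V (X * (x i * z j)) = LinearMap.trace ℂ V ((x i * z j) * X) :=
      LinearMap.trace_mul_comm ℂ _ _
    rw [sub_mul, mul_sub, map_sub, map_sub, mul_assoc, k1, mul_assoc, mul_assoc]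
    ring
  constructor
  · show X * (∑ i, z i * x i) = (∑ i, z i * x i) * X
    rw [← sub_eq_zero, Finset.mul_sum, Finset.sum_mul, ← Finset.sum_sub_distrib]
    have e1 : ∀ i, X * (z i * x i) - z i * x i * X =
        (X * z i - z i * X) * x i + z i * (X * x i - x i * X) := by
      intro i
      simp only [sub_mul, mul_sub, mul_assoc]
      abel
    rw [Finset.sum_congr rfl fun i _ => e1 i, Finset.sum_add_distrib]
    have e2 : ∑ i, (X * z i - z i * X) * x i =
        ∑ i, ∑ j, LinearMap.trace ℂ V (x j * (X * z i - z i * X)) • (z j * x i) := by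
      refine Finset.sum_congr rfl fun i _ => ?_
      conv_lhs => rw [ez i, Finset.sum_mul]
      exact Finset.sum_congr rfl fun j _ => smul_mul_assoc _ _ _
    have e3 : ∑ i, z i * (X * x i - x i * X) =
        ∑ i, ∑ j, (-LinearMap.trace ℂ V (x i * (X * z j - z j * X))) • (z i * x j) := by
      refine Finset.sum_congr rfl fun i _ => ?_
      conv_lhs => rw [ex i, Finset.mul_sum]
      refine Finset.sum_congr rfl fun j _ => ?_
      rw [mul_smul_comm, hc]
    rw [e2, e3]
    conv_lhs => arg 2; rw [Finset.sum_comm]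
    rw [← Finset.sum_add_distrib]
    refine Finset.sum_eq_zero fun i _ => ?_
    rw [← Finset.sum_add_distrib]
    refine Finset.sum_eq_zero fun j _ => ?_
    rw [neg_smul, add_neg_cancel]
  · show X * (∑ i, x i * z i) = (∑ i, x i * z i) * X
    rw [← sub_eq_zero, Finset.mul_sum, Finset.sum_mul, ← Finset.sum_sub_distrib]
    have e1 : ∀ i, X * (x i * z i) - x i * z i * X =
        x i * (X * z i - z i * X) + (X * x i - x i * X) * z i := by
      intro i
      simp only [sub_mul, mul_sub, mul_assoc]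
      abel
    rw [Finset.sum_congr rfl fun i _ => e1 i, Finset.sum_add_distrib]
    have e2 : ∑ i, x i * (X * z i - z i * X) =
        ∑ i, ∑ j, LinearMap.trace ℂ V (x j * (X * z i - z i * X)) • (x i * z j) := by
      refine Finset.sum_congr rfl fun i _ => ?_
      conv_lhs => rw [ez i, Finset.mul_sum]
      exact Finset.sum_congr rfl fun j _ => mul_smul_comm _ _ _
    have e3 : ∑ i, (X * x i - x i * X) * z i =
        ∑ i, ∑ j, (-LinearMap.trace ℂ V (x i * (X * z j - z j * X))) • (x j * z i) := by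
      refine Finset.sum_congr rfl fun i _ => ?_
      conv_lhs => rw [ex i, Finset.sum_mul]
      refine Finset.sum_congr rfl fun j _ => ?_
      rw [smul_mul_assoc, hc]
    rw [e2, e3]
    conv_lhs => arg 2; rw [Finset.sum_comm]
    rw [← Finset.sum_add_distrib]
    refine Finset.sum_eq_zero fun i _ => ?_
    rw [← Finset.sum_add_distrib]
    refine Finset.sum_eq_zero fun j _ => ?_
    rw [neg_smul, add_neg_cancel]

/-- The trace of an idempotent. -/
private theorem B3_trace_idem {W : Type} [AddCommGroup W] [Module ℂ W] [FiniteDimensional ℂ W]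
    {P : End ℂ W} (hP : P * P = P) :
    LinearMap.trace ℂ W P = (finrank ℂ (LinearMap.range P) : ℂ) := by
  have h1 : LinearMap.IsProj (LinearMap.range P) P :=
    ⟨fun x => ⟨x, rfl⟩, by
      rintro _ ⟨x, rfl⟩
      have := congrArg (fun T : End ℂ W => T x) hP
      exact this⟩
  exact h1.trace

private theorem B3_trace_proj {W : Type} [AddCommGroup W] [Module ℂ W] [FiniteDimensional ℂ W]
    {p : Submodule ℂ W} {P : W →ₗ[ℂ] W} (hP : LinearMap.IsProj p P) :
    LinearMap.trace ℂ W P = (finrank ℂ p : ℂ) := hP.trace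

/-- PROOF.  Let `p = finrank (range h)`, `q = finrank (ker h)`, `r = finrank (range e)`, `m = finrank (gm A h)`.
(1) The trace form is a perfect pairing of `gm A h` and `gp A h` (`hg.jpair`: `nd`, `nd'`).  Let `x i` be a basis of
`gm A h` (`i : Fin m`) and `y i` the dual basis of `gp A h`: `trace (x i * y j) = if i = j then 1 else 0`
(e.g. `LinearMap.BilinForm.dualBasis`, or: the map `gp → Dual gm` is bijective by `nd`, `nd'`, `y i` is the preimage of
`b.coord i`).
(2) `S = ∑ i, (y i * x i + x i * y i)` commutes with `h` (`h y x = y x = y x h`, `h x y = 0 = x y h`) and with every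
`X ∈ A` of degree zero: `[X, x i] = ∑ j, a j i • x j`, `[X, y i] = - ∑ j, a i j • y j`, as
`trace ([X, x i] * y j) = - trace (x i * [X, y j])`.
So by `Gr.schur` `S h = s h`, `S (1 - h) = t (1 - h)`; `S h = ∑ y i x i`, `S (1 - h) = ∑ x i y i`; traces:
`m = s p`, `m = t q` (the trace of the idempotent `h` is `p`, of `1 - h` is `q`: `LinearMap.IsIdempotentElem.trace...` /
`LinearMap.IsProj.trace`).
(3) Let `D x = e f x + x f e` for `x ∈ gm A h`; it is in `gm A h` (`= [e f - f e, x]`, as `f e x = 0`, `x e f = 0`) — `D` is an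
endomorphism of `gm A h` with the eigenvalues `2, 1, 0`: `gm A h = J₂ ⊕ J₁ ⊕ J₀`, `J₂ = {x | x = e f x f e}` `= ℂ e` (`Prim.prim`
for `y = f x f`: `e f x f e = s e`), `J₁ = J1 A h e f`, `J₀`; so `trace D = 2 + finrank J₁`
(the projections to the components are in `Pair.comp_mem`, `sum_comp`, `Pair.ad_comp` in `OA.lean`; e.g. write
`D = 2 π₂ + π₁` with commuting idempotents `π₂ x = e f x f e`, `π₁ x = D x - 2 e f x f e` of `End (gm A h)` with the ranges
`span {e}` and `J₁`).
(4) `trace D = ∑ i, trace (D (x i) * y i) = ∑ i, trace (e f x i y i) + trace (x i f e y i)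
= trace (e f ∑ x i y i) + trace (f e ∑ y i x i) = t trace (e f (1-h)) + s trace (f e h) = (s + t) r`
(the trace of an endomorphism `D` of `gm A h` is `∑ i, b.coord i (D (b i))`: `LinearMap.trace_eq_matrix_trace`;
`trace (e f) = trace (f e) = r`: `e f` is an idempotent with range `= range e`).
(5) So `(2 + finrank J₁) = (m / p + m / q) r` in `ℂ`; multiply by `p q`.  (`p, q ≠ 0` as `e ≠ 0`.) -/
theorem Gr.trace_id (hg : Gr A h) (hp : Prim A h e f) (he : e ≠ 0) :
    (2 + finrank ℂ (J1 A h e f)) * (finrank ℂ (LinearMap.range h) * finrank ℂ (LinearMap.ker h)) =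
      finrank ℂ (LinearMap.range e) * finrank ℂ (gm A h) *
        (finrank ℂ (LinearMap.range h) + finrank ℂ (LinearMap.ker h)) := by
  have hJ : JPair (gm A h) (gp A h) := hg.jpair
  obtain ⟨y, hy⟩ := B3_dual hJ
  have hpp : Pair A h e f := hp.toPair
  obtain ⟨_, eh, he0⟩ := mem_gm.1 hpp.he
  obtain ⟨_, hf, fh⟩ := mem_gp.1 hpp.hf
  have efe := hpp.efe
  have fef := hpp.fef
  set x : Fin (finrank ℂ (gm A h)) → End ℂ V :=
    fun i => ((Module.finBasis ℂ (gm A h) i : gm A h) : End ℂ V) with hxdef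
  set z : Fin (finrank ℂ (gm A h)) → End ℂ V := fun i => (y i : End ℂ V) with hzdef
  have xh : ∀ i, x i * h = x i := fun i => (mem_gm.1 (Module.finBasis ℂ (gm A h) i).2).2.1
  have hx : ∀ i, h * x i = 0 := fun i => (mem_gm.1 (Module.finBasis ℂ (gm A h) i).2).2.2
  have hz : ∀ i, h * z i = z i := fun i => (mem_gp.1 (y i).2).2.1
  have zh : ∀ i, z i * h = 0 := fun i => (mem_gp.1 (y i).2).2.2
  obtain ⟨S0, hS0⟩ : ∃ S0, S0 = ∑ i, z i * x i := ⟨_, rfl⟩
  obtain ⟨T0, hT0⟩ : ∃ T0, T0 = ∑ i, x i * z i := ⟨_, rfl⟩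
  have S0h : S0 * h = S0 := by
    rw [hS0, Finset.sum_mul]
    exact Finset.sum_congr rfl fun i _ => by rw [mul_assoc, xh]
  have hS0' : h * S0 = S0 := by
    rw [hS0, Finset.mul_sum]
    exact Finset.sum_congr rfl fun i _ => by rw [← mul_assoc, hz]
  have T0h : T0 * h = 0 := by
    rw [hT0, Finset.sum_mul]
    exact Finset.sum_eq_zero fun i _ => by rw [mul_assoc, zh, mul_zero]
  have hT0' : h * T0 = 0 := by
    rw [hT0, Finset.mul_sum]
    exact Finset.sum_eq_zero fun i _ => by rw [← mul_assoc, hx, zero_mul]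
  obtain ⟨s, t, hs, ht⟩ := hg.schur (S0 + T0) (by rw [add_mul, mul_add, S0h, T0h, hS0', hT0'])
    (by
      intro X hX hXh
      have c1 : ∀ w ∈ gm A h, X * w - w * X ∈ gm A h := by
        rintro w ⟨w1, w2, w3⟩
        refine ⟨hg.lie _ hX _ w1, ?_, ?_⟩
        · rw [sub_mul, mul_assoc, w2, mul_assoc, hXh, ← mul_assoc, w2]
        · rw [mul_sub, ← mul_assoc, ← hXh, mul_assoc, w3, mul_zero, ← mul_assoc, w3, zero_mul,
            sub_zero]
      have c2 : ∀ w ∈ gp A h, X * w - w * X ∈ gp A h := by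
        rintro w ⟨w1, w2, w3⟩
        refine ⟨hg.lie _ hX _ w1, ?_, ?_⟩
        · rw [mul_sub, ← mul_assoc, ← hXh, mul_assoc, w2, ← mul_assoc, w2]
        · rw [sub_mul, mul_assoc, w3, mul_zero, mul_assoc, hXh, ← mul_assoc, w3, zero_mul,
            sub_zero]
      obtain ⟨k1, k2⟩ := B3_comm hJ hy c1 c2
      have k1' : X * S0 = S0 * X := by
        rw [hS0]
        exact k1
      have k2' : X * T0 = T0 * X := by
        rw [hT0]
        exact k2
      rw [mul_add, add_mul, k1', k2'])
  have eS : S0 = s • h := by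
    rw [add_mul, S0h, T0h, add_zero] at hs
    exact hs
  have eT : T0 = t • (1 - h) := by
    have h1 : (S0 + T0) * (1 - h) = T0 := by
      rw [mul_sub, mul_one, add_mul, S0h, T0h, add_zero]
      abel
    rw [h1] at ht
    exact ht
  have trxz : ∀ i, LinearMap.trace ℂ V (x i * z i) = 1 := by
    intro i
    have := B3_kron hy i i
    rw [if_pos rfl] at this
    exact this
  have trT : LinearMap.trace ℂ V T0 = (finrank ℂ (gm A h) : ℂ) := by
    rw [hT0, map_sum, Finset.sum_congr rfl fun i _ => trxz i]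
    simp
  have trS : LinearMap.trace ℂ V S0 = (finrank ℂ (gm A h) : ℂ) := by
    rw [hS0, map_sum, Finset.sum_congr rfl fun i _ =>
      (LinearMap.trace_mul_comm ℂ (z i) (x i)).trans (trxz i)]
    simp
  have trh : LinearMap.trace ℂ V h = (finrank ℂ (LinearMap.range h) : ℂ) := B3_trace_idem hg.idem
  have tr1h : LinearMap.trace ℂ V (1 - h) = (finrank ℂ (LinearMap.ker h) : ℂ) := by
    have h1 := LinearMap.finrank_range_add_finrank_ker h
    have h2 : (finrank ℂ (LinearMap.range h) : ℂ) + (finrank ℂ (LinearMap.ker h) : ℂ) =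
        (finrank ℂ V : ℂ) := by
      exact_mod_cast h1
    rw [map_sub, LinearMap.trace_one, trh]
    linear_combination (-1 : ℂ) * h2
  have e1 : s * (finrank ℂ (LinearMap.range h) : ℂ) = (finrank ℂ (gm A h) : ℂ) := by
    rw [← trS, eS, map_smul, trh, smul_eq_mul]
  have e2 : t * (finrank ℂ (LinearMap.ker h) : ℂ) = (finrank ℂ (gm A h) : ℂ) := by
    rw [← trT, eT, map_smul, tr1h, smul_eq_mul]
  have tref : LinearMap.trace ℂ V (e * f) = (finrank ℂ (LinearMap.range e) : ℂ) := by
    have h1 : LinearMap.range (e * f) = LinearMap.range e := by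
      apply le_antisymm
      · rintro _ ⟨v, rfl⟩
        exact ⟨f v, rfl⟩
      · rintro _ ⟨v, rfl⟩
        refine ⟨e v, ?_⟩
        exact congrArg (fun T : End ℂ V => T v) efe
    rw [← h1]
    refine B3_trace_idem ?_
    rw [← mul_assoc, efe]
  have trfe : LinearMap.trace ℂ V (f * e) = (finrank ℂ (LinearMap.range e) : ℂ) :=
    (LinearMap.trace_mul_comm ℂ f e).trans tref
  -- products
  have ez : ∀ w ∈ gm A h, e * w = 0 := fun w hw => by
    rw [← eh, mul_assoc, (mem_gm.1 hw).2.2, mul_zero]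
  have ze : ∀ w ∈ gm A h, w * e = 0 := fun w hw => by
    rw [← (mem_gm.1 hw).2.1, mul_assoc, he0, mul_zero]
  have adD : ∀ w ∈ gm A h, tau e f * w - w * tau e f = e * f * w + w * (f * e) := by
    intro w hw
    have h1 : f * e * w = 0 := by rw [mul_assoc, ez w hw, mul_zero]
    have h2 : w * (e * f) = 0 := by rw [← mul_assoc, ze w hw, zero_mul]
    simp only [tau, sub_mul, mul_sub, h1, h2]
    abel
  have hD : ∀ w ∈ gm A h, (LinearMap.mulLeft ℂ (e * f) + LinearMap.mulRight ℂ (f * e)) w ∈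
      gm A h := by
    intro w hw
    have h1 := (hpp.ad_gm hg.lie).1 w hw
    rw [adD w hw] at h1
    exact h1
  have hsp : ∀ w ∈ gm A h, ∃ c : ℂ, e * f * w * (f * e) = c • e := by
    intro w hw
    obtain ⟨c, hc⟩ := hp.prim (f * w * f) (hJ.tri' w hw f hpp.hf)
    refine ⟨c, ?_⟩
    rw [← hc]
    simp only [mul_assoc]
  have hP2 : ∀ w ∈ gm A h, ((LinearMap.mulLeft ℂ (e * f)).comp (LinearMap.mulRight ℂ (f * e))) w ∈
      gm A h := by
    intro w hw
    obtain ⟨c, hc⟩ := hsp w hw
    have h1 : ((LinearMap.mulLeft ℂ (e * f)).comp (LinearMap.mulRight ℂ (f * e))) w = c • e := by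
      rw [← hc]
      show e * f * (w * (f * e)) = e * f * w * (f * e)
      simp only [mul_assoc]
    rw [h1]
    exact (gm A h).smul_mem c hpp.he
  obtain ⟨D, hDd⟩ : ∃ D : gm A h →ₗ[ℂ] gm A h, D =
    (LinearMap.mulLeft ℂ (e * f) + LinearMap.mulRight ℂ (f * e)).restrict hD := ⟨_, rfl⟩
  obtain ⟨P2, hP2d⟩ : ∃ P2 : gm A h →ₗ[ℂ] gm A h, P2 =
    ((LinearMap.mulLeft ℂ (e * f)).comp (LinearMap.mulRight ℂ (f * e))).restrict hP2 := ⟨_, rfl⟩
  have Dap : ∀ w : gm A h, ((D w : gm A h) : End ℂ V) = e * f * w + w * (f * e) := by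
    intro w
    rw [hDd]
    rfl
  have P2ap : ∀ w : gm A h, ((P2 w : gm A h) : End ℂ V) = e * f * w * (f * e) := by
    intro w
    rw [hP2d]
    show e * f * ((w : End ℂ V) * (f * e)) = e * f * w * (f * e)
    simp only [mul_assoc]
  have tP2 : LinearMap.trace ℂ (gm A h) P2 = 1 := by
    have h1 : LinearMap.IsProj (Submodule.span ℂ {(⟨e, hpp.he⟩ : gm A h)}) P2 := by
      refine ⟨fun w => ?_, fun w hw => ?_⟩
      · obtain ⟨c, hc⟩ := hsp w w.2
        rw [Submodule.mem_span_singleton]
        refine ⟨c, Subtype.ext ?_⟩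
        rw [P2ap, hc]
        rfl
      · obtain ⟨c, rfl⟩ := Submodule.mem_span_singleton.1 hw
        refine Subtype.ext ?_
        rw [P2ap]
        show e * f * (c • e) * (f * e) = c • e
        rw [mul_smul_comm, smul_mul_assoc, efe, ← mul_assoc, efe]
    have h2 := B3_trace_proj h1
    rw [h2, finrank_span_singleton (fun h0 => he (congrArg Subtype.val h0))]
    norm_num
  have tP1 : LinearMap.trace ℂ (gm A h) (D - (2 : ℂ) • P2) = (finrank ℂ (J1 A h e f) : ℂ) := by
    have hle : J1 A h e f ≤ gm A h := fun w hw => (mem_J1.1 hw).1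
    have P1ap : ∀ w : gm A h, (((D - (2 : ℂ) • P2) w : gm A h) : End ℂ V) =
        e * f * w + w * (f * e) - (2 : ℂ) • (e * f * w * (f * e)) := by
      intro w
      rw [← Dap, ← P2ap]
      rfl
    have eff : e * f * (e * f) = e * f := by rw [← mul_assoc, efe]
    have ffe : f * e * (f * e) = f * e := by rw [← mul_assoc, fef]
    have a1 : ∀ u : End ℂ V, e * f * (e * f * u) = e * f * u := fun u => by
      rw [← mul_assoc, eff]
    have a2 : ∀ u : End ℂ V, u * (f * e) * (f * e) = u * (f * e) := fun u => by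
      rw [mul_assoc, ffe]
    have h1 : LinearMap.IsProj ((J1 A h e f).comap (gm A h).subtype) (D - (2 : ℂ) • P2) := by
      refine ⟨fun w => ?_, fun w hw => ?_⟩
      · refine mem_J1.2 ⟨((D - (2 : ℂ) • P2) w).2, ?_⟩
        show tau e f * (((D - (2 : ℂ) • P2) w : gm A h) : End ℂ V) -
          (((D - (2 : ℂ) • P2) w : gm A h) : End ℂ V) * tau e f =
            (((D - (2 : ℂ) • P2) w : gm A h) : End ℂ V)
        rw [adD _ ((D - (2 : ℂ) • P2) w).2, P1ap]
        rw [mul_sub, mul_add, sub_mul, add_mul, mul_smul_comm, smul_mul_assoc, a1, a2, a2]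
        have a3 : e * f * (e * f * (w : End ℂ V) * (f * e)) = e * f * w * (f * e) := by
          rw [← mul_assoc, a1]
        have a4 : e * f * ((w : End ℂ V) * (f * e)) = e * f * w * (f * e) := by
          rw [← mul_assoc]
        rw [a3, a4]
        module
      · have hw' : (w : End ℂ V) ∈ J1 A h e f := hw
        obtain ⟨hw1, hw2⟩ := mem_J1.1 hw'
        rw [adD _ hw1] at hw2
        have h3 : e * f * (w : End ℂ V) * (f * e) = (2 : ℂ) • (e * f * w * (f * e)) := by
          conv_lhs => rw [← hw2]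
          rw [mul_add, add_mul, a1, ← mul_assoc (e * f) (w : End ℂ V) (f * e), a2, two_smul]
        have h4 : e * f * (w : End ℂ V) * (f * e) = 0 := by
          have h5 : (1 : ℂ) • (e * f * (w : End ℂ V) * (f * e)) =
              (2 : ℂ) • (e * f * w * (f * e)) := by
            rw [one_smul]
            exact h3
          have h6 : ((2 : ℂ) - 1) • (e * f * (w : End ℂ V) * (f * e)) = 0 := by
            rw [sub_smul, h5, sub_self]
          norm_num at h6
          exact h6
        refine Subtype.ext ?_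
        rw [P1ap, h4, smul_zero, sub_zero, hw2]
    have h2 := B3_trace_proj h1
    rw [h2, LinearEquiv.finrank_eq (Submodule.comapSubtypeEquivOfLe hle)]
  have tD : LinearMap.trace ℂ (gm A h) D = 2 + (finrank ℂ (J1 A h e f) : ℂ) := by
    have h1 : D = (D - (2 : ℂ) • P2) + (2 : ℂ) • P2 := by abel
    rw [h1, map_add, map_smul, tP2, tP1, smul_eq_mul]
    ring
  have tD' : LinearMap.trace ℂ (gm A h) D = (t + s) * (finrank ℂ (LinearMap.range e) : ℂ) := by
    rw [LinearMap.trace_eq_matrix_trace ℂ (Module.finBasis ℂ (gm A h)) D, Matrix.trace]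
    have h1 : ∀ i, (LinearMap.toMatrix (Module.finBasis ℂ (gm A h)) (Module.finBasis ℂ (gm A h)) D).diag
        i = LinearMap.trace ℂ V (e * f * (x i * z i)) + LinearMap.trace ℂ V (f * e * (z i * x i)) := by
      intro i
      rw [Matrix.diag_apply, LinearMap.toMatrix_apply]
      have h2 := hy i (D (Module.finBasis ℂ (gm A h) i))
      rw [Basis.coord_apply] at h2
      rw [← h2, Dap]
      show LinearMap.trace ℂ V ((e * f * x i + x i * (f * e)) * z i) = _
      rw [add_mul, map_add, mul_assoc (e * f)]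
      have h3 : LinearMap.trace ℂ V (x i * (f * e) * z i) =
          LinearMap.trace ℂ V (f * e * (z i * x i)) := by
        rw [mul_assoc, LinearMap.trace_mul_comm, mul_assoc]
      rw [h3]
    rw [Finset.sum_congr rfl fun i _ => h1 i, Finset.sum_add_distrib, ← map_sum, ← map_sum,
      ← Finset.mul_sum, ← Finset.mul_sum, ← hT0, ← hS0, eT, eS, mul_smul_comm, mul_smul_comm,
      map_smul, map_smul, mul_sub, mul_one, mul_assoc e f h, fh, mul_zero, sub_zero,
      mul_assoc f e h, eh, tref, trfe, smul_eq_mul, smul_eq_mul]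
    ring
  have key : (2 + (finrank ℂ (J1 A h e f) : ℂ)) * ((finrank ℂ (LinearMap.range h) : ℂ) *
      (finrank ℂ (LinearMap.ker h) : ℂ)) = (finrank ℂ (LinearMap.range e) : ℂ) *
        (finrank ℂ (gm A h) : ℂ) * ((finrank ℂ (LinearMap.range h) : ℂ) +
          (finrank ℂ (LinearMap.ker h) : ℂ)) := by
    rw [← tD, tD']
    linear_combination (finrank ℂ (LinearMap.range e) : ℂ) * (finrank ℂ (LinearMap.range h) : ℂ) * e2 +
      (finrank ℂ (LinearMap.range e) : ℂ) * (finrank ℂ (LinearMap.ker h) : ℂ) * e1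
  exact_mod_cast key

end TUT
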