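import Mathlib

/-! Working context: a space with an alternating form, decomposed in pairs of dual subspaces, and Lie algebras of its
endomorphisms. -/

set_option autoImplicit false

namespace TUT

open Module

variable {H : Type} [AddCommGroup H] [Module ℂ H]

/-- `e` is a non-degenerate alternating form on `H`, `H` is the direct sum of the images of the idempotents `p f`, and the
image of `p f` is dual to the one of `p (bar f)` and orthogonal to the others. -/
structure Blk {J : Type} [Fintype J] (e : H →ₗ[ℂ] H →ₗ[ℂ] ℂ) (bar : J → J) (p : J → End ℂ H) : Prop where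
  alt : ∀ v, e v v = 0
  nd : ∀ v, (∀ w, e v w = 0) → v = 0
  bb : ∀ f, bar (bar f) = f
  bne : ∀ f, bar f ≠ f
  idem : ∀ f, p f * p f = p f
  orth : ∀ f g, f ≠ g → p f * p g = 0
  sum : ∑ f, p f = 1
  adj : ∀ f v w, e (p f v) w = e v (p (bar f) w)

/-- `A` is a Lie algebra of endomorphisms of `H` which commute with the `p f` and have the multiplier `c X` for `e`. -/
structure LieOn {J : Type} (e : H →ₗ[ℂ] H →ₗ[ℂ] ℂ) (p : J → End ℂ H) (A : Submodule ℂ (End ℂ H))
    (c : End ℂ H →ₗ[ℂ] ℂ) : Prop where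
  lie : ∀ X ∈ A, ∀ Y ∈ A, X * Y - Y * X ∈ A
  comm : ∀ X ∈ A, ∀ f, X * p f = p f * X
  mult : ∀ X ∈ A, ∀ v w, e (X v) w + e v (X w) = c X * e v w

/-- The endomorphism `v ↦ e (b, v) a + e (a, v) b`. -/
noncomputable def RR (e : H →ₗ[ℂ] H →ₗ[ℂ] ℂ) (a b : H) : End ℂ H := (e b).smulRight a + (e a).smulRight b

theorem RR_apply (e : H →ₗ[ℂ] H →ₗ[ℂ] ℂ) (a b v : H) : RR e a b v = e b v • a + e a v • b := rfl

/-- The elements of `A` which are zero on the images of the `p g`, `g ∈ I`, give all the nilpotent endomorphisms of rank one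
of the image of `p f`. -/
def NilOn {J : Type} (e : H →ₗ[ℂ] H →ₗ[ℂ] ℂ) (bar : J → J) (p : J → End ℂ H) (A : Submodule ℂ (End ℂ H)) (f : J)
    (I : Set J) : Prop :=
  ∀ a b, p f a = a → p (bar f) b = b → e b a = 0 →
    ∃ X ∈ A, (∀ g ∈ I, X * p g = 0) ∧ ∀ v, p f v = v → X v = e b v • a

end TUT
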