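import Mathlib

/-! Ideals. -/

set_option autoImplicit false

namespace TUT

open Module

private theorem C2_key {V : Type} [AddCommGroup V] [Module ℂ V] (A B : Submodule ℂ (End ℂ V))
    (hA : ∀ (ψ : V →ₗ[ℂ] ℂ) (b : V), ψ b = 0 → ψ.smulRight b ∈ A) (hB : ∀ X ∈ A, ∀ Y ∈ B, X * Y - Y * X ∈ B)
    (x : End ℂ V) (hx : x ∈ B) (ψ : V →ₗ[ℂ] ℂ) (b : V) (hψ : ψ b = 0) (hne : ψ (x b) ≠ 0) :
    ψ.smulRight b ∈ B := by
  set n : End ℂ V := ψ.smulRight b with hn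
  have hnA : n ∈ A := hA ψ b hψ
  have h1 := hB n hnA x hx
  have h2 := hB n hnA _ h1
  have h3 : n * (n * x - x * n) - (n * x - x * n) * n = (-2 * ψ (x b)) • n := by
    ext v
    simp only [hn, LinearMap.sub_apply, Module.End.mul_apply, LinearMap.smulRight_apply, map_smul,
      map_sub, hψ, LinearMap.smul_apply]
    simp only [zero_smul, smul_zero, zero_sub, sub_zero, smul_smul, ← neg_smul, ← sub_smul]
    congr 1
    ring
  rw [h3] at h2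
  have h4 : (-2 * ψ (x b)) ≠ 0 := mul_ne_zero (by norm_num) hne
  exact (Submodule.smul_mem_iff B h4).1 h2

private theorem C2_sep {V : Type} [AddCommGroup V] [Module ℂ V] (c b : V) (h : ∀ t : ℂ, b ≠ t • c) :
    ∃ χ : V →ₗ[ℂ] ℂ, χ c = 0 ∧ χ b ≠ 0 := by
  have hb : b ∉ Submodule.span ℂ {c} := by
    intro hb
    obtain ⟨t, ht⟩ := Submodule.mem_span_singleton.1 hb
    exact h t ht.symm
  obtain ⟨f, hf, hle⟩ := Submodule.exists_le_ker_of_notMem hb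
  exact ⟨f, hle (Submodule.mem_span_singleton_self c), hf⟩

/-- PROOF.  For `n = ψ.smulRight b` with `ψ b = 0`: `n n = 0` and `[n, [n, x]] = - 2 n x n = - 2 ψ (x b) n`.
(1) There are `b`, `ψ` with `ψ b = 0`, `ψ (x b) ≠ 0`: otherwise `x b ∈ ℂ b` for all `b` and `x` is a scalar.  So some
`n₀ = ψ₀.smulRight b₀ ∈ B`, `ψ₀ b₀ = 0`, `ψ₀ ≠ 0`, `b₀ ≠ 0`.
(2) With `x = n₀`: if `ψ b = 0`, `ψ₀ b ≠ 0`, `ψ b₀ ≠ 0` then `ψ.smulRight b ∈ B` (`ψ (n₀ b) = ψ₀ b ψ b₀`).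
(3) Given any `ψ ≠ 0`, `b ≠ 0` with `ψ b = 0`: choose `c'` with `ψ₀ c' ≠ 0`, `ψ c' ≠ 0` (two hyperplanes do not cover `V`), then
`c' ∉ ℂ b₀`, `c' ∉ ℂ b`, and a linear form `χ` with `χ c' = 0`, `χ b₀ ≠ 0`, `χ b ≠ 0` (again two proper subspaces of the space
`{χ | χ c' = 0}`).  By (2) `χ.smulRight c' ∈ B`, by (2) again for `χ.smulRight c'` in place of `n₀`: `ψ.smulRight b ∈ B`. -/
theorem ideal_full {V : Type} [AddCommGroup V] [Module ℂ V] [FiniteDimensional ℂ V] (A B : Submodule ℂ (End ℂ V))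
    (hA : ∀ (ψ : V →ₗ[ℂ] ℂ) (b : V), ψ b = 0 → ψ.smulRight b ∈ A) (hB : ∀ X ∈ A, ∀ Y ∈ B, X * Y - Y * X ∈ B)
    (x : End ℂ V) (hx : x ∈ B) (hns : ∀ t : ℂ, x ≠ t • 1) (ψ : V →ₗ[ℂ] ℂ) (b : V) (hψ : ψ b = 0) : ψ.smulRight b ∈ B := by
  by_cases hb0 : b = 0
  · subst hb0
    have : ψ.smulRight (0 : V) = 0 := by ext v; simp
    rw [this]; exact B.zero_mem
  by_cases hψ0 : ψ = 0
  · subst hψ0
    have : (0 : V →ₗ[ℂ] ℂ).smulRight b = 0 := by ext v; simp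
    rw [this]; exact B.zero_mem
  -- (1)
  have h1 : ∃ (ψ₀ : V →ₗ[ℂ] ℂ) (b₀ : V), ψ₀ b₀ = 0 ∧ ψ₀ (x b₀) ≠ 0 := by
    by_contra hcon
    push Not at hcon
    have h2 : ∀ v : V, ∃ t : ℂ, x v = t • v := by
      intro v
      by_contra h3
      push Not at h3
      obtain ⟨χ, hχ1, hχ2⟩ := C2_sep v (x v) h3
      exact hχ2 (hcon χ v hχ1)
    obtain ⟨t, ht⟩ := h2 b
    apply hns t
    ext v
    obtain ⟨s, hs⟩ := h2 v
    obtain ⟨u, hu⟩ := h2 (b + v)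
    by_cases hv : ∃ r : ℂ, v = r • b
    · obtain ⟨r, rfl⟩ := hv
      rw [map_smul, ht, LinearMap.smul_apply, Module.End.one_apply, smul_comm]
    · push Not at hv
      obtain ⟨χ, hχ1, hχ2⟩ := C2_sep b v hv
      rw [map_add, ht, hs, smul_add] at hu
      have h4 : s * χ v = u * χ v := by
        have := congrArg χ hu
        simpa [hχ1] using this
      have h5 : s = u := mul_right_cancel₀ hχ2 h4
      subst h5
      have h6 : t • b = s • b := add_right_cancel hu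
      have h7 : (t - s) • b = 0 := by rw [sub_smul, h6, sub_self]
      have h8 : t - s = 0 := (smul_eq_zero.1 h7).resolve_right hb0
      rw [hs, LinearMap.smul_apply, Module.End.one_apply, sub_eq_zero.1 h8]
  obtain ⟨ψ₀, b₀, hψ₀, hne₀⟩ := h1
  have hn₀ := C2_key A B hA hB x hx ψ₀ b₀ hψ₀ hne₀
  have hb₀ : b₀ ≠ 0 := by
    rintro rfl
    exact hne₀ (by simp)
  have hu : ∃ u, ψ₀ u ≠ 0 := ⟨_, hne₀⟩
  have hw : ∃ w, ψ w ≠ 0 := by
    by_contra h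
    push Not at h
    exact hψ0 (LinearMap.ext h)
  have hc : ∃ c, ψ₀ c ≠ 0 ∧ ψ c ≠ 0 := by
    obtain ⟨u, hu⟩ := hu
    obtain ⟨w, hw⟩ := hw
    by_cases h1 : ψ u = 0
    · by_cases h2 : ψ₀ w = 0
      · refine ⟨u + w, ?_, ?_⟩
        · rw [map_add, h2, add_zero]; exact hu
        · rw [map_add, h1, zero_add]; exact hw
      · exact ⟨w, h2, hw⟩
    · exact ⟨u, hu, h1⟩
  obtain ⟨c, hc1, hc2⟩ := hc
  have hs1 : ∀ t : ℂ, b₀ ≠ t • c := by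
    intro t ht
    have h3 : t * ψ₀ c = 0 := by
      rw [← smul_eq_mul, ← map_smul, ← ht, hψ₀]
    have h4 : t = 0 := (mul_eq_zero.1 h3).resolve_right hc1
    rw [h4, zero_smul] at ht
    exact hb₀ ht
  have hs2 : ∀ t : ℂ, b ≠ t • c := by
    intro t ht
    have h3 : t * ψ c = 0 := by
      rw [← smul_eq_mul, ← map_smul, ← ht, hψ]
    have h4 : t = 0 := (mul_eq_zero.1 h3).resolve_right hc2
    rw [h4, zero_smul] at ht
    exact hb0 ht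
  have hχ : ∃ χ : V →ₗ[ℂ] ℂ, χ c = 0 ∧ χ b₀ ≠ 0 ∧ χ b ≠ 0 := by
    obtain ⟨χ₁, h11, h12⟩ := C2_sep c b₀ hs1
    obtain ⟨χ₂, h21, h22⟩ := C2_sep c b hs2
    by_cases h1 : χ₁ b = 0
    · by_cases h2 : χ₂ b₀ = 0
      · refine ⟨χ₁ + χ₂, ?_, ?_, ?_⟩
        · rw [LinearMap.add_apply, h11, h21, add_zero]
        · rw [LinearMap.add_apply, h2, add_zero]; exact h12
        · rw [LinearMap.add_apply, h1, zero_add]; exact h22
      · exact ⟨χ₂, h21, h2, h22⟩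
    · exact ⟨χ₁, h11, h12, h1⟩
  obtain ⟨χ, hχc, hχb₀, hχb⟩ := hχ
  have hm : χ.smulRight c ∈ B := by
    refine C2_key A B hA hB _ hn₀ χ c hχc ?_
    rw [LinearMap.smulRight_apply, map_smul, smul_eq_mul]
    exact mul_ne_zero hc1 hχb₀
  refine C2_key A B hA hB _ hm ψ b hψ ?_
  rw [LinearMap.smulRight_apply, map_smul, smul_eq_mul]
  exact mul_ne_zero hχb hc2

end TUT
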