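import Pool.Agent.Lib.MP_021685_agUT.C0
import Pool.Agent.Lib.MP_021685_agUT.C2

/-! Ideals. -/

set_option autoImplicit false

namespace TUT

open Module

variable {H : Type} [AddCommGroup H] [Module ℂ H] [FiniteDimensional ℂ H] {J : Type} [Fintype J]
  {e : H →ₗ[ℂ] H →ₗ[ℂ] ℂ} {bar : J → J} {p : J → End ℂ H} {A : Submodule ℂ (End ℂ H)} {c : End ℂ H →ₗ[ℂ] ℂ}

/-- The restrictions to `V` of the elements of `S`. -/
private def C1_res {V : Submodule ℂ H} (S : Submodule ℂ (End ℂ H)) : Submodule ℂ (End ℂ V) where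
  carrier := {Y | ∃ X ∈ S, ∀ v : V, ((Y v : V) : H) = X v}
  add_mem' := by
    rintro Y Y' ⟨X, hX, h⟩ ⟨X', hX', h'⟩
    refine ⟨X + X', S.add_mem hX hX', fun v => ?_⟩
    rw [LinearMap.add_apply, LinearMap.add_apply, Submodule.coe_add, h, h']
  zero_mem' := ⟨0, S.zero_mem, fun v => rfl⟩
  smul_mem' := by
    rintro t Y ⟨X, hX, h⟩
    refine ⟨t • X, S.smul_mem t hX, fun v => ?_⟩
    rw [LinearMap.smul_apply, LinearMap.smul_apply, Submodule.coe_smul, h]

/-- The elements of `A` which are zero on the images of the `p g`, `g ∈ I`. -/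
private def C1_ker (p : J → End ℂ H) (A : Submodule ℂ (End ℂ H)) (I : Set J) :
    Submodule ℂ (End ℂ H) where
  carrier := {X | X ∈ A ∧ ∀ g ∈ I, X * p g = 0}
  add_mem' := by
    rintro X Y ⟨hX, h⟩ ⟨hY, h'⟩
    refine ⟨A.add_mem hX hY, fun g hg => ?_⟩
    rw [add_mul, h g hg, h' g hg, add_zero]
  zero_mem' := ⟨A.zero_mem, fun g _ => zero_mul _⟩
  smul_mem' := by
    rintro t X ⟨hX, h⟩
    refine ⟨A.smul_mem t hX, fun g hg => ?_⟩
    rw [smul_mul_assoc, h g hg, smul_zero]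

omit [FiniteDimensional ℂ H] [Fintype J] in
private theorem C1_bracket (hA : LieOn e p A c) {X Y : End ℂ H} (hX : X ∈ A)
    {g : J} (hg : Y * p g = 0) : (X * Y - Y * X) * p g = 0 := by
  rw [sub_mul, mul_assoc, mul_assoc, hg, mul_zero, hA.comm X hX g, ← mul_assoc, hg, zero_mul, sub_zero]

private theorem C1_form (hb : Blk e bar p) (f : J) (ψ : LinearMap.range (p f) →ₗ[ℂ] ℂ) :
    ∃ b, p (bar f) b = b ∧ ∀ v : LinearMap.range (p f), ψ v = e b v := by
  have hinj : Function.Injective e := by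
    intro v w h
    refine sub_eq_zero.1 (hb.nd (v - w) fun u => ?_)
    rw [map_sub, LinearMap.sub_apply, h, sub_self]
  have hsurj : Function.Surjective e :=
    (LinearMap.injective_iff_surjective_of_finrank_eq_finrank
      (f := e) (by rw [Subspace.dual_finrank_eq])).1 hinj
  obtain ⟨b, hbb⟩ := hsurj (ψ ∘ₗ (p f).rangeRestrict)
  have hpp : ∀ v, p f (p f v) = p f v := fun v => LinearMap.congr_fun (hb.idem f) v
  have hval : ∀ v, e b v = ψ ⟨p f v, ⟨v, rfl⟩⟩ := fun v => LinearMap.congr_fun hbb v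
  refine ⟨b, hinj ?_, ?_⟩
  · ext v
    have h1 : e (p (bar f) b) v = e b (p f v) := by
      rw [hb.adj, hb.bb]
    rw [h1, hval, hval]
    congr 1
    exact Subtype.ext (hpp v)
  · rintro ⟨v, hv⟩
    obtain ⟨w, rfl⟩ := hv
    rw [hval]
    congr 1
    exact Subtype.ext (hpp w).symm

/-- PROOF.  Let `V = range (p f)`, `A'` and `B'` the images in `End V` (restriction) of `A` and of
`I' = {X ∈ A | ∀ g ∈ I, X * p g = 0}`; `[A, I'] ≤ I'`.  Apply `ideal_full`: all linear forms on `V` are restrictions of `e b`,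
`p (bar f) b = b` (`nd`, `adj`, finite dimension). -/
theorem NilOn.of_nonscalar (hb : Blk e bar p) (hA : LieOn e p A c) {f : J} (hf : NilOn e bar p A f ∅) {I : Set J}
    {X : End ℂ H} (hX : X ∈ A) (h0 : ∀ g ∈ I, X * p g = 0) (hns : ∀ t : ℂ, X * p f ≠ t • p f) : NilOn e bar p A f I := by
  classical
  intro a b ha hbb hab
  have hpp : ∀ v, p f (p f v) = p f v := fun v => LinearMap.congr_fun (hb.idem f) v
  have hV : ∀ v : LinearMap.range (p f), p f v = v := by
    rintro ⟨v, w, rfl⟩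
    exact hpp w
  have hV' : ∀ v, p f v = v → v ∈ LinearMap.range (p f) := fun v hv => ⟨v, hv⟩
  -- the restriction of an element of `A`
  have hrestr : ∀ Y ∈ A, ∀ v : LinearMap.range (p f), Y v ∈ LinearMap.range (p f) := by
    intro Y hY v
    refine hV' _ ?_
    have h1 := LinearMap.congr_fun (hA.comm Y hY f) (v : H)
    rw [Module.End.mul_apply, Module.End.mul_apply, hV] at h1
    exact h1.symm
  obtain ⟨x, hx⟩ : ∃ x : End ℂ (LinearMap.range (p f)), ∀ v, ((x v : LinearMap.range (p f)) : H) = X v :=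
    ⟨(X ∘ₗ (LinearMap.range (p f)).subtype).codRestrict _ fun v => hrestr X hX v, fun v => rfl⟩
  have hmain := ideal_full (C1_res (V := LinearMap.range (p f)) A)
    (C1_res (V := LinearMap.range (p f)) (C1_ker p A I)) ?_ ?_ x ⟨X, ⟨hX, h0⟩, hx⟩ ?_
    ((e b) ∘ₗ (LinearMap.range (p f)).subtype) ⟨a, hV' a ha⟩ hab
  · obtain ⟨Z, ⟨hZ, hZ0⟩, hZv⟩ := hmain
    refine ⟨Z, hZ, hZ0, fun v hv => ?_⟩
    exact (hZv ⟨v, hV' v hv⟩).symm
  · intro ψ v hψ
    obtain ⟨b', hb'1, hb'2⟩ := C1_form hb f ψ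
    obtain ⟨Z, hZ, -, hZv⟩ := hf v b' (hV v) hb'1 (by rw [← hb'2, hψ])
    refine ⟨Z, hZ, fun w => ?_⟩
    rw [hZv w (hV w), ← hb'2]
    rfl
  · rintro Y ⟨Y', hY', hY⟩ Z ⟨Z', ⟨hZ', hZ0⟩, hZ⟩
    refine ⟨Y' * Z' - Z' * Y', ⟨hA.lie Y' hY' Z' hZ', fun g hg => C1_bracket hA hY' (hZ0 g hg)⟩,
      fun v => ?_⟩
    rw [LinearMap.sub_apply, LinearMap.sub_apply, Submodule.coe_sub, Module.End.mul_apply,
      Module.End.mul_apply, Module.End.mul_apply, Module.End.mul_apply, hY, hZ, hZ, hY]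
  · intro t ht
    refine hns t ?_
    ext v
    have h1 := hx ⟨p f v, ⟨v, rfl⟩⟩
    rw [ht] at h1
    exact h1.symm

/-- PROOF.  If `range (p f)` has dimension at most one, then `e b a • ... ` : `e b v • a = 0` for all `v` in it (as `a = 0` or
`v ∈ ℂ a`), take `X = 0`.  Otherwise there are `a, a'` in `range (p f)`, `b, b'` in `range (p (bar f))` with `e b a = 0`,
`e b' a' = 0`, `e b a' = 1`, `e b' a = 1`; take `X` for `(a, b)` and `I`, `X'` for `(a', b')` and `I'`:
`X X' - X' X` is in `A`, zero on the images of `p g`, `g ∈ I ∪ I'` and on the image of `p f` it is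
`v ↦ e b' v • a - e b v • a'` (`X X' v = e b' v • X a' = e b' v • a`), which maps `a` to `a` and `a'` to `- a'`: not a scalar.
Apply `NilOn.of_nonscalar`. -/
theorem NilOn.union (hb : Blk e bar p) (hA : LieOn e p A c) {f : J} {I I' : Set J} (h1 : NilOn e bar p A f I)
    (h2 : NilOn e bar p A f I') : NilOn e bar p A f (I ∪ I') := by
  intro a b ha hbb hab
  by_cases ha0 : a = 0
  · exact ⟨0, A.zero_mem, fun g _ => zero_mul _, fun v _ => by rw [ha0, smul_zero]; rfl⟩
  by_cases hb0 : ∀ v, p f v = v → e b v = 0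
  · exact ⟨0, A.zero_mem, fun g _ => zero_mul _, fun v hv => by rw [hb0 v hv, zero_smul]; rfl⟩
  push Not at hb0
  obtain ⟨a1, ha1, hba1⟩ := hb0
  obtain ⟨a', ha', hba'⟩ : ∃ a', p f a' = a' ∧ e b a' = 1 :=
    ⟨(e b a1)⁻¹ • a1, by rw [map_smul, ha1], by rw [map_smul, smul_eq_mul, inv_mul_cancel₀ hba1]⟩
  have ha'0 : a' ≠ 0 := by
    rintro rfl
    rw [map_zero] at hba'
    exact zero_ne_one hba'
  obtain ⟨c', hc', hca⟩ : ∃ c', p (bar f) c' = c' ∧ e c' a = 1 := by
    have h3 : ∃ w, e w a ≠ 0 := by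
      by_contra hcon
      push Not at hcon
      refine ha0 (hb.nd a fun w => ?_)
      have h4 : e (a + w) (a + w) = 0 := hb.alt _
      rw [map_add, map_add, LinearMap.add_apply, LinearMap.add_apply, hb.alt, hb.alt, hcon w] at h4
      simpa using h4
    obtain ⟨w, hw⟩ := h3
    have h5 : e (p (bar f) w) a = e w a := by
      rw [hb.adj, hb.bb, ha]
    have h6 : p (bar f) (p (bar f) w) = p (bar f) w := LinearMap.congr_fun (hb.idem (bar f)) w
    refine ⟨(e w a)⁻¹ • p (bar f) w, by rw [map_smul, h6], ?_⟩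
    rw [map_smul, LinearMap.smul_apply, h5, smul_eq_mul, inv_mul_cancel₀ hw]
  obtain ⟨b', hb', hb'a, hb'a'⟩ : ∃ b', p (bar f) b' = b' ∧ e b' a = 1 ∧ e b' a' = 0 := by
    refine ⟨c' - e c' a' • b, ?_, ?_, ?_⟩
    · rw [map_sub, map_smul, hc', hbb]
    · rw [map_sub, map_smul, LinearMap.sub_apply, LinearMap.smul_apply, hca, hab, smul_zero, sub_zero]
    · rw [map_sub, map_smul, LinearMap.sub_apply, LinearMap.smul_apply, hba', smul_eq_mul, mul_one,
        sub_self]
  obtain ⟨X, hX, hX0, hXv⟩ := h1 a b ha hbb hab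
  obtain ⟨X', hX', hX'0, hX'v⟩ := h2 a' b' ha' hb' hb'a'
  have hZv : ∀ v, p f v = v → (X * X' - X' * X) v = e b' v • a - e b v • a' := by
    intro v hv
    rw [LinearMap.sub_apply, Module.End.mul_apply, Module.End.mul_apply, hX'v v hv, hXv v hv, map_smul,
      map_smul, hXv a' ha', hX'v a ha, hba', hb'a, one_smul, one_smul]
  refine NilOn.of_nonscalar hb hA (f := f) (I := I ∪ I') (X := X * X' - X' * X) ?_ (hA.lie X hX X' hX')
    ?_ ?_ a b ha hbb hab
  · intro a2 b2 h3 h4 h5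
    obtain ⟨Y, hY, -, hYv⟩ := h1 a2 b2 h3 h4 h5
    exact ⟨Y, hY, fun g hg => absurd hg (Set.notMem_empty g), hYv⟩
  · rintro g (hg | hg)
    · have h3 := C1_bracket hA hX' (hX0 g hg)
      rw [← neg_sub, neg_mul, h3, neg_zero]
    · exact C1_bracket hA hX (hX'0 g hg)
  · intro t ht
    have h3 : ∀ v, p f v = v → (X * X' - X' * X) v = t • v := by
      intro v hv
      have h4 := LinearMap.congr_fun ht v
      rw [Module.End.mul_apply, LinearMap.smul_apply, hv] at h4
      exact h4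
    have h5 := h3 a ha
    rw [hZv a ha, hb'a, hab, one_smul, zero_smul, sub_zero] at h5
    have h6 := h3 a' ha'
    rw [hZv a' ha', hb'a', hba', one_smul, zero_smul, zero_sub] at h6
    have h7 : (t - 1) • a = 0 := by rw [sub_smul, one_smul, ← h5, sub_self]
    have h8 : (t + 1) • a' = 0 := by rw [add_smul, one_smul, ← h6, neg_add_cancel]
    have h9 : t - 1 = 0 := (smul_eq_zero.1 h7).resolve_right ha0
    have h10 : t + 1 = 0 := (smul_eq_zero.1 h8).resolve_right ha'0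
    have h11 : (2 : ℂ) = 0 := by linear_combination h10 - h9
    exact two_ne_zero h11

end TUT
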