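import Pool.Agent.Lib.MP_021685_agUT.C0

/-! From one block to the space. -/

set_option autoImplicit false

namespace TUT

open Module

variable {H : Type} [AddCommGroup H] [Module ℂ H] [FiniteDimensional ℂ H] {J : Type} [Fintype J]
  {e : H →ₗ[ℂ] H →ₗ[ℂ] ℂ} {bar : J → J} {p : J → End ℂ H} {A : Submodule ℂ (End ℂ H)} {c : End ℂ H →ₗ[ℂ] ℂ}

omit [FiniteDimensional ℂ H] in
theorem C3_anti (hb : Blk e bar p) (v w : H) : e v w = - e w v := by
  have h := hb.alt (v + w)
  simp only [map_add, LinearMap.add_apply, hb.alt v, hb.alt w, zero_add, add_zero] at h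
  exact eq_neg_of_add_eq_zero_right h

omit [FiniteDimensional ℂ H] in
theorem C3_zero (hb : Blk e bar p) {f g : J} (hfg : g ≠ bar f) {v : H} (hv : p f v = v) (w : H) : e v (p g w) = 0 := by
  rw [← hv, hb.adj, ← Module.End.mul_apply, hb.orth _ _ hfg.symm, LinearMap.zero_apply, map_zero]

omit [FiniteDimensional ℂ H] [Fintype J] in
theorem C3_br (hA : LieOn e p A c) {X Y : End ℂ H} (hX : X ∈ A) (hY : Y ∈ A) (v w : H) :
    e ((X * Y - Y * X) v) w + e v ((X * Y - Y * X) w) = 0 := by
  have h1 := hA.mult X hX (Y v) w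
  have h2 := hA.mult Y hY v (X w)
  have h3 := hA.mult Y hY (X v) w
  have h4 := hA.mult X hX v (Y w)
  have h5 := hA.mult X hX v w
  have h6 := hA.mult Y hY v w
  simp only [LinearMap.sub_apply, Module.End.mul_apply, map_sub]
  linear_combination h1 - h2 - h3 + h4 + c X * h6 - c Y * h5

/-- PROOF.  If `a = 0` or `b = 0` then `RR e a b = 0`.  Otherwise there are `a'` in the image of `p f` and `b'` in the one of
`p (bar f)` with `e b' a' = 0`, `e b a' = 1`, `e b' a = 1` (choose `b'` with `e b' a = 1`, `a''` with `e b a'' = 1` and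
`a' = a'' - (e b' a'') • a`).  Let `X`, `X'` be the elements for `(a, b)` and `(a', b')`, `Z = (X X' - X' X) X - X (X X' - X' X)`,
in `A`.  On the image of `p f`: `Z v = 2 e b v • a` (`n n' n = n` for `n = e b • a`, `n' = e b' • a'`; `Z = 2 n n' n`).
`Z` is zero on the images of `p g` for `g ≠ f, bar f`, and `c Z = 0` (for brackets `c = 0`: from `mult` twice; there are `v, w`
with `e v w ≠ 0`).  `Z` and `2 RR e a b` have the same restriction to `range (p f)`; both have multiplier `0` (`RR e a b`:
`alt`), so they agree on `range (p (bar f))`, too (`e (Z v) w = - e v (Z w)` for `w ∈ range (p f)`, `nd`).  On the images of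
the other `p g` both are zero.  So `RR e a b = Z / 2 ∈ A`. -/
theorem NilOn.rr (hb : Blk e bar p) (hA : LieOn e p A c) {f : J} (h1 : NilOn e bar p A f {g | g ≠ f ∧ g ≠ bar f})
    (a b : H) (ha : p f a = a) (hb' : p (bar f) b = b) (h0 : e b a = 0) : RR e a b ∈ A := by
  have hanti := C3_anti hb
  by_cases ha0 : a = 0
  · have : RR e a b = 0 := by
      ext v
      rw [RR_apply, ha0]
      simp
    rw [this]
    exact A.zero_mem
  by_cases hb0 : b = 0
  · have : RR e a b = 0 := by
      ext v
      rw [RR_apply, hb0]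
      simp
    rw [this]
    exact A.zero_mem
  -- the vector b'
  obtain ⟨b', hb1, hb2⟩ : ∃ b', p (bar f) b' = b' ∧ e b' a = 1 := by
    have h1 : ∃ w, e a w ≠ 0 := by
      by_contra h
      exact ha0 (hb.nd a (fun w => by
        by_contra h2
        exact h ⟨w, h2⟩))
    obtain ⟨w, hw⟩ := h1
    have h2 : e a w = e a (p (bar f) w) := by
      rw [← hb.adj, ha]
    have h3 : e (p (bar f) w) a ≠ 0 := by
      rw [hanti]
      rw [← h2]
      exact neg_ne_zero.mpr hw
    refine ⟨(e (p (bar f) w) a)⁻¹ • p (bar f) w, ?_, ?_⟩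
    · rw [map_smul, ← Module.End.mul_apply, hb.idem]
    · rw [map_smul, LinearMap.smul_apply, smul_eq_mul, inv_mul_cancel₀ h3]
  obtain ⟨a'', ha1, ha2⟩ : ∃ a'', p f a'' = a'' ∧ e b a'' = 1 := by
    have h1 : ∃ w, e b w ≠ 0 := by
      by_contra h
      exact hb0 (hb.nd b (fun w => by
        by_contra h2
        exact h ⟨w, h2⟩))
    obtain ⟨w, hw⟩ := h1
    have h2 : e b w = e b (p f w) := by
      have h4 := hb.adj (bar f) b w
      rw [hb', hb.bb] at h4
      exact h4
    have h3 : e b (p f w) ≠ 0 := by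
      rw [← h2]
      exact hw
    refine ⟨(e b (p f w))⁻¹ • p f w, ?_, ?_⟩
    · rw [map_smul, ← Module.End.mul_apply, hb.idem]
    · rw [map_smul, smul_eq_mul, inv_mul_cancel₀ h3]
  obtain ⟨a', ha3, ha4, ha5⟩ : ∃ a', p f a' = a' ∧ e b' a' = 0 ∧ e b a' = 1 := by
    refine ⟨a'' - (e b' a'') • a, ?_, ?_, ?_⟩
    · rw [map_sub, map_smul, ha, ha1]
    · rw [map_sub, map_smul, hb2, smul_eq_mul, mul_one, sub_self]
    · rw [map_sub, map_smul, ha2, h0, smul_zero, sub_zero]
  obtain ⟨X, hX, hX0, hX1⟩ := h1 a b ha hb' h0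
  obtain ⟨X', hX', hX0', hX1'⟩ := h1 a' b' ha3 hb1 ha4
  have hT : X * X' - X' * X ∈ A := hA.lie X hX X' hX'
  have hZ : (X * X' - X' * X) * X - X * (X * X' - X' * X) ∈ A := hA.lie _ hT X hX
  have hZm := C3_br hA hT hX
  have hZc := hA.comm _ hZ
  have hZ1 : ∀ v, p f v = v → ((X * X' - X' * X) * X - X * (X * X' - X' * X)) v = (2 * e b v) • a := by
    intro v hv
    have hXa : X a = 0 := by rw [hX1 a ha, h0, zero_smul]
    have hXa' : X a' = a := by rw [hX1 a' ha3, ha5, one_smul]
    have hX'a : X' a = a' := by rw [hX1' a ha, hb2, one_smul]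
    simp only [LinearMap.sub_apply, Module.End.mul_apply, map_sub, hX1 v hv, hX1' v hv, map_smul, hXa, hXa', hX'a,
      smul_zero]
    rw [map_zero, sub_zero, zero_sub, sub_neg_eq_add, mul_smul, two_smul]
  have hZ0 : ∀ g, g ≠ f → g ≠ bar f → ∀ v, ((X * X' - X' * X) * X - X * (X * X' - X' * X)) (p g v) = 0 := by
    intro g hg hg' v
    have h3 : X (p g v) = 0 := by
      rw [← Module.End.mul_apply, hX0 g ⟨hg, hg'⟩, LinearMap.zero_apply]
    have h4 : X' (p g v) = 0 := by
      rw [← Module.End.mul_apply, hX0' g ⟨hg, hg'⟩, LinearMap.zero_apply]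
    simp only [LinearMap.sub_apply, Module.End.mul_apply, h3, h4, map_zero, sub_self]
  generalize (X * X' - X' * X) * X - X * (X * X' - X' * X) = Z at hZ hZm hZc hZ1 hZ0
  have hRb : ∀ g v, g ≠ f → e b (p g v) = 0 := by
    intro g v hg
    exact C3_zero hb (by rw [hb.bb]; exact hg) hb' v
  have hRa : ∀ g v, g ≠ bar f → e a (p g v) = 0 := by
    intro g v hg
    exact C3_zero hb hg ha v
  have hfin : Z = (2 : ℂ) • RR e a b := by
    have hall : ∀ g v, Z (p g v) = (2 : ℂ) • RR e a b (p g v) := by
      intro g v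
      rw [RR_apply]
      by_cases hg : g = f
      · subst hg
        rw [hZ1 (p g v) (by rw [← Module.End.mul_apply, hb.idem]), hRa g v (hb.bne g).symm, zero_smul, add_zero, mul_smul]
      by_cases hg' : g = bar f
      · subst hg'
        rw [hRb _ v hg, zero_smul, zero_add]
        -- compare by the pairing with all vectors
        have hsub : Z (p (bar f) v) - (2 : ℂ) • e a (p (bar f) v) • b = 0 := by
          apply hb.nd
          intro w
          have hw : w = ∑ g, p g w := by
            rw [← LinearMap.sum_apply, hb.sum, Module.End.one_apply]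
          rw [hw, map_sum]
          apply Finset.sum_eq_zero
          intro g _
          have hpZ : p (bar f) (Z (p (bar f) v)) = Z (p (bar f) v) := by
            have h5 : (p (bar f) * Z) (p (bar f) v) = (Z * p (bar f)) (p (bar f) v) := by rw [hZc]
            rw [Module.End.mul_apply, Module.End.mul_apply, ← Module.End.mul_apply (p (bar f)) (p (bar f)) v, hb.idem] at h5
            exact h5
          by_cases hgf : g = f
          · subst hgf
            have h6 := hZm (p (bar g) v) (p g w)
            rw [hZ1 (p g w) (by rw [← Module.End.mul_apply, hb.idem]), map_smul, smul_eq_mul, hanti (p (bar g) v) a] at h6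
            rw [map_sub, LinearMap.sub_apply, map_smul, map_smul, LinearMap.smul_apply, LinearMap.smul_apply, smul_eq_mul,
              smul_eq_mul]
            linear_combination h6
          · have hgb : g ≠ bar (bar f) := by rw [hb.bb]; exact hgf
            rw [map_sub, LinearMap.sub_apply, map_smul, map_smul, LinearMap.smul_apply, LinearMap.smul_apply,
              C3_zero hb hgb hpZ w, C3_zero hb hgb hb' w, smul_zero, smul_zero, sub_zero]
        exact sub_eq_zero.mp hsub
      · rw [hZ0 g hg hg' v, hRb g v hg, hRa g v hg', zero_smul, zero_smul, add_zero, smul_zero]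
    ext v
    have hv : v = ∑ g, p g v := by
      rw [← LinearMap.sum_apply, hb.sum, Module.End.one_apply]
    rw [hv, map_sum, map_sum]
    apply Finset.sum_congr rfl
    intro g _
    rw [hall g v, LinearMap.smul_apply]
  have hR : RR e a b = (2 : ℂ)⁻¹ • Z := by
    rw [hfin, smul_smul, inv_mul_cancel₀ (two_ne_zero), one_smul]
  rw [hR]
  exact A.smul_mem _ hZ

end TUT
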