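import Pool.Agent.Lib.MP_021685_agUT.C0

/-! The centre. -/

set_option autoImplicit false

namespace TUT

open Module

variable {H : Type} [AddCommGroup H] [Module ℂ H] [FiniteDimensional ℂ H] {J : Type} [Fintype J] [DecidableEq J]
  {e : H →ₗ[ℂ] H →ₗ[ℂ] ℂ} {bar : J → J} {p : J → End ℂ H} {A : Submodule ℂ (End ℂ H)} {c : End ℂ H →ₗ[ℂ] ℂ}

omit [FiniteDimensional ℂ H] [DecidableEq J] in
theorem F1_anti (hb : Blk e bar p) (v w : H) : e v w = - e w v := by
  have h := hb.alt (v + w)
  simp only [map_add, LinearMap.add_apply, hb.alt v, hb.alt w, zero_add, add_zero] at h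
  exact eq_neg_of_add_eq_zero_right h

omit [FiniteDimensional ℂ H] in
theorem F1_add_left (a a' b : H) : RR e (a + a') b = RR e a b + RR e a' b := by
  ext v
  simp only [RR_apply, LinearMap.add_apply, map_add, smul_add, add_smul]
  abel

omit [FiniteDimensional ℂ H] in
theorem F1_smul_left (s : ℂ) (a b : H) : RR e (s • a) b = s • RR e a b := by
  ext v
  simp only [RR_apply, LinearMap.smul_apply, map_smul, smul_add, smul_smul, smul_eq_mul]
  rw [mul_comm (e b v) s]

omit [FiniteDimensional ℂ H] in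
theorem F1_symm (a b : H) : RR e a b = RR e b a := by
  ext v
  simp only [RR_apply]
  rw [add_comm]

omit [FiniteDimensional ℂ H] in
theorem F1_add_right (a b b' : H) : RR e a (b + b') = RR e a b + RR e a b' := by
  rw [F1_symm, F1_add_left, F1_symm b, F1_symm b']

omit [FiniteDimensional ℂ H] in
theorem F1_smul_right (s : ℂ) (a b : H) : RR e a (s • b) = s • RR e a b := by
  rw [F1_symm, F1_smul_left, F1_symm b]

omit [FiniteDimensional ℂ H] [DecidableEq J] in
/-- A linear form which is zero on the nilpotent elements of the block `g` is a multiple of the pairing. -/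
theorem F1_scalar (hb : Blk e bar p) (φ : End ℂ H →ₗ[ℂ] ℂ) (g : J)
    (hφ : ∀ a b, p g a = a → p (bar g) b = b → e b a = 0 → φ (RR e a b) = 0) :
    ∃ r : ℂ, ∀ a b, p g a = a → p (bar g) b = b → φ (RR e a b) = e b a * r := by
  by_cases hz : ∀ a b, p g a = a → p (bar g) b = b → e b a = 0
  · refine ⟨0, fun a b ha hb' => ?_⟩
    rw [mul_zero]
    exact hφ a b ha hb' (hz a b ha hb')
  push Not at hz
  obtain ⟨a0, b1, ha0, hb1, hne⟩ := hz
  obtain ⟨b0, hb0, h1⟩ : ∃ b0, p (bar g) b0 = b0 ∧ e b0 a0 = 1 := by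
    refine ⟨(e b1 a0)⁻¹ • b1, ?_, ?_⟩
    · rw [map_smul, hb1]
    · rw [map_smul, LinearMap.smul_apply, smul_eq_mul, inv_mul_cancel₀ hne]
  refine ⟨φ (RR e a0 b0), fun a b ha hb' => ?_⟩
  -- reduction to a vector and a form orthogonal to the fixed ones
  have key : ∀ a1 b1, p g a1 = a1 → p (bar g) b1 = b1 → e b0 a1 = 0 → e b1 a0 = 0 →
      φ (RR e a1 b1) = e b1 a1 * φ (RR e a0 b0) := by
    intro a1 b1 ha1 hb1 h2 h3
    have h4 := hφ (a1 + a0) (b1 + (-(e b1 a1)) • b0) (by rw [map_add, ha1, ha0]) (by rw [map_add, map_smul, hb1, hb0])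
      (by
        simp only [map_add, map_smul, LinearMap.add_apply, LinearMap.smul_apply, smul_eq_mul, h1, h2, h3]
        ring)
    have h5 := hφ a1 b0 ha1 hb0 h2
    have h6 := hφ a0 b1 ha0 hb1 h3
    rw [F1_add_left, F1_add_right, F1_add_right, F1_smul_right, F1_smul_right] at h4
    simp only [map_add, map_smul, smul_eq_mul, h5, h6] at h4
    linear_combination h4
  have ea : a = (e b0 a) • a0 + (a + (-(e b0 a)) • a0) := by
    rw [neg_smul]
    abel
  have eb : b = (e b a0) • b0 + (b + (-(e b a0)) • b0) := by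
    rw [neg_smul]
    abel
  have hpa : p g (a + (-(e b0 a)) • a0) = a + (-(e b0 a)) • a0 := by
    rw [map_add, map_smul, ha, ha0]
  have hpb : p (bar g) (b + (-(e b a0)) • b0) = b + (-(e b a0)) • b0 := by
    rw [map_add, map_smul, hb', hb0]
  have hoa : e b0 (a + (-(e b0 a)) • a0) = 0 := by
    rw [map_add, map_smul, h1, smul_eq_mul]
    ring
  have hob : e (b + (-(e b a0)) • b0) a0 = 0 := by
    rw [map_add, map_smul, LinearMap.add_apply, LinearMap.smul_apply, h1, smul_eq_mul]
    ring
  have h2 := key _ _ hpa hpb hoa hob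
  have h5 := hφ _ b0 hpa hb0 hoa
  have h6 := hφ a0 _ ha0 hpb hob
  have h7 : e (b + (-(e b a0)) • b0) (a + (-(e b0 a)) • a0) = e b a - e b a0 * e b0 a := by
    simp only [map_add, map_smul, LinearMap.add_apply, LinearMap.smul_apply, smul_eq_mul, h1]
    ring
  rw [h7] at h2
  have h8 : ∀ (s t : ℂ) (a1 b2 : H), φ (RR e (s • a0 + a1) (t • b0 + b2)) = s * (t * φ (RR e a0 b0)) + s * φ (RR e a0 b2)
      + (t * φ (RR e a1 b0) + φ (RR e a1 b2)) := by
    intro s t a1 b2
    rw [F1_add_left, F1_add_right, F1_add_right, F1_smul_left, F1_smul_left, F1_smul_right, F1_smul_right]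
    simp only [map_add, map_smul, smul_eq_mul]
  have h9 := h8 (e b0 a) (e b a0) (a + (-(e b0 a)) • a0) (b + (-(e b a0)) • b0)
  rw [← ea, ← eb] at h9
  rw [h9, h2, h5, h6]
  ring

omit [DecidableEq J] in
/-- A dual basis. -/
theorem F1_dual (hb : Blk e bar p) {n : ℕ} (w : Basis (Fin n) ℂ H) :
    ∃ w' : Fin n → H, ∀ i v, e (w' i) v = w.coord i v := by
  have hinj : Function.Injective e := by
    rw [← LinearMap.ker_eq_bot, LinearMap.ker_eq_bot']
    intro v hv
    exact hb.nd v (fun x => by rw [hv, LinearMap.zero_apply])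
  have hsurj : Function.Surjective e := by
    have hd : finrank ℂ H = finrank ℂ (H →ₗ[ℂ] ℂ) := (Subspace.dual_finrank_eq).symm
    exact (LinearMap.injective_iff_surjective_of_finrank_eq_finrank hd).mp hinj
  have h1 : ∀ i, ∃ x : H, e x = w.coord i := fun i => hsurj _
  choose w' hw' using h1
  exact ⟨w', fun i v => by rw [hw']⟩

omit [FiniteDimensional ℂ H] [DecidableEq J] in
/-- The decomposition of a skew endomorphism. -/
theorem F1_dec (hb : Blk e bar p) {n : ℕ} (w : Basis (Fin n) ℂ H) (w' : Fin n → H)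
    (hw : ∀ i v, e (w' i) v = w.coord i v) (Y : End ℂ H) (hY : ∀ g, Y * p g = p g * Y)
    (hs : ∀ v x, e (Y v) x + e v (Y x) = 0) (g : J) :
    ∑ i, RR e (p g (Y (w i))) (p (bar g) (w' i)) = Y * p g + Y * p (bar g) := by
  have hanti := F1_anti hb
  have h1 : ∀ v, ∑ i, e (w' i) v • w i = v := by
    intro v
    conv_rhs => rw [← w.sum_repr v]
    apply Finset.sum_congr rfl
    intro i _
    rw [hw]
    rfl
  have h2 : ∀ u, ∑ i, e (w i) u • w' i = - u := by
    intro u
    have h3 : ∑ i, e (w i) u • w' i + u = 0 := by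
      apply hb.nd
      intro v
      rw [map_add, LinearMap.add_apply, map_sum, LinearMap.sum_apply]
      have h4 : ∑ i, (e (e (w i) u • w' i)) v = e v u := by
        conv_rhs => rw [← h1 v]
        rw [map_sum, LinearMap.sum_apply]
        apply Finset.sum_congr rfl
        intro i _
        rw [map_smul, map_smul, LinearMap.smul_apply, LinearMap.smul_apply, smul_eq_mul, smul_eq_mul, mul_comm]
      rw [h4, hanti v u]
      ring
    exact eq_neg_of_add_eq_zero_left h3
  have hcom : ∀ g v, Y (p g v) = p g (Y v) := by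
    intro g v
    rw [← Module.End.mul_apply, hY, Module.End.mul_apply]
  have hid : ∀ g v, p g (p g v) = p g v := by
    intro g v
    rw [← Module.End.mul_apply, hb.idem]
  ext v
  rw [LinearMap.sum_apply, LinearMap.add_apply, Module.End.mul_apply, Module.End.mul_apply]
  simp only [RR_apply]
  rw [Finset.sum_add_distrib]
  congr 1
  · have h5 : ∀ i, e (p (bar g) (w' i)) v • p g (Y (w i)) = p g (Y (e (w' i) (p g v) • w i)) := by
      intro i
      rw [map_smul, map_smul, hb.adj, hb.bb]
    rw [Finset.sum_congr rfl (fun i _ => h5 i), ← map_sum, ← map_sum, h1, ← hcom, hid]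
  · have h5 : ∀ i, e (p g (Y (w i))) v • p (bar g) (w' i) = p (bar g) (- (e (w i) (Y (p (bar g) v)) • w' i)) := by
      intro i
      have h6 := hs (w i) (p (bar g) v)
      have h7 : e (p g (Y (w i))) v = - e (w i) (Y (p (bar g) v)) := by
        rw [hb.adj]
        linear_combination h6
      rw [h7, ← neg_smul, map_smul]
    rw [Finset.sum_congr rfl (fun i _ => h5 i), ← map_sum, Finset.sum_neg_distrib, h2, neg_neg, ← hcom, hid]

/-- PROOF.  (1) For each `g` let `w i` (`i : Fin m`) be a basis of the image of `p g` and `w' i` the dual basis of the image of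
`p (bar g)`: `e (w' i) (w j) = if i = j then 1 else 0`.  Every endomorphism `Y` of `H` which commutes with the `p g` and has
`e (Y v) w + e v (Y w) = 0` is a sum of `RR e a b`, `a ∈ range (p g)`, `b ∈ range (p (bar g))`: choose a set `J₊` of
representatives for `g ↦ bar g`; `Y = ∑ g ∈ J₊, ∑ i, RR e (Y (w i)) (w' i)` (both sides agree on the `w i` of the blocks
`g ∈ J₊` and, by skewness, on the dual ones).
(An alternative which avoids `J₊`: `2 Y = ∑ g, ∑ i, RR e (Y (w g i)) (w' g i)` over all `g`.)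
(2) If moreover `trace (Y * p g) = 0` for all `g`: the part of `g`, `∑ i, RR e (Y (w i)) (w' i)`, is in `A`: write
`Y w i = ∑ j, y j i • w j`; `RR e (w j) (w' i) ∈ A` for `i ≠ j` (`hnil`), and `∑ i, y i i RR e (w i) (w' i)`
`= ∑ i, y i i (RR e (w i) (w' i) - RR e (w 0) (w' 0))` (trace zero), where
`RR e (w i) (w' i) - RR e (w 0) (w' 0) = RR e (w i + w 0) (w' i - w' 0) + RR e (w i) (w' 0) - RR e (w 0) (w' i)`
with `e (w' i - w' 0) (w i + w 0) = 0`: in `A`.  So such `Y` are in `A`.
(3) Given `f`, `a`, `b`, let `s = e b a`.  `RR e a b` has `trace (RR e a b * p f) = s`,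
`trace (RR e a b * p (bar f)) = - s` (`e a b = - e b a`), and `0` for the other blocks.  So `Y = RR e a b - s • X f` commutes
with the `p g` (`RR e a b` does by `adj`; `X f` by `hA.comm`), is skew (`X f` by `hA.mult`, `c (X f) = 0`; `RR` by `alt`), and
`trace (Y * p g) = 0` for all `g`: `Y ∈ A` and `RR e a b ∈ A`. -/
theorem full_of_nil (hb : Blk e bar p) (hA : LieOn e p A c)
    (hnil : ∀ f a b, p f a = a → p (bar f) b = b → e b a = 0 → RR e a b ∈ A) (X : J → End ℂ H) (hX : ∀ f, X f ∈ A)
    (hc0 : ∀ f, c (X f) = 0)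
    (htr : ∀ f g, LinearMap.trace ℂ H (X f * p g) = if g = f then 1 else if g = bar f then -1 else 0)
    (f : J) (a b : H) (ha : p f a = a) (hb' : p (bar f) b = b) : RR e a b ∈ A := by
  by_cases h0 : e b a = 0
  · exact hnil f a b ha hb' h0
  by_contra hcon
  obtain ⟨φ, hφ1, hφ2⟩ := Submodule.exists_le_ker_of_notMem (p := A) hcon
  have hφA : ∀ Y ∈ A, φ Y = 0 := fun Y hY => hφ2 hY
  apply hφ1
  have hsc : ∀ g, ∃ r : ℂ, ∀ a b, p g a = a → p (bar g) b = b → φ (RR e a b) = e b a * r := by
    intro g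
    exact F1_scalar hb φ g (fun a b ha hb' h => hφA _ (hnil g a b ha hb' h))
  choose r hr using hsc
  obtain ⟨w', hw'⟩ := F1_dual hb (Module.finBasis ℂ H)
  have hid : ∀ g v, p g (p g v) = p g v := by
    intro g v
    rw [← Module.End.mul_apply, hb.idem]
  have hXs : ∀ v x, e (X f v) x + e v (X f x) = 0 := by
    intro v x
    rw [hA.mult _ (hX f), hc0, zero_mul]
  have hdec := F1_dec hb (Module.finBasis ℂ H) w' hw' (X f) (hA.comm _ (hX f)) hXs
  have h1 : ∀ g, φ (X f * p g + X f * p (bar g)) = LinearMap.trace ℂ H (X f * p g) * r g := by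
    intro g
    rw [← hdec g, map_sum, LinearMap.trace_eq_matrix_trace ℂ (Module.finBasis ℂ H), Matrix.trace, Finset.sum_mul]
    apply Finset.sum_congr rfl
    intro i _
    rw [hr g _ _ (hid _ _) (hid _ _), Matrix.diag_apply, LinearMap.toMatrix_apply, hb.adj, hb.bb, hid, hw']
    rw [hA.comm _ (hX f)]
    rfl
  have h2 : ∑ g, φ (X f * p g + X f * p (bar g)) = 0 := by
    have h3 : ∑ g, (X f * p g + X f * p (bar g)) = X f + X f := by
      rw [Finset.sum_add_distrib]
      congr 1
      · rw [← Finset.mul_sum, hb.sum, mul_one]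
      · rw [← Finset.mul_sum]
        have h4 : ∑ g, p (bar g) = ∑ g, p g := by
          apply Fintype.sum_bijective bar ⟨fun x y hxy => by rw [← hb.bb x, hxy, hb.bb], fun x => ⟨bar x, hb.bb x⟩⟩
          intro x
          rfl
        rw [h4, hb.sum, mul_one]
    rw [← map_sum, h3, map_add, hφA _ (hX f), add_zero]
  have h3 : ∑ g, φ (X f * p g + X f * p (bar g)) = r f - r (bar f) := by
    rw [Finset.sum_congr rfl (fun g _ => h1 g)]
    simp only [htr, ite_mul, one_mul, zero_mul, neg_one_mul]
    rw [Finset.sum_ite, Finset.sum_ite]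
    have hbn := hb.bne f
    have e1 : (Finset.univ.filter (fun x => x = f)) = {f} := by
      ext x
      simp
    have e2 : (Finset.filter (fun x => x = bar f) (Finset.filter (fun x => ¬ x = f) Finset.univ)) = {bar f} := by
      ext x
      simp only [Finset.mem_filter, Finset.mem_univ, true_and, Finset.mem_singleton]
      constructor
      · rintro ⟨_, h⟩
        exact h
      · intro h
        exact ⟨by rw [h]; exact hbn, h⟩
    rw [e1, e2, Finset.sum_singleton, Finset.sum_singleton, Finset.sum_const_zero, add_zero]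
    ring
  rw [h2] at h3
  have h4 := hr f a b ha hb'
  have h5 := hr (bar f) b a hb' (by rw [hb.bb, ha])
  rw [F1_symm, F1_anti hb a b] at h5
  rw [h4] at h5
  have h6 : r (bar f) = - r f := by
    have h7 : e b a * (r f + r (bar f)) = 0 := by linear_combination h5
    rcases mul_eq_zero.mp h7 with h8 | h8
    · exact absurd h8 h0
    · linear_combination h8
  have h7 : r f = 0 := by
    have h8 : (2 : ℂ) * r f = 0 := by linear_combination (-1 : ℂ) * h3 + h6
    rcases mul_eq_zero.mp h8 with h9 | h9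
    · exact absurd h9 two_ne_zero
    · exact h9
  rw [h4, h7, mul_zero]

end TUT
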