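import Pool.Agent.Lib.MP_021685_agUT.C0

/-! The Lie algebra of the endomorphisms which kill all Tate forms. -/

set_option autoImplicit false

namespace TUT

open Module

variable {H : Type} [AddCommGroup H] [Module ℂ H] {G : Type} [Group G]

/-- `T` is a Tate form of weight `i` for the subgroup `G'`. -/
def IsTt (ρ : Representation ℂ G H) (μ : G →* ℂˣ) (G' : Subgroup G) {k : ℕ} (i : ℤ)
    (T : MultilinearMap ℂ (fun _ : Fin k => H) ℂ) : Prop :=
  ∀ s ∈ G', ∀ v, T (fun j => ρ s (v j)) = ((μ s ^ i : ℂˣ) : ℂ) * T v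

/-- The endomorphism `X` acts on all Tate forms of weight `i` for the subgroups in `P` as the multiplication by `i t`. -/
def Kills (ρ : Representation ℂ G H) (μ : G →* ℂˣ) (P : Subgroup G → Prop) (X : End ℂ H) (t : ℂ) : Prop :=
  ∀ G' : Subgroup G, P G' → ∀ (k : ℕ) (i : ℤ) (T : MultilinearMap ℂ (fun _ : Fin k => H) ℂ), IsTt ρ μ G' i T →
    ∀ v, ∑ j, T (Function.update v j (X (v j))) = i * t * T v

/-- PROOF.  For `X`, `Y` let `(X T) v = ∑ j, T (update v j (X (v j)))`, a multilinear form; `X T` is again a Tate form?  Not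
needed: `[X, Y] T v = ∑ j, T (update v j (X (Y v j) - Y (X v j)))`.  One has
`∑ i, ∑ j, T (update (update v j (Y v j)) i (X ((update v j (Y (v j))) i)))`: by `Kills` for `X` at the vector
`update v j (Y (v j))` this is `∑ j, i s T (update v j (Y (v j))) = i s i t T v`; the terms with `i ≠ j` are symmetric in
`(X, i)`, `(Y, j)`, the terms `i = j` are `T (update v j (X (Y (v j))))`.  Subtract the same with `X`, `Y` exchanged. -/
theorem Kills.bracket {ρ : Representation ℂ G H} {μ : G →* ℂˣ} {P : Subgroup G → Prop} {X Y : End ℂ H} {s t : ℂ}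
    (hX : Kills ρ μ P X s) (hY : Kills ρ μ P Y t) : Kills ρ μ P (X * Y - Y * X) 0 := by
  intro G' hG' k i T hT v
  have hA : ∑ j, ∑ l, T (Function.update (Function.update v j (Y (v j))) l
      (X (Function.update v j (Y (v j)) l))) = i * s * (i * t * T v) := by
    rw [← hY G' hG' k i T hT v, Finset.mul_sum]
    exact Finset.sum_congr rfl fun j _ => hX G' hG' k i T hT (Function.update v j (Y (v j)))
  have hB : ∑ j, ∑ l, T (Function.update (Function.update v j (X (v j))) l
      (Y (Function.update v j (X (v j)) l))) = i * t * (i * s * T v) := by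
    rw [← hX G' hG' k i T hT v, Finset.mul_sum]
    exact Finset.sum_congr rfl fun j _ => hY G' hG' k i T hT (Function.update v j (X (v j)))
  have hS : ∀ j, T (Function.update v j ((X * Y - Y * X) (v j))) =
      ∑ l, (T (Function.update (Function.update v j (Y (v j))) l (X (Function.update v j (Y (v j)) l))) -
        T (Function.update (Function.update v l (X (v l))) j (Y (Function.update v l (X (v l)) j)))) := by
    intro j
    rw [Finset.sum_eq_single j]
    · rw [Function.update_self, Function.update_idem, Function.update_self, Function.update_idem,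
        ← MultilinearMap.map_update_sub]
      rfl
    · intro l _ hl
      rw [Function.update_of_ne hl, Function.update_of_ne (Ne.symm hl),
        Function.update_comm (Ne.symm hl), sub_self]
    · intro h
      exact absurd (Finset.mem_univ j) h
  rw [Finset.sum_congr rfl fun j _ => hS j]
  simp only [Finset.sum_sub_distrib]
  rw [hA, Finset.sum_comm, hB]
  ring

/-- PROOF.  `T' v = T (fun j => ρ g (v j))` is a Tate form for `G''` (`hconj`): `T' (s v) = T (g s v) = T ((g s g⁻¹) g v)`,
`μ (g s g⁻¹) = μ s`.  Apply `Kills` for `X` to `T'` and `fun j => ρ g⁻¹ (v j)`. -/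
theorem Kills.conj {ρ : Representation ℂ G H} {μ : G →* ℂˣ} {P : Subgroup G → Prop}
    (hconj : ∀ G', P G' → ∀ g : G, ∃ G'', P G'' ∧ ∀ s ∈ G'', g * s * g⁻¹ ∈ G') {X : End ℂ H} {t : ℂ}
    (hX : Kills ρ μ P X t) (g : G) : Kills ρ μ P (ρ g * X * ρ g⁻¹) t := by
  intro G' hG' k i T hT v
  obtain ⟨G'', hG'', hs⟩ := hconj G' hG' g
  have hgg : ∀ x : H, ρ g (ρ g⁻¹ x) = x := by
    intro x
    rw [← Module.End.mul_apply, ← map_mul, mul_inv_cancel, map_one, Module.End.one_apply]
  have hT' : IsTt ρ μ G'' i (T.compLinearMap fun _ => ρ g) := by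
    intro a ha w
    rw [MultilinearMap.compLinearMap_apply, MultilinearMap.compLinearMap_apply]
    have h1 := hT _ (hs a ha) (fun j => ρ g (w j))
    have h2 : (fun j => ρ (g * a * g⁻¹) (ρ g (w j))) = fun j => ρ g (ρ a (w j)) := by
      funext j
      rw [← Module.End.mul_apply, ← map_mul, ← Module.End.mul_apply, ← map_mul, inv_mul_cancel_right]
    have h3 : μ (g * a * g⁻¹) = μ a := by
      rw [map_mul, map_mul, map_inv, mul_comm, ← mul_assoc, inv_mul_cancel, one_mul]
    rw [h2, h3] at h1
    exact h1
  have h4 := hX G'' hG'' k i _ hT' (fun j => ρ g⁻¹ (v j))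
  rw [MultilinearMap.compLinearMap_apply] at h4
  have h5 : (fun j => ρ g (ρ g⁻¹ (v j))) = v := funext fun j => hgg (v j)
  rw [h5] at h4
  rw [← h4]
  refine Finset.sum_congr rfl fun j _ => ?_
  rw [MultilinearMap.compLinearMap_apply]
  congr 1
  funext l
  by_cases hl : l = j
  · subst hl
    rw [Function.update_self, Function.update_self]
    rfl
  · rw [Function.update_of_ne hl, Function.update_of_ne hl, hgg]

end TUT
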