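import Pool.Agent.Lib.MP_021685_agUT.H1

/-! The Lie algebra of the endomorphisms which kill all Tate forms. -/

set_option autoImplicit false

namespace TUT

open Module

variable {H : Type} [AddCommGroup H] [Module ℂ H] {G : Type} [Group G]

/-- The bilinear form `B` as a multilinear form of two variables. -/
private def H2_form (B : H →ₗ[ℂ] H →ₗ[ℂ] ℂ) : MultilinearMap ℂ (fun _ : Fin 2 => H) ℂ where
  toFun v := B (v 0) (v 1)
  map_update_add' := by
    intro inst v i x y
    have hinst : inst = instDecidableEqFin 2 := Subsingleton.elim _ _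
    subst hinst
    rcases Fin.exists_fin_two.1 ⟨i, rfl⟩ with h | h
    · subst h
      simp [Function.update_self, Function.update_of_ne]
    · subst h
      simp [Function.update_self, Function.update_of_ne]
  map_update_smul' := by
    intro inst v i c x
    have hinst : inst = instDecidableEqFin 2 := Subsingleton.elim _ _
    subst hinst
    rcases Fin.exists_fin_two.1 ⟨i, rfl⟩ with h | h
    · subst h
      simp [Function.update_self, Function.update_of_ne]
    · subst h
      simp [Function.update_self, Function.update_of_ne]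

private theorem H2_form_apply (B : H →ₗ[ℂ] H →ₗ[ℂ] ℂ) (v : Fin 2 → H) : H2_form B v = B (v 0) (v 1) := rfl

private theorem H2_kills {ρ : Representation ℂ G H} {μ : G →* ℂˣ} {P : Subgroup G → Prop} (hP : ∃ G', P G')
    (B : H →ₗ[ℂ] H →ₗ[ℂ] ℂ) (hB : ∀ s v w, B (ρ s v) (ρ s w) = (μ s : ℂ) * B v w) {X : End ℂ H} {t : ℂ}
    (hX : Kills ρ μ P X t) (v w : H) : B (X v) w + B v (X w) = t * B v w := by
  obtain ⟨G', hG'⟩ := hP
  have h1 : IsTt ρ μ G' 1 (H2_form B) := by
    intro s _ v
    rw [H2_form_apply, H2_form_apply, hB, zpow_one]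
  have h2 := hX G' hG' 2 1 (H2_form B) h1 ![v, w]
  rw [Fin.sum_univ_two] at h2
  simp only [H2_form_apply] at h2
  simpa [Function.update_self, Function.update_of_ne] using h2

/-- PROOF.  If `H` is trivial (subsingleton) take `A = ⊤`?  No: then `A = ⊥ = ⊤`, `c = 0` and the third clause needs
`Nontrivial H`.  Choose `v₀, w₀` with `e v₀ w₀ = 1` (`nd`) and let `c X = e (X v₀) w₀ + e v₀ (X w₀)`, a linear form on
`End ℂ H`; `A = {X | Kills ρ μ P X (c X)}` (a subspace: `c` is linear).  `lie`: `Kills.bracket`, where `c (X Y - Y X) = 0`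
because `Kills ρ μ P Z 0` for `Z = X Y - Y X` applied to the Tate form `T v = e (v 0) (v 1)` (`k = 2`, `i = 1`, `he`) gives
`e (Z v) w + e v (Z w) = 0`.  In general `Kills ρ μ P X t` gives `e (X v) w + e v (X w) = t e v w`, so `t = c X`; this is `mult`
and the third clause.  `comm`: the form `T v = e (p f (v 0)) (v 1)` is a Tate form (`hρp`), so
`e (p f (X v)) w + e (p f v) (X w) = c X e (p f v) w = e (X (p f v)) w + e (p f v) (X w)`, hence `p f X = X p f` (`nd`).
The second clause: `Kills.conj`, and `t = c _` by the remark above. -/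
theorem exists_lie [Nontrivial H] {J : Type} [Fintype J] {e : H →ₗ[ℂ] H →ₗ[ℂ] ℂ} {bar : J → J} {p : J → End ℂ H}
    (hb : Blk e bar p) (ρ : Representation ℂ G H) (μ : G →* ℂˣ)
    (he : ∀ s v w, e (ρ s v) (ρ s w) = (μ s : ℂ) * e v w) (hρp : ∀ s f, ρ s * p f = p f * ρ s)
    (P : Subgroup G → Prop) (hP : ∃ G', P G')
    (hconj : ∀ G', P G' → ∀ g : G, ∃ G'', P G'' ∧ ∀ s ∈ G'', g * s * g⁻¹ ∈ G') :
    ∃ (A : Submodule ℂ (End ℂ H)) (c : End ℂ H →ₗ[ℂ] ℂ), LieOn e p A c ∧
      (∀ g, ∀ X ∈ A, ρ g * X * ρ g⁻¹ ∈ A) ∧ (∀ X t, Kills ρ μ P X t → X ∈ A ∧ c X = t) ∧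
      ∀ X ∈ A, Kills ρ μ P X (c X) := by
  classical
  obtain ⟨v₀, hv₀⟩ := exists_ne (0 : H)
  obtain ⟨w₁, hw₁⟩ : ∃ w, e v₀ w ≠ 0 := by
    by_contra h
    push Not at h
    exact hv₀ (hb.nd v₀ h)
  set w₀ : H := (e v₀ w₁)⁻¹ • w₁ with hw₀
  have h1 : e v₀ w₀ = 1 := by
    rw [hw₀, map_smul, smul_eq_mul, inv_mul_cancel₀ hw₁]
  let c : End ℂ H →ₗ[ℂ] ℂ :=
    { toFun := fun X => e (X v₀) w₀ + e v₀ (X w₀)
      map_add' := by
        intro X Y
        simp only [LinearMap.add_apply, map_add]
        ring
      map_smul' := by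
        intro a X
        simp only [LinearMap.smul_apply, map_smul, smul_eq_mul, RingHom.id_apply]
        ring }
  have hc : ∀ X, c X = e (X v₀) w₀ + e v₀ (X w₀) := fun X => rfl
  have hct : ∀ X t, Kills ρ μ P X t → c X = t := by
    intro X t hX
    have h2 := H2_kills hP e he hX v₀ w₀
    rw [h1, mul_one] at h2
    rw [hc, h2]
  have hbr : ∀ X Y, Kills ρ μ P X (c X) → Kills ρ μ P Y (c Y) →
      Kills ρ μ P (X * Y - Y * X) (c (X * Y - Y * X)) := by
    intro X Y hX hY
    have h2 := Kills.bracket hX hY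
    rw [hct _ _ h2]
    exact h2
  let A : Submodule ℂ (End ℂ H) :=
    { carrier := {X | Kills ρ μ P X (c X)}
      add_mem' := by
        intro X Y hX hY G' hG' k i T hT v
        have hx := hX G' hG' k i T hT v
        have hy := hY G' hG' k i T hT v
        simp only [LinearMap.add_apply, MultilinearMap.map_update_add, Finset.sum_add_distrib, hx, hy, map_add]
        ring
      zero_mem' := by
        intro G' hG' k i T hT v
        simp only [LinearMap.zero_apply, map_zero, mul_zero, zero_mul]
        refine Finset.sum_eq_zero fun j _ => ?_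
        exact T.map_coord_zero j (Function.update_self j (0 : H) v)
      smul_mem' := by
        intro a X hX G' hG' k i T hT v
        have hx := hX G' hG' k i T hT v
        simp only [LinearMap.smul_apply, MultilinearMap.map_update_smul, map_smul, smul_eq_mul]
        rw [← Finset.mul_sum, hx]
        ring }
  have hA : ∀ X, X ∈ A ↔ Kills ρ μ P X (c X) := fun X => Iff.rfl
  refine ⟨A, c, ⟨?_, ?_, ?_⟩, ?_, ?_, ?_⟩
  · intro X hX Y hY
    exact hbr X Y hX hY
  · intro X hX f
    have hB : ∀ s v w, (e.comp (p f)) (ρ s v) (ρ s w) = (μ s : ℂ) * (e.comp (p f)) v w := by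
      intro s v w
      have h2 : p f (ρ s v) = ρ s (p f v) := by
        have h3 := congrArg (fun Z : End ℂ H => Z v) (hρp s f)
        exact h3.symm
      simp only [LinearMap.comp_apply]
      rw [h2, he]
    have h3 : ∀ v w, e (p f (X v)) w = e (X (p f v)) w := by
      intro v w
      have h4 := H2_kills hP (e.comp (p f)) hB hX v w
      have h5 := H2_kills hP e he hX (p f v) w
      simp only [LinearMap.comp_apply] at h4
      linear_combination h4 - h5
    refine LinearMap.ext fun v => ?_
    have h6 : X (p f v) - p f (X v) = 0 := by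
      refine hb.nd _ fun w => ?_
      rw [map_sub, LinearMap.sub_apply, h3 v w, sub_self]
    exact sub_eq_zero.1 h6
  · intro X hX v w
    exact H2_kills hP e he hX v w
  · intro g X hX
    have h2 := Kills.conj hconj hX g
    rw [hA, hct _ _ h2]
    exact h2
  · intro X t hX
    have h2 := hct X t hX
    refine ⟨?_, h2⟩
    rw [hA, h2]
    exact hX
  · intro X hX
    exact hX

end TUT
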