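import Mathlib

/-! The commutant of a semisimple action, over `ℂ`. -/

set_option autoImplicit false

namespace TUT

open Module TensorProduct

/-- PROOF (the double commutant theorem).  Let `R = Submodule.span k M`, a subalgebra of `End k V` (`Algebra.adjoin k M`, equal
to the span as `M` is a submonoid), `V` is a semisimple `R`-module (`hss`; the `R`-submodules are the `M`-stable subspaces).
By Jacobson's density theorem (Mathlib: `jacobson_density`, or `Module.Finite.toModuleEnd_moduleEnd_surjective`:
`R → End_{End_R V} V` is surjective; file `Mathlib/RingTheory/SimpleModule/...`) every `Y` which commutes with all the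
`R`-endomorphisms of `V` is in `R`.  The `R`-endomorphisms of `V` commute with `M`, so they are in `span k D` (`hc`), and `Y`
commutes with them (`hY`). -/
theorem dens_base {k : Type} [Field k] {V : Type} [AddCommGroup V] [Module k V] [FiniteDimensional k V]
    (M : Submonoid (End k V))
    (hss : ∀ U : Submodule k V, (∀ X ∈ M, ∀ u ∈ U, X u ∈ U) → ∃ U' : Submodule k V, (∀ X ∈ M, ∀ u ∈ U', X u ∈ U') ∧
      IsCompl U U') (D : Set (End k V)) (hc : ∀ Y : End k V, (∀ X ∈ M, X * Y = Y * X) → Y ∈ Submodule.span k D)
    (Y : End k V) (hY : ∀ d ∈ D, Y * d = d * Y) : Y ∈ Submodule.span k (M : Set (End k V)) := by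
  classical
  have hadj : Subalgebra.toSubmodule (Algebra.adjoin k (M : Set (End k V))) =
      Submodule.span k (M : Set (End k V)) := by
    rw [Algebra.adjoin_eq_span, Submonoid.closure_eq]
  let R : Subalgebra k (End k V) := Algebra.adjoin k (M : Set (End k V))
  have hMR : ∀ X ∈ M, X ∈ R := fun X hX => Algebra.subset_adjoin hX
  have hRs : ∀ X ∈ R, X ∈ Submodule.span k (M : Set (End k V)) := by
    intro X hX
    rw [← hadj]
    exact hX
  have hst : ∀ (W : Submodule k V), (∀ X ∈ M, ∀ u ∈ W, X u ∈ W) → ∀ X ∈ R, ∀ u ∈ W, X u ∈ W := by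
    intro W hW X hX u hu
    have h := hRs X hX
    clear hX
    induction h using Submodule.span_induction with
    | mem Z hZ => exact hW Z hZ u hu
    | zero => simp
    | add Z Z' _ _ h1 h2 =>
      rw [LinearMap.add_apply]
      exact W.add_mem h1 h2
    | smul c Z _ h1 =>
      rw [LinearMap.smul_apply]
      exact W.smul_mem c h1
  have hss' : IsSemisimpleModule R V := by
    refine (isSemisimpleModule_iff R V).mpr ⟨fun U => ?_⟩
    obtain ⟨U', hU', hcomp⟩ := hss (U.restrictScalars k) (by
      intro X hX u hu
      exact U.smul_mem (⟨X, hMR X hX⟩ : R) hu)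
    refine ⟨{ carrier := (U' : Set V), add_mem' := fun ha hb => U'.add_mem ha hb, zero_mem' := U'.zero_mem,
              smul_mem' := fun r u hu => hst U' hU' r.1 r.2 u hu }, ?_⟩
    refine IsCompl.of_eq ?_ ?_
    · rw [Submodule.eq_bot_iff]
      intro x hx
      have h1 := hcomp.inf_eq_bot
      rw [Submodule.eq_bot_iff] at h1
      exact h1 x ⟨hx.1, hx.2⟩
    · rw [Submodule.eq_top_iff']
      intro x
      have h1 : x ∈ (U.restrictScalars k) ⊔ U' := by
        rw [hcomp.sup_eq_top]
        trivial
      obtain ⟨y, hy, z, hz, hyz⟩ := Submodule.mem_sup.mp h1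
      exact Submodule.mem_sup.mpr ⟨y, hy, z, hz, hyz⟩
  have hcomm : ∀ g : End R V, ∀ v : V, Y (g v) = g (Y v) := by
    intro g v
    have h1 : (g.restrictScalars k : End k V) ∈ Submodule.span k D := by
      refine hc _ ?_
      intro X hX
      ext w
      exact (g.map_smul (⟨X, hMR X hX⟩ : R) w).symm
    have h2 : ∀ Z ∈ Submodule.span k D, Y * Z = Z * Y := by
      intro Z hZ
      induction hZ using Submodule.span_induction with
      | mem Z hZ => exact hY Z hZ
      | zero => simp
      | add Z Z' _ _ h1 h2 => rw [mul_add, add_mul, h1, h2]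
      | smul c Z _ h1 => rw [mul_smul_comm, smul_mul_assoc, h1]
    exact LinearMap.congr_fun (h2 _ h1) v
  let f : End (End R V) V :=
    { toFun := fun v => Y v
      map_add' := fun a b => Y.map_add a b
      map_smul' := fun g v => hcomm g v }
  let b := Module.finBasis k V
  obtain ⟨r, hr⟩ := jacobson_density (R := R) (M := V) f (Finset.univ.image b)
  have hYr : Y = r.1 := by
    refine b.ext ?_
    intro i
    exact hr (b i) (Finset.mem_image_of_mem _ (Finset.mem_univ _))
  rw [hYr]
  exact hRs _ r.2

end TUT
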