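import Pool.Agent.Lib.MP_021685_agUT.I1

/-! The commutant of a semisimple action, over `ℂ`. -/

set_option autoImplicit false

namespace TUT

open Module TensorProduct

open Classical in
/-- The `j`-th coordinate of an endomorphism of `ℂ ⊗ V`. -/
private noncomputable def I3_co {k : Type} [Field k] [Algebra k ℂ] {V : Type} [AddCommGroup V] [Module k V]
    {ι : Type} (b : Basis ι k ℂ) (Z : End ℂ (ℂ ⊗[k] V)) (j : ι) : End k V :=
  (TensorProduct.lid k V).toLinearMap ∘ₗ (LinearMap.rTensor V (b.coord j)) ∘ₗ (Z.restrictScalars k) ∘ₗ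
    (TensorProduct.mk k ℂ V 1)

open Classical in
private theorem I3_co_apply {k : Type} [Field k] [Algebra k ℂ] {V : Type} [AddCommGroup V] [Module k V]
    {ι : Type} (b : Basis ι k ℂ) (Z : End ℂ (ℂ ⊗[k] V)) (j : ι) (v : V) :
    I3_co b Z j v = TensorProduct.equivFinsuppOfBasisLeft b (Z (1 ⊗ₜ[k] v)) j := by
  rw [TensorProduct.equivFinsuppOfBasisLeft_apply]
  rfl

private theorem I3_comm {k : Type} [Field k] [Algebra k ℂ] {V : Type} [AddCommGroup V] [Module k V]
    {ι : Type} (b : Basis ι k ℂ) (Z : End ℂ (ℂ ⊗[k] V)) (j : ι) (d : End k V)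
    (h : Z * d.baseChange ℂ = d.baseChange ℂ * Z) : I3_co b Z j * d = d * I3_co b Z j := by
  have key : ∀ x : ℂ ⊗[k] V, TensorProduct.lid k V (LinearMap.rTensor V (b.coord j) (d.baseChange ℂ x)) =
      d (TensorProduct.lid k V (LinearMap.rTensor V (b.coord j) x)) := by
    intro x
    induction x with
    | zero => simp
    | tmul c v => simp
    | add x y hx hy => rw [map_add, map_add, map_add, map_add, map_add, map_add, hx, hy]
  ext v
  have h1 : Z (1 ⊗ₜ[k] d v) = d.baseChange ℂ (Z (1 ⊗ₜ[k] v)) := by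
    have := congrArg (fun f : End ℂ (ℂ ⊗[k] V) => f (1 ⊗ₜ[k] v)) h
    simpa using this
  change TensorProduct.lid k V (LinearMap.rTensor V (b.coord j) (Z (1 ⊗ₜ[k] d v))) =
    d (TensorProduct.lid k V (LinearMap.rTensor V (b.coord j) (Z (1 ⊗ₜ[k] v))))
  rw [h1, key]

open Classical in
private theorem I3_sum {k : Type} [Field k] [Algebra k ℂ] {V : Type} [AddCommGroup V] [Module k V]
    [FiniteDimensional k V] {ι : Type} (b : Basis ι k ℂ) (Z : End ℂ (ℂ ⊗[k] V)) :
    ∃ J : Finset ι, Z = ∑ j ∈ J, b j • (I3_co b Z j).baseChange ℂ := by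
  let e := Module.finBasis k V
  let J : Finset ι := Finset.univ.biUnion fun i =>
    (TensorProduct.equivFinsuppOfBasisLeft b (Z (1 ⊗ₜ[k] e i))).support
  refine ⟨J, ?_⟩
  have h1 : (Z.restrictScalars k) ∘ₗ (TensorProduct.mk k ℂ V 1) =
      ∑ j ∈ J, (TensorProduct.mk k ℂ V (b j)) ∘ₗ (I3_co b Z j) := by
    refine e.ext fun i => ?_
    have h2 := TensorProduct.equivFinsuppOfBasisLeft_symm_apply b
      (TensorProduct.equivFinsuppOfBasisLeft b (Z (1 ⊗ₜ[k] e i)))
    rw [LinearEquiv.symm_apply_apply] at h2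
    change Z (1 ⊗ₜ[k] e i) = _
    rw [h2, Finsupp.sum, LinearMap.sum_apply]
    refine Finset.sum_subset_zero_on_sdiff (Finset.subset_biUnion_of_mem
      (fun i => (TensorProduct.equivFinsuppOfBasisLeft b (Z (1 ⊗ₜ[k] e i))).support) (Finset.mem_univ i)) ?_ ?_
    · intro j hj
      have h3 : I3_co b Z j (e i) = 0 := by
        rw [I3_co_apply]
        exact Finsupp.notMem_support_iff.mp (Finset.mem_sdiff.mp hj).2
      change b j ⊗ₜ[k] (I3_co b Z j (e i)) = 0
      rw [h3, TensorProduct.tmul_zero]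
    · intro j _
      change b j ⊗ₜ[k] _ = b j ⊗ₜ[k] (I3_co b Z j (e i))
      rw [I3_co_apply]
  refine TensorProduct.AlgebraTensorModule.curry_injective ?_
  refine LinearMap.ext_ring ?_
  refine LinearMap.ext fun v => ?_
  have h4 := congrArg (fun f : V →ₗ[k] ℂ ⊗[k] V => f v) h1
  have h5 : Z (1 ⊗ₜ[k] v) = ∑ j ∈ J, b j ⊗ₜ[k] (I3_co b Z j v) := by
    simpa [LinearMap.sum_apply] using h4
  change Z (1 ⊗ₜ[k] v) = (∑ j ∈ J, b j • (I3_co b Z j).baseChange ℂ) (1 ⊗ₜ[k] v)
  rw [h5, LinearMap.sum_apply]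
  refine Finset.sum_congr rfl fun j _ => ?_
  rw [LinearMap.smul_apply, LinearMap.baseChange_tmul, TensorProduct.smul_tmul', smul_eq_mul, mul_one]

/-- PROOF.  Choose a basis of `ℂ` over `k`; every endomorphism `Z` of `ℂ ⊗ V` is a finite sum `∑ c j • (Z j).baseChange ℂ` with
`c j` linearly independent over `k` (e.g. `Z (1 ⊗ v) = ∑ c j ⊗ Z j v` for `v` in a basis of `V`; or
`Module.End.baseChangeHom` and `ℂ ⊗ End k V ≃ End ℂ (ℂ ⊗ V)`: `Module.End` ... `LinearMap.tensorProductEnd`,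
`TensorProduct.exists_finset`).  `Z` commutes with `d.baseChange ℂ`: `∑ c j • (Z j d - d Z j).baseChange ℂ = 0`, so
`Z j d = d Z j` (evaluate at `1 ⊗ v`; the `c j` are independent).  By `dens_base` `Z j ∈ span k M`. -/
theorem dens_alg {k : Type} [Field k] [Algebra k ℂ] {V : Type} [AddCommGroup V] [Module k V] [FiniteDimensional k V]
    (M : Submonoid (End k V))
    (hss : ∀ U : Submodule k V, (∀ X ∈ M, ∀ u ∈ U, X u ∈ U) → ∃ U' : Submodule k V, (∀ X ∈ M, ∀ u ∈ U', X u ∈ U') ∧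
      IsCompl U U') (D : Set (End k V)) (hc : ∀ Y : End k V, (∀ X ∈ M, X * Y = Y * X) → Y ∈ Submodule.span k D)
    (Z : End ℂ (ℂ ⊗[k] V)) (hZ : ∀ d ∈ D, Z * d.baseChange ℂ = d.baseChange ℂ * Z) :
    Z ∈ Submodule.span ℂ {Y : End ℂ (ℂ ⊗[k] V) | ∃ X ∈ M, Y = X.baseChange ℂ} := by
  classical
  let b := Basis.ofVectorSpace k ℂ
  obtain ⟨J, hJ⟩ := I3_sum b Z
  rw [hJ]
  refine Submodule.sum_mem _ fun j _ => Submodule.smul_mem _ _ ?_
  have h1 : I3_co b Z j ∈ Submodule.span k (M : Set (End k V)) :=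
    dens_base M hss D hc _ fun d hd => I3_comm b Z j d (hZ d hd)
  have h2 : ∀ Y : End k V, Y ∈ Submodule.span k (M : Set (End k V)) → Y.baseChange ℂ ∈
      Submodule.span ℂ {Y : End ℂ (ℂ ⊗[k] V) | ∃ X ∈ M, Y = X.baseChange ℂ} := by
    intro Y hY
    induction hY using Submodule.span_induction with
    | mem x hx => exact Submodule.subset_span ⟨x, hx, rfl⟩
    | zero => rw [LinearMap.baseChange_zero]; exact Submodule.zero_mem _
    | add x y _ _ hx hy => rw [LinearMap.baseChange_add]; exact Submodule.add_mem _ hx hy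
    | smul a x _ hx =>
      rw [LinearMap.baseChange_smul, ← algebraMap_smul ℂ a]
      exact Submodule.smul_mem _ _ hx
  exact h2 _ h1

end TUT
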