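import Pool.Agent.Lib.MP_021685_agUT.UD
import Pool.Agent.Lib.MP_021685_agUT.I3
import Pool.Agent.Lib.MP_021685_agTT.GO

/-! Density for all subgroups of finite index. -/

set_option autoImplicit false

namespace TUT

open TensorProduct Pool.Agent.Lib.MP_021685_agTT

/-- Every linear form of `End V` is continuous along `ρ`. -/
private theorem I2_cont {K : Type} [Field K] {l : ℕ} [Fact l.Prime] {V : Type}
    [AddCommGroup V] [Module ℚ_[l] V] [FiniteDimensional ℚ_[l] V] (ρ : Representation ℚ_[l] (GalK K) V)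
    (hcont : ∀ (f : V →ₗ[ℚ_[l]] ℚ_[l]) (v : V), Continuous fun s : GalK K => f (ρ s v))
    (g : Module.Dual ℚ_[l] (Module.End ℚ_[l] V)) : Continuous fun s : GalK K => g (ρ s) := by
  let β := Module.finBasis ℚ_[l] V
  have h1 : ∀ X : Module.End ℚ_[l] V, X = ∑ j, ∑ i, β.coord i (X (β j)) • (β.coord j).smulRight (β i) := by
    intro X
    refine β.ext fun k => ?_
    rw [LinearMap.sum_apply]
    have h2 : ∀ j, (∑ i, β.coord i (X (β j)) • (β.coord j).smulRight (β i) : Module.End ℚ_[l] V) (β k) =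
        if j = k then X (β j) else 0 := by
      intro j
      rw [LinearMap.sum_apply]
      have h3 : ∀ i, (β.coord i (X (β j)) • (β.coord j).smulRight (β i) : Module.End ℚ_[l] V) (β k) =
          (if j = k then (1 : ℚ_[l]) else 0) • (β.coord i (X (β j)) • β i) := by
        intro i
        rw [LinearMap.smul_apply, LinearMap.smulRight_apply, Module.Basis.coord_apply β j, β.repr_self_apply,
          smul_comm]
        by_cases h : k = j
        · rw [if_pos h, if_pos h.symm]
        · rw [if_neg h, if_neg fun h' => h h'.symm]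
      simp only [h3]
      rw [← Finset.smul_sum]
      have h4 : ∑ i, β.coord i (X (β j)) • β i = X (β j) := β.sum_repr _
      rw [h4]
      split_ifs
      · rw [one_smul]
      · rw [zero_smul]
    simp only [h2]
    rw [Finset.sum_ite_eq' Finset.univ k, if_pos (Finset.mem_univ k)]
  have h2 : (fun s : GalK K => g (ρ s)) =
      fun s => ∑ j, ∑ i, β.coord i (ρ s (β j)) * g ((β.coord j).smulRight (β i)) := by
    funext s
    conv_lhs => rw [h1 (ρ s)]
    rw [map_sum]
    refine Finset.sum_congr rfl fun j _ => ?_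
    rw [map_sum]
    refine Finset.sum_congr rfl fun i _ => ?_
    rw [map_smul, smul_eq_mul]
  rw [h2]
  exact continuous_finsetSum _ fun j _ => continuous_finsetSum _ fun i _ =>
    (hcont (β.coord i) (β j)).mul continuous_const

/-- The span of the `ρ t`, `t` in `G'`, contains `ρ s` for `s` in the closure. -/
private theorem I2_closure {K : Type} [Field K] {l : ℕ} [Fact l.Prime] {V : Type}
    [AddCommGroup V] [Module ℚ_[l] V] [FiniteDimensional ℚ_[l] V] (ρ : Representation ℚ_[l] (GalK K) V)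
    (hcont : ∀ (f : V →ₗ[ℚ_[l]] ℚ_[l]) (v : V), Continuous fun s : GalK K => f (ρ s v))
    (G' : Subgroup (GalK K)) {s : GalK K} (hs : s ∈ closure (G' : Set (GalK K))) :
    ρ s ∈ Submodule.span ℚ_[l] {X : Module.End ℚ_[l] V | ∃ t ∈ G', X = ρ t} := by
  by_contra hn
  obtain ⟨g, hg, hg'⟩ := Submodule.exists_dual_map_eq_bot_of_notMem hn inferInstance
  have h1 : IsClosed {t : GalK K | g (ρ t) = 0} := isClosed_eq (I2_cont ρ hcont g) continuous_const
  have h2 : (G' : Set (GalK K)) ⊆ {t : GalK K | g (ρ t) = 0} := by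
    intro t ht
    have h3 : g (ρ t) ∈ (Submodule.span ℚ_[l] {X : Module.End ℚ_[l] V | ∃ t ∈ G', X = ρ t}).map g :=
      Submodule.mem_map_of_mem (Submodule.subset_span ⟨t, ht, rfl⟩)
    rw [hg', Submodule.mem_bot] at h3
    exact h3
  exact hg (closure_minimal h2 h1 hs)

/-- PROOF.  (1) There is a finite extension `L` of `K` such that `L.fixingSubgroup` is in the closure of `G'`
(`exists_finite_ext` in `MP_021685_agTT/GO.lean`).  (2) The span `R` over `ℚ_l` of the `ρ s`, `s ∈ G'`, contains all `ρ s` for `s`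
in the closure: if not there is a linear form `λ` on `End V` which is zero on `R` with `λ (ρ s) ≠ 0`; `s ↦ λ (ρ s)` is
continuous (`hcont`: it is a combination of matrix coefficients `f (ρ s v)`, as the linear forms `X ↦ f (X v)` span the
dual of `End V`) and zero on `G'`.
(3) Apply `dens_alg` with `M = {ρ s | s ∈ L.fixingSubgroup}` (a submonoid of `End V`) and `D = Set.range a`
(`hF.semisimple`, `hF.full`): `Z ∈ span {(ρ s).baseChange ℂ | s ∈ L.fixingSubgroup}`; each of these is in the span over `ℂ` of the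
`(ρ s).baseChange ℂ = repC ρ s`, `s ∈ G'`, by (2). -/
theorem dens_galois {K : Type} [Field K] {l : ℕ} [Fact l.Prime] [Algebra ℚ_[l] ℂ] {V : Type}
    [AddCommGroup V] [Module ℚ_[l] V] [FiniteDimensional ℚ_[l] V] (ρ : Representation ℚ_[l] (GalK K) V)
    (hcont : ∀ (f : V →ₗ[ℚ_[l]] ℚ_[l]) (v : V), Continuous fun s : GalK K => f (ρ s v))
    {D : Type} [Ring D] [Algebra ℚ D] (a : D →+* Module.End ℚ_[l] V) (hF : IsFaltings (IsFix K) ρ a)
    (G' : Subgroup (GalK K)) (hG' : G'.FiniteIndex) (Z : Module.End ℂ (ℂ ⊗[ℚ_[l]] V))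
    (hZ : ∀ x, Z * (a x).baseChange ℂ = (a x).baseChange ℂ * Z) :
    Z ∈ Submodule.span ℂ {Y : Module.End ℂ (ℂ ⊗[ℚ_[l]] V) | ∃ s ∈ G', Y = repC ρ s} := by
  obtain ⟨L, hL, hLc⟩ := exists_finite_ext G' hG'
  have h1 := dens_alg (k := ℚ_[l]) ((L.fixingSubgroup.toSubmonoid).map (ρ : GalK K →* Module.End ℚ_[l] V))
    (by
      intro U hU
      obtain ⟨U', h2, h3⟩ := hF.semisimple _ ⟨L, hL, rfl⟩ U fun s hs u hu => hU _ ⟨s, hs, rfl⟩ u hu
      refine ⟨U', ?_, h3⟩
      rintro X ⟨s, hs, rfl⟩ u hu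
      exact h2 s hs u hu)
    (Set.range a)
    (fun Y hY => hF.full _ ⟨L, hL, rfl⟩ Y fun s hs => hY _ ⟨s, hs, rfl⟩) Z
    (by
      rintro d ⟨x, rfl⟩
      exact hZ x)
  refine Submodule.span_le.2 ?_ h1
  rintro Y ⟨X, ⟨s, hs, rfl⟩, rfl⟩
  have h2 := I2_closure ρ hcont G' (hLc s hs)
  show (ρ s).baseChange ℂ ∈ Submodule.span ℂ {Y : Module.End ℂ (ℂ ⊗[ℚ_[l]] V) | ∃ s ∈ G', Y = repC ρ s}
  generalize ρ s = X at h2 ⊢
  induction h2 using Submodule.span_induction with
  | mem X hX =>
    obtain ⟨t, ht, rfl⟩ := hX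
    exact Submodule.subset_span ⟨t, ht, rfl⟩
  | zero =>
    rw [LinearMap.baseChange_zero]
    exact Submodule.zero_mem _
  | add X Y _ _ hX hY =>
    rw [LinearMap.baseChange_add]
    exact Submodule.add_mem _ hX hY
  | smul c X _ hX =>
    rw [LinearMap.baseChange_smul, ← algebraMap_smul ℂ c]
    exact Submodule.smul_mem _ _ hX

end TUT
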