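import Pool.Agent.Lib.MP_021685_agUT.UD2
import Pool.Agent.Lib.MP_802513_ag.UAut

/-! The multiplicities. -/

set_option autoImplicit false

namespace TUT

open Module

variable {r : ℕ} {E : Fin r → Type} [∀ i, Field (E i)] [∀ i, NumberField (E i)] {K : Type} [Field K]

/-- The values of the embeddings at the elements of the product of the fields are linearly independent. -/
private theorem J1_li : LinearIndependent ℂ (fun (f : Σ i, E i →+* ℂ) (x : ∀ i, E i) => f.2 (x f.1)) := by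
  classical
  have h := linearIndependent_monoidHom (∀ i, E i) ℂ
  refine h.comp (fun f : (Σ i, E i →+* ℂ) => ((f.2.comp (Pi.evalRingHom E f.1) : (∀ i, E i) →+* ℂ) : (∀ i, E i) →* ℂ)) ?_
  rintro ⟨i, φ⟩ ⟨j, ψ⟩ h'
  have h2 : ∀ x : ∀ i, E i, φ (x i) = ψ (x j) := fun x => DFunLike.congr_fun h' x
  have hij : i = j := by
    by_contra hij
    have h3 := h2 (Pi.single i 1)
    rw [Pi.single_eq_same, Pi.single_eq_of_ne (fun h => hij h.symm), map_one, map_zero] at h3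
    exact one_ne_zero h3
  subst hij
  have h4 : φ = ψ := by
    ext y
    have h3 := h2 (Pi.single i y)
    rwa [Pi.single_eq_same] at h3
  rw [h4]

/-- The bijection of the embeddings given by an automorphism of `ℂ`. -/
private def J1_e (τ : ℂ ≃+* ℂ) : (Σ i, E i →+* ℂ) ≃ (Σ i, E i →+* ℂ) where
  toFun f := ⟨f.1, (τ : ℂ →+* ℂ).comp f.2⟩
  invFun f := ⟨f.1, (τ.symm : ℂ →+* ℂ).comp f.2⟩
  left_inv := by
    rintro ⟨i, φ⟩
    have h : (τ.symm : ℂ →+* ℂ).comp ((τ : ℂ →+* ℂ).comp φ) = φ := by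
      ext x
      exact τ.symm_apply_apply (φ x)
    show (⟨i, (τ.symm : ℂ →+* ℂ).comp ((τ : ℂ →+* ℂ).comp φ)⟩ : Σ i, E i →+* ℂ) = ⟨i, φ⟩
    rw [h]
  right_inv := by
    rintro ⟨i, φ⟩
    have h : (τ : ℂ →+* ℂ).comp ((τ.symm : ℂ →+* ℂ).comp φ) = φ := by
      ext x
      exact τ.apply_symm_apply (φ x)
    show (⟨i, (τ : ℂ →+* ℂ).comp ((τ.symm : ℂ →+* ℂ).comp φ)⟩ : Σ i, E i →+* ℂ) = ⟨i, φ⟩
    rw [h]

/-- PROOF.  Apply `τ` to `IsType`: `(τ σ) (t x) = ∑ f, n σ f (τ f) (x) = ∑ f, n σ (τ⁻¹ f) f (x)`, and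
`(τ σ) (t x) = ∑ f, n (τ σ) f f (x)`; the maps `x ↦ f.2 (x f.1)` are linearly independent over `ℂ` (different ring
homomorphisms: `linearIndependent_monoidHom`, see `li_emb` in `MP_802513_ag/WEt.lean`), so `n (τ σ) (τ f) = n σ f`. -/
theorem IsType.comp {t : (∀ i, E i) → K} {n : (K →+* ℂ) → (Σ i, E i →+* ℂ) → ℕ} (h : IsType t n) (τ : ℂ ≃+* ℂ)
    (σ : K →+* ℂ) (f : Σ i, E i →+* ℂ) : n ((τ : ℂ →+* ℂ).comp σ) ⟨f.1, (τ : ℂ →+* ℂ).comp f.2⟩ = n σ f := by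
  have h1 : ∀ x : ∀ i, E i, ∑ g : Σ i, E i →+* ℂ, (n σ g : ℂ) * (J1_e τ g).2 (x (J1_e τ g).1) =
      ∑ g : Σ i, E i →+* ℂ, (n ((τ : ℂ →+* ℂ).comp σ) (J1_e τ g) : ℂ) * (J1_e τ g).2 (x (J1_e τ g).1) := by
    intro x
    have h2 : ((τ : ℂ →+* ℂ).comp σ) (t x) =
        ∑ g : Σ i, E i →+* ℂ, (n ((τ : ℂ →+* ℂ).comp σ) g : ℂ) * g.2 (x g.1) := h _ x
    have h3 : ∑ g : Σ i, E i →+* ℂ, (n ((τ : ℂ →+* ℂ).comp σ) (J1_e τ g) : ℂ) * (J1_e τ g).2 (x (J1_e τ g).1) =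
        ∑ g : Σ i, E i →+* ℂ, (n ((τ : ℂ →+* ℂ).comp σ) g : ℂ) * g.2 (x g.1) :=
      Fintype.sum_equiv (J1_e τ) _ _ fun _ => rfl
    rw [h3, ← h2]
    show _ = τ (σ (t x))
    rw [h σ x, map_sum]
    refine Finset.sum_congr rfl fun g _ => ?_
    rw [map_mul, map_natCast]
    rfl
  have hli := J1_li (E := E)
  rw [Fintype.linearIndependent_iff] at hli
  have h4 := hli (fun g => (n σ ((J1_e τ).symm g) : ℂ) - (n ((τ : ℂ →+* ℂ).comp σ) g : ℂ)) (by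
    funext x
    rw [Finset.sum_apply]
    have h5 : ∑ g : Σ i, E i →+* ℂ, (((n σ ((J1_e τ).symm (J1_e τ g)) : ℂ) -
        (n ((τ : ℂ →+* ℂ).comp σ) (J1_e τ g) : ℂ)) * (J1_e τ g).2 (x (J1_e τ g).1)) =
        ∑ g : Σ i, E i →+* ℂ, (((n σ ((J1_e τ).symm g) : ℂ) -
        (n ((τ : ℂ →+* ℂ).comp σ) g : ℂ)) * g.2 (x g.1)) :=
      Fintype.sum_equiv (J1_e τ) _ _ fun _ => rfl
    have h6 : ∑ g : Σ i, E i →+* ℂ, (((n σ ((J1_e τ).symm g) : ℂ) -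
        (n ((τ : ℂ →+* ℂ).comp σ) g : ℂ)) * g.2 (x g.1)) = 0 := by
      rw [← h5]
      have h7 := h1 x
      rw [← sub_eq_zero, ← Finset.sum_sub_distrib] at h7
      rw [← h7]
      refine Finset.sum_congr rfl fun g _ => ?_
      rw [Equiv.symm_apply_apply, sub_mul]
    exact h6) (J1_e τ f)
  have h8 : (n σ ((J1_e τ).symm (J1_e τ f)) : ℂ) - (n ((τ : ℂ →+* ℂ).comp σ) (J1_e τ f) : ℂ) = 0 := h4
  rw [Equiv.symm_apply_apply, sub_eq_zero] at h8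
  exact (Nat.cast_injective (R := ℂ) h8).symm

theorem no_link (hsep : TSP.Sep E) {n : (K →+* ℂ) → (Σ i, E i →+* ℂ) → ℕ}
    (hn : ∀ (τ : ℂ ≃+* ℂ) (σ : K →+* ℂ) (f : Σ i, E i →+* ℂ),
      n ((τ : ℂ →+* ℂ).comp σ) ⟨f.1, (τ : ℂ →+* ℂ).comp f.2⟩ = n σ f)
    (hm : ∀ σ σ' f, n σ f + n σ (cj f) = n σ' f + n σ' (cj f)) {N : Fin r → ℕ} (hN : ∀ i, 0 < N i)
    (h1 : ∀ f, ∃ σ : K →+* ℂ, Nat.gcd (n σ f) (n σ (cj f)) = N f.1 ∧ n σ f + n σ (cj f) ≠ 2 * N f.1)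
    (f g : Σ i, E i →+* ℂ) (hg : g ≠ f) (hg' : g ≠ cj f) (h2 : ∀ σ, 2 * N f.1 ≤ n σ f + n σ (cj f)) :
    ∃ σ, n σ f * N g.1 ≠ n σ g * N f.1 ∧ (n σ f ≠ 0 ∧ n σ (cj f) ≠ 0 ∨ n σ g ≠ 0 ∧ n σ (cj g) ≠ 0) := by
  obtain ⟨σ, hc, h3⟩ := h1 f
  have hge := h2 σ
  have hNf := hN f.1
  have hne0 : n σ f ≠ 0 := by
    intro h
    rw [h, Nat.gcd_zero_left] at hc
    omega
  have hne1 : n σ (cj f) ≠ 0 := by
    intro h
    rw [h, Nat.gcd_zero_right] at hc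
    omega
  have hne : n σ f ≠ n σ (cj f) := by
    intro h
    rw [← h, Nat.gcd_self] at hc
    omega
  by_cases h4 : n σ f * N g.1 = n σ g * N f.1
  · obtain ⟨τ, hτ1, hτ2⟩ := hsep f g hg hg'
    have e1 : n ((τ : ℂ →+* ℂ).comp σ) (cj f) = n σ f := by
      rw [← hn τ σ f, hτ1]
      rfl
    have e2 : n ((τ : ℂ →+* ℂ).comp σ) g = n σ g := by
      have h5 := hn τ σ g
      rw [hτ2] at h5
      exact h5
    have e3 := hm ((τ : ℂ →+* ℂ).comp σ) σ f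
    have e4 : n ((τ : ℂ →+* ℂ).comp σ) f = n σ (cj f) := by omega
    refine ⟨(τ : ℂ →+* ℂ).comp σ, ?_, Or.inl ⟨?_, ?_⟩⟩
    · rw [e4, e2, ← h4]
      exact fun h => hne (Nat.eq_of_mul_eq_mul_right (hN g.1) h).symm
    · rw [e4]
      exact hne1
    · rw [e1]
      exact hne0
  · exact ⟨σ, h4, Or.inl ⟨hne0, hne1⟩⟩

end TUT
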