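import Mathlib

/-! Duality. -/

set_option autoImplicit false

namespace TUT

private lemma M1_int {J : Type} [Fintype J] (r : J → ℚ) :
    ∃ N : ℤ, N ≠ 0 ∧ ∃ Z : J → ℤ, ∀ g, (Z g : ℚ) = N * r g := by
  obtain ⟨b, hb⟩ := IsLocalization.exist_integer_multiples_of_finite (nonZeroDivisors ℤ) r
  choose Z hZ using hb
  refine ⟨b, nonZeroDivisors.coe_ne_zero b, Z, fun g => ?_⟩
  have h := hZ g
  rw [eq_intCast] at h
  rw [h, zsmul_eq_mul]

theorem centre_of_nondeg {S J : Type} [Fintype S] [DecidableEq S] [Fintype J] [DecidableEq J] (bar : J → J)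
    (hbb : ∀ f, bar (bar f) = f) (hbne : ∀ f, bar f ≠ f) (cs : S → S) (n : S → J → ℕ)
    (hn : ∀ σ f, n (cs σ) f = n σ (bar f))
    (hz : ∀ z : J → ℤ, (∀ f, z (bar f) = - z f) → (∀ σ, ∑ f, z f * (n σ f : ℤ) = 0) → ∀ f, z f = 0) (f : J) :
    ∃ c : S → ℂ, ∑ σ, c σ = 0 ∧ ∀ g, ∑ σ, c σ * (n σ g : ℂ) = if g = f then 1 else if g = bar f then -1 else 0 := by
  by_contra hcon
  push Not at hcon
  -- the linear map `c ↦ (∑ c σ n σ g)_g`
  obtain ⟨T, hT⟩ : ∃ T : (S → ℂ) →ₗ[ℂ] (J → ℂ), ∀ c g, T c g = ∑ σ, c σ * (n σ g : ℂ) := by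
    refine ⟨{ toFun := fun c g => ∑ σ, c σ * (n σ g : ℂ), map_add' := ?_, map_smul' := ?_ },
      fun _ _ => rfl⟩
    · intro c d
      funext g
      simp only [Pi.add_apply, add_mul, Finset.sum_add_distrib]
    · intro t c
      funext g
      simp only [Pi.smul_apply, smul_eq_mul, RingHom.id_apply, Finset.mul_sum, mul_assoc]
  obtain ⟨s, hs⟩ : ∃ s : (S → ℂ) →ₗ[ℂ] ℂ, ∀ c, s c = ∑ σ, c σ := by
    refine ⟨{ toFun := fun c => ∑ σ, c σ, map_add' := ?_, map_smul' := ?_ }, fun _ => rfl⟩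
    · intro c d
      simp only [Pi.add_apply, Finset.sum_add_distrib]
    · intro t c
      simp only [Pi.smul_apply, smul_eq_mul, RingHom.id_apply, Finset.mul_sum]
  obtain ⟨w, hw⟩ : ∃ w : J → ℂ, ∀ g, w g = if g = f then 1 else if g = bar f then -1 else 0 :=
    ⟨_, fun _ => rfl⟩
  have hwU : w ∉ (LinearMap.ker s).map T := by
    rintro ⟨c, hc, hcw⟩
    have hc' : ∑ σ, c σ = 0 := by rw [← hs]; exact hc
    obtain ⟨g, hg⟩ := hcon c hc'
    apply hg
    rw [← hT, hcw, hw]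
  obtain ⟨φ, hφw, hφU⟩ := Submodule.exists_le_ker_of_notMem hwU
  obtain ⟨y, hy⟩ : ∃ y : J → ℂ, ∀ g, y g = φ (Pi.single g 1) := ⟨_, fun _ => rfl⟩
  have hφ : ∀ u : J → ℂ, φ u = ∑ g, y g * u g := by
    intro u
    have h1 : u = ∑ g, u g • (Pi.single g (1 : ℂ) : J → ℂ) := by
      funext h
      simp [Finset.sum_apply, Pi.single_apply]
    conv_lhs => rw [h1]
    rw [map_sum]
    refine Finset.sum_congr rfl fun g _ => ?_
    rw [map_smul, ← hy, smul_eq_mul, mul_comm]
  have hinv : Function.Involutive bar := hbb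
  have hzf : y f - y (bar f) ≠ 0 := by
    have h1 : φ w = y f - y (bar f) := by
      rw [hφ]
      have h2 : ∀ g, y g * w g = (if g = f then y g else 0) - (if g = bar f then y g else 0) := by
        intro g
        rw [hw]
        by_cases h3 : g = f
        · have h4 : ¬ g = bar f := by
            rw [h3]
            exact (hbne f).symm
          rw [if_pos h3, if_pos h3, if_neg h4, mul_one, sub_zero]
        · by_cases h4 : g = bar f
          · rw [if_neg h3, if_neg h3, if_pos h4, if_pos h4]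
            ring
          · rw [if_neg h3, if_neg h3, if_neg h4, if_neg h4]
            ring
      simp_rw [h2]
      rw [Finset.sum_sub_distrib, Finset.sum_ite_eq' Finset.univ f, Finset.sum_ite_eq' Finset.univ (bar f),
        if_pos (Finset.mem_univ _), if_pos (Finset.mem_univ _)]
    rw [← h1]
    exact hφw
  have hsum : ∀ σ, ∑ g, (y g - y (bar g)) * (n σ g : ℂ) = 0 := by
    intro σ
    have h1 : T (Pi.single σ 1 - Pi.single (cs σ) 1) ∈ (LinearMap.ker s).map T := by
      refine ⟨_, ?_, rfl⟩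
      change s _ = 0
      rw [hs]
      simp [Finset.sum_sub_distrib, Pi.single_apply]
    have h2 : φ (T (Pi.single σ 1 - Pi.single (cs σ) 1)) = 0 := hφU h1
    rw [hφ] at h2
    have h3 : ∀ g, T (Pi.single σ 1 - Pi.single (cs σ) 1) g = (n σ g : ℂ) - (n σ (bar g) : ℂ) := by
      intro g
      rw [hT]
      simp only [Pi.sub_apply, sub_mul, Finset.sum_sub_distrib, Pi.single_apply, ite_mul, one_mul,
        zero_mul, Finset.sum_ite_eq', Finset.mem_univ, if_true]
      rw [hn]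
    simp_rw [h3] at h2
    have h4 : ∑ g, y g * (n σ (bar g) : ℂ) = ∑ g, y (bar g) * (n σ g : ℂ) := by
      refine Fintype.sum_equiv hinv.toPerm _ _ fun g => ?_
      rw [Function.Involutive.coe_toPerm, hbb]
    simp_rw [mul_sub] at h2
    rw [Finset.sum_sub_distrib, h4] at h2
    simp_rw [sub_mul]
    rw [Finset.sum_sub_distrib]
    exact h2
  obtain ⟨π, hπ⟩ : ∃ π : Module.Dual ℚ ℂ, π (y f - y (bar f)) ≠ 0 := by
    by_contra h1
    push Not at h1
    exact hzf ((Module.forall_dual_apply_eq_zero_iff ℚ _).mp h1)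
  obtain ⟨N, hN, Z, hZ⟩ := M1_int (fun g => π (y g - y (bar g)))
  have h1 : ∀ g, Z (bar g) = - Z g := by
    intro g
    have h2 : (Z (bar g) : ℚ) = ((- Z g : ℤ) : ℚ) := by
      rw [Int.cast_neg, hZ, hZ, hbb, ← neg_sub (y g), map_neg]
      ring
    exact_mod_cast h2
  have h2 : ∀ σ, ∑ g, Z g * (n σ g : ℤ) = 0 := by
    intro σ
    have h3 : ((∑ g, Z g * (n σ g : ℤ) : ℤ) : ℚ) = 0 := by
      rw [Int.cast_sum]
      have h4 : ∀ g, ((Z g * (n σ g : ℤ) : ℤ) : ℚ) = N * π ((y g - y (bar g)) * (n σ g : ℂ)) := by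
        intro g
        have h5 : (y g - y (bar g)) * (n σ g : ℂ) = (n σ g) • (y g - y (bar g)) := by
          rw [nsmul_eq_mul, mul_comm]
        rw [h5, map_nsmul, Int.cast_mul, hZ, nsmul_eq_mul, Int.cast_natCast]
        ring
      simp_rw [h4]
      rw [← Finset.mul_sum, ← map_sum, hsum, map_zero, mul_zero]
    exact_mod_cast h3
  have h3 := hz Z h1 h2 f
  have h4 := hZ f
  rw [h3, Int.cast_zero] at h4
  have h5 : (N : ℚ) ≠ 0 := by exact_mod_cast hN
  exact hπ ((mul_eq_zero.mp h4.symm).resolve_left h5)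

end TUT
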