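import Pool.Agent.Lib.MP_021685_agUT.UD

/-! Definitions used in the statement of `MP_021685_ag.UnitaryType`: the criterion. -/

set_option autoImplicit false

namespace TUT

open TensorProduct Pool.Agent.Lib.MP_17a322_nt.VA Pool.Agent.Lib.MP_021685_agTT

section

variable {r : ℕ} {E : Fin r → Type} [∀ i, Field (E i)] {K : Type} [Field K]

/-- With `m σ f = n σ f / N f`: if `f` and `g` are two embeddings, not equal or conjugate, and
`m σ f + m σ (conj f) = m σ g + m σ (conj g) ≥ 2`, then there is `σ` such that `m σ f ≠ m σ g` and `m σ f`, `m σ (conj f)` are not `0`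
or `m σ g`, `m σ (conj g)` are not `0`. -/
def NoLink (n : (K →+* ℂ) → (Σ i, E i →+* ℂ) → ℕ) (N : Fin r → ℕ) : Prop :=
  ∀ f g, g ≠ f → g ≠ cj f → (∀ σ, 2 * N f.1 ≤ n σ f + n σ (cj f)) →
    (∀ σ, (n σ f + n σ (cj f)) * N g.1 = (n σ g + n σ (cj g)) * N f.1) →
      ∃ σ, n σ f * N g.1 ≠ n σ g * N f.1 ∧ (n σ f ≠ 0 ∧ n σ (cj f) ≠ 0 ∨ n σ g ≠ 0 ∧ n σ (cj g) ≠ 0)

/-- There are no integers `z f`, not all zero, with `z (conj f) = - z f` and `∑ f, z f * n σ f = 0` for all `σ`. -/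
def Nondeg [∀ i, NumberField (E i)] (n : (K →+* ℂ) → (Σ i, E i →+* ℂ) → ℕ) : Prop :=
  ∀ z : (Σ i, E i →+* ℂ) → ℤ, (∀ f, z (cj f) = - z f) → (∀ σ, ∑ f, z f * (n σ f : ℤ) = 0) → ∀ f, z f = 0

/-- Shimura's theorem: if for one `σ` one of any two conjugate embeddings of `E i` has the multiplicity zero, the `i`-th factor
has complex multiplication. -/
def IsShimura (n : (K →+* ℂ) → (Σ i, E i →+* ℂ) → ℕ) (N : Fin r → ℕ) : Prop :=
  ∀ i, ∃ σ, (∀ φ : E i →+* ℂ, n σ ⟨i, φ⟩ = 0 ∨ n σ (cj ⟨i, φ⟩) = 0) →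
    ∀ φ : E i →+* ℂ, n σ ⟨i, φ⟩ + n σ (cj ⟨i, φ⟩) = N i

end

section

variable {G : Type} [Group G] {H : Type} [AddCommGroup H] [Module ℂ H] (ρ : Representation ℂ G H)

/-- `d` is the determinant of `s` on `U`. -/
def IsDet (U : Submodule ℂ H) (s : G) (d : ℂ) : Prop :=
  ∃ u : Module.End ℂ U, (∀ v : U, ((u v : U) : H) = ρ s v) ∧ LinearMap.det u = d

/-- Serre's theorem on the locally algebraic characters, for the determinants on the parts `U f`: a product of powers of the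
determinants all whose Hodge-Tate weights are zero has finite order. -/
def IsSerre (P : Subgroup G → Prop) {J : Type} [Fintype J] (U : J → Submodule ℂ H) {S : Type} (n : S → J → ℕ) : Prop :=
  ∀ z : J → ℤ, (∀ σ, ∑ f, z f * (n σ f : ℤ) = 0) →
    ∃ G', P G' ∧ ∀ s ∈ G', ∀ d : J → ℂ, (∀ f, IsDet ρ (U f) s (d f)) → ∏ f, d f ^ z f = 1

/-- For two embeddings `f`, `g`, not equal or conjugate, the part of `f` of dimension greater than `N f`: every linear map from the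
part of `f` to the part of `g` which is equivariant up to numbers `χ s` is zero. -/
def NoTwist {r : ℕ} {E : Fin r → Type} [∀ i, Field (E i)] (U : (Σ i, E i →+* ℂ) → Submodule ℂ H) (N : Fin r → ℕ) : Prop :=
  ∀ f g, g ≠ f → g ≠ cj f → Module.finrank ℂ (U f) ≠ N f.1 → ∀ (χ : G → ℂ) (Θ : Module.End ℂ H),
    (∀ v ∈ U f, Θ v ∈ U g) → (∀ s, ∀ v ∈ U f, Θ (ρ s v) = χ s • ρ s (Θ v)) → ∀ v ∈ U f, Θ v = 0

end

/-- The situation: an abelian variety over a number field all whose simple factors (over the algebraic closure) are of type IV,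
with the endomorphism algebra `D`. -/
structure IsUnitary {K : Type} [Field K] {M : ℕ} (A : AV K M) (l : ℕ) [Fact l.Prime] [Algebra ℚ_[l] ℂ]
    {V : Type} [AddCommGroup V] [Module ℚ_[l] V] (ι : (ℕ → A.Pts (AlgebraicClosure K)) → V)
    (ρ : Representation ℚ_[l] (GalK K) V) (e : V →ₗ[ℚ_[l]] V →ₗ[ℚ_[l]] ℚ_[l])
    {D : Type} [Ring D] [Algebra ℚ D] (b : D →+* Module.End ℚ_[l] V)
    {r : ℕ} {E : Fin r → Type} [∀ i, Field (E i)] [∀ i, NumberField (E i)] (c : (∀ i, E i) →+* D)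
    (t : (∀ i, E i) → K) (n : (K →+* ℂ) → (Σ i, E i →+* ℂ) → ℕ) (N : Fin r → ℕ) : Prop where
  tate : IsGalMod A l ι ρ
  weil : IsWeilForm (fun s => ρ s) e
  cm : ∀ i, NumberField.IsCMField (E i)
  centre : IsCentre c N
  faltings : IsFaltings (IsFix K) ρ b
  rosati : IsRosati (b.comp c) e
  type : IsType t n
  ht : ∀ σ, ∃ h, IsHT (IsFix K) (repC ρ) (charC (cyc K l)) (part (b.comp c)) (n σ) h

end TUT
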