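import Pool.Agent.Lib.MP_021685_agUT.J1
import Pool.Agent.Lib.MP_021685_agUT.UD2
import Pool.Agent.Lib.MP_021685_agUT.M1

/-! The conditions on the multiplicities. -/

set_option autoImplicit false

namespace TUT

open Module

variable {r : ℕ} {E : Fin r → Type} [∀ i, Field (E i)] [∀ i, NumberField (E i)] {K : Type} [Field K]

theorem cj_cj' (f : Σ i, E i →+* ℂ) : cj (cj f) = f := by
  obtain ⟨i, φ⟩ := f
  show (⟨i, (starRingEnd ℂ).comp ((starRingEnd ℂ).comp φ)⟩ : Σ i, E i →+* ℂ) = ⟨i, φ⟩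
  have h1 : (starRingEnd ℂ).comp ((starRingEnd ℂ).comp φ) = φ := by
    ext x
    exact Complex.conj_conj (φ x)
  rw [h1]

/-- A property of the multiplicities which holds for one embedding of `E i` holds for all. -/
theorem prop_one (hCM : ∀ i, NumberField.IsCMField (E i)) {n : (K →+* ℂ) → (Σ i, E i →+* ℂ) → ℕ}
    (hn : ∀ (τ : ℂ ≃+* ℂ) (σ : K →+* ℂ) (f : Σ i, E i →+* ℂ),
      n ((τ : ℂ →+* ℂ).comp σ) ⟨f.1, (τ : ℂ →+* ℂ).comp f.2⟩ = n σ f) (Q : ℕ → ℕ → Prop) (i : Fin r)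
    (h0 : ∃ (σ : K →+* ℂ) (φ : E i →+* ℂ), Q (n σ ⟨i, φ⟩) (n σ (cj ⟨i, φ⟩))) (φ : E i →+* ℂ) :
    ∃ σ : K →+* ℂ, Q (n σ ⟨i, φ⟩) (n σ (cj ⟨i, φ⟩)) := by
  obtain ⟨σ₀, φ₀, hc⟩ := h0
  obtain ⟨τ, hτ⟩ := Pool.Agent.Lib.MP_802513_ag.exists_aut φ₀ φ
  have hφ : (τ : ℂ →+* ℂ).comp φ₀ = φ := by
    ext x
    exact hτ x
  have hcj : (starRingEnd ℂ).comp φ = (τ : ℂ →+* ℂ).comp ((starRingEnd ℂ).comp φ₀) := by
    have := hCM i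
    ext x
    have h1 : ∀ ψ : E i →+* ℂ, starRingEnd ℂ (ψ x) = ψ (NumberField.IsCMField.complexConj (E i) x) := fun ψ =>
      (NumberField.IsCMField.complexEmbedding_complexConj (E i) ψ x).symm
    show starRingEnd ℂ (φ x) = τ (starRingEnd ℂ (φ₀ x))
    rw [h1, h1, ← hφ]
    rfl
  refine ⟨(τ : ℂ →+* ℂ).comp σ₀, ?_⟩
  have h1 := hn τ σ₀ ⟨i, φ₀⟩
  have h2 := hn τ σ₀ (cj ⟨i, φ₀⟩)
  have h3 : (⟨i, (τ : ℂ →+* ℂ).comp φ₀⟩ : Σ i, E i →+* ℂ) = ⟨i, φ⟩ := by rw [hφ]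
  have h4 : (⟨(cj ⟨i, φ₀⟩ : Σ i, E i →+* ℂ).1, (τ : ℂ →+* ℂ).comp (cj ⟨i, φ₀⟩ : Σ i, E i →+* ℂ).2⟩ :
      Σ i, E i →+* ℂ) = cj ⟨i, φ⟩ := by
    show (⟨i, (τ : ℂ →+* ℂ).comp ((starRingEnd ℂ).comp φ₀)⟩ : Σ i, E i →+* ℂ) = ⟨i, (starRingEnd ℂ).comp φ⟩
    rw [hcj]
  have h1' : n ((τ : ℂ →+* ℂ).comp σ₀) ⟨i, φ⟩ = n σ₀ ⟨i, φ₀⟩ := by rw [← h1, h3]
  have h2' : n ((τ : ℂ →+* ℂ).comp σ₀) (cj ⟨i, φ⟩) = n σ₀ (cj ⟨i, φ₀⟩) := by rw [← h2, h4]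
  rw [h1', h2']
  exact hc

/-- The complex conjugate of an embedding of `K` has the multiplicities of the complex conjugates. -/
theorem conj_type {n : (K →+* ℂ) → (Σ i, E i →+* ℂ) → ℕ}
    (hn : ∀ (τ : ℂ ≃+* ℂ) (σ : K →+* ℂ) (f : Σ i, E i →+* ℂ),
      n ((τ : ℂ →+* ℂ).comp σ) ⟨f.1, (τ : ℂ →+* ℂ).comp f.2⟩ = n σ f) (σ : K →+* ℂ) (f : Σ i, E i →+* ℂ) :
    n ((starRingEnd ℂ).comp σ) f = n σ (cj f) := by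
  have h1 := hn (starRingAut : ℂ ≃+* ℂ) σ (cj f)
  rw [← h1]
  have h2 : ((starRingAut : ℂ ≃+* ℂ) : ℂ →+* ℂ).comp σ = (starRingEnd ℂ).comp σ := rfl
  have h3 : (⟨(cj f).1, ((starRingAut : ℂ ≃+* ℂ) : ℂ →+* ℂ).comp (cj f).2⟩ : Σ i, E i →+* ℂ) = f := by
    obtain ⟨i, φ⟩ := f
    have h4 : ((starRingAut : ℂ ≃+* ℂ) : ℂ →+* ℂ).comp ((starRingEnd ℂ).comp φ) = φ := by
      ext x
      exact Complex.conj_conj (φ x)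
    show (⟨i, ((starRingAut : ℂ ≃+* ℂ) : ℂ →+* ℂ).comp ((starRingEnd ℂ).comp φ)⟩ : Σ i, E i →+* ℂ) = ⟨i, φ⟩
    rw [h4]
  rw [h2, h3]

/-- The bijection of the embeddings given by an automorphism of `ℂ`. -/
def autJ (τ : ℂ ≃+* ℂ) : (Σ i, E i →+* ℂ) ≃ (Σ i, E i →+* ℂ) where
  toFun f := ⟨f.1, (τ : ℂ →+* ℂ).comp f.2⟩
  invFun f := ⟨f.1, (τ.symm : ℂ →+* ℂ).comp f.2⟩
  left_inv := by
    rintro ⟨i, φ⟩
    have h : (τ.symm : ℂ →+* ℂ).comp ((τ : ℂ →+* ℂ).comp φ) = φ := by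
      ext x
      exact τ.symm_apply_apply (φ x)
    show (⟨i, (τ.symm : ℂ →+* ℂ).comp ((τ : ℂ →+* ℂ).comp φ)⟩ : Σ i, E i →+* ℂ) = ⟨i, φ⟩
    rw [h]
  right_inv := by
    rintro ⟨i, φ⟩
    have h : (τ : ℂ →+* ℂ).comp ((τ.symm : ℂ →+* ℂ).comp φ) = φ := by
      ext x
      exact τ.apply_symm_apply (φ x)
    show (⟨i, (τ : ℂ →+* ℂ).comp ((τ.symm : ℂ →+* ℂ).comp φ)⟩ : Σ i, E i →+* ℂ) = ⟨i, φ⟩
    rw [h]

theorem autJ_apply (τ : ℂ ≃+* ℂ) (f : Σ i, E i →+* ℂ) : autJ τ f = ⟨f.1, (τ : ℂ →+* ℂ).comp f.2⟩ := rfl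

theorem autJ_mul (τ τ' : ℂ ≃+* ℂ) : (autJ (τ'.trans τ) : Equiv.Perm (Σ i, E i →+* ℂ)) = autJ τ * autJ τ' := by
  ext1 f
  rfl

theorem autJ_cj (hCM : ∀ i, NumberField.IsCMField (E i)) (τ : ℂ ≃+* ℂ) (f : Σ i, E i →+* ℂ) :
    autJ τ (cj f) = cj (autJ τ f) := by
  obtain ⟨i, φ⟩ := f
  have := hCM i
  have h1 : ∀ (ψ : E i →+* ℂ) (x : E i), starRingEnd ℂ (ψ x) = ψ (NumberField.IsCMField.complexConj (E i) x) :=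
    fun ψ x => (NumberField.IsCMField.complexEmbedding_complexConj (E i) ψ x).symm
  have h2 : (τ : ℂ →+* ℂ).comp ((starRingEnd ℂ).comp φ) = (starRingEnd ℂ).comp ((τ : ℂ →+* ℂ).comp φ) := by
    ext x
    show τ (starRingEnd ℂ (φ x)) = starRingEnd ℂ (τ (φ x))
    rw [h1 φ x]
    exact (h1 ((τ : ℂ →+* ℂ).comp φ) x).symm
  show (⟨i, (τ : ℂ →+* ℂ).comp ((starRingEnd ℂ).comp φ)⟩ : Σ i, E i →+* ℂ) =
    ⟨i, (starRingEnd ℂ).comp ((τ : ℂ →+* ℂ).comp φ)⟩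
  rw [h2]

/-- The separated case. -/
theorem nondeg_of_sep (hCM : ∀ i, NumberField.IsCMField (E i)) (hsep : TSP.Sep E)
    {n : (K →+* ℂ) → (Σ i, E i →+* ℂ) → ℕ}
    (hn : ∀ (τ : ℂ ≃+* ℂ) (σ : K →+* ℂ) (f : Σ i, E i →+* ℂ),
      n ((τ : ℂ →+* ℂ).comp σ) ⟨f.1, (τ : ℂ →+* ℂ).comp f.2⟩ = n σ f)
    (h1 : ∀ f, ∃ σ : K →+* ℂ, n σ f ≠ n σ (cj f)) : Nondeg n := by
  classical
  intro z hz h0 f₀
  obtain ⟨σ₀, hc⟩ := h1 f₀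
  let Γ : Finset (Equiv.Perm (Σ i, E i →+* ℂ)) := Finset.univ.filter fun π => π f₀ = f₀ ∧ ∃ τ : ℂ ≃+* ℂ, π = autJ τ
  have hΓ : ∀ π, π ∈ Γ ↔ π f₀ = f₀ ∧ ∃ τ : ℂ ≃+* ℂ, π = autJ τ := fun π => by
    rw [Finset.mem_filter]
    exact ⟨fun h => h.2, fun h => ⟨Finset.mem_univ _, h⟩⟩
  let Z : (Σ i, E i →+* ℂ) → ℤ := fun g => ∑ π ∈ Γ, z (π g)
  have hZ : ∀ g, Z g = ∑ π ∈ Γ, z (π g) := fun g => rfl
  have hodd : ∀ g, Z (cj g) = - Z g := by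
    intro g
    rw [hZ, hZ, ← Finset.sum_neg_distrib]
    refine Finset.sum_congr rfl fun π hπ => ?_
    obtain ⟨-, τ, rfl⟩ := (hΓ π).1 hπ
    rw [autJ_cj hCM, hz]
  have hf0 : Z f₀ = (Γ.card : ℤ) * z f₀ := by
    rw [hZ, Finset.sum_congr rfl fun π hπ => by rw [((hΓ π).1 hπ).1], Finset.sum_const, nsmul_eq_mul]
  have hzero : ∀ g, g ≠ f₀ → g ≠ cj f₀ → Z g = 0 := by
    intro g hg hg'
    obtain ⟨τ, hτ1, hτ2⟩ := hsep g f₀ (Ne.symm hg) (fun h => hg' (by rw [h]; exact (cj_cj' g).symm))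
    have e1 : autJ τ g = cj g := by
      obtain ⟨i, φ⟩ := g
      show (⟨i, (τ : ℂ →+* ℂ).comp φ⟩ : Σ i, E i →+* ℂ) = ⟨i, (starRingEnd ℂ).comp φ⟩
      have h3 : (τ : ℂ →+* ℂ).comp φ = (starRingEnd ℂ).comp φ := hτ1
      rw [h3]
    have e2 : autJ τ f₀ = f₀ := by
      obtain ⟨i, φ⟩ := f₀
      show (⟨i, (τ : ℂ →+* ℂ).comp φ⟩ : Σ i, E i →+* ℂ) = ⟨i, φ⟩
      have h3 : (τ : ℂ →+* ℂ).comp φ = φ := hτ2
      rw [h3]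
    have e3 : Z (autJ τ g) = Z g := by
      rw [hZ, hZ]
      refine Finset.sum_bij (fun π _ => π * autJ τ) (fun π hπ => ?_) (fun π _ π' _ h => mul_right_cancel h)
        (fun π hπ => ?_) (fun π _ => rfl)
      · obtain ⟨h3, τ', rfl⟩ := (hΓ π).1 hπ
        refine (hΓ _).2 ⟨?_, τ.trans τ', (autJ_mul τ' τ).symm⟩
        rw [Equiv.Perm.mul_apply, e2, h3]
      · obtain ⟨h3, τ', rfl⟩ := (hΓ π).1 hπ
        have e4 : (autJ τ : Equiv.Perm (Σ i, E i →+* ℂ))⁻¹ = autJ τ.symm := rfl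
        refine ⟨autJ τ' * (autJ τ)⁻¹, (hΓ _).2 ⟨?_, τ.symm.trans τ', ?_⟩, inv_mul_cancel_right _ _⟩
        · rw [Equiv.Perm.mul_apply, Equiv.Perm.inv_eq_iff_eq.2 e2.symm, h3]
        · rw [e4, autJ_mul]
    have e5 := hodd g
    rw [← e1, e3] at e5
    omega
  have hsum : ∑ g, Z g * (n σ₀ g : ℤ) = 0 := by
    simp only [hZ, Finset.sum_mul]
    rw [Finset.sum_comm]
    refine Finset.sum_eq_zero fun π hπ => ?_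
    obtain ⟨-, τ, rfl⟩ := (hΓ π).1 hπ
    rw [← h0 ((τ : ℂ →+* ℂ).comp σ₀)]
    refine Fintype.sum_equiv (autJ τ) _ _ fun g => ?_
    rw [← hn τ σ₀ g, autJ_apply]
  have hne : cj f₀ ≠ f₀ := by
    obtain ⟨i, φ⟩ := f₀
    intro h
    have h1 : (starRingEnd ℂ).comp φ = φ := eq_of_heq (Sigma.mk.inj h).2
    have := hCM i
    have h3 : NumberField.IsTotallyComplex (E i) := inferInstance
    have h4 := h3.isComplex (NumberField.InfinitePlace.mk φ)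
    rw [← NumberField.InfinitePlace.not_isReal_iff_isComplex] at h4
    exact h4 ⟨φ, h1, rfl⟩
  have h3 : ∑ g, Z g * (n σ₀ g : ℤ) = Z f₀ * (n σ₀ f₀ : ℤ) + Z (cj f₀) * (n σ₀ (cj f₀) : ℤ) := by
    rw [← Finset.sum_subset (Finset.subset_univ ({f₀, cj f₀} : Finset (Σ i, E i →+* ℂ))), Finset.sum_pair hne.symm]
    intro g _ hg
    rw [Finset.mem_insert, Finset.mem_singleton, not_or] at hg
    rw [hzero g hg.1 hg.2, zero_mul]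
  rw [h3, hodd, hf0] at hsum
  have h4 : (Γ.card : ℤ) ≠ 0 := by
    have h5 : (1 : Equiv.Perm (Σ i, E i →+* ℂ)) ∈ Γ := (hΓ _).2 ⟨rfl, RingEquiv.refl ℂ, by
      ext1 f
      rfl⟩
    exact Int.natCast_ne_zero.2 (Finset.card_ne_zero.2 ⟨_, h5⟩)
  have h5 : (n σ₀ f₀ : ℤ) - (n σ₀ (cj f₀) : ℤ) ≠ 0 := by
    intro h6
    exact hc (by omega)
  have h6 : (Γ.card : ℤ) * z f₀ * ((n σ₀ f₀ : ℤ) - (n σ₀ (cj f₀) : ℤ)) = 0 := by linear_combination hsum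
  rcases mul_eq_zero.1 h6 with h7 | h7
  · exact (mul_eq_zero.1 h7).resolve_left h4
  · exact absurd h7 h5

end TUT
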