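import Pool.Agent.Lib.MP_021685_agUT.C0

/-! Links of the Lie algebra are twists of the representation. -/

set_option autoImplicit false

namespace TUT

open Module

variable {H : Type} [AddCommGroup H] [Module ℂ H] [FiniteDimensional ℂ H] {J : Type} [Fintype J]
  {e : H →ₗ[ℂ] H →ₗ[ℂ] ℂ} {bar : J → J} {p : J → End ℂ H} {A : Submodule ℂ (End ℂ H)} {c : End ℂ H →ₗ[ℂ] ℂ}
  {G : Type} [Group G]

private theorem T1_anti (hb : Blk e bar p) (v w : H) : e v w = - e w v := by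
  have h1 := hb.alt (v + w)
  simp only [map_add, LinearMap.add_apply, hb.alt, zero_add, add_zero] at h1
  exact eq_neg_of_add_eq_zero_right h1

private theorem T1_dep (hb : Blk e bar p) {f : J} {a v : H} (ha : p f a = a) (hv : p f v = v)
    (h : ∀ b, p (bar f) b = b → e b a = 0 → e b v = 0) : ∃ t : ℂ, v = t • a := by
  have hbar : ∀ w x, p f x = x → e (p (bar f) w) x = e w x := by
    intro w x hx
    rw [hb.adj, hb.bb, hx]
  have hii : ∀ w, p (bar f) (p (bar f) w) = p (bar f) w := by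
    intro w
    have h1 := LinearMap.congr_fun (hb.idem (bar f)) w
    exact h1
  have hker : ∀ w, e w a = 0 → e w v = 0 := by
    intro w hw
    rw [← hbar w v hv]
    exact h _ (hii w) (by rw [hbar w a ha, hw])
  have hnd : ∀ y, (∀ w, e w y = 0) → y = 0 := by
    intro y hy
    refine hb.nd y fun w => ?_
    rw [T1_anti hb, hy, neg_zero]
  by_cases h0 : ∀ w, e w a = 0
  · refine ⟨0, ?_⟩
    rw [zero_smul]
    exact hnd v fun w => hker w (h0 w)
  · push Not at h0
    obtain ⟨w₀, hw₀⟩ := h0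
    refine ⟨e w₀ v / e w₀ a, ?_⟩
    rw [← sub_eq_zero]
    refine hnd _ fun w => ?_
    have h1 : e (w - (e w a / e w₀ a) • w₀) a = 0 := by
      rw [map_sub, map_smul, LinearMap.sub_apply, LinearMap.smul_apply, smul_eq_mul,
        div_mul_cancel₀ _ hw₀, sub_self]
    have h2 := hker _ h1
    rw [map_sub, map_smul, LinearMap.sub_apply, LinearMap.smul_apply, smul_eq_mul] at h2
    rw [map_sub, map_smul, smul_eq_mul]
    rw [sub_eq_zero] at h2
    rw [h2]
    ring

private theorem T1_scalar {V : Type} [AddCommGroup V] [Module ℂ V] (P : V → Prop)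
    (hadd : ∀ x y, P x → P y → P (x + y)) (F : End ℂ V)
    (h : ∀ x, P x → ∃ t : ℂ, F x = t • x) : ∃ t : ℂ, ∀ x, P x → F x = t • x := by
  by_cases h0 : ∃ x, P x ∧ x ≠ 0
  · obtain ⟨x, hx, hx0⟩ := h0
    obtain ⟨t, ht⟩ := h x hx
    refine ⟨t, fun y hy => ?_⟩
    obtain ⟨u, hu⟩ := h y hy
    by_cases hy0 : y = 0
    · rw [hy0, map_zero, smul_zero]
    obtain ⟨r, hr⟩ := h (x + y) (hadd x y hx hy)
    rw [map_add, ht, hu, smul_add] at hr
    have h1 : (t - r) • x = (r - u) • y := by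
      rw [sub_smul, sub_smul, sub_eq_sub_iff_add_eq_add, hr, add_comm]
    by_cases htr : t = r
    · rw [htr, sub_self, zero_smul] at h1
      rcases smul_eq_zero.mp h1.symm with h2 | h2
      · rw [hu, htr, sub_eq_zero.mp h2]
      · exact absurd h2 hy0
    · have h2 : x = ((t - r)⁻¹ * (r - u)) • y := by
        rw [mul_smul, ← h1, smul_smul, inv_mul_cancel₀ (sub_ne_zero.mpr htr), one_smul]
      have h3 : t • x = u • x := by
        rw [← ht]
        conv_lhs => rw [h2, map_smul, hu]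
        conv_rhs => rw [h2]
        rw [smul_comm]
      have h4 : t = u := by
        have h5 : (t - u) • x = 0 := by rw [sub_smul, h3, sub_self]
        rcases smul_eq_zero.mp h5 with h6 | h6
        · exact sub_eq_zero.mp h6
        · exact absurd h6 hx0
      rw [hu, h4]
  · push Not at h0
    refine ⟨0, fun x hx => ?_⟩
    rw [h0 x hx, map_zero, smul_zero]

private theorem T1_inv (hb : Blk e bar p) {f g : J}
    (hdim : finrank ℂ (LinearMap.range (p f)) = finrank ℂ (LinearMap.range (p g))) (Θ : End ℂ H)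
    (h1 : p g * Θ = Θ) (h2 : Θ * p f = Θ) (h3 : ∀ v, p f v = v → Θ v = 0 → v = 0) :
    ∃ Ψ : End ℂ H, Ψ * Θ = p f ∧ Θ * Ψ = p g ∧ p f * Ψ = Ψ ∧ Ψ * p g = Ψ := by
  have hpf : ∀ v ∈ LinearMap.range (p f), p f v = v := by
    rintro _ ⟨x, rfl⟩
    exact LinearMap.congr_fun (hb.idem f) x
  have hΘp : ∀ x, Θ (p f x) = Θ x := fun x => LinearMap.congr_fun h2 x
  have hker : LinearMap.ker (Θ ∘ₗ (LinearMap.range (p f)).subtype) = ⊥ := by
    rw [LinearMap.ker_eq_bot']
    rintro ⟨v, hv⟩ h4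
    exact Subtype.ext (h3 v (hpf v hv) h4)
  obtain ⟨q, hq⟩ := LinearMap.exists_leftInverse_of_injective _ hker
  have hq' : ∀ v ∈ LinearMap.range (p f), ((q (Θ v) : LinearMap.range (p f)) : H) = v := by
    intro v hv
    have h4 := LinearMap.congr_fun hq ⟨v, hv⟩
    exact congrArg Subtype.val h4
  have hrange : LinearMap.range Θ = LinearMap.range (p g) := by
    apply Submodule.eq_of_le_of_finrank_eq
    · rintro _ ⟨x, rfl⟩
      exact ⟨Θ x, LinearMap.congr_fun h1 x⟩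
    · rw [← hdim]
      have h5 : LinearMap.range Θ = LinearMap.range (Θ ∘ₗ (LinearMap.range (p f)).subtype) := by
        apply le_antisymm
        · rintro _ ⟨x, rfl⟩
          exact ⟨⟨p f x, x, rfl⟩, hΘp x⟩
        · rintro _ ⟨x, rfl⟩
          exact ⟨x, rfl⟩
      rw [h5]
      exact LinearMap.finrank_range_of_inj (LinearMap.ker_eq_bot.mp hker)
  refine ⟨(LinearMap.range (p f)).subtype ∘ₗ q ∘ₗ p g, ?_, ?_, ?_, ?_⟩
  · apply LinearMap.ext
    intro x
    change ((q (p g (Θ x)) : LinearMap.range (p f)) : H) = p f x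
    have h4 : p g (Θ x) = Θ (p f x) := by
      rw [hΘp]
      exact LinearMap.congr_fun h1 x
    rw [h4]
    exact hq' _ ⟨x, rfl⟩
  · apply LinearMap.ext
    intro x
    change Θ ((q (p g x) : LinearMap.range (p f)) : H) = p g x
    have h4 : p g x ∈ LinearMap.range Θ := by
      rw [hrange]
      exact ⟨x, rfl⟩
    obtain ⟨y, hy⟩ := h4
    rw [← hy, ← hΘp y, hq' _ ⟨y, rfl⟩]
  · apply LinearMap.ext
    intro x
    exact hpf _ (q (p g x)).2
  · apply LinearMap.ext
    intro x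
    change ((q (p g (p g x)) : LinearMap.range (p f)) : H) = ((q (p g x) : LinearMap.range (p f)) : H)
    have h4 : p g (p g x) = p g x := LinearMap.congr_fun (hb.idem g) x
    rw [h4]

/-- PROOF.  Let `V = range (p f)`, `W = range (p g)`; `Θ` is a bijection of `V` and `W` (`h3`, `hdim`, `h1`).  Let
`Θ' = ρ s⁻¹ * Θ * ρ s`.  For `X ∈ A`, `X' = ρ s * X * ρ s⁻¹ ∈ A` and `t'` for `X'`: `Θ' * X = ρ s⁻¹ Θ X' ρ s = X * Θ' + t' • Θ'`.
Let `Φ : V → V` be `Θ⁻¹ Θ'` (`Θ'` also maps `V` to `W` by `hρp`).  `Φ X = X Φ + (t' - t) Φ` on `V`, and `Φ` is bijective, so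
`Φ X Φ⁻¹ = X + (t' - t)`; by the trace `(t' - t) dim V = 0`, so `t' = t` (if `V ≠ 0`; otherwise `Θ = 0`) and `Φ` commutes with all
`X|V`, `X ∈ A`, in particular (`hf`) with all `v ↦ e b v • a`, `p f a = a`, `p (bar f) b = b`, `e b a = 0` (all endomorphisms of rank
one and square zero of `V`).  So `Φ` is a scalar: for `a ∈ V` and every linear form `φ` of `V` with `φ a = 0` (it is some `e b`),
`φ ≠ 0`, `Φ (φ v • a) = φ (Φ v) • a` for all `v`, so `Φ a ∈ ℂ a` if there is such a `φ ≠ 0` (`dim V ≥ 2`); every vector is an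
eigenvector.  (If `dim V ≤ 1` it is clear.)  `Φ = φ`: `ρ s⁻¹ Θ ρ s = φ Θ`, `Θ ρ s = φ ρ s Θ` on `V` and on the other blocks both
sides are `0` (`h2`, `hρp`). -/
theorem twist_of_link (hb : Blk e bar p) (hA : LieOn e p A c) (ρ : Representation ℂ G H)
    (hρp : ∀ s f, ρ s * p f = p f * ρ s) (hnorm : ∀ s, ∀ X ∈ A, ρ s * X * ρ s⁻¹ ∈ A) {f g : J}
    (hf : NilOn e bar p A f ∅)
    (hdim : finrank ℂ (LinearMap.range (p f)) = finrank ℂ (LinearMap.range (p g))) (Θ : End ℂ H)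
    (h1 : p g * Θ = Θ) (h2 : Θ * p f = Θ) (h3 : ∀ v, p f v = v → Θ v = 0 → v = 0)
    (h4 : ∀ X ∈ A, ∃ t : ℂ, Θ * X = X * Θ + t • Θ) (s : G) : ∃ φ : ℂ, Θ * ρ s = φ • (ρ s * Θ) := by
  obtain ⟨Ψ, hΨΘ, hΘΨ, hpΨ, hΨp⟩ := T1_inv hb hdim Θ h1 h2 h3
  have hs1 : ρ s * ρ s⁻¹ = 1 := by rw [← map_mul, mul_inv_cancel, map_one]
  have hs2 : ρ s⁻¹ * ρ s = 1 := by rw [← map_mul, inv_mul_cancel, map_one]
  obtain ⟨Θ', hΘ'⟩ : ∃ Θ' : End ℂ H, Θ' = ρ s⁻¹ * Θ * ρ s := ⟨_, rfl⟩
  have hΘρ : ρ s * Θ' = Θ * ρ s := by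
    rw [hΘ', ← mul_assoc, ← mul_assoc, hs1, one_mul]
  have hΘ'g : p g * Θ' = Θ' := by
    rw [hΘ', ← mul_assoc, ← mul_assoc, ← hρp, mul_assoc (ρ s⁻¹) (p g) Θ, h1]
  have hΘ'f : Θ' * p f = Θ' := by
    rw [hΘ', mul_assoc, hρp, ← mul_assoc, mul_assoc (ρ s⁻¹) Θ (p f), h2]
  obtain ⟨Φ, hΦ⟩ : ∃ Φ : End ℂ H, Φ = Ψ * Θ' := ⟨_, rfl⟩
  have hΘΦ : Θ * Φ = Θ' := by
    rw [hΦ, ← mul_assoc, hΘΨ, hΘ'g]
  have hfΦ : p f * Φ = Φ := by
    rw [hΦ, ← mul_assoc, hpΨ]
  have hΦinj : ∀ v, p f v = v → Φ v = 0 → v = 0 := by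
    intro v hv h5
    have h6 : Θ' v = 0 := by
      rw [← hΘΦ, Module.End.mul_apply, h5, map_zero]
    have h7 : Θ (ρ s v) = 0 := by
      have h8 : (ρ s * Θ') v = (Θ * ρ s) v := by rw [hΘρ]
      rw [Module.End.mul_apply, Module.End.mul_apply, h6, map_zero] at h8
      exact h8.symm
    have h9 : p f (ρ s v) = ρ s v := by
      have h10 : (ρ s * p f) v = (p f * ρ s) v := by rw [hρp]
      rw [Module.End.mul_apply, Module.End.mul_apply, hv] at h10
      exact h10.symm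
    have h11 := h3 _ h9 h7
    have h12 : (ρ s⁻¹ * ρ s) v = 0 := by
      rw [Module.End.mul_apply, h11, map_zero]
    rw [hs2] at h12
    exact h12
  -- the link with a multiplier
  have hlink : ∀ X ∈ A, ∃ t : ℂ, Φ * X = X * Φ + t • Φ := by
    intro X hX
    obtain ⟨t, ht⟩ := h4 X hX
    obtain ⟨t', ht'⟩ := h4 _ (hnorm s X hX)
    have e1 : X * Ψ = Ψ * X + t • Ψ := by
      calc X * Ψ = X * (p f * Ψ) := by rw [hpΨ]
        _ = (p f * X) * Ψ := by rw [← mul_assoc, hA.comm X hX]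
        _ = Ψ * (Θ * X) * Ψ := by rw [← hΨΘ, mul_assoc Ψ Θ X]
        _ = Ψ * (X * (Θ * Ψ)) + t • ((Ψ * Θ) * Ψ) := by
          rw [ht, mul_add, add_mul, mul_smul_comm, smul_mul_assoc]
          simp only [mul_assoc]
        _ = Ψ * X + t • Ψ := by
          rw [hΘΨ, hA.comm X hX, ← mul_assoc, hΨp, hΨΘ, hpΨ]
    have e2 : Θ' * X = X * Θ' + t' • Θ' := by
      have e3 : Θ' * X = ρ s⁻¹ * (Θ * (ρ s * X * ρ s⁻¹)) * ρ s := by
        rw [hΘ']
        simp only [mul_assoc]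
        rw [hs2, mul_one]
      rw [e3, ht', mul_add, add_mul, mul_smul_comm, smul_mul_assoc, hΘ']
      congr 1
      simp only [mul_assoc]
      rw [← mul_assoc (ρ s⁻¹) (ρ s), hs2, one_mul]
    refine ⟨t' - t, ?_⟩
    rw [hΦ, mul_assoc, e2, mul_add, ← mul_assoc Ψ X Θ', mul_smul_comm, sub_smul, ← mul_assoc X Ψ Θ', e1,
      add_mul, smul_mul_assoc]
    abel
  -- every vector of the block is an eigenvector
  have heig : ∀ a, p f a = a → ∃ t : ℂ, Φ a = t • a := by
    intro a ha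
    by_cases hall : ∀ b, p (bar f) b = b → e b a = 0 → e b (Φ a) = 0
    · exact T1_dep hb ha (LinearMap.congr_fun hfΦ a) hall
    · push Not at hall
      obtain ⟨b, hb1, hb2, hb3⟩ := hall
      obtain ⟨X, hX, -, hXv⟩ := hf a b ha hb1 hb2
      obtain ⟨t, ht⟩ := hlink X hX
      have hX0 : ∀ v, p f v = v → X (X v) = 0 := by
        intro v hv
        rw [hXv v hv, map_smul, hXv a ha, hb2, zero_smul, smul_zero]
      have hfv : ∀ v, p f (Φ v) = Φ v := fun v => LinearMap.congr_fun hfΦ v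
      have hrel : ∀ v, Φ (X v) = X (Φ v) + t • Φ v := fun v => LinearMap.congr_fun ht v
      have ht0 : t = 0 ∨ a = 0 := by
        by_contra hcon
        push Not at hcon
        obtain ⟨ht0, ha0⟩ := hcon
        have e1 : (0 : H) = X (X (Φ a) + t • Φ a) + t • (X (Φ a) + t • Φ a) := by
          rw [← hrel a, ← hrel (X a), hX0 a ha, map_zero]
        rw [map_add, hX0 _ (hfv a), zero_add, map_smul, smul_add, smul_smul, ← add_assoc, ← two_smul ℂ (t • X (Φ a))] at e1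
        have e2 : X (0 : H) = X ((2 : ℂ) • t • X (Φ a) + (t * t) • Φ a) := congrArg X e1
        rw [map_zero, map_add, map_smul, map_smul, map_smul, hX0 _ (hfv a), smul_zero, smul_zero, zero_add] at e2
        have e3 : X (Φ a) = 0 := by
          rcases smul_eq_zero.mp e2.symm with h5 | h5
          · exact absurd h5 (mul_ne_zero ht0 ht0)
          · exact h5
        rw [e3, smul_zero, smul_zero, zero_add] at e1
        have e4 : Φ a = 0 := by
          rcases smul_eq_zero.mp e1.symm with h5 | h5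
          · exact absurd h5 (mul_ne_zero ht0 ht0)
          · exact h5
        exact ha0 (hΦinj a ha e4)
      rcases ht0 with ht0 | ha0
      · -- use the vector `Φ a`
        refine ⟨e b (Φ (Φ a)) / e b (Φ a), ?_⟩
        have e1 := hrel (Φ a)
        rw [ht0, zero_smul, add_zero, hXv _ (hfv a), hXv _ (hfv _), map_smul] at e1
        rw [div_eq_inv_mul, mul_smul, ← e1, smul_smul, inv_mul_cancel₀ hb3, one_smul]
      · exact ⟨0, by rw [ha0, map_zero, smul_zero]⟩
  obtain ⟨φ, hφ⟩ := T1_scalar (fun v => p f v = v) (fun x y hx hy => by rw [map_add, hx, hy]) Φ heig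
  refine ⟨φ, ?_⟩
  have hfin : Θ' = φ • Θ := by
    apply LinearMap.ext
    intro x
    have e1 : p f (p f x) = p f x := LinearMap.congr_fun (hb.idem f) x
    have e2 : Θ' x = Θ' (p f x) := (LinearMap.congr_fun hΘ'f x).symm
    have e3 : Θ (p f x) = Θ x := LinearMap.congr_fun h2 x
    rw [e2, ← hΘΦ, Module.End.mul_apply, hφ _ e1, map_smul, e3]
    rfl
  rw [← hΘρ, hfin, mul_smul_comm]

end TUT
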