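import Pool.Agent.Lib.MP_021685_agUT.A2
import Pool.Agent.Lib.MP_021685_agUT.C1
import Pool.Agent.Lib.MP_021685_agUT.C3
import Pool.Agent.Lib.MP_021685_agUT.E1
import Pool.Agent.Lib.MP_021685_agUT.F1
import Pool.Agent.Lib.MP_021685_agUT.G1
import Pool.Agent.Lib.MP_021685_agUT.H2
import Pool.Agent.Lib.MP_021685_agUT.T1

/-! The theorem over `ℂ`. -/

set_option autoImplicit false

namespace TUT

open Module

variable {H : Type} [AddCommGroup H] [Module ℂ H] [FiniteDimensional ℂ H] {J : Type} [Fintype J] [DecidableEq J]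
  {e : H →ₗ[ℂ] H →ₗ[ℂ] ℂ} {bar : J → J} {p : J → End ℂ H} {G : Type} [Group G]

/-- The data: the action of the Galois group, the idempotents `h σ` and the multiplicities `n σ f`. -/
structure Datum (e : H →ₗ[ℂ] H →ₗ[ℂ] ℂ) (bar : J → J) (p : J → End ℂ H) (ρ : Representation ℂ G H) (μ : G →* ℂˣ)
    (P : Subgroup G → Prop) {S : Type} [Fintype S] (h : S → End ℂ H) (n : S → J → ℕ) : Prop where
  blk : Blk e bar p
  he : ∀ s v w, e (ρ s v) (ρ s w) = (μ s : ℂ) * e v w
  hρp : ∀ s f, ρ s * p f = p f * ρ s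
  dens : ∀ G' : Subgroup G, G'.FiniteIndex → ∀ X : End ℂ H, (∀ f, X * p f = p f * X) →
      X ∈ Submodule.span ℂ {Y | ∃ g ∈ G', Y = ρ g}
  hP : ∃ G', P G'
  conj : ∀ G', P G' → ∀ g : G, ∃ G'', P G'' ∧ ∀ s ∈ G'', g * s * g⁻¹ ∈ G'
  idem : ∀ σ, h σ * h σ = h σ
  kills : ∀ σ, Kills ρ μ P (h σ) 1
  rank : ∀ σ f, finrank ℂ (LinearMap.range (h σ * p f)) = n σ f
  cop : ∀ f, ∃ σ, Nat.Coprime (n σ f) (n σ (bar f))
  link : ∀ f g, g ≠ f → g ≠ bar f → (∀ σ, 2 ≤ n σ f + n σ (bar f)) →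
    (∀ σ, n σ f + n σ (bar f) = n σ g + n σ (bar g)) →
    (∃ σ, n σ f ≠ n σ g ∧ (n σ f ≠ 0 ∧ n σ (bar f) ≠ 0 ∨ n σ g ≠ 0 ∧ n σ (bar g) ≠ 0)) ∨
      ∀ Θ : End ℂ H, p g * Θ = Θ → Θ * p f = Θ → (∀ s, ∃ φ : ℂ, Θ * ρ s = φ • (ρ s * Θ)) → Θ = 0
  centre : ∀ f, ∃ c : S → ℂ, ∑ σ, c σ = 0 ∧
    ∀ g, ∑ σ, c σ * (n σ g : ℂ) = if g = f then 1 else if g = bar f then -1 else 0

variable {ρ : Representation ℂ G H} {μ : G →* ℂˣ} {P : Subgroup G → Prop} {S : Type} [Fintype S] {h : S → End ℂ H}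
  {n : S → J → ℕ}

/-- The products of the forms `e (p f v) w`. -/
def IsPr (e : H →ₗ[ℂ] H →ₗ[ℂ] ℂ) (p : J → End ℂ H) {k : ℕ} (T' : MultilinearMap ℂ (fun _ : Fin k => H) ℂ) : Prop :=
  ∃ (m : ℕ) (ε : Fin m ⊕ Fin m ≃ Fin k) (f : Fin m → J),
    ∀ v, T' v = ∏ j, e (p (f j) (v (ε (Sum.inl j)))) (v (ε (Sum.inr j)))

/-- All Tate forms are combinations of products. -/
theorem Datum.core [Nontrivial H] (d : Datum e bar p ρ μ P h n) {G' : Subgroup G} (hG' : P G') {k : ℕ} {i : ℤ}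
    (T : MultilinearMap ℂ (fun _ : Fin k => H) ℂ) (hT : IsTt ρ μ G' i T) :
    T ∈ Submodule.span ℂ {T' | IsPr e p T'} := by
  classical
  have hb := d.blk
  obtain ⟨A, c, hA, hnorm, hkill, hmem⟩ := exists_lie hb ρ μ d.he d.hρp P d.hP d.conj
  have hhA : ∀ σ, h σ ∈ A := fun σ => (hkill _ _ (d.kills σ)).1
  have hhc : ∀ σ, c (h σ) = 1 := fun σ => (hkill _ _ (d.kills σ)).2
  have hsum : ∀ σ f, n σ f + n σ (bar f) = finrank ℂ (LinearMap.range (p f)) := by
    intro σ f
    rw [← d.rank, ← d.rank]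
    exact finrank_add hb hA (hhA σ) (d.idem σ) (hhc σ) f
  -- the nilpotent endomorphisms of one block
  have hnil : ∀ f, NilOn e bar p A f ∅ := by
    intro f
    obtain ⟨σ, hσ⟩ := d.cop f
    exact nilOn_of_group hb hA ρ d.hρp d.dens hnorm f (h σ) (hhA σ) (d.idem σ) (hhc σ)
      (by rw [d.rank, d.rank]; exact hσ)
  -- two blocks
  have hpair : ∀ f g, g ≠ f → g ≠ bar f → NilOn e bar p A f {g} := by
    intro f g h1 h2
    refine nilOn_pair hb hA h1 h2 (hnil f) (hnil g) h hhA d.idem n d.rank hsum fun h3 g' hg' h6 => ?_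
    have h4 : ∀ σ, 2 ≤ n σ f + n σ (bar f) := fun σ => by rw [hsum]; exact h3
    have h7 : ∀ σ, n σ f + n σ (bar f) = n σ g' + n σ (bar g') := fun σ => by rw [hsum, hsum, h6]
    have h8 : g' ≠ f ∧ g' ≠ bar f := by
      rcases hg' with rfl | rfl
      · exact ⟨h1, h2⟩
      · exact ⟨fun h5 => h2 (by rw [← h5, hb.bb]), fun h5 => h1 (by rw [← hb.bb g, h5, hb.bb])⟩
    rcases d.link f g' h8.1 h8.2 h4 h7 with h9 | h9
    · exact Or.inl h9
    · refine Or.inr fun Θ h10 h11 h12 h13 => ?_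
      have h14 := h9 Θ h10 h11 (twist_of_link hb hA ρ d.hρp hnorm (hnil f) h6 Θ h10 h11 h12 h13)
      have h15 : LinearMap.range (p f) = ⊥ := by
        rw [eq_bot_iff]
        rintro _ ⟨v, rfl⟩
        rw [h12 (p f v) (LinearMap.congr_fun (hb.idem f) v) (by rw [h14, LinearMap.zero_apply])]
        exact Submodule.zero_mem _
      rw [h15, finrank_bot] at h3
      omega
  -- all blocks
  have hall : ∀ f, ∀ I : Finset J, (∀ g ∈ I, g ≠ f ∧ g ≠ bar f) → NilOn e bar p A f (I : Set J) := by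
    intro f I
    induction I using Finset.induction_on with
    | empty =>
      intro _
      rw [Finset.coe_empty]
      exact hnil f
    | insert g I hg ih =>
      intro hI
      rw [Finset.coe_insert, Set.insert_eq]
      exact NilOn.union hb hA (hpair f g (hI g (Finset.mem_insert_self g I)).1 (hI g (Finset.mem_insert_self g I)).2)
        (ih fun g' hg' => hI g' (Finset.mem_insert_of_mem hg'))
  have hrr : ∀ f a b, p f a = a → p (bar f) b = b → e b a = 0 → RR e a b ∈ A := by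
    intro f a b ha hb' h0
    refine NilOn.rr hb hA ?_ a b ha hb' h0
    have h1 := hall f (Finset.univ.filter fun g => g ≠ f ∧ g ≠ bar f) fun g hg => (Finset.mem_filter.1 hg).2
    rwa [Finset.coe_filter, show {g | g ∈ Finset.univ ∧ (g ≠ f ∧ g ≠ bar f)} = {g | g ≠ f ∧ g ≠ bar f} by
      ext g; simp] at h1
  -- the centre
  have hfull : ∀ f a b, p f a = a → p (bar f) b = b → RR e a b ∈ A := by
    choose z hz0 hz using d.centre
    refine full_of_nil hb hA hrr (fun f => ∑ σ, z f σ • h σ)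
      (fun f => A.sum_mem fun σ _ => A.smul_mem _ (hhA σ)) (fun f => ?_) (fun f g => ?_)
    · rw [map_sum]
      simp only [map_smul, hhc, smul_eq_mul, mul_one]
      exact hz0 f
    · rw [Finset.sum_mul, map_sum, ← hz f g]
      refine Finset.sum_congr rfl fun σ _ => ?_
      rw [smul_mul_assoc, map_smul, smul_eq_mul, ← d.rank]
      congr 1
      have h1 : IsIdempotentElem (h σ * p g) := by
        show h σ * p g * (h σ * p g) = h σ * p g
        rw [mul_assoc, ← mul_assoc (p g), ← hA.comm _ (hhA σ), mul_assoc, hb.idem, ← mul_assoc, d.idem]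
      have h2 : LinearMap.IsProj (LinearMap.range (h σ * p g)) (h σ * p g) :=
        LinearMap.IsIdempotentElem.isProj_range (h σ * p g) h1
      exact h2.trace
  -- the multiplier of `RR` is zero
  refine fft_blk hb T fun f a b ha hb' v => ?_
  have hm := hfull f a b ha hb'
  have hc0 : c (RR e a b) = 0 := by
    have hskew : ∀ x y, e x y = - e y x := by
      intro x y
      have h1 := hb.alt (x + y)
      rw [map_add, map_add, LinearMap.add_apply, LinearMap.add_apply, hb.alt, hb.alt, zero_add, add_zero] at h1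
      exact eq_neg_of_add_eq_zero_right h1
    obtain ⟨v₀, hv₀⟩ := exists_ne (0 : H)
    obtain ⟨w₀, hw₀⟩ : ∃ w, e v₀ w ≠ 0 := by
      by_contra hcon
      push Not at hcon
      exact hv₀ (hb.nd v₀ hcon)
    have h1 := hA.mult _ hm v₀ w₀
    rw [RR_apply, RR_apply, map_add, map_add, LinearMap.add_apply, map_smul, map_smul, map_smul, map_smul,
      LinearMap.smul_apply, LinearMap.smul_apply] at h1
    simp only [smul_eq_mul] at h1
    rw [hskew v₀ a, hskew v₀ b] at h1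
    have h2 : c (RR e a b) * e v₀ w₀ = 0 := by rw [← h1]; ring
    exact (mul_eq_zero.1 h2).resolve_right hw₀
  have h1 := hmem _ hm G' hG' k i T hT v
  rw [hc0, mul_zero, zero_mul] at h1
  exact h1

end TUT
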