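import Pool.Agent.Lib.MP_021685_agUT.K1
import Pool.Agent.Lib.MP_021685_agTG.GD

/-! The theorem over `ℂ`, with a trivial factor. -/

set_option autoImplicit false

namespace TUT

open Module

variable {H : Type} [AddCommGroup H] [Module ℂ H] {J : Type}
  {e : H →ₗ[ℂ] H →ₗ[ℂ] ℂ} {p : J → End ℂ H} {G : Type} [Group G]
  {ρ : Representation ℂ G H} {μ : G →* ℂˣ}

theorem IsPr.card {k : ℕ} {T' : MultilinearMap ℂ (fun _ : Fin k => H) ℂ} (h : IsPr e p T') : ∃ m, k = 2 * m ∧
    ∃ (ε : Fin m ⊕ Fin m ≃ Fin k) (f : Fin m → J),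
      ∀ v, T' v = ∏ j, e (p (f j) (v (ε (Sum.inl j)))) (v (ε (Sum.inr j))) := by
  obtain ⟨m, ε, f, h⟩ := h
  refine ⟨m, ?_, ε, f, h⟩
  have h1 := Fintype.card_congr ε
  simp only [Fintype.card_sum, Fintype.card_fin] at h1
  omega

theorem span_equiv (he : ∀ s v w, e (ρ s v) (ρ s w) = (μ s : ℂ) * e v w) (hρp : ∀ s f, ρ s * p f = p f * ρ s)
    {m : ℕ} {T : MultilinearMap ℂ (fun _ : Fin (2 * m) => H) ℂ} (hT : T ∈ Submodule.span ℂ {T' | IsPr e p T'})
    (s : G) (v : Fin (2 * m) → H) : T (fun j => ρ s (v j)) = (μ s : ℂ) ^ m * T v := by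
  induction hT using Submodule.span_induction with
  | mem T' h =>
    obtain ⟨m', hm, ε, f, hf⟩ := h.card
    have hmm : m' = m := by omega
    subst hmm
    rw [hf, hf]
    have h1 : ∀ j : Fin m', e (p (f j) (ρ s (v (ε (Sum.inl j))))) (ρ s (v (ε (Sum.inr j)))) =
        (μ s : ℂ) * e (p (f j) (v (ε (Sum.inl j)))) (v (ε (Sum.inr j))) := by
      intro j
      have h2 := LinearMap.congr_fun (hρp s (f j)) (v (ε (Sum.inl j)))
      rw [Module.End.mul_apply, Module.End.mul_apply] at h2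
      rw [← h2, he]
    simp only [h1]
    rw [Finset.prod_mul_distrib, Finset.prod_const, Finset.card_univ, Fintype.card_fin]
  | zero =>
    rw [MultilinearMap.zero_apply, MultilinearMap.zero_apply, mul_zero]
  | add x y _ _ hx hy =>
    rw [MultilinearMap.add_apply, MultilinearMap.add_apply, hx, hy, mul_add]
  | smul c x _ hx =>
    rw [MultilinearMap.smul_apply, MultilinearMap.smul_apply, hx, smul_eq_mul, smul_eq_mul]
    ring

variable {W : Type} [AddCommGroup W] [Module ℂ W]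

/-- The form `v ↦ T v w`. -/
noncomputable def atW {k : ℕ} (T : MultilinearMap ℂ (fun _ : Fin k => H) (W →ₗ[ℂ] ℂ)) (w : W) :
    MultilinearMap ℂ (fun _ : Fin k => H) ℂ :=
  (LinearMap.applyₗ w).compMultilinearMap T

theorem atW_apply {k : ℕ} (T : MultilinearMap ℂ (fun _ : Fin k => H) (W →ₗ[ℂ] ℂ)) (w : W) (v : Fin k → H) :
    atW T w v = T v w := rfl

/-- The form `(v, w) ↦ T v χ w`. -/
noncomputable def timesW {k : ℕ} (χ : W →ₗ[ℂ] ℂ) :
    MultilinearMap ℂ (fun _ : Fin k => H) ℂ →ₗ[ℂ] MultilinearMap ℂ (fun _ : Fin k => H) (W →ₗ[ℂ] ℂ) where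
  toFun T := (LinearMap.toSpanSingleton ℂ (W →ₗ[ℂ] ℂ) χ).compMultilinearMap T
  map_add' x y := by
    ext v w
    show ((x v + y v) • χ) w = (x v • χ) w + (y v • χ) w
    rw [add_smul, LinearMap.add_apply]
  map_smul' a x := by
    ext v w
    show ((a * x v) • χ) w = a * (x v • χ) w
    rw [mul_smul, LinearMap.smul_apply, smul_eq_mul]

theorem timesW_apply {k : ℕ} (χ : W →ₗ[ℂ] ℂ) (T : MultilinearMap ℂ (fun _ : Fin k => H) ℂ) (v : Fin k → H) (w : W) :
    timesW χ T v w = T v * χ w := rfl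

/-- If all Tate forms for `G'` are combinations of products, the same holds with a factor on which `G` acts trivially. -/
theorem product_of_core [FiniteDimensional ℂ W] (he : ∀ s v w, e (ρ s v) (ρ s w) = (μ s : ℂ) * e v w)
    (hρp : ∀ s f, ρ s * p f = p f * ρ s) {G' : Subgroup G} {k : ℕ} {i : ℤ}
    (hcore : ∀ T : MultilinearMap ℂ (fun _ : Fin k => H) ℂ, IsTt ρ μ G' i T → T ∈ Submodule.span ℂ {T' | IsPr e p T'})
    (σ : Representation ℂ G W) (hσ : ∀ g w, σ g w = w) (T : MultilinearMap ℂ (fun _ : Fin k => H) (W →ₗ[ℂ] ℂ))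
    (hT : TGR.IsTate ρ σ μ G' i T) :
    T ∈ Submodule.span ℂ {T' : MultilinearMap ℂ (fun _ : Fin k => H) (W →ₗ[ℂ] ℂ) | TGR.IsProduct ρ σ μ G' i T'} := by
  have hw : ∀ w, atW T w ∈ Submodule.span ℂ {T' | IsPr e p T'} := by
    intro w
    refine hcore _ fun s hs v => ?_
    have h1 := hT s hs v w
    rw [hσ] at h1
    exact h1
  by_cases hT0 : T = 0
  · rw [hT0]
    exact Submodule.zero_mem _
  obtain ⟨v₀, w₀, h0⟩ : ∃ v w, T v w ≠ 0 := by
    by_contra hcon
    push Not at hcon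
    apply hT0
    ext v w
    exact hcon v w
  have hk : ∃ m, k = 2 * m := by
    by_contra hcon
    have h1 : ({T' | IsPr e p T'} : Set (MultilinearMap ℂ (fun _ : Fin k => H) ℂ)) = ∅ := by
      rw [Set.eq_empty_iff_forall_notMem]
      intro T' h
      obtain ⟨m, hm, -⟩ := IsPr.card h
      exact hcon ⟨m, hm⟩
    have h2 := hw w₀
    rw [h1, Submodule.span_empty, Submodule.mem_bot] at h2
    apply h0
    rw [← atW_apply, h2, MultilinearMap.zero_apply]
  obtain ⟨m, rfl⟩ := hk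
  have hμ : ∀ g ∈ G', (μ g : ℂˣ) ^ (i - (m : ℤ)) = 1 := by
    intro g hg
    have h1 := hT g hg v₀ w₀
    rw [hσ] at h1
    have h2 := span_equiv he hρp (hw w₀) g v₀
    rw [atW_apply, atW_apply, h1] at h2
    have h3 : ((μ g ^ i : ℂˣ) : ℂ) = ((μ g ^ m : ℂˣ) : ℂ) := by
      rw [Units.val_pow_eq_pow_val]
      exact mul_right_cancel₀ h0 h2
    have h4 : μ g ^ i = μ g ^ m := Units.ext h3
    rw [zpow_sub, h4, zpow_natCast, mul_inv_cancel]
  have hexp : T = ∑ b, timesW ((Module.finBasis ℂ W).coord b) (atW T (Module.finBasis ℂ W b)) := by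
    ext v w
    rw [MultilinearMap.sum_apply, LinearMap.sum_apply]
    have h1 := (Module.finBasis ℂ W).sum_repr w
    conv_lhs => rw [← h1]
    rw [map_sum]
    refine Finset.sum_congr rfl fun b _ => ?_
    rw [timesW_apply, atW_apply, map_smul, smul_eq_mul, mul_comm]
    rfl
  rw [hexp]
  refine Submodule.sum_mem _ fun b _ => ?_
  have h2 := Submodule.mem_map_of_mem (f := timesW (k := 2 * m) ((Module.finBasis ℂ W).coord b))
    (hw (Module.finBasis ℂ W b))
  rw [Submodule.map_span] at h2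
  refine Submodule.span_mono ?_ h2
  rintro _ ⟨D, hD, rfl⟩
  obtain ⟨m', hm, ε, f, hf⟩ := IsPr.card hD
  have hmm : m' = m := by omega
  subst hmm
  refine ⟨m', ε, fun j => e ∘ₗ p (f j), (Module.finBasis ℂ W).coord b, fun j g _ u v => ?_, fun g hg w => ?_,
    fun v w => ?_⟩
  · have h3 := LinearMap.congr_fun (hρp g (f j)) u
    rw [Module.End.mul_apply, Module.End.mul_apply] at h3
    rw [LinearMap.comp_apply, LinearMap.comp_apply, ← h3, he]
  · rw [hμ g hg, hσ, Units.val_one, one_mul]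
  · rw [timesW_apply, hf]
    rfl

end TUT
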