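import Pool.Agent.Lib.MP_021685_agUT.P0

/-! The commutative situation on the image of the sum of the primitive idempotents. -/

set_option autoImplicit false

namespace TUT

open Module

variable {H : Type} [AddCommGroup H] [Module ℂ H] [FiniteDimensional ℂ H] {G : Type} [Group G] {J : Type} [Fintype J]
  {e : H →ₗ[ℂ] H →ₗ[ℂ] ℂ} {bar : J → J} {p : J → End ℂ H} {ρ : Representation ℂ G H} {μ : G →* ℂˣ} {N : J → ℕ}
  {ε : J → End ℂ H} {u v : ∀ f, Fin (N f) → End ℂ H}

omit [FiniteDimensional ℂ H] in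
private theorem P3_mulmem {X Y : End ℂ H} (hX : X ∈ comm ρ) (hY : Y ∈ comm ρ) : X * Y ∈ comm ρ := fun s => by
  rw [← mul_assoc, hX s, mul_assoc, hY s, mul_assoc]

omit [FiniteDimensional ℂ H] in
private theorem P3_ep (hS : MSys e bar p ρ N ε u v) (hB : Big e bar p ρ μ) (f : J) : ε f * p f = ε f := by
  rw [← hB.central f (ε f) (hS.unit f).mem, (hS.unit f).pf]

omit [FiniteDimensional ℂ H] in
private theorem P3_orth (hS : MSys e bar p ρ N ε u v) (hB : Big e bar p ρ μ) {f g : J} (h : f ≠ g) :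
    ε f * ε g = 0 := by
  rw [← P3_ep hS hB f, ← (hS.unit g).pf, mul_assoc, ← mul_assoc (p f), hB.blk.orth f g h, zero_mul, mul_zero]

omit [FiniteDimensional ℂ H] in
private theorem P3_qe (hS : MSys e bar p ρ N ε u v) (hB : Big e bar p ρ μ) (f : J) :
    (∑ g, ε g) * ε f = ε f := by
  rw [Finset.sum_mul, Finset.sum_eq_single f, (hS.unit f).idem]
  · intro g _ h
    exact P3_orth hS hB h
  · intro h
    exact absurd (Finset.mem_univ f) h

omit [FiniteDimensional ℂ H] in
private theorem P3_eq (hS : MSys e bar p ρ N ε u v) (hB : Big e bar p ρ μ) (f : J) :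
    ε f * (∑ g, ε g) = ε f := by
  rw [Finset.mul_sum, Finset.sum_eq_single f, (hS.unit f).idem]
  · intro g _ h
    exact P3_orth hS hB (Ne.symm h)
  · intro h
    exact absurd (Finset.mem_univ f) h

/-- PROOF.  `ε f * ε g = ε f * p f * p g * ε g = 0` for `f ≠ g` (`ε f * p f = p f * ε f = ε f` by `hB.central`); so the sum is
idempotent. -/
theorem MSys.idem (hS : MSys e bar p ρ N ε u v) (hB : Big e bar p ρ μ) :
    (∑ f, ε f) * (∑ f, ε f) = ∑ f, ε f := by
  rw [Finset.mul_sum]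
  exact Finset.sum_congr rfl fun f _ => P3_qe hS hB f

theorem MSys.mem (hS : MSys e bar p ρ N ε u v) : ∑ f, ε f ∈ comm ρ :=
  (comm ρ).sum_mem fun f _ => (hS.unit f).mem

omit [FiniteDimensional ℂ H] in
private theorem P3_adj (hS : MSys e bar p ρ N ε u v) (hB : Big e bar p ρ μ) (x y : H) :
    e ((∑ f, ε f) x) y = e x ((∑ f, ε f) y) := by
  rw [LinearMap.sum_apply, LinearMap.sum_apply, map_sum, map_sum, LinearMap.sum_apply]
  have h : ∀ f, e (ε f x) y = e x (ε (bar f) y) := fun f => hS.adj f x y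
  rw [Finset.sum_congr rfl fun f _ => h f]
  exact Fintype.sum_bijective bar (Function.Involutive.bijective hB.blk.bb) _ _ fun f => rfl

/-- PROOF.  Let `q = ∑ f, ε f`, `q * ε f = ε f = ε f * q`.  `nd`: if `v ∈ range q` and `e v w = 0` for all `w ∈ range q` then for all
`y ∈ H`: `e v y = e (q v) y = e v (q y) = 0` (`q` is self-adjoint by `hS.adj`, `bar` is a bijection).  The other fields are
immediate (`cut q (ε f)` maps `v` to `q (ε f v) = ε f v`). -/
theorem MSys.blk (hS : MSys e bar p ρ N ε u v) (hB : Big e bar p ρ μ) :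
    Blk (cutForm e (∑ f, ε f)) bar (fun f => cut (∑ f, ε f) (ε f)) := by
  have hq := MSys.idem hS hB
  have hqv : ∀ w : LinearMap.range (∑ f, ε f), (∑ f, ε f) (w : H) = w := by
    rintro ⟨_, w, rfl⟩
    exact LinearMap.congr_fun hq w
  have hqe : ∀ f (x : H), (∑ f, ε f) (ε f x) = ε f x := fun f x => LinearMap.congr_fun (P3_qe hS hB f) x
  have hc : ∀ f (w : LinearMap.range (∑ f, ε f)), ((cut (∑ f, ε f) (ε f) w : LinearMap.range (∑ f, ε f)) : H) = ε f w :=
    fun f w => by rw [cut_apply, hqe]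
  refine ⟨fun w => ?_, fun w hw => ?_, hB.blk.bb, hB.blk.bne, fun f => ?_, fun f g h => ?_, ?_, fun f x y => ?_⟩
  · rw [cutForm_apply]
    exact hB.blk.alt w
  · refine Subtype.ext (hB.blk.nd w fun y => ?_)
    have h1 := hw ⟨(∑ f, ε f) y, y, rfl⟩
    rw [cutForm_apply] at h1
    rw [← hqv w, P3_adj hS hB]
    exact h1
  · refine LinearMap.ext fun w => Subtype.ext ?_
    rw [Module.End.mul_apply, hc, hc]
    exact LinearMap.congr_fun (hS.unit f).idem w
  · refine LinearMap.ext fun w => Subtype.ext ?_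
    rw [Module.End.mul_apply, hc, hc]
    exact LinearMap.congr_fun (P3_orth hS hB h) w
  · refine LinearMap.ext fun w => Subtype.ext ?_
    rw [LinearMap.sum_apply, AddSubmonoidClass.coe_finsetSum, Finset.sum_congr rfl fun f _ => hc f w,
      ← LinearMap.sum_apply, hqv]
    rfl
  · rw [cutForm_apply, cutForm_apply, hc, hc]
    exact hS.adj f x y

omit [FiniteDimensional ℂ H] in
private theorem P3_pu (hS : MSys e bar p ρ N ε u v) (hB : Big e bar p ρ μ) (f : J) (j : Fin (N f)) :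
    u f j * p f = u f j := by
  rw [← (hS.unit f).ue j, mul_assoc, P3_ep hS hB f]

omit [FiniteDimensional ℂ H] in
private theorem P3_pv (hS : MSys e bar p ρ N ε u v) (f : J) (j : Fin (N f)) :
    p f * v f j = v f j := by
  rw [← (hS.unit f).ev j, ← mul_assoc, (hS.unit f).pf]

/-- The coefficients of `Y` in the block `f`. -/
private theorem P3_coef (hS : MSys e bar p ρ N ε u v) (f : J) (Y : End ℂ H) (hY : Y ∈ comm ρ) :
    ∃ c : Fin (N f) → Fin (N f) → ℂ, ∀ i j, v f i * Y * u f j = c i j • ε f := by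
  have h : ∀ i j, ∃ c : ℂ, v f i * Y * u f j = c • ε f := fun i j => by
    obtain ⟨c, hc⟩ := (hS.unit f).prim (v f i * Y * u f j)
      (P3_mulmem (P3_mulmem ((hS.unit f).vmem i) hY) ((hS.unit f).umem j))
    refine ⟨c, ?_⟩
    rw [← hc, mul_assoc (ε f), mul_assoc (v f i * Y), (hS.unit f).ue j, ← mul_assoc (ε f), ← mul_assoc (ε f),
      (hS.unit f).ev i]
  choose c hc using h
  exact ⟨c, hc⟩

private theorem P3_comm (hS : MSys e bar p ρ N ε u v) (hB : Big e bar p ρ μ) (f : J) (X' Y : End ℂ H)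
    (hY : Y ∈ comm ρ) :
    (∑ j, u f j * X' * v f j) * Y = Y * ∑ j, u f j * X' * v f j := by
  obtain ⟨c, hc⟩ := P3_coef hS f Y hY
  have h1 : ∀ j, Y * u f j = ∑ i, c i j • u f i := fun j => by
    have h2 : Y * u f j = p f * (Y * u f j) := by
      rw [hB.central f (Y * u f j) (P3_mulmem hY ((hS.unit f).umem j)), mul_assoc, P3_pu hS hB f j]
    rw [h2, ← (hS.unit f).sum, Finset.sum_mul]
    refine Finset.sum_congr rfl fun i _ => ?_
    rw [mul_assoc, ← mul_assoc (v f i), hc i j, mul_smul_comm, (hS.unit f).ue i]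
  have h3 : ∀ i, v f i * Y = ∑ j, c i j • v f j := fun i => by
    have h2 : v f i * Y = v f i * Y * p f := by
      rw [← hB.central f (v f i * Y) (P3_mulmem ((hS.unit f).vmem i) hY), ← mul_assoc, P3_pv hS f i]
    rw [h2, ← (hS.unit f).sum, Finset.mul_sum]
    refine Finset.sum_congr rfl fun j _ => ?_
    rw [← mul_assoc, hc i j, smul_mul_assoc, (hS.unit f).ev j]
  rw [Finset.sum_mul, Finset.mul_sum]
  have h4 : ∀ i, u f i * X' * v f i * Y = ∑ j, c i j • (u f i * X' * v f j) := fun i => by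
    rw [mul_assoc (u f i * X'), h3 i, Finset.mul_sum]
    exact Finset.sum_congr rfl fun j _ => mul_smul_comm _ _ _
  have h5 : ∀ j, Y * (u f j * X' * v f j) = ∑ i, c i j • (u f i * X' * v f j) := fun j => by
    rw [← mul_assoc, ← mul_assoc, h1 j, Finset.sum_mul, Finset.sum_mul]
    exact Finset.sum_congr rfl fun i _ => by rw [smul_mul_assoc, smul_mul_assoc]
  rw [Finset.sum_congr rfl fun i _ => h4 i, Finset.sum_congr rfl fun j _ => h5 j, Finset.sum_comm]

private theorem P3_blockf (hS : MSys e bar p ρ N ε u v) (hB : Big e bar p ρ μ) (f : J) (X' : End ℂ H)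
    (hX' : ε f * X' = X' * ε f) :
    ε f * (∑ j, u f j * X' * v f j) * ε f = X' * ε f := by
  obtain ⟨a, ha⟩ : ∃ a : Fin (N f) → ℂ, ∀ j, ε f * u f j = a j • ε f := by
    have h : ∀ j, ∃ c : ℂ, ε f * u f j = c • ε f := fun j => by
      obtain ⟨c, hc⟩ := (hS.unit f).prim (u f j) ((hS.unit f).umem j)
      exact ⟨c, by rw [← hc, mul_assoc, (hS.unit f).ue j]⟩
    choose c hc using h
    exact ⟨c, hc⟩
  obtain ⟨b, hb⟩ : ∃ b : Fin (N f) → ℂ, ∀ j, v f j * ε f = b j • ε f := by
    have h : ∀ j, ∃ c : ℂ, v f j * ε f = c • ε f := fun j => by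
      obtain ⟨c, hc⟩ := (hS.unit f).prim (v f j) ((hS.unit f).vmem j)
      exact ⟨c, by rw [← hc, (hS.unit f).ev j]⟩
    choose c hc using h
    exact ⟨c, hc⟩
  have h1 : (∑ j, a j * b j) • ε f = ε f := by
    have h2 : ε f * p f * ε f = ε f := by rw [P3_ep hS hB f, (hS.unit f).idem]
    rw [← (hS.unit f).sum, Finset.mul_sum, Finset.sum_mul] at h2
    have h3 : ∀ j, ε f * (u f j * v f j) * ε f = (a j * b j) • ε f := fun j => by
      rw [← mul_assoc, mul_assoc, hb j, ha j, smul_mul_smul_comm, (hS.unit f).idem]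
    rw [Finset.sum_congr rfl fun j _ => h3 j, ← Finset.sum_smul] at h2
    exact h2
  have h4 : ∀ j, ε f * (u f j * X' * v f j) * ε f = (a j * b j) • (X' * ε f) := fun j => by
    rw [mul_assoc (u f j), ← mul_assoc (ε f), mul_assoc, mul_assoc X', hb j, ha j, smul_mul_assoc, mul_smul_comm,
      mul_smul_comm, ← mul_assoc, hX', mul_assoc, (hS.unit f).idem, smul_smul]
  rw [Finset.mul_sum, Finset.sum_mul, Finset.sum_congr rfl fun j _ => h4 j, ← Finset.sum_smul, ← mul_smul_comm, h1]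

private theorem P3_blockg (hS : MSys e bar p ρ N ε u v) (hB : Big e bar p ρ μ) {f g : J} (h : g ≠ f) (X' : End ℂ H) :
    ε f * (∑ j, u g j * X' * v g j) * ε f = 0 := by
  rw [Finset.mul_sum, Finset.sum_mul]
  refine Finset.sum_eq_zero fun j _ => ?_
  have h1 : ε f * u g j = 0 := by
    have h2 : p g * u g j = u g j := by
      rw [hB.central g (u g j) ((hS.unit g).umem j), P3_pu hS hB g j]
    rw [← h2, ← P3_ep hS hB f, mul_assoc, ← mul_assoc (p f), hB.blk.orth f g (Ne.symm h), zero_mul, mul_zero]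
  rw [mul_assoc (u g j), ← mul_assoc (ε f), h1, zero_mul, zero_mul]

/-- `cut q` as a linear map. -/
private noncomputable def P3_cutL (q : End ℂ H) : End ℂ H →ₗ[ℂ] End ℂ (LinearMap.range q) where
  toFun := cut q
  map_add' X Y := by
    refine LinearMap.ext fun w => Subtype.ext ?_
    rw [cut_apply, LinearMap.add_apply, LinearMap.add_apply, Submodule.coe_add, cut_apply, cut_apply, map_add]
  map_smul' c X := by
    refine LinearMap.ext fun w => Subtype.ext ?_
    rw [cut_apply, LinearMap.smul_apply, RingHom.id_apply, LinearMap.smul_apply, Submodule.coe_smul, cut_apply,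
      map_smul]

/-- PROOF.  `q = ∑ f, ε f`.  Let `X' : H → H` be `X' w = X (q w)` (`X' = q X' q`, with `ε f X' = X' ε f`).  Let
`Z = ∑ f, ∑ j, u f j * X' * v f j`.  `Z` commutes with every `Y ∈ comm ρ`: `Y u f j = p f Y u f j = ∑ i, u f i (v f i Y u f j)` and
`v f i Y u f j = ε f (v f i Y u f j) ε f = c i j • ε f` (`prim`), so `Y Z = ∑ c i j • u f i X' v f j`; similarly
`v f i Y = ∑ j, (v f i Y u f j) v f j`, `Z Y =` the same.  By `hB.dens` `Z ∈ span {ρ g | g ∈ G'}`.  `cut q Z = X`: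
`Z ε f = ε f Z ε f = ∑ j, (ε f u f j) X' (v f j ε f) = (∑ j, a j b j) X' ε f` with `ε f u f j = a j • ε f`,
`v f j ε f = b j • ε f` (`prim`, `ue`, `ev`) and `∑ j, a j b j • ε f = ε f (∑ u f j v f j) ε f = ε f`.  And `cut q` is linear with
`cut q (ρ g) = cutRep ρ q _ _ g`. -/
theorem MSys.dens (hS : MSys e bar p ρ N ε u v) (hB : Big e bar p ρ μ) (hq : (∑ f, ε f) * (∑ f, ε f) = ∑ f, ε f)
    (G' : Subgroup G) (hG' : G'.FiniteIndex) (X : End ℂ (LinearMap.range (∑ f, ε f)))
    (hX : ∀ f, X * cut (∑ f, ε f) (ε f) = cut (∑ f, ε f) (ε f) * X) :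
    X ∈ Submodule.span ℂ {Y | ∃ g ∈ G', Y = cutRep ρ (∑ f, ε f) hq hS.mem g} := by
  have hqv : ∀ w : LinearMap.range (∑ f, ε f), (∑ f, ε f) (w : H) = w := by
    rintro ⟨_, w, rfl⟩
    exact LinearMap.congr_fun hq w
  have hqe : ∀ f (x : H), (∑ f, ε f) (ε f x) = ε f x := fun f x => LinearMap.congr_fun (P3_qe hS hB f) x
  have heq : ∀ f (x : H), ε f ((∑ f, ε f) x) = ε f x := fun f x => LinearMap.congr_fun (P3_eq hS hB f) x
  set X' : End ℂ H := (LinearMap.range (∑ f, ε f)).subtype ∘ₗ X ∘ₗ (∑ f, ε f).rangeRestrict with hX'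
  have hXa : ∀ w, X' w = X ⟨(∑ f, ε f) w, w, rfl⟩ := fun w => rfl
  have hcom : ∀ f, ε f * X' = X' * ε f := fun f => by
    refine LinearMap.ext fun w => ?_
    rw [Module.End.mul_apply, Module.End.mul_apply, hXa, hXa]
    have h1 := congrArg Subtype.val (LinearMap.congr_fun (hX f) ⟨(∑ f, ε f) w, w, rfl⟩)
    rw [Module.End.mul_apply, Module.End.mul_apply, cut_apply, hqe] at h1
    rw [← h1]
    congr 2
    refine Subtype.ext ?_
    rw [cut_apply]
    exact congrArg _ (heq f w)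
  set Z : End ℂ H := ∑ f, ∑ j, u f j * X' * v f j with hZ
  have hZc : ∀ Y ∈ comm ρ, Z * Y = Y * Z := fun Y hY => by
    rw [hZ, Finset.sum_mul, Finset.mul_sum]
    exact Finset.sum_congr rfl fun f _ => P3_comm hS hB f X' Y hY
  have hZe : ∀ f, Z * ε f = X' * ε f := fun f => by
    have h1 : Z * ε f = ε f * Z * ε f := by
      rw [← hZc (ε f) (hS.unit f).mem, mul_assoc, (hS.unit f).idem]
    rw [h1, hZ, Finset.mul_sum, Finset.sum_mul, Finset.sum_eq_single f, P3_blockf hS hB f X' (hcom f)]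
    · intro g _ h
      exact P3_blockg hS hB h X'
    · intro h
      exact absurd (Finset.mem_univ f) h
  have hZq : Z * (∑ f, ε f) = X' * (∑ f, ε f) := by
    rw [Finset.mul_sum, Finset.mul_sum]
    exact Finset.sum_congr rfl fun f _ => hZe f
  have hcut : P3_cutL (∑ f, ε f) Z = X := by
    refine LinearMap.ext fun w => Subtype.ext ?_
    have h1 : (∑ f, ε f) (Z w) = (X w : H) := by
      have h2 : Z (w : H) = X w := by
        have h3 := LinearMap.congr_fun hZq (w : H)
        rw [Module.End.mul_apply, Module.End.mul_apply, hqv, hXa] at h3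
        rw [h3]
        congr 2
        exact Subtype.ext (hqv w)
      rw [h2, hqv]
    exact h1
  have hmem := hB.dens G' hG' Z hZc
  have h1 := Submodule.mem_map_of_mem (f := P3_cutL (∑ f, ε f)) hmem
  rw [hcut, Submodule.map_span] at h1
  refine Submodule.span_mono ?_ h1
  rintro _ ⟨_, ⟨g, hg, rfl⟩, rfl⟩
  exact ⟨g, hg, rfl⟩

end TUT
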