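import Pool.Agent.Lib.MP_021685_agUT.P0

/-! The elements which kill the Tate forms, on the image of an idempotent. -/

set_option autoImplicit false

namespace TUT

open Module

variable {H : Type} [AddCommGroup H] [Module ℂ H] {G : Type} [Group G] {e : H →ₗ[ℂ] H →ₗ[ℂ] ℂ}
  {ρ : Representation ℂ G H} {μ : G →* ℂˣ}

/-- The bilinear form `B` as a multilinear form of two variables. -/
private def P4_form (B : H →ₗ[ℂ] H →ₗ[ℂ] ℂ) : MultilinearMap ℂ (fun _ : Fin 2 => H) ℂ where
  toFun v := B (v 0) (v 1)
  map_update_add' := by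
    intro inst v i x y
    have hinst : inst = instDecidableEqFin 2 := Subsingleton.elim _ _
    subst hinst
    rcases Fin.exists_fin_two.1 ⟨i, rfl⟩ with h | h
    · subst h
      simp [Function.update_self, Function.update_of_ne]
    · subst h
      simp [Function.update_self, Function.update_of_ne]
  map_update_smul' := by
    intro inst v i c x
    have hinst : inst = instDecidableEqFin 2 := Subsingleton.elim _ _
    subst hinst
    rcases Fin.exists_fin_two.1 ⟨i, rfl⟩ with h | h
    · subst h
      simp [Function.update_self, Function.update_of_ne]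
    · subst h
      simp [Function.update_self, Function.update_of_ne]

private theorem P4_form_apply (B : H →ₗ[ℂ] H →ₗ[ℂ] ℂ) (v : Fin 2 → H) : P4_form B v = B (v 0) (v 1) := rfl

private theorem P4_kills {P : Subgroup G → Prop} (hP : ∃ G', P G')
    (B : H →ₗ[ℂ] H →ₗ[ℂ] ℂ) (hB : ∀ s v w, B (ρ s v) (ρ s w) = (μ s : ℂ) * B v w) {X : End ℂ H} {t : ℂ}
    (hX : Kills ρ μ P X t) (v w : H) : B (X v) w + B v (X w) = t * B v w := by
  obtain ⟨G', hG'⟩ := hP
  have h1 : IsTt ρ μ G' 1 (P4_form B) := by
    intro s _ v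
    rw [P4_form_apply, P4_form_apply, hB, zpow_one]
  have h2 := hX G' hG' 2 1 (P4_form B) h1 ![v, w]
  rw [Fin.sum_univ_two] at h2
  simp only [P4_form_apply] at h2
  simpa [Function.update_self, Function.update_of_ne] using h2

/-- PROOF.  For `Y ∈ comm ρ` the forms `T v = e (Y (v 0)) (v 1)` and `T v = e (v 0) (v 1)` (`k = 2`) are Tate forms of weight `1` for
`G'` (`P G'`): `e (Y (h v)) w + e (Y v) (h w) = t e (Y v) w` and `e (h (Y v)) w + e (Y v) (h w) = t e (Y v) w`; subtract, `nd`. -/
theorem Kills.comm (hnd : ∀ v, (∀ w, e v w = 0) → v = 0)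
    (he : ∀ s v w, e (ρ s v) (ρ s w) = (μ s : ℂ) * e v w) {P : Subgroup G → Prop} (hP : ∃ G', P G') {h : End ℂ H} {t : ℂ}
    (hk : Kills ρ μ P h t) (Y : End ℂ H) (hY : Y ∈ TUT.comm ρ) : h * Y = Y * h := by
  have h1 : ∀ s v w, (e ∘ₗ Y) (ρ s v) (ρ s w) = (μ s : ℂ) * (e ∘ₗ Y) v w := by
    intro s v w
    have h2 := LinearMap.congr_fun (hY s) v
    rw [Module.End.mul_apply, Module.End.mul_apply] at h2
    rw [LinearMap.comp_apply, LinearMap.comp_apply, ← h2, he]
  ext v
  rw [Module.End.mul_apply, Module.End.mul_apply, ← sub_eq_zero]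
  refine hnd _ fun w => ?_
  have h3 := P4_kills hP (e ∘ₗ Y) h1 hk v w
  have h4 := P4_kills hP e he hk (Y v) w
  rw [LinearMap.comp_apply, LinearMap.comp_apply] at h3
  rw [map_sub, LinearMap.sub_apply]
  linear_combination h4 - h3

/-- PROOF.  For a Tate form `T'` on `range q` the form `T v = T' (fun j => q (v j))` is a Tate form on `H`, as `q (ρ s v) =
ρ s (q v) = cutRep ρ q s (q v)`.  Apply `hk` to `T` and the vectors `v j ∈ range q` (`q (v j) = v j`, `q (h (v j)) = cut q h (v j)`). -/
theorem Kills.cut {P : Subgroup G → Prop} {h : End ℂ H} {t : ℂ} (hk : Kills ρ μ P h t) (q : End ℂ H) (hq : q * q = q)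
    (hc : q ∈ TUT.comm ρ) : Kills (cutRep ρ q hq hc) μ P (TUT.cut q h) t := by
  intro G' hG' k i T hT v
  have hqq : ∀ x : H, q (q x) = q x := fun x => LinearMap.congr_fun hq x
  have hv : ∀ x : LinearMap.range q, q (x : H) = x := by
    rintro ⟨_, w, rfl⟩
    exact hqq w
  have hr : ∀ x : LinearMap.range q, q.rangeRestrict (x : H) = x := fun x => Subtype.ext (hv x)
  have hT' : IsTt ρ μ G' i (T.compLinearMap fun _ => q.rangeRestrict) := by
    intro s hs w
    rw [MultilinearMap.compLinearMap_apply, MultilinearMap.compLinearMap_apply]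
    have h1 := hT s hs (fun j => q.rangeRestrict (w j))
    have h2 : (fun j => cutRep ρ q hq hc s (q.rangeRestrict (w j))) = fun j => q.rangeRestrict (ρ s (w j)) := by
      funext j
      refine Subtype.ext ?_
      change q (ρ s (q (w j))) = q (ρ s (w j))
      have h3 := LinearMap.congr_fun (hc s) (w j)
      rw [Module.End.mul_apply, Module.End.mul_apply] at h3
      rw [h3, hqq]
    rw [h2] at h1
    exact h1
  have h4 := hk G' hG' k i _ hT' (fun j => (v j : H))
  rw [MultilinearMap.compLinearMap_apply] at h4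
  have h5 : (fun j => q.rangeRestrict ((v j : LinearMap.range q) : H)) = v := funext fun j => hr (v j)
  rw [h5] at h4
  rw [← h4]
  refine Finset.sum_congr rfl fun j _ => ?_
  rw [MultilinearMap.compLinearMap_apply]
  congr 1
  funext l
  by_cases hl : l = j
  · subst hl
    rw [Function.update_self, Function.update_self]
    rfl
  · rw [Function.update_of_ne hl, Function.update_of_ne hl, hr]

end TUT
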