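import Pool.Agent.Lib.MP_021685_agUT.P0

/-! Ranks. -/

set_option autoImplicit false

namespace TUT

open Module

variable {H : Type} [AddCommGroup H] [Module ℂ H] [FiniteDimensional ℂ H] {G : Type} [Group G] {J : Type} [Fintype J]
  {e : H →ₗ[ℂ] H →ₗ[ℂ] ℂ} {bar : J → J} {p : J → End ℂ H} {ρ : Representation ℂ G H} {μ : G →* ℂˣ} {N : J → ℕ}
  {ε : J → End ℂ H} {u v : ∀ f, Fin (N f) → End ℂ H}

/-- PROOF.  Let `q = ∑ f, ε f`.  The image of `cut q h * cut q (ε f)` is (as a subspace of `H`) the image `R` of `h * ε f`.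
`h p f = ∑ j, h u f j v f j = ∑ j, u f j (h ε f) v f j` (`h` commutes with `u f j`, `u f j = u f j ε f`).  The map
`(Fin (N f) → R) → range (h * p f)`, `w ↦ ∑ j, u f j (w j)` is bijective with the inverse `x ↦ (j ↦ v f j x)`: `v f i (∑ j,
u f j (w j)) = ε f (w i) = w i` (`orth`; `R ≤ range (ε f)`, as `h ε f = ε f h`), `∑ j, u f j (v f j x) = p f x = x`, and
`v f j (h (p f y)) = h (ε f (v f j (p f y))) ∈ R`. -/
theorem MSys.rank (hS : MSys e bar p ρ N ε u v) (hB : Big e bar p ρ μ) (h : End ℂ H)
    (hh : ∀ Y ∈ comm ρ, h * Y = Y * h) (f : J) :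
    finrank ℂ (LinearMap.range (h * p f)) =
      N f * finrank ℂ (LinearMap.range (cut (∑ f, ε f) h * cut (∑ f, ε f) (ε f))) := by
  classical
  have hU := hS.unit f
  have hεc : ∀ g, h * ε g = ε g * h := fun g => hh _ (hS.unit g).mem
  have hpε : ∀ g, ε g * p g = ε g := fun g => by
    rw [← hB.central g _ (hS.unit g).mem, (hS.unit g).pf]
  have hoε : ∀ g g', g ≠ g' → ε g * ε g' = 0 := by
    intro g g' hgg
    have h1 : ε g * ε g' = ε g * (p g * p g') * ε g' := by
      rw [← mul_assoc, hpε g, mul_assoc, (hS.unit g').pf]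
    rw [h1, hB.blk.orth g g' hgg, mul_zero, zero_mul]
  have hqε : (∑ g, ε g) * ε f = ε f := by
    rw [Finset.sum_mul, Finset.sum_eq_single f]
    · exact hU.idem
    · intro g _ hg
      exact hoε g f hg
    · intro hf
      exact absurd (Finset.mem_univ f) hf
  have hεq : ε f * (∑ g, ε g) = ε f := by
    rw [Finset.mul_sum, Finset.sum_eq_single f]
    · exact hU.idem
    · intro g _ hg
      exact hoε f g (Ne.symm hg)
    · intro hf
      exact absurd (Finset.mem_univ f) hf
  have hqh : (∑ g, ε g) * h = h * ∑ g, ε g := by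
    rw [Finset.sum_mul, Finset.mul_sum]
    exact Finset.sum_congr rfl fun g _ => (hεc g).symm
  have hhu : ∀ j, h * u f j = u f j * h := fun j => hh _ (hU.umem j)
  have hhv : ∀ j, h * v f j = v f j * h := fun j => hh _ (hU.vmem j)
  have hhp : h * p f = p f * h := hh _ (hB.mem f)
  have hpu : ∀ j, p f * u f j = u f j := fun j => by
    rw [hB.central f _ (hU.umem j), ← hU.ue j, mul_assoc, hpε f]
  -- the second factor
  have h2 : finrank ℂ (LinearMap.range (cut (∑ f, ε f) h * cut (∑ f, ε f) (ε f))) =
      finrank ℂ (LinearMap.range (h * ε f)) := by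
    have h3 : Submodule.map (LinearMap.range (∑ f, ε f)).subtype
        (LinearMap.range (cut (∑ f, ε f) h * cut (∑ f, ε f) (ε f))) = LinearMap.range (h * ε f) := by
      ext x
      constructor
      · rintro ⟨_, ⟨w, rfl⟩, rfl⟩
        refine ⟨(w : H), ?_⟩
        show (h * ε f) (w : H) = ((cut (∑ f, ε f) h (cut (∑ f, ε f) (ε f) w) : LinearMap.range (∑ f, ε f)) : H)
        rw [cut_apply, cut_apply]
        have e1 := LinearMap.congr_fun hqε w
        have e2 := LinearMap.congr_fun hqh (ε f w)
        rw [Module.End.mul_apply] at e1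
        rw [Module.End.mul_apply, Module.End.mul_apply, e1] at e2
        rw [e1, e2, Module.End.mul_apply]
      · rintro ⟨y, rfl⟩
        refine ⟨_, ⟨⟨(∑ g, ε g) y, ⟨y, rfl⟩⟩, rfl⟩, ?_⟩
        show ((cut (∑ f, ε f) h (cut (∑ f, ε f) (ε f) ⟨(∑ g, ε g) y, ⟨y, rfl⟩⟩) : LinearMap.range (∑ f, ε f)) : H) =
          (h * ε f) y
        rw [cut_apply, cut_apply]
        have e0 := LinearMap.congr_fun hεq y
        have e1 := LinearMap.congr_fun hqε y
        have e2 := LinearMap.congr_fun hqh (ε f y)
        rw [Module.End.mul_apply] at e0 e1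
        rw [Module.End.mul_apply, Module.End.mul_apply, e1] at e2
        rw [e0, e1, e2, Module.End.mul_apply]
    rw [← h3]
    exact (Submodule.finrank_map_subtype_eq _ _).symm
  rw [h2]
  -- the first factor
  have hmem1 : ∀ (j : Fin (N f)) (w : LinearMap.range (h * ε f)), u f j (w : H) ∈ LinearMap.range (h * p f) := by
    rintro j ⟨_, y, rfl⟩
    refine ⟨u f j y, ?_⟩
    show (h * p f) (u f j y) = u f j ((h * ε f) y)
    have e1 := LinearMap.congr_fun (hpu j) y
    have e2 := LinearMap.congr_fun (hhu j) (ε f y)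
    have e3 := LinearMap.congr_fun (hU.ue j) y
    rw [Module.End.mul_apply] at e1 e3
    rw [Module.End.mul_apply, Module.End.mul_apply] at e2
    rw [Module.End.mul_apply, Module.End.mul_apply, e1, ← e2, e3]
  have hmem2 : ∀ (j : Fin (N f)) (x : LinearMap.range (h * p f)), v f j (x : H) ∈ LinearMap.range (h * ε f) := by
    rintro j ⟨_, y, rfl⟩
    refine ⟨v f j (p f y), ?_⟩
    show (h * ε f) (v f j (p f y)) = v f j ((h * p f) y)
    have e2 := LinearMap.congr_fun (hhv j) (p f y)
    have e3 := LinearMap.congr_fun (hU.ev j) (p f y)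
    rw [Module.End.mul_apply] at e3
    rw [Module.End.mul_apply, Module.End.mul_apply] at e2
    rw [Module.End.mul_apply, Module.End.mul_apply, e3, e2]
  have hR : ∀ w : LinearMap.range (h * ε f), ε f (w : H) = w := by
    rintro ⟨_, y, rfl⟩
    have e1 := LinearMap.congr_fun (hεc f) (ε f y)
    have e2 := LinearMap.congr_fun hU.idem y
    rw [Module.End.mul_apply] at e2
    rw [Module.End.mul_apply, Module.End.mul_apply] at e1
    simp only [Module.End.mul_apply]
    rw [← e1, e2]
  have hP : ∀ x : LinearMap.range (h * p f), p f (x : H) = x := by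
    rintro ⟨_, y, rfl⟩
    have e1 := LinearMap.congr_fun hhp (p f y)
    have e2 := LinearMap.congr_fun (hB.blk.idem f) y
    rw [Module.End.mul_apply] at e2
    rw [Module.End.mul_apply, Module.End.mul_apply] at e1
    simp only [Module.End.mul_apply]
    rw [← e1, e2]
  let L : (Fin (N f) → LinearMap.range (h * ε f)) →ₗ[ℂ] LinearMap.range (h * p f) :=
    { toFun := fun w => ∑ j, ⟨u f j (w j : H), hmem1 j (w j)⟩
      map_add' := fun w w' => by
        apply Subtype.ext
        simp [Finset.sum_add_distrib]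
      map_smul' := fun c w => by
        apply Subtype.ext
        simp [Finset.smul_sum] }
  have hL : ∀ w, ((L w : LinearMap.range (h * p f)) : H) = ∑ j, u f j (w j : H) := by
    intro w
    simp [L]
  let M : LinearMap.range (h * p f) →ₗ[ℂ] (Fin (N f) → LinearMap.range (h * ε f)) :=
    { toFun := fun x j => ⟨v f j (x : H), hmem2 j x⟩
      map_add' := fun x y => by
        funext j
        apply Subtype.ext
        simp
      map_smul' := fun c x => by
        funext j
        apply Subtype.ext
        simp }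
  have hM : ∀ x j, ((M x j : LinearMap.range (h * ε f)) : H) = v f j (x : H) := fun x j => rfl
  have hLM : L ∘ₗ M = LinearMap.id := by
    refine LinearMap.ext fun x => Subtype.ext ?_
    rw [LinearMap.comp_apply, hL, LinearMap.id_apply]
    have e1 := LinearMap.congr_fun hU.sum (x : H)
    rw [LinearMap.sum_apply, hP] at e1
    refine Eq.trans ?_ e1
    exact Finset.sum_congr rfl fun j _ => by rw [hM, Module.End.mul_apply]
  have hML : M ∘ₗ L = LinearMap.id := by
    refine LinearMap.ext fun w => funext fun i => Subtype.ext ?_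
    rw [LinearMap.comp_apply, hM, hL, LinearMap.id_apply, map_sum]
    have e1 : ∀ j, v f i (u f j (w j : H)) = if i = j then (w j : H) else 0 := by
      intro j
      have e2 := LinearMap.congr_fun (hU.orth i j) (w j : H)
      rw [Module.End.mul_apply] at e2
      rw [e2]
      split_ifs
      · exact hR _
      · rfl
    rw [Finset.sum_congr rfl fun j _ => e1 j, Finset.sum_ite_eq Finset.univ i]
    rw [if_pos (Finset.mem_univ i)]
  have hfin := (LinearEquiv.ofLinearMap L M hLM hML).finrank_eq
  rw [← hfin, Module.finrank_pi_fintype, Finset.sum_const, Finset.card_univ, Fintype.card_fin, smul_eq_mul]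

end TUT
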