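import Pool.Agent.Lib.MP_021685_agUT.P0

/-! Transfer of the forms. -/

set_option autoImplicit false

namespace TUT

open Module

variable {H : Type} [AddCommGroup H] [Module ℂ H] [FiniteDimensional ℂ H] {G : Type} [Group G] {J : Type} [Fintype J]
  {e : H →ₗ[ℂ] H →ₗ[ℂ] ℂ} {bar : J → J} {p : J → End ℂ H} {ρ : Representation ℂ G H} {μ : G →* ℂˣ} {N : J → ℕ}
  {ε : J → End ℂ H} {u v : ∀ f, Fin (N f) → End ℂ H}

/-- PROOF.  `q = ∑ f, ε f`.  `1 = ∑ f, p f = ∑ f, ∑ j, u f j * v f j` (sum over `x = (f, j)` in the finite type `Σ f, Fin (N f)`), so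
`T y = ∑ x : Fin k → Σ f, Fin (N f), T (fun a => u (x a) (v (x a) (y a)))` (`MultilinearMap.map_sum`).  For each `x` let
`T' w = T (fun a => u (x a) (w a))` for `w a ∈ range q`: a Tate form for `cutRep ρ q` (`u` commutes with `ρ s`), so
`T' ∈ span {IsPr}` by `hcore`, and `T (fun a => u (x a) (v (x a) (y a))) = T' (fun a => ⟨v (x a) (y a), _⟩)`
(`v f j y ∈ range q`: `q (v f j y) = q (ε f (v f j y)) = v f j y`).  The linear map `T' ↦ (y ↦ T' (fun a => v (x a) (y a)))`
(`compLinearMap` with the linear maps `y ↦ ⟨v (x a) y, _⟩`) maps `IsPr` to `IsPg`: `β y z = e (ε (f j) (v (x a) y)) (v (x b) z)` is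
a pairing with multiplier `μ` (`he`, and `ε`, `v` are in `comm ρ`). -/
theorem MSys.transfer (hS : MSys e bar p ρ N ε u v) (hB : Big e bar p ρ μ) (hq : (∑ f, ε f) * (∑ f, ε f) = ∑ f, ε f)
    (hc : ∑ f, ε f ∈ comm ρ) {G' : Subgroup G} {k : ℕ} {i : ℤ}
    (hcore : ∀ T' : MultilinearMap ℂ (fun _ : Fin k => LinearMap.range (∑ f, ε f)) ℂ,
      IsTt (cutRep ρ (∑ f, ε f) hq hc) μ G' i T' →
        T' ∈ Submodule.span ℂ {T'' | IsPr (cutForm e (∑ f, ε f)) (fun f => cut (∑ f, ε f) (ε f)) T''})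
    (T : MultilinearMap ℂ (fun _ : Fin k => H) ℂ) (hT : IsTt ρ μ G' i T) :
    T ∈ Submodule.span ℂ {T' | IsPg ρ μ T'} := by
  classical
  obtain ⟨q, hqd⟩ : ∃ q : End ℂ H, q = ∑ f, ε f := ⟨_, rfl⟩
  have hεp : ∀ f, ε f ∈ comm ρ := fun f => (hS.unit f).mem
  have horth : ∀ g f, g ≠ f → ε g * ε f = 0 := by
    intro g f hgf
    have h1 : ε g * ε f = p f * p g * (ε g * ε f) := by
      calc ε g * ε f = ε g * (p f * ε f) := by rw [(hS.unit f).pf]
        _ = p f * ε g * ε f := by rw [← mul_assoc, hB.central f _ (hεp g)]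
        _ = p f * (p g * ε g) * ε f := by rw [(hS.unit g).pf]
        _ = p f * p g * (ε g * ε f) := by simp only [mul_assoc]
    rw [h1, hB.blk.orth f g (Ne.symm hgf), zero_mul]
  have hqε : ∀ f, q * ε f = ε f := by
    intro f
    rw [hqd, Finset.sum_mul, Finset.sum_eq_single f]
    · exact (hS.unit f).idem
    · intro g _ hgf
      exact horth g f hgf
    · intro h
      exact absurd (Finset.mem_univ f) h
  have hqv : ∀ (x : Σ f, Fin (N f)) (y : H), v x.1 x.2 y ∈ LinearMap.range (∑ f, ε f) := by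
    intro x y
    refine ⟨v x.1 x.2 y, ?_⟩
    rw [← hqd]
    have h1 : q * v x.1 x.2 = v x.1 x.2 := by
      calc q * v x.1 x.2 = q * (ε x.1 * v x.1 x.2) := by rw [(hS.unit x.1).ev]
        _ = ε x.1 * v x.1 x.2 := by rw [← mul_assoc, hqε]
        _ = v x.1 x.2 := (hS.unit x.1).ev x.2
    exact LinearMap.congr_fun h1 y
  have hone : ∑ x : Σ f, Fin (N f), u x.1 x.2 * v x.1 x.2 = 1 := by
    rw [Fintype.sum_sigma, ← hB.blk.sum]
    exact Finset.sum_congr rfl fun f _ => (hS.unit f).sum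
  obtain ⟨g, hg⟩ : ∃ g : (Σ f, Fin (N f)) → H →ₗ[ℂ] LinearMap.range (∑ f, ε f),
      ∀ x y, ((g x y : LinearMap.range (∑ f, ε f)) : H) = v x.1 x.2 y :=
    ⟨fun x => (v x.1 x.2).codRestrict _ (hqv x), fun x y => rfl⟩
  obtain ⟨T', hT'⟩ : ∃ T' : (Fin k → Σ f, Fin (N f)) →
      MultilinearMap ℂ (fun _ : Fin k => LinearMap.range (∑ f, ε f)) ℂ,
      ∀ r w, T' r w = T (fun a => u (r a).1 (r a).2 (w a : H)) :=
    ⟨fun r => T.compLinearMap fun a => (u (r a).1 (r a).2) ∘ₗ (LinearMap.range (∑ f, ε f)).subtype,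
      fun r w => rfl⟩
  have hsum : T = ∑ r : Fin k → Σ f, Fin (N f), MultilinearMap.compLinearMapₗ (fun a => g (r a)) (T' r) := by
    ext y
    rw [_root_.sum_apply]
    have h1 : ∀ r : Fin k → Σ f, Fin (N f),
        (MultilinearMap.compLinearMapₗ (fun a => g (r a)) (T' r)) y =
          T (fun a => u (r a).1 (r a).2 (v (r a).1 (r a).2 (y a))) := by
      intro r
      show T' r (fun a => g (r a) (y a)) = _
      rw [hT']
      exact congrArg T (funext fun a => by rw [hg])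
    rw [Finset.sum_congr rfl fun r _ => h1 r,
      ← T.map_sum (fun (a : Fin k) (x : Σ f, Fin (N f)) => u x.1 x.2 (v x.1 x.2 (y a)))]
    congr 1
    funext a
    have h2 := LinearMap.congr_fun hone (y a)
    rw [LinearMap.sum_apply] at h2
    exact h2.symm
  have hTt : ∀ r, IsTt (cutRep ρ (∑ f, ε f) hq hc) μ G' i (T' r) := by
    intro r s hs w
    rw [hT', hT']
    have h1 : ∀ a, u (r a).1 (r a).2 ((cutRep ρ (∑ f, ε f) hq hc s (w a) : LinearMap.range (∑ f, ε f)) : H) =
        ρ s (u (r a).1 (r a).2 (w a : H)) := by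
      intro a
      have h2 : ((cutRep ρ (∑ f, ε f) hq hc s (w a) : LinearMap.range (∑ f, ε f)) : H) = ρ s (w a : H) := by
        show (∑ f, ε f) (ρ s (w a : H)) = ρ s (w a : H)
        obtain ⟨w', hw'⟩ := (w a).2
        have h3 := LinearMap.congr_fun (hc s) (w a : H)
        rw [Module.End.mul_apply, Module.End.mul_apply] at h3
        rw [← h3, ← hw']
        have h4 := LinearMap.congr_fun hq w'
        rw [Module.End.mul_apply] at h4
        rw [h4]
      rw [h2]
      have h5 := LinearMap.congr_fun ((hS.unit (r a).1).umem (r a).2 s) (w a : H)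
      rw [Module.End.mul_apply, Module.End.mul_apply] at h5
      exact h5.symm
    rw [show (fun a => u (r a).1 (r a).2 ((cutRep ρ (∑ f, ε f) hq hc s (w a) : LinearMap.range (∑ f, ε f)) : H)) =
      fun a => ρ s (u (r a).1 (r a).2 (w a : H)) from funext h1]
    exact hT s hs _
  rw [hsum]
  refine Submodule.sum_mem _ fun r _ => ?_
  have hmap : Submodule.map (MultilinearMap.compLinearMapₗ (fun a => g (r a)))
      (Submodule.span ℂ {T'' : MultilinearMap ℂ (fun _ : Fin k => LinearMap.range (∑ f, ε f)) ℂ |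
        IsPr (cutForm e (∑ f, ε f)) (fun f => cut (∑ f, ε f) (ε f)) T''}) ≤
      Submodule.span ℂ {T' | IsPg ρ μ T'} := by
    rw [Submodule.map_span_le]
    rintro T'' ⟨m, η, f, hT''⟩
    refine Submodule.subset_span ⟨m, η, fun j => e.compl₁₂
      ((∑ f, ε f) * (ε (f j) * v (r (η (Sum.inl j))).1 (r (η (Sum.inl j))).2))
      (v (r (η (Sum.inr j))).1 (r (η (Sum.inr j))).2), ?_, ?_⟩
    · intro j s a b
      rw [LinearMap.compl₁₂_apply, LinearMap.compl₁₂_apply]
      have h1 := (hS.unit (r (η (Sum.inl j))).1).vmem (r (η (Sum.inl j))).2 s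
      have h2 := (hS.unit (r (η (Sum.inr j))).1).vmem (r (η (Sum.inr j))).2 s
      have h3 := hεp (f j) s
      have h4 : ρ s * ((∑ f, ε f) * (ε (f j) * v (r (η (Sum.inl j))).1 (r (η (Sum.inl j))).2)) =
          (∑ f, ε f) * (ε (f j) * v (r (η (Sum.inl j))).1 (r (η (Sum.inl j))).2) * ρ s := by
        rw [← mul_assoc, hc s, mul_assoc, ← mul_assoc (ρ s), h3, mul_assoc (ε (f j)), h1]
        simp only [mul_assoc]
      have h5 := LinearMap.congr_fun h4 a
      have h6 := LinearMap.congr_fun h2 b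
      rw [Module.End.mul_apply, Module.End.mul_apply] at h6
      rw [← h6]
      have h7 : ((∑ f, ε f) * (ε (f j) * v (r (η (Sum.inl j))).1 (r (η (Sum.inl j))).2)) (ρ s a) =
          ρ s (((∑ f, ε f) * (ε (f j) * v (r (η (Sum.inl j))).1 (r (η (Sum.inl j))).2)) a) := h5.symm
      rw [h7]
      exact hB.he s _ _
    · intro y
      show T'' (fun a => g (r a) (y a)) = _
      rw [hT'']
      refine Finset.prod_congr rfl fun j _ => ?_
      show e ((∑ f, ε f) (ε (f j) ((g (r (η (Sum.inl j))) (y (η (Sum.inl j))) :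
        LinearMap.range (∑ f, ε f)) : H))) ((g (r (η (Sum.inr j))) (y (η (Sum.inr j))) :
        LinearMap.range (∑ f, ε f)) : H) = e ((∑ f, ε f) (ε (f j)
          (v (r (η (Sum.inl j))).1 (r (η (Sum.inl j))).2 (y (η (Sum.inl j))))))
          (v (r (η (Sum.inr j))).1 (r (η (Sum.inr j))).2 (y (η (Sum.inr j))))
      rw [hg, hg]
  exact hmap (Submodule.mem_map_of_mem (hcore (T' r) (hTt r)))

end TUT
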