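import Pool.Agent.Lib.MP_021685_agUT.P2
import Pool.Agent.Lib.MP_021685_agUT.P3
import Pool.Agent.Lib.MP_021685_agUT.P4
import Pool.Agent.Lib.MP_021685_agUT.P5
import Pool.Agent.Lib.MP_021685_agUT.P6

/-! The theorem over `ℂ`, for any commutant. -/

set_option autoImplicit false

namespace TUT

open Module

variable {H : Type} [AddCommGroup H] [Module ℂ H] [FiniteDimensional ℂ H] {G : Type} [Group G] {J : Type} [Fintype J]
  [DecidableEq J] {e : H →ₗ[ℂ] H →ₗ[ℂ] ℂ} {bar : J → J} {p : J → End ℂ H} {ρ : Representation ℂ G H} {μ : G →* ℂˣ}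

omit [DecidableEq J] in
/-- The multiplicities are divisible by the degree of the commutant. -/
theorem Big.dvd (hB : Big e bar p ρ μ) {N : J → ℕ} (hN : ∀ f, finrank ℂ (cblk ρ p f) = N f ^ 2) (h : End ℂ H)
    (hh : ∀ Y ∈ comm ρ, h * Y = Y * h) (f : J) : N f ∣ finrank ℂ (LinearMap.range (h * p f)) := by
  obtain ⟨N', ε, u, v, hS, hN'⟩ := hB.exists_sys
  have h1 : N' f ^ 2 = N f ^ 2 := by rw [← hN', hN]
  have h2 : N' f = N f := Nat.pow_left_injective (n := 2) (by norm_num) h1
  rw [hS.rank hB h hh f, ← h2]
  exact Dvd.intro _ rfl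

/-- All Tate forms are combinations of products of pairings. -/
theorem Big.core (hB : Big e bar p ρ μ) (P : Subgroup G → Prop) (hP : ∃ G', P G')
    (hconj : ∀ G', P G' → ∀ g : G, ∃ G'', P G'' ∧ ∀ s ∈ G'', g * s * g⁻¹ ∈ G') {S : Type} [Fintype S]
    (h : S → End ℂ H) (n : S → J → ℕ) (N : J → ℕ) (hN0 : ∀ f, 0 < N f) (hN : ∀ f, finrank ℂ (cblk ρ p f) = N f ^ 2)
    (hNb : ∀ f, N (bar f) = N f)
    (hidem : ∀ σ, h σ * h σ = h σ) (hkills : ∀ σ, Kills ρ μ P (h σ) 1)
    (hrank : ∀ σ f, finrank ℂ (LinearMap.range (h σ * p f)) = n σ f)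
    (hcop : ∀ f, ∃ σ, Nat.gcd (n σ f) (n σ (bar f)) = N f)
    (hlink : ∀ f g, g ≠ f → g ≠ bar f → (∀ σ, 2 * N f ≤ n σ f + n σ (bar f)) →
      (∀ σ, (n σ f + n σ (bar f)) * N g = (n σ g + n σ (bar g)) * N f) →
      (∃ σ, n σ f * N g ≠ n σ g * N f ∧ (n σ f ≠ 0 ∧ n σ (bar f) ≠ 0 ∨ n σ g ≠ 0 ∧ n σ (bar g) ≠ 0)) ∨
        ∀ Θ : End ℂ H, p g * Θ = Θ → Θ * p f = Θ → (∀ s, ∃ φ : ℂ, Θ * ρ s = φ • (ρ s * Θ)) → Θ = 0)
    (hcentre : ∀ f, ∃ c : S → ℂ, ∑ σ, c σ = 0 ∧
      ∀ g, ∑ σ, c σ * (n σ g : ℂ) = if g = f then 1 else if g = bar f then -1 else 0)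
    {G' : Subgroup G} (hG' : P G') {k : ℕ} {i : ℤ} (T : MultilinearMap ℂ (fun _ : Fin k => H) ℂ) (hT : IsTt ρ μ G' i T) :
    T ∈ Submodule.span ℂ {T' | IsPg ρ μ T'} := by
  classical
  obtain ⟨N', ε, u, v, hS, hN'⟩ := hB.exists_sys
  have hNN : ∀ f, N' f = N f := fun f => by
    have h1 : N' f ^ 2 = N f ^ 2 := by rw [← hN', hN]
    exact Nat.pow_left_injective (n := 2) (by norm_num) h1
  have hq := hS.idem hB
  have hhc : ∀ σ, ∀ Y ∈ comm ρ, h σ * Y = Y * h σ := fun σ Y hY => Kills.comm hB.blk.nd hB.he hP (hkills σ) Y hY
  refine hS.transfer hB hq hS.mem (fun T' hT' => ?_) T hT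
  let q := ∑ f, ε f
  have hnr : ∀ σ f, n σ f = N f * finrank ℂ (LinearMap.range (cut q (h σ) * cut q (ε f))) := fun σ f => by
    rw [← hrank, hS.rank hB (h σ) (hhc σ) f, hNN]
  rcases isEmpty_or_nonempty J with hJ | ⟨⟨f₀⟩⟩
  · -- the trivial case
    have h1 : (1 : End ℂ H) = 0 := by rw [← hB.blk.sum, Finset.univ_eq_empty, Finset.sum_empty]
    have hs : Subsingleton H := ⟨fun x y => by
      have h2 := LinearMap.congr_fun h1 x
      have h3 := LinearMap.congr_fun h1 y
      rw [Module.End.one_apply, LinearMap.zero_apply] at h2 h3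
      rw [h2, h3]⟩
    rcases Nat.eq_zero_or_pos k with rfl | hk
    · have h1 : T' = T' (fun _ => 0) • MultilinearMap.constOfIsEmpty ℂ (fun _ : Fin 0 => LinearMap.range q) (1 : ℂ) := by
        ext w
        show T' w = T' (fun _ => 0) * 1
        rw [mul_one]
        exact congrArg T' (Subsingleton.elim _ _)
      rw [h1]
      refine Submodule.smul_mem _ _ (Submodule.subset_span ⟨0, Equiv.equivOfIsEmpty _ _, Fin.elim0, fun w => ?_⟩)
      exact (Fintype.prod_empty _).symm
    · have h1 : T' = 0 := by
        ext w
        rw [zero_apply]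
        exact T'.map_coord_zero ⟨0, hk⟩ (Subsingleton.elim _ _)
      rw [h1]
      exact Submodule.zero_mem _
  have hqe : ∀ f, q * ε f = ε f := by
    intro f
    show (∑ g, ε g) * ε f = ε f
    rw [Finset.sum_mul, Finset.sum_eq_single f]
    · exact (hS.unit f).idem
    · intro g _ hg
      have h1 : ε g * p g = ε g := by rw [← hB.central g _ (hS.unit g).mem, (hS.unit g).pf]
      calc ε g * ε f = ε g * p g * (p f * ε f) := by rw [h1, (hS.unit f).pf]
        _ = ε g * (p g * p f) * ε f := by simp only [mul_assoc]
        _ = 0 := by rw [hB.blk.orth g f hg, mul_zero, zero_mul]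
    · intro h1
      exact absurd (Finset.mem_univ f) h1
  have heq : ∀ f, ε f * q = ε f := by
    intro f
    show ε f * (∑ g, ε g) = ε f
    rw [Finset.mul_sum, Finset.sum_eq_single f]
    · exact (hS.unit f).idem
    · intro g _ hg
      have h1 : ε f * p f = ε f := by rw [← hB.central f _ (hS.unit f).mem, (hS.unit f).pf]
      calc ε f * ε g = ε f * p f * (p g * ε g) := by rw [h1, (hS.unit g).pf]
        _ = ε f * (p f * p g) * ε g := by simp only [mul_assoc]
        _ = 0 := by rw [hB.blk.orth f g (Ne.symm hg), mul_zero, zero_mul]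
    · intro h1
      exact absurd (Finset.mem_univ f) h1
  have hnt : Nontrivial (LinearMap.range q) := by
    obtain ⟨x, hx⟩ : ∃ x, ε f₀ x ≠ 0 := by
      by_contra hcon
      push Not at hcon
      exact (hS.unit f₀).ne (LinearMap.ext fun x => by rw [hcon x, LinearMap.zero_apply])
    refine ⟨⟨⟨ε f₀ x, ε f₀ x, LinearMap.congr_fun (hqe f₀) x⟩, 0, fun h1 => hx (congrArg Subtype.val h1)⟩⟩
  have hqv : ∀ w : LinearMap.range q, q (w : H) = w := by
    rintro ⟨_, w, rfl⟩
    exact LinearMap.congr_fun hq w
  have d : Datum (cutForm e q) bar (fun f => cut q (ε f)) (cutRep ρ q hq hS.mem) μ P (fun σ => cut q (h σ))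
      (fun σ f => finrank ℂ (LinearMap.range (cut q (h σ) * cut q (ε f)))) :=
    { blk := hS.blk hB
      he := fun s x y => by
        rw [cutForm_apply, cutForm_apply]
        show e (q (ρ s x)) (q (ρ s y)) = _
        have h1 := LinearMap.congr_fun (hS.mem s) (x : H)
        have h2 := LinearMap.congr_fun (hS.mem s) (y : H)
        rw [Module.End.mul_apply, Module.End.mul_apply] at h1 h2
        have h3 : q (ρ s x) = ρ s x := by
          show (∑ f, ε f) (ρ s x) = ρ s x
          rw [← h1]
          exact congrArg (ρ s) (hqv x)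
        have h4 : q (ρ s y) = ρ s y := by
          show (∑ f, ε f) (ρ s y) = ρ s y
          rw [← h2]
          exact congrArg (ρ s) (hqv y)
        rw [h3, h4, hB.he]
      hρp := fun s f => by
        ext x
        rw [Module.End.mul_apply, Module.End.mul_apply]
        show q (ρ s (q (ε f x))) = q (ε f (q (ρ s x)))
        have h1 := LinearMap.congr_fun (hqe f) (x : H)
        rw [Module.End.mul_apply] at h1
        have h2 := LinearMap.congr_fun ((hS.unit f).mem s) (x : H)
        rw [Module.End.mul_apply, Module.End.mul_apply] at h2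
        have h3 := LinearMap.congr_fun (hS.mem s) (x : H)
        rw [Module.End.mul_apply, Module.End.mul_apply] at h3
        have h4 : q (ρ s x) = ρ s x := by
          show (∑ f, ε f) (ρ s x) = ρ s x
          rw [← h3]
          exact congrArg (ρ s) (hqv x)
        rw [h1, h2, h4]
      dens := fun G' hG' X hX => hS.dens hB hq G' hG' X hX
      hP := hP
      conj := hconj
      idem := fun σ => by
        ext x
        rw [Module.End.mul_apply, cut_apply, cut_apply]
        have h1 := LinearMap.congr_fun (hhc σ q hS.mem) (x : H)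
        rw [Module.End.mul_apply, Module.End.mul_apply, hqv x] at h1
        have h2 := LinearMap.congr_fun (hidem σ) (x : H)
        rw [Module.End.mul_apply] at h2
        rw [← h1, h2, ← h1]
      kills := fun σ => Kills.cut (hkills σ) q hq hS.mem
      rank := fun σ f => rfl
      cop := fun f => by
        obtain ⟨σ, h1⟩ := hcop f
        refine ⟨σ, ?_⟩
        rw [hnr σ f, hnr σ (bar f), hNb, Nat.gcd_mul_left] at h1
        exact Nat.eq_of_mul_eq_mul_left (hN0 f) (by rw [h1, mul_one])
      link := fun f g h1 h2 h3 h3' => by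
        rcases hlink f g h1 h2 (fun σ => by
          rw [hnr σ f, hnr σ (bar f), hNb, ← mul_add, mul_comm 2]
          exact Nat.mul_le_mul_left _ (h3 σ)) (fun σ => by
          rw [hnr σ f, hnr σ (bar f), hnr σ g, hnr σ (bar g), hNb, hNb, ← mul_add, ← mul_add, h3' σ]
          ring) with ⟨σ, h4, h5⟩ | hno
        · left
          refine ⟨σ, fun h7 => h4 ?_, ?_⟩
          · rw [hnr σ f, hnr σ g, h7]
            ring
          · have h6 : ∀ g, n σ g ≠ 0 → finrank ℂ (LinearMap.range (cut q (h σ) * cut q (ε g))) ≠ 0 := fun g h7 h8 =>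
              h7 (by rw [hnr σ g, h8, mul_zero])
            rcases h5 with h5 | h5
            · exact Or.inl ⟨h6 _ h5.1, h6 _ h5.2⟩
            · exact Or.inr ⟨h6 _ h5.1, h6 _ h5.2⟩
        · right
          intro θ h4 h5 h6
          have h7 := hno ((LinearMap.range q).subtype ∘ₗ θ ∘ₗ q.rangeRestrict) (by
            ext v
            have h8 : ε g (θ (q.rangeRestrict v) : LinearMap.range q) = (θ (q.rangeRestrict v) : LinearMap.range q) := by
              have h9 := congrArg Subtype.val (LinearMap.congr_fun h4 (q.rangeRestrict v))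
              rw [Module.End.mul_apply, cut_apply] at h9
              have h10 := LinearMap.congr_fun (hqe g) (θ (q.rangeRestrict v) : LinearMap.range q)
              rw [Module.End.mul_apply] at h10
              rw [← h10]
              exact h9
            show p g (θ (q.rangeRestrict v) : LinearMap.range q) = (θ (q.rangeRestrict v) : LinearMap.range q)
            rw [← h8]
            exact LinearMap.congr_fun (hS.unit g).pf _) (by
            ext v
            have h8 : ∀ v, θ (q.rangeRestrict v) = θ ⟨ε f v, ε f v, LinearMap.congr_fun (hqe f) v⟩ := by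
              intro v
              have h9 := LinearMap.congr_fun h5 (q.rangeRestrict v)
              rw [← h9]
              show θ (cut q (ε f) (q.rangeRestrict v)) = _
              congr 1
              apply Subtype.ext
              rw [cut_apply]
              show q (ε f (q v)) = ε f v
              have h10 := LinearMap.congr_fun (heq f) v
              rw [Module.End.mul_apply] at h10
              rw [h10]
              exact LinearMap.congr_fun (hqe f) v
            show ((θ (q.rangeRestrict (p f v)) : LinearMap.range q) : H) = (θ (q.rangeRestrict v) : LinearMap.range q)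
            rw [h8, h8]
            have h9 : ε f (p f v) = ε f v := by
              have h10 : ε f * p f = ε f := by rw [← hB.central f _ (hS.unit f).mem, (hS.unit f).pf]
              exact LinearMap.congr_fun h10 v
            simp only [h9]) fun s => by
              obtain ⟨φ, hφ⟩ := h6 s
              refine ⟨φ, ?_⟩
              ext v
              have h8 : q.rangeRestrict (ρ s v) = cutRep ρ q hq hS.mem s (q.rangeRestrict v) := by
                apply Subtype.ext
                show q (ρ s v) = q (ρ s (q v))
                have h9 := LinearMap.congr_fun (hS.mem s) (q v)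
                have h10 := LinearMap.congr_fun (hS.mem s) v
                rw [Module.End.mul_apply, Module.End.mul_apply] at h9 h10
                have h11 := LinearMap.congr_fun hq v
                rw [Module.End.mul_apply] at h11
                rw [← h9, ← h10]
                exact congrArg (ρ s) h11.symm
              have h12 := congrArg Subtype.val (LinearMap.congr_fun hφ (q.rangeRestrict v))
              show ((θ (q.rangeRestrict (ρ s v)) : LinearMap.range q) : H) =
                φ • ρ s (θ (q.rangeRestrict v) : LinearMap.range q)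
              rw [h8]
              refine h12.trans ?_
              show φ • q (ρ s (θ (q.rangeRestrict v) : LinearMap.range q)) = _
              have h9 := LinearMap.congr_fun (hS.mem s) (θ (q.rangeRestrict v) : LinearMap.range q)
              rw [Module.End.mul_apply, Module.End.mul_apply] at h9
              congr 1
              refine h9.symm.trans (congrArg (ρ s) (hqv _))
          ext x
          have h8 := LinearMap.congr_fun h7 (x : H)
          have h9 : q.rangeRestrict (x : H) = x := Subtype.ext (hqv x)
          have h10 : ((θ (q.rangeRestrict (x : H)) : LinearMap.range q) : H) = 0 := h8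
          rw [h9] at h10
          exact h10
      centre := fun f => by
        obtain ⟨c, h1, h2⟩ := hcentre f
        refine ⟨fun σ => (N f : ℂ) * c σ, by rw [← Finset.mul_sum, h1, mul_zero], fun g => ?_⟩
        have hg0 : (N g : ℂ) ≠ 0 := Nat.cast_ne_zero.2 (hN0 g).ne'
        have h3 := h2 g
        have h4 : ∑ σ, c σ * (n σ g : ℂ) =
            (N g : ℂ) * ∑ σ, c σ * (finrank ℂ (LinearMap.range (cut q (h σ) * cut q (ε g))) : ℂ) := by
          rw [Finset.mul_sum]
          refine Finset.sum_congr rfl fun σ _ => ?_
          rw [hnr σ g]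
          push_cast
          ring
        have h5 : ∑ σ, (N f : ℂ) * c σ * (finrank ℂ (LinearMap.range (cut q (h σ) * cut q (ε g))) : ℂ) =
            (N f : ℂ) * ∑ σ, c σ * (finrank ℂ (LinearMap.range (cut q (h σ) * cut q (ε g))) : ℂ) := by
          rw [Finset.mul_sum]
          exact Finset.sum_congr rfl fun σ _ => by ring
        rw [h5]
        rw [h4] at h3
        by_cases hgf : g = f
        · subst hgf
          rw [if_pos rfl] at h3 ⊢
          exact h3
        · rw [if_neg hgf] at h3 ⊢
          by_cases hgb : g = bar f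
          · subst hgb
            rw [if_pos rfl] at h3 ⊢
            rw [hNb] at h3
            exact h3
          · rw [if_neg hgb] at h3 ⊢
            rw [(mul_eq_zero.1 h3).resolve_left hg0, mul_zero] }
  exact d.core hG' T' hT'

end TUT
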