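import Pool.Agent.Lib.MP_021685_agUT.K3
import Pool.Agent.Lib.MP_021685_agUT.K2

/-! The theorem over `ℂ`, with a trivial factor; pairings for the converse. -/

set_option autoImplicit false

namespace TUT

open Module

variable {H : Type} [AddCommGroup H] [Module ℂ H] {G : Type} [Group G] {ρ : Representation ℂ G H} {μ : G →* ℂˣ}

theorem IsPg.card {k : ℕ} {T' : MultilinearMap ℂ (fun _ : Fin k => H) ℂ} (h : IsPg ρ μ T') : ∃ m, k = 2 * m ∧
    ∃ (ε : Fin m ⊕ Fin m ≃ Fin k) (β : Fin m → H →ₗ[ℂ] H →ₗ[ℂ] ℂ),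
      (∀ j s u v, β j (ρ s u) (ρ s v) = (μ s : ℂ) * β j u v) ∧
        ∀ v, T' v = ∏ j, β j (v (ε (Sum.inl j))) (v (ε (Sum.inr j))) := by
  obtain ⟨m, ε, β, h1, h2⟩ := h
  refine ⟨m, ?_, ε, β, h1, h2⟩
  have h1 := Fintype.card_congr ε
  simp only [Fintype.card_sum, Fintype.card_fin] at h1
  omega

theorem pg_equiv {m : ℕ} {T : MultilinearMap ℂ (fun _ : Fin (2 * m) => H) ℂ}
    (hT : T ∈ Submodule.span ℂ {T' | IsPg ρ μ T'}) (s : G) (v : Fin (2 * m) → H) :
    T (fun j => ρ s (v j)) = (μ s : ℂ) ^ m * T v := by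
  induction hT using Submodule.span_induction with
  | mem T' h =>
    obtain ⟨m', hm, ε, β, hβ, hf⟩ := h.card
    have hmm : m' = m := by omega
    subst hmm
    rw [hf, hf]
    simp only [hβ]
    rw [Finset.prod_mul_distrib, Finset.prod_const, Finset.card_univ, Fintype.card_fin]
  | zero =>
    rw [zero_apply, zero_apply, mul_zero]
  | add x y _ _ hx hy =>
    rw [add_apply, add_apply, hx, hy, mul_add]
  | smul c x _ hx =>
    rw [smul_apply, smul_apply, hx, smul_eq_mul, smul_eq_mul]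
    ring

variable {W : Type} [AddCommGroup W] [Module ℂ W]

/-- If all Tate forms for `G'` are combinations of products, the same holds with a factor on which `G` acts trivially. -/
theorem product_of_pg [FiniteDimensional ℂ W] {G' : Subgroup G} {k : ℕ} {i : ℤ}
    (hcore : ∀ T : MultilinearMap ℂ (fun _ : Fin k => H) ℂ, IsTt ρ μ G' i T → T ∈ Submodule.span ℂ {T' | IsPg ρ μ T'})
    (σ : Representation ℂ G W) (hσ : ∀ g w, σ g w = w) (T : MultilinearMap ℂ (fun _ : Fin k => H) (W →ₗ[ℂ] ℂ))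
    (hT : TGR.IsTate ρ σ μ G' i T) :
    T ∈ Submodule.span ℂ {T' : MultilinearMap ℂ (fun _ : Fin k => H) (W →ₗ[ℂ] ℂ) | TGR.IsProduct ρ σ μ G' i T'} := by
  have hw : ∀ w, atW T w ∈ Submodule.span ℂ {T' | IsPg ρ μ T'} := by
    intro w
    refine hcore _ fun s hs v => ?_
    have h1 := hT s hs v w
    rw [hσ] at h1
    exact h1
  by_cases hT0 : T = 0
  · rw [hT0]
    exact Submodule.zero_mem _
  obtain ⟨v₀, w₀, h0⟩ : ∃ v w, T v w ≠ 0 := by
    by_contra hcon
    push Not at hcon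
    apply hT0
    ext v w
    exact hcon v w
  have hk : ∃ m, k = 2 * m := by
    by_contra hcon
    have h1 : ({T' | IsPg ρ μ T'} : Set (MultilinearMap ℂ (fun _ : Fin k => H) ℂ)) = ∅ := by
      rw [Set.eq_empty_iff_forall_notMem]
      intro T' h
      obtain ⟨m, hm, -⟩ := IsPg.card h
      exact hcon ⟨m, hm⟩
    have h2 := hw w₀
    rw [h1, Submodule.span_empty, Submodule.mem_bot] at h2
    apply h0
    rw [← atW_apply, h2, zero_apply]
  obtain ⟨m, rfl⟩ := hk
  have hμ : ∀ g ∈ G', (μ g : ℂˣ) ^ (i - (m : ℤ)) = 1 := by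
    intro g hg
    have h1 := hT g hg v₀ w₀
    rw [hσ] at h1
    have h2 := pg_equiv (hw w₀) g v₀
    rw [atW_apply, atW_apply, h1] at h2
    have h3 : ((μ g ^ i : ℂˣ) : ℂ) = ((μ g ^ m : ℂˣ) : ℂ) := by
      rw [Units.val_pow_eq_pow_val]
      exact mul_right_cancel₀ h0 h2
    have h4 : μ g ^ i = μ g ^ m := Units.ext h3
    rw [zpow_sub, h4, zpow_natCast, mul_inv_cancel]
  have hexp : T = ∑ b, timesW ((Module.finBasis ℂ W).coord b) (atW T (Module.finBasis ℂ W b)) := by
    ext v w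
    rw [sum_apply, LinearMap.sum_apply]
    have h1 := (Module.finBasis ℂ W).sum_repr w
    conv_lhs => rw [← h1]
    rw [map_sum]
    refine Finset.sum_congr rfl fun b _ => ?_
    rw [timesW_apply, atW_apply, map_smul, smul_eq_mul, mul_comm]
    rfl
  rw [hexp]
  refine Submodule.sum_mem _ fun b _ => ?_
  have h2 := Submodule.mem_map_of_mem (f := timesW (k := 2 * m) ((Module.finBasis ℂ W).coord b))
    (hw (Module.finBasis ℂ W b))
  rw [Submodule.map_span] at h2
  refine Submodule.span_mono ?_ h2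
  rintro _ ⟨D, hD, rfl⟩
  obtain ⟨m', hm, ε, β, hβ, hf⟩ := IsPg.card hD
  have hmm : m' = m := by omega
  subst hmm
  refine ⟨m', ε, β, (Module.finBasis ℂ W).coord b, fun j g _ u v => hβ j g u v, fun g hg w => ?_, fun v w => ?_⟩
  · rw [hμ g hg, hσ, Units.val_one, one_mul]
  · rw [timesW_apply, hf]

end TUT
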