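import Pool.Agent.Lib.MP_021685_agTT.LP
import Pool.Agent.Lib.MP_021685_agTT.GL

/-! From the theorem over `ℂ` to the theorem over `ℚ_l`. -/

set_option autoImplicit false

namespace TUT

open TensorProduct Pool.Agent.Lib.MP_021685_agTT

section

variable {k : Type} [Field k] {G : Type} [Group G] {V : Type} [AddCommGroup V] [Module k V] {W : Type} [AddCommGroup W]
  [Module k W] [Algebra k ℂ]

/-- All Tate forms over `ℂ` for the group `G'` are combinations of products. -/
def CoreC (ρ : Representation k G V) (σ : Representation k G W) (χ : G →* kˣ) (G' : Subgroup G) : Prop :=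
  ∀ (n : ℕ) (i : ℤ) (T : MultilinearMap ℂ (fun _ : Fin n => ℂ ⊗[k] V) ((ℂ ⊗[k] W) →ₗ[ℂ] ℂ)),
    TGR.IsTate (repC ρ) (repC σ) (charC χ) G' i T →
      T ∈ Submodule.span ℂ {T' : MultilinearMap ℂ (fun _ : Fin n => ℂ ⊗[k] V) ((ℂ ⊗[k] W) →ₗ[ℂ] ℂ) |
        TGR.IsProduct (repC ρ) (repC σ) (charC χ) G' i T'}

theorem lift_core_of [Module.Finite k V] [Module.Finite k W] {ρ : Representation k G V} {σ : Representation k G W}
    {χ : G →* kˣ} {G' : Subgroup G} (h : CoreC ρ σ χ G') {n : ℕ} (i : ℤ)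
    (T : MultilinearMap k (fun _ : Fin n => V) (W →ₗ[k] k))
    (hT : ∀ g ∈ G', ∀ v w, T (fun a => ρ g (v a)) (σ g w) = ((χ g ^ i : kˣ) : k) * T v w) :
    T ∈ Submodule.span k {D | ∃ (m : ℕ) (e : Fin m ⊕ Fin m ≃ Fin n),
      IsProdW (pairs ρ χ G') (lins σ χ G' (i - m)) e D} := by
  obtain ⟨TC, hTC, hTC'⟩ := exists_extendW ℂ T
  have hspan := h n i TC (by
    intro g hg v w
    have h1 := hTC' (ρ g) (σ g) ((χ g ^ i : kˣ) : k) (hT g hg) v w
    have h2 : TC (fun a => repC ρ g (v a)) (repC σ g w) = algebraMap k ℂ ((χ g ^ i : kˣ) : k) * TC v w := h1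
    rw [h2, charC_zpow])
  refine descentW (C := ℂ) (pairs ρ χ G') (fun m => lins σ χ G' (i - m)) T
    (TGR.IsProduct (repC ρ) (repC σ) (charC χ) G' i) (fun T' hT' => ?_) TC hTC hspan
  obtain ⟨m, e', B, Y, hB, hY, hT'⟩ := hT'
  refine ⟨m, e', B, Y, ?_, ?_, hT'⟩
  · rintro j' _ ⟨g, hg, rfl⟩ x y
    exact hB j' g hg x y
  · rintro _ ⟨g, hg, rfl⟩ x
    have h3 := hY g hg x
    rw [charC_zpow] at h3
    exact h3

theorem lift_power_of [Module.Finite k V] [Module.Finite k W] {ρ : Representation k G V} {σ : Representation k G W}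
    {χ : G →* kˣ} {G' : Subgroup G} (h : CoreC ρ σ χ G') {r n : ℕ} (i : ℤ)
    (T : MultilinearMap k (fun _ : Fin r => Fin n → V) (W →ₗ[k] k))
    (hT : ∀ g ∈ G', ∀ v w, T (fun a => repPow ρ n g (v a)) (σ g w) = ((χ g ^ i : kˣ) : k) * T v w) :
    T ∈ Submodule.span k {D | ∃ (m : ℕ) (e : Fin m ⊕ Fin m ≃ Fin r),
      IsProdW (pairs (repPow ρ n) χ G') (lins σ χ G' (i - m)) e D} := by
  classical
  let Tf : (Fin r → Fin n) → MultilinearMap k (fun _ : Fin r => V) (W →ₗ[k] k) := fun f =>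
    T.compLinearMap fun a => LinearMap.single k (fun _ : Fin n => V) (f a)
  have hspan : ∀ f, Tf f ∈ Submodule.span k {D | ∃ (m : ℕ) (e : Fin m ⊕ Fin m ≃ Fin r),
        IsProdW (pairs ρ χ G') (lins σ χ G' (i - m)) e D} := by
    intro f
    refine lift_core_of h i (Tf f) fun g hg v w => ?_
    show T (fun a => LinearMap.single k (fun _ : Fin n => V) (f a) (ρ g (v a))) (σ g w) =
      ((χ g ^ i : kˣ) : k) * T (fun a => LinearMap.single k (fun _ : Fin n => V) (f a) (v a)) w
    rw [← hT g hg]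
    exact congrArg (fun z => T z (σ g w)) (funext fun a => (repPow_single ρ n g (f a) (v a)).symm)
  let L : (Fin r → Fin n) → MultilinearMap k (fun _ : Fin r => V) (W →ₗ[k] k) →ₗ[k]
      MultilinearMap k (fun _ : Fin r => Fin n → V) (W →ₗ[k] k) := fun f =>
    { toFun := fun D => D.compLinearMap fun a => LinearMap.proj (f a)
      map_add' := fun x y => rfl
      map_smul' := fun c x => rfl }
  have hL : ∀ f D v, L f D v = D fun a => v a (f a) := fun f D v => rfl
  have hsum : T = ∑ f, L f (Tf f) := by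
    refine MultilinearMap.ext fun v => ?_
    rw [sum_apply]
    have h1 : v = fun a => ∑ t : Fin n, LinearMap.single k (fun _ : Fin n => V) t (v a t) := by
      funext a
      exact (Finset.univ_sum_single (v a)).symm
    conv_lhs => rw [h1]
    rw [MultilinearMap.map_sum]
    rfl
  rw [hsum]
  refine Submodule.sum_mem _ fun f _ => ?_
  have h2 : L f (Tf f) ∈ Submodule.map (L f) (Submodule.span k {D | ∃ (m : ℕ) (e : Fin m ⊕ Fin m ≃ Fin r),
      IsProdW (pairs ρ χ G') (lins σ χ G' (i - m)) e D}) := Submodule.mem_map_of_mem (hspan f)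
  rw [Submodule.map_span] at h2
  refine Submodule.span_mono ?_ h2
  rintro _ ⟨D, ⟨m, e', b, y, hb, hy, hD⟩, rfl⟩
  refine ⟨m, e', fun i => (b i).compl₁₂ (LinearMap.proj (f (e' (Sum.inl i)))) (LinearMap.proj (f (e' (Sum.inr i)))),
    y, ?_, ?_, fun v w => ?_⟩
  · rintro i _ ⟨g, hg, rfl⟩ v w
    exact hb i _ ⟨g, hg, rfl⟩ (v (f (e' (Sum.inl i)))) (w (f (e' (Sum.inr i))))
  · rintro _ ⟨g, hg, rfl⟩ w
    exact hy _ ⟨g, hg, rfl⟩ w
  · rw [hL, hD]
    rfl

end

/-- If all Tate forms over `ℂ` on `ℂ ⊗ V` for the finite extensions of `K` are combinations of products, then all Tate forms on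
all `V ^ n` are generated in degree two. -/
theorem generated_of {K : Type} [Field K] {l : ℕ} [Fact l.Prime] [Algebra ℚ_[l] ℂ] {V : Type} [AddCommGroup V]
    [Module ℚ_[l] V] [FiniteDimensional ℚ_[l] V] {ρ : Representation ℚ_[l] (GalK K) V} {W : Type} [AddCommGroup W]
    [Module ℚ_[l] W] [FiniteDimensional ℚ_[l] W] {σ : Representation ℚ_[l] (GalK K) W}
    (h : ∀ L : IntermediateField K (AlgebraicClosure K), FiniteDimensional K L →
      CoreC ρ σ (cyc K l) L.fixingSubgroup) : Generated ρ σ := by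
  intro n j i L hL
  refine ⟨fun T hT => ?_, fun T hT => ?_⟩
  · let e0 : Fin j ⊕ Fin j ≃ Fin (2 * j) := finSumFinEquiv.trans (finCongr (two_mul j).symm)
    have hspan := lift_power_of (h L hL) i
      (T.toMultilinearMap.domDomCongr e0) fun s hs v w => hT s hs (fun a => v (e0 a)) w
    obtain ⟨r, D, y, hD, hy, hTs⟩ := isSum_of_span _ (fun m => lins σ (cyc K l) L.fixingSubgroup (i - m)) T e0 hspan
    exact ⟨L, hL, r, D, y, fun a b => ⟨(hD a b).1, fun s hs v w => (hD a b).2 _ ⟨s, hs, rfl⟩ v w⟩,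
      fun a s hs w => hy a _ ⟨s, hs, rfl⟩ w, hTs⟩
  · have hspan := lift_power_of (h L hL) i T.toMultilinearMap fun s hs v w => hT s hs v w
    have h1 := eq_zero_of_span _ (fun m => lins σ (cyc K l) L.fixingSubgroup (i - m)) (by omega) _ hspan
    exact AlternatingMap.coe_multilinearMap_injective h1

end TUT
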