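import Pool.Agent.Lib.MP_021685_agUT.C0
import Pool.Agent.Lib.MP_021685_agTG.GD

/-! Pairings. -/

set_option autoImplicit false

namespace TUT

open Module

variable {H : Type} [AddCommGroup H] [Module ℂ H] [FiniteDimensional ℂ H] {J : Type} [Fintype J]
  {e : H →ₗ[ℂ] H →ₗ[ℂ] ℂ} {bar : J → J} {p : J → End ℂ H} {G : Type} [Group G] {ρ : Representation ℂ G H} {μ : G →* ℂˣ}

/-- PROOF.  There is `φ ∈ End H` with `β x y = e (φ x) y` for all `x, y` (`e` is non-degenerate on a finite-dimensional space).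
For `s ∈ G''`: `e (φ (ρ s x)) (ρ s y) = β (ρ s x) (ρ s y) = μ s β x y = μ s e (φ x) y = e (ρ s (φ x)) (ρ s y)`, so
`φ ρ s = ρ s φ` (`ρ s` is surjective, `nd`).  `p f` is in the span of the `ρ s`, `s ∈ G''`, so `φ p f = p f φ`.  Hence
`β x y = e (φ (p f x)) (p g y) = e (p f (φ x)) (p g y) = e (φ x) (p (bar f) (p g y)) = 0`, as `bar f ≠ g`. -/
theorem pairing_zero (hb : Blk e bar p) (he : ∀ s v w, e (ρ s v) (ρ s w) = (μ s : ℂ) * e v w)
    (G'' : Subgroup G) {f g : J} (hd : p f ∈ Submodule.span ℂ {Y | ∃ g ∈ G'', Y = ρ g}) (β : H →ₗ[ℂ] H →ₗ[ℂ] ℂ) (hβ : TGR.IsPairing ρ μ G'' β)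
    (hfg : g ≠ bar f) (x y : H) (hx : p f x = x) (hy : p g y = y) : β x y = 0 := by
  have hinj : Function.Injective e := by
    rw [injective_iff_map_eq_zero]
    intro v hv
    exact hb.nd v fun w => by rw [hv, LinearMap.zero_apply]
  have hdim : finrank ℂ H = finrank ℂ (H →ₗ[ℂ] ℂ) := (Subspace.dual_finrank_eq (K := ℂ) (V := H)).symm
  obtain ⟨φ, hφ⟩ : ∃ φ : End ℂ H, ∀ x, e (φ x) = β x := by
    refine ⟨(LinearMap.linearEquivOfInjective e hinj hdim).symm.toLinearMap ∘ₗ β, fun x => ?_⟩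
    exact (LinearMap.linearEquivOfInjective e hinj hdim).apply_symm_apply (β x)
  have h1 : ∀ s ∈ G'', φ * ρ s = ρ s * φ := by
    intro s hs
    refine LinearMap.ext fun x => ?_
    have h2 : ∀ w, e (φ (ρ s x) - ρ s (φ x)) w = 0 := by
      intro w
      have h3 : w = ρ s (ρ s⁻¹ w) := by
        rw [← Module.End.mul_apply, ← map_mul, mul_inv_cancel, map_one, Module.End.one_apply]
      rw [map_sub, LinearMap.sub_apply, h3, he, hφ, hφ, hβ s hs]
      ring
    exact sub_eq_zero.1 (hb.nd _ h2)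
  have h2 : ∀ Y ∈ Submodule.span ℂ {Y | ∃ g ∈ G'', Y = ρ g}, φ * Y = Y * φ := by
    intro Y hY
    induction hY using Submodule.span_induction with
    | mem x hx =>
      obtain ⟨s, hs, rfl⟩ := hx
      exact h1 s hs
    | zero => rw [mul_zero, zero_mul]
    | add x y _ _ hx hy => rw [mul_add, add_mul, hx, hy]
    | smul a x _ hx => rw [mul_smul_comm, smul_mul_assoc, hx]
  have h4 : φ (p f x) = p f (φ x) := LinearMap.congr_fun (h2 _ hd) x
  have h5 : p (bar f) (p g y) = 0 := LinearMap.congr_fun (hb.orth (bar f) g (Ne.symm hfg)) y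
  rw [← hφ x, ← hx, h4, ← hy, hb.adj, h5, map_zero]

end TUT
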