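import Pool.Agent.Lib.MP_021685_agUT.H1

/-! The determinant classes. -/

set_option autoImplicit false

namespace TUT

open Module

variable {H : Type} [AddCommGroup H] [Module ℂ H] [FiniteDimensional ℂ H] {J : Type} [Fintype J]
  {e : H →ₗ[ℂ] H →ₗ[ℂ] ℂ} {bar : J → J} {p : J → End ℂ H} {G : Type} [Group G] {ρ : Representation ℂ G H} {μ : G →* ℂˣ}

private theorem M4_dual {U U' : Type} [AddCommGroup U] [Module ℂ U] [FiniteDimensional ℂ U] [AddCommGroup U']
    [Module ℂ U'] [FiniteDimensional ℂ U'] (B : U →ₗ[ℂ] U' →ₗ[ℂ] ℂ) (h1 : ∀ v, (∀ w, B v w = 0) → v = 0)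
    (h2 : ∀ w, (∀ v, B v w = 0) → w = 0) (u : End ℂ U) (u' : End ℂ U') (c : ℂ)
    (h : ∀ v w, B (u v) (u' w) = c * B v w) : LinearMap.det u * LinearMap.det u' = c ^ finrank ℂ U := by
  have i1 : Function.Injective B := by
    rw [injective_iff_map_eq_zero]
    intro v hv
    exact h1 v fun w => by rw [hv]; rfl
  have i2 : Function.Injective B.flip := by
    rw [injective_iff_map_eq_zero]
    intro w hw
    exact h2 w fun v => by rw [← LinearMap.flip_apply, hw]; rfl
  have d1 : finrank ℂ U ≤ finrank ℂ U' := by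
    rw [← Subspace.dual_finrank_eq (K := ℂ) (V := U')]
    exact LinearMap.finrank_le_finrank_of_injective i1
  have d2 : finrank ℂ U' ≤ finrank ℂ U := by
    rw [← Subspace.dual_finrank_eq (K := ℂ) (V := U)]
    exact LinearMap.finrank_le_finrank_of_injective i2
  have d3 : finrank ℂ U' = finrank ℂ (Dual ℂ U) := by
    rw [Subspace.dual_finrank_eq]
    exact le_antisymm d2 d1
  let φ : U' ≃ₗ[ℂ] Dual ℂ U := LinearMap.linearEquivOfInjective B.flip i2 d3
  have hφ : ∀ w v, φ w v = B v w := fun w v => rfl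
  have h3 : ((φ.symm : Dual ℂ U →ₗ[ℂ] U') ∘ₗ u.dualMap ∘ₗ (φ.symm.symm : U' →ₗ[ℂ] Dual ℂ U)) ∘ₗ u' =
      c • LinearMap.id := by
    refine LinearMap.ext fun w => φ.injective ?_
    refine LinearMap.ext fun v => ?_
    change φ (φ.symm (u.dualMap (φ (u' w)))) v = φ (c • w) v
    rw [LinearEquiv.apply_symm_apply, map_smul, LinearMap.smul_apply, hφ, LinearMap.dualMap_apply, hφ, h]
    rfl
  have h4 := congrArg LinearMap.det h3
  rw [LinearMap.det_comp, LinearMap.det_conj, LinearMap.det_dualMap, LinearMap.det_smul, LinearMap.det_id,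
    mul_one] at h4
  rw [h4, le_antisymm d1 d2]

private theorem M4_upd {A : Type} {κ : A → Type} (inst : DecidableEq (Σ a, κ a)) [∀ a, DecidableEq (κ a)] {M : Type}
    (v : (Σ a, κ a) → M) (a : A) (j : κ a) (z : M) :
    (fun l => Function.update v ⟨a, j⟩ z ⟨a, l⟩) = Function.update (fun l => v ⟨a, l⟩) j z := by
  funext l
  by_cases hl : l = j
  · subst hl
    rw [Function.update_self, Function.update_self]
  · rw [Function.update_of_ne hl, Function.update_of_ne]
    intro h
    exact hl (eq_of_heq (Sigma.mk.inj h).2)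

private theorem M4_upd' {A : Type} {κ : A → Type} (inst : DecidableEq (Σ a, κ a)) {M : Type}
    (v : (Σ a, κ a) → M) (a a' : A) (h : a' ≠ a) (j : κ a) (z : M) :
    (fun l => Function.update v ⟨a, j⟩ z ⟨a', l⟩) = fun l => v ⟨a', l⟩ := by
  funext l
  rw [Function.update_of_ne]
  intro h'
  exact h (Sigma.mk.inj h').1

/-- The product of multilinear forms in disjoint sets of variables. -/
private noncomputable def M4_prod {H : Type} [AddCommGroup H] [Module ℂ H] {A : Type} [Fintype A] [DecidableEq A]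
    {κ : A → Type} [∀ a, DecidableEq (κ a)] (D : ∀ a, MultilinearMap ℂ (fun _ : κ a => H) ℂ) :
    MultilinearMap ℂ (fun _ : (Σ a, κ a) => H) ℂ where
  toFun v := ∏ a, D a fun j => v ⟨a, j⟩
  map_update_add' := by
    intro inst v i x y
    obtain ⟨a, j⟩ := i
    have h1 : ∀ z, ∏ a', D a' (fun l => Function.update v ⟨a, j⟩ z ⟨a', l⟩) =
        D a (Function.update (fun l => v ⟨a, l⟩) j z) * ∏ a' ∈ Finset.univ.erase a, D a' fun l => v ⟨a', l⟩ := by
      intro z
      rw [← Finset.mul_prod_erase Finset.univ _ (Finset.mem_univ a), M4_upd inst v a j z]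
      congr 1
      refine Finset.prod_congr rfl fun a' ha' => ?_
      rw [M4_upd' inst v a a' (Finset.ne_of_mem_erase ha') j z]
    rw [h1, h1, h1, MultilinearMap.map_update_add, add_mul]
  map_update_smul' := by
    intro inst v i c x
    obtain ⟨a, j⟩ := i
    have h1 : ∀ z, ∏ a', D a' (fun l => Function.update v ⟨a, j⟩ z ⟨a', l⟩) =
        D a (Function.update (fun l => v ⟨a, l⟩) j z) * ∏ a' ∈ Finset.univ.erase a, D a' fun l => v ⟨a', l⟩ := by
      intro z
      rw [← Finset.mul_prod_erase Finset.univ _ (Finset.mem_univ a), M4_upd inst v a j z]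
      congr 1
      refine Finset.prod_congr rfl fun a' ha' => ?_
      rw [M4_upd' inst v a a' (Finset.ne_of_mem_erase ha') j z]
    rw [h1, h1, MultilinearMap.map_update_smul, smul_eq_mul, smul_eq_mul, mul_assoc]

private theorem M4_prod_apply {H : Type} [AddCommGroup H] [Module ℂ H] {A : Type} [Fintype A] [DecidableEq A]
    {κ : A → Type} [∀ a, DecidableEq (κ a)] (D : ∀ a, MultilinearMap ℂ (fun _ : κ a => H) ℂ)
    (v : (Σ a, κ a) → H) : M4_prod D v = ∏ a, D a fun j => v ⟨a, j⟩ := rfl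

omit [FiniteDimensional ℂ H] [Fintype J] in
private theorem M4_mem (hρp : ∀ s f, ρ s * p f = p f * ρ s) (s : G) (f : J) (x : H)
    (hx : x ∈ LinearMap.range (p f)) : ρ s x ∈ LinearMap.range (p f) := by
  obtain ⟨y, rfl⟩ := hx
  exact ⟨ρ s y, (LinearMap.congr_fun (hρp s f) y).symm⟩

/-- The restriction. -/
private noncomputable def M4_u (hρp : ∀ s f, ρ s * p f = p f * ρ s) (s : G) (f : J) :
    End ℂ (LinearMap.range (p f)) := (ρ s).restrict (M4_mem hρp s f)

omit [FiniteDimensional ℂ H] [Fintype J] in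
private theorem M4_u_apply (hρp : ∀ s f, ρ s * p f = p f * ρ s) (s : G) (f : J) (v : LinearMap.range (p f)) :
    ((M4_u hρp s f v : LinearMap.range (p f)) : H) = ρ s v := rfl

omit [FiniteDimensional ℂ H] in
private theorem M4_fix (hb : Blk e bar p) (f : J) (v : LinearMap.range (p f)) : p f v = v := by
  obtain ⟨x, hx⟩ := v.2
  rw [← hx, ← Module.End.mul_apply, hb.idem]

private theorem M4_det (hb : Blk e bar p) (he : ∀ s v w, e (ρ s v) (ρ s w) = (μ s : ℂ) * e v w)
    (hρp : ∀ s f, ρ s * p f = p f * ρ s) (s : G) (f : J) :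
    LinearMap.det (M4_u hρp s f) * LinearMap.det (M4_u hρp s (bar f)) =
      (μ s : ℂ) ^ finrank ℂ (LinearMap.range (p f)) := by
  have hskew : ∀ v w, e v w = - e w v := by
    intro v w
    have h := hb.alt (v + w)
    rw [map_add, map_add, LinearMap.add_apply, LinearMap.add_apply, hb.alt, hb.alt, zero_add, add_zero] at h
    exact eq_neg_of_add_eq_zero_right h
  refine M4_dual (e.compl₁₂ (LinearMap.range (p f)).subtype (LinearMap.range (p (bar f))).subtype) ?_ ?_ _ _ _ ?_
  · intro v hv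
    apply Subtype.ext
    refine hb.nd _ fun w => ?_
    rw [← M4_fix hb f v, hb.adj]
    exact hv ⟨p (bar f) w, w, rfl⟩
  · intro w hw
    apply Subtype.ext
    refine hb.nd _ fun v => ?_
    rw [← M4_fix hb (bar f) w, hb.adj, hb.bb, hskew, neg_eq_zero]
    exact hw ⟨p f v, v, rfl⟩
  · intro v w
    exact he s v w

omit [FiniteDimensional ℂ H] [Fintype J] in
private theorem M4_ne (hρp : ∀ s f, ρ s * p f = p f * ρ s) (s : G) (f : J) :
    LinearMap.det (M4_u hρp s f) ≠ 0 := by
  have h : M4_u hρp s f * M4_u hρp s⁻¹ f = 1 := by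
    refine LinearMap.ext fun v => Subtype.ext ?_
    change ρ s (ρ s⁻¹ v) = v
    rw [← Module.End.mul_apply, ← map_mul, mul_inv_cancel, map_one]
    rfl
  have h2 := congrArg LinearMap.det h
  rw [map_mul, map_one] at h2
  exact left_ne_zero_of_mul_eq_one h2

/-- PROOF.  Let `m f = finrank (range (p f)) > 0`, `b f` a basis of `range (p f)` (index set `Fin (m f)`), `u f s` the restriction of
`ρ s` to `range (p f)` (`hρp`) and `d f s = det (u f s)`, not zero.
(1) `d f s * d (bar f) s = μ s ^ m f`: `e` is a perfect pairing of `range (p f)` and `range (p (bar f))` with `e (s v) (s w) =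
μ s e v w`: the Gram matrix `B i j = e (b f i) (b (bar f) j)` (`m f = m (bar f)`) is invertible and `Uᵗ B U' = μ s B` for the
matrices of `u f s`, `u (bar f) s`.
(2) Let `J₊ = {f | 0 < z f}`, `I = Σ f : J₊, Fin (2 z f) × Fin (m f)`, `k = card I`, `T v = ∏ f ∈ J₊, ∏ t : Fin (2 z f),
(b f).det (fun j => p f (v (f, t, j)))` (as elements of `range (p f)`), a multilinear form in the arguments indexed by `I`
(`domDomCongr` to `Fin k`).  By `Basis.det_comp`: `T (s v) = (∏ f ∈ J₊, d f s ^ (2 z f)) T v`.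
(3) For `s ∈ G'`: `1 = ∏ f, d f s ^ z f = ∏ f ∈ J₊, d f s ^ z f d (bar f) s ^ (- z f)` (`z (bar f) = - z f`, `bar` is a bijection from
`J₊` to `{f | z f < 0}`) `= ∏ f ∈ J₊, (d f s ^ 2 / μ s ^ m f) ^ z f`; so `∏ f ∈ J₊, d f s ^ (2 z f) = μ s ^ i`,
`i = ∑ f ∈ J₊, m f z f`.
(4) `v (f, t, j) = b f j`: `T v = 1`; `k > 0` as `z f₀` or `z (bar f₀)` is positive. -/
theorem exists_det_form (hb : Blk e bar p) (he : ∀ s v w, e (ρ s v) (ρ s w) = (μ s : ℂ) * e v w)
    (hρp : ∀ s f, ρ s * p f = p f * ρ s) (hne : ∀ f, 0 < finrank ℂ (LinearMap.range (p f))) (z : J → ℤ)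
    (hz : ∀ f, z (bar f) = - z f) (f₀ : J) (hz0 : z f₀ ≠ 0) (G' : Subgroup G)
    (hdet : ∀ s ∈ G', ∀ d : J → ℂ, (∀ f, ∃ u : End ℂ (LinearMap.range (p f)),
      (∀ v : LinearMap.range (p f), ((u v : LinearMap.range (p f)) : H) = ρ s v) ∧ LinearMap.det u = d f) →
        ∏ f, d f ^ z f = 1) :
    ∃ (k : ℕ) (i : ℤ) (T : MultilinearMap ℂ (fun _ : Fin k => H) ℂ) (v : Fin k → H), IsTt ρ μ G' i T ∧ T v ≠ 0 ∧
      0 < k ∧ ∀ t : Fin k, ∃ f, 0 < z f ∧ p f (v t) = v t := by
  classical
  let A : Type := Σ f : {f : J // 0 < z f}, Fin (2 * (z f.1).toNat)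
  let κ : A → Type := fun a => Fin (finrank ℂ (LinearMap.range (p a.1.1)))
  let _i1 : ∀ a, Fintype (κ a) := fun a => inferInstanceAs (Fintype (Fin _))
  let _i2 : ∀ a, DecidableEq (κ a) := fun a => inferInstanceAs (DecidableEq (Fin _))
  let _i3 : Fintype A := inferInstanceAs (Fintype (Σ f : {f : J // 0 < z f}, Fin (2 * (z f.1).toNat)))
  let _i4 : DecidableEq A := Classical.decEq A
  let b : ∀ a : A, Basis (κ a) ℂ (LinearMap.range (p a.1.1)) := fun a => Module.finBasis ℂ _
  let D : ∀ a, MultilinearMap ℂ (fun _ : κ a => H) ℂ := fun a =>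
    ((b a).det.toMultilinearMap).compLinearMap fun _ => (p a.1.1).rangeRestrict
  have hD : ∀ a (w : κ a → H), D a w = (b a).det fun j => (p a.1.1).rangeRestrict (w j) := fun a w => rfl
  let eI : (Σ a, κ a) ≃ Fin (Fintype.card (Σ a, κ a)) := Fintype.equivFin _
  let d : G → J → ℂ := fun s f => LinearMap.det (M4_u hρp s f)
  have hd : ∀ s f, d s f ≠ 0 := fun s f => M4_ne hρp s f
  have hdd : ∀ s f, d s f * d s (bar f) = (μ s : ℂ) ^ finrank ℂ (LinearMap.range (p f)) :=
    fun s f => M4_det hb he hρp s f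
  have hDs : ∀ s a (w : κ a → H), D a (fun j => ρ s (w j)) = d s a.1.1 * D a w := by
    intro s a w
    rw [hD, hD, ← Basis.det_comp]
    congr 1
    funext j
    apply Subtype.ext
    change p a.1.1 (ρ s (w j)) = ρ s (p a.1.1 (w j))
    exact (LinearMap.congr_fun (hρp s a.1.1) (w j)).symm
  refine ⟨Fintype.card (Σ a, κ a), ∑ f ∈ Finset.univ.filter fun f => 0 < z f,
    (finrank ℂ (LinearMap.range (p f)) : ℤ) * z f, (M4_prod D).domDomCongr eI,
    fun t => ((b (eI.symm t).1 (eI.symm t).2 : LinearMap.range (p (eI.symm t).1.1.1)) : H), ?_, ?_, ?_, ?_⟩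
  · intro s hs w
    rw [MultilinearMap.domDomCongr_apply, MultilinearMap.domDomCongr_apply, M4_prod_apply, M4_prod_apply]
    have h1 : ∏ a, D a (fun j => ρ s (w (eI ⟨a, j⟩))) = (∏ a : A, d s a.1.1) * ∏ a, D a fun j => w (eI ⟨a, j⟩) := by
      rw [← Finset.prod_mul_distrib]
      exact Finset.prod_congr rfl fun a _ => hDs s a _
    rw [h1]
    congr 1
    have h2 : ∏ a : A, d s a.1.1 = ∏ f ∈ Finset.univ.filter (fun f => 0 < z f), d s f ^ (2 * z f) := by
      have h3 : ∏ a : A, d s a.1.1 = ∏ f : {f : J // 0 < z f}, d s f.1 ^ (2 * z f.1) := by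
        change ∏ a : (Σ f : {f : J // 0 < z f}, Fin (2 * (z f.1).toNat)), d s a.1.1 = _
        rw [Fintype.prod_sigma]
        refine Finset.prod_congr rfl fun f _ => ?_
        change ∏ _y : Fin (2 * (z f.1).toNat), d s f.1 = _
        rw [Finset.prod_const, Finset.card_univ, Fintype.card_fin, ← zpow_natCast]
        congr 1
        have := f.2
        push_cast
        omega
      rw [h3]
      exact (Finset.prod_subtype (p := fun f => 0 < z f) _ (by simp) fun f => d s f ^ (2 * z f)).symm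
    rw [h2]
    have h4 := hdet s hs (d s) fun f => ⟨M4_u hρp s f, fun v => rfl, rfl⟩
    have hμ : (μ s : ℂ) ≠ 0 := (μ s).ne_zero
    have hbar : Function.Involutive bar := hb.bb
    have h5 : ∏ f, d s f ^ z f = ∏ f, (if 0 < z f then
        d s f ^ (2 * z f) * ((μ s : ℂ) ^ ((finrank ℂ (LinearMap.range (p f)) : ℤ) * z f))⁻¹ else 1) := by
      have h6 : ∏ f, d s f ^ z f = (∏ f, if 0 < z f then d s f ^ z f else 1) *
          ∏ f, if z f < 0 then d s f ^ z f else 1 := by
        rw [← Finset.prod_mul_distrib]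
        refine Finset.prod_congr rfl fun f _ => ?_
        rcases lt_trichotomy (z f) 0 with h | h | h
        · rw [if_neg (by omega), if_pos h, one_mul]
        · rw [if_neg (by omega), if_neg (by omega), h, zpow_zero, one_mul]
        · rw [if_pos h, if_neg (by omega), mul_one]
      have h7 : (∏ f, if z f < 0 then d s f ^ z f else 1) =
          ∏ f, if 0 < z f then d s (bar f) ^ (- z f) else 1 := by
        rw [← Equiv.prod_comp (Function.Involutive.toPerm bar hbar)]
        refine Finset.prod_congr rfl fun f _ => ?_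
        change (if z (bar f) < 0 then d s (bar f) ^ z (bar f) else 1) = _
        rw [hz]
        by_cases h : 0 < z f
        · rw [if_pos h, if_pos (by omega)]
        · rw [if_neg h, if_neg (by omega)]
      rw [h6, h7, ← Finset.prod_mul_distrib]
      refine Finset.prod_congr rfl fun f _ => ?_
      by_cases h : 0 < z f
      · rw [if_pos h, if_pos h, if_pos h]
        have h8 : d s (bar f) = (d s f)⁻¹ * (μ s : ℂ) ^ finrank ℂ (LinearMap.range (p f)) := by
          rw [← hdd s f, ← mul_assoc, inv_mul_cancel₀ (hd s f), one_mul]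
        rw [h8, mul_zpow, inv_zpow', neg_neg, ← zpow_natCast, ← zpow_mul, ← mul_assoc, ← zpow_add₀ (hd s f),
          ← two_mul, mul_neg, zpow_neg]
      · rw [if_neg h, if_neg h, if_neg h, one_mul]
    rw [h5, ← Finset.prod_filter, Finset.prod_mul_distrib, Finset.prod_inv_distrib] at h4
    have h9 : ∏ f ∈ Finset.univ.filter (fun f => 0 < z f),
        (μ s : ℂ) ^ ((finrank ℂ (LinearMap.range (p f)) : ℤ) * z f) =
        (μ s : ℂ) ^ ∑ f ∈ Finset.univ.filter (fun f => 0 < z f), (finrank ℂ (LinearMap.range (p f)) : ℤ) * z f := by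
      have h10 : ∀ S : Finset J, ∏ f ∈ S, (μ s : ℂ) ^ ((finrank ℂ (LinearMap.range (p f)) : ℤ) * z f) =
          (μ s : ℂ) ^ ∑ f ∈ S, (finrank ℂ (LinearMap.range (p f)) : ℤ) * z f := by
        intro S
        induction S using Finset.induction_on with
        | empty => rw [Finset.prod_empty, Finset.sum_empty, zpow_zero]
        | insert f S hf ih => rw [Finset.prod_insert hf, Finset.sum_insert hf, ih, zpow_add₀ hμ]
      exact h10 _
    rw [h9] at h4
    rw [Units.val_zpow_eq_zpow_val]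
    have h11 : (μ s : ℂ) ^ (∑ f ∈ Finset.univ.filter (fun f => 0 < z f),
        (finrank ℂ (LinearMap.range (p f)) : ℤ) * z f) ≠ 0 := zpow_ne_zero _ hμ
    field_simp at h4
    exact h4
  · rw [MultilinearMap.domDomCongr_apply, M4_prod_apply]
    refine Finset.prod_ne_zero_iff.mpr fun a _ => ?_
    rw [hD]
    have h1 : (fun j : κ a => (p a.1.1).rangeRestrict
        ((b (eI.symm (eI ⟨a, j⟩)).1 (eI.symm (eI ⟨a, j⟩)).2 :
          LinearMap.range (p (eI.symm (eI ⟨a, j⟩)).1.1.1)) : H)) = b a := by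
      funext j
      rw [Equiv.symm_apply_apply]
      apply Subtype.ext
      exact M4_fix hb a.1.1 (b a j)
    rw [h1, Basis.det_self]
    exact one_ne_zero
  · obtain ⟨f, hf⟩ : ∃ f, 0 < z f := by
      rcases lt_or_gt_of_ne hz0 with h | h
      · exact ⟨bar f₀, by rw [hz]; omega⟩
      · exact ⟨f₀, h⟩
    have hN : 0 < 2 * (z f).toNat := by omega
    exact Fintype.card_pos_iff.mpr ⟨⟨⟨⟨f, hf⟩, ⟨0, hN⟩⟩, ⟨0, hne f⟩⟩⟩
  · intro t
    exact ⟨(eI.symm t).1.1.1, (eI.symm t).1.1.2, M4_fix hb _ _⟩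

end TUT
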