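import Pool.Agent.Lib.MP_021685_agTT.LP
import Pool.Agent.Lib.MP_021685_agTT.GD

/-! From alternating forms on powers to multilinear forms. -/

set_option autoImplicit false

namespace TUT

open TensorProduct Pool.Agent.Lib.MP_021685_agTT

/-- PROOF.  `n = k` in `Generated`.  Let `S x = T (fun j => x j j)` for `x : Fin k → (Fin k → V)`, a multilinear form on `V ^ k`
(`T.compLinearMap (fun j => LinearMap.proj j)`), `A = MultilinearMap.alternatization S`:
`A x = ∑ π, sign π • S (x ∘ π)` (`MultilinearMap.alternatization_apply`), with values in `ℚ_l ≃ (ℚ_l →ₗ ℚ_l)`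
(multiply by the form `w ↦ w`).  `A` is a Tate form of weight `i` over `L` for the action on `V ^ k`.  For
`x j = Pi.single j (v j)`: `S (x ∘ π) = T (fun j => (x (π j)) j) = 0` unless `π = 1` (`map_coord_zero`), so `A x = T v`.
If `k = 2 j + 1` then `A = 0` by `Generated`, so `T = 0`.  If `k = 2 j`, transport `A` to the index set `Fin j ⊕ Fin j`
(`e0 : Fin j ⊕ Fin j ≃ Fin k`), then by `Generated` `A x = ∑ a, (∑ π, sign π ∏ b, D a b (x (π (inl b))) (x (π (inr b)))) y a 1`, and
`T v = A x` is a combination of the products `∏ b, D' (v (π' (inl b))) (v (π' (inr b)))` with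
`D' u u' = D a b (Pi.single (π' (inl b)) u) (Pi.single (π' (inr b)) u')`, again a pairing over `L'`. -/
theorem multi_of_generated {K : Type} [Field K] {l : ℕ} [Fact l.Prime] {V : Type} [AddCommGroup V]
    [Module ℚ_[l] V] [FiniteDimensional ℚ_[l] V] {ρ : Representation ℚ_[l] (GalK K) V}
    (h : Generated ρ (Representation.trivial ℚ_[l] (GalK K) ℚ_[l])) (L : IntermediateField K (AlgebraicClosure K))
    (hL : FiniteDimensional K L) {k : ℕ} (i : ℤ) (T : MultilinearMap ℚ_[l] (fun _ : Fin k => V) ℚ_[l])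
    (hT : ∀ s ∈ L.fixingSubgroup, ∀ v, T (fun j => ρ s (v j)) = ((cyc K l s ^ i : ℚ_[l]ˣ) : ℚ_[l]) * T v) :
    T ∈ Submodule.span ℚ_[l] {T' | ∃ (L' : IntermediateField K (AlgebraicClosure K)) (m : ℕ)
      (ε : Fin m ⊕ Fin m ≃ Fin k) (D : Fin m → V →ₗ[ℚ_[l]] V →ₗ[ℚ_[l]] ℚ_[l]), FiniteDimensional K L' ∧
      (∀ j, ∀ s ∈ L'.fixingSubgroup, ∀ u w, D j (ρ s u) (ρ s w) = (cyc K l s : ℚ_[l]) * D j u w) ∧
      ∀ v, T' v = ∏ j, D j (v (ε (Sum.inl j))) (v (ε (Sum.inr j)))} := by
  classical
  let S : MultilinearMap ℚ_[l] (fun _ : Fin k => Fin k → V) ℚ_[l] :=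
    T.compLinearMap fun j => LinearMap.proj j
  let A : (Fin k → V) [⋀^Fin k]→ₗ[ℚ_[l]] ℚ_[l] := MultilinearMap.alternatization S
  have hA : ∀ x, A x = ∑ π : Equiv.Perm (Fin k), ((Equiv.Perm.sign π : ℤ) : ℚ_[l]) *
      T fun j => x (π j) j := by
    intro x
    show MultilinearMap.alternatization S x = _
    rw [MultilinearMap.alternatization_apply]
    refine Finset.sum_congr rfl fun π _ => ?_
    rw [Units.smul_def, zsmul_eq_mul]
    rfl
  have hA1 : ∀ s ∈ L.fixingSubgroup, ∀ x : Fin k → Fin k → V, A (fun j t => ρ s (x j t)) =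
      ((cyc K l s ^ i : ℚ_[l]ˣ) : ℚ_[l]) * A x := by
    intro s hs x
    rw [hA, hA, Finset.mul_sum]
    refine Finset.sum_congr rfl fun π _ => ?_
    rw [hT s hs fun j => x (π j) j]
    ring
  have hA2 : ∀ u : Fin k → V, A (fun j => LinearMap.single ℚ_[l] (fun _ : Fin k => V) j (u j)) = T u := by
    intro u
    rw [hA, Finset.sum_eq_single 1]
    · rw [Equiv.Perm.sign_one, Units.val_one, Int.cast_one, one_mul]
      refine congrArg T (funext fun j => ?_)
      exact Pi.single_eq_same _ _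
    · intro π _ hπ
      obtain ⟨j, hj⟩ : ∃ j, π j ≠ j := by
        by_contra hn
        push Not at hn
        exact hπ (Equiv.ext hn)
      rw [T.map_coord_zero j, mul_zero]
      exact Pi.single_eq_of_ne (Ne.symm hj) _
    · intro hn
      exact absurd (Finset.mem_univ _) hn
  let A' : (Fin k → V) [⋀^Fin k]→ₗ[ℚ_[l]] (ℚ_[l] →ₗ[ℚ_[l]] ℚ_[l]) :=
    (LinearMap.mul ℚ_[l] ℚ_[l]).compAlternatingMap A
  have hA' : ∀ x w, A' x w = A x * w := fun x w => rfl
  obtain ⟨j, rfl | rfl⟩ := Nat.even_or_odd' k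
  · let e0 : Fin j ⊕ Fin j ≃ Fin (2 * j) := finSumFinEquiv.trans (finCongr (two_mul j).symm)
    let A'' := A'.domDomCongr e0.symm
    have hA'' : ∀ x w, A'' x w = A (fun i => x (e0.symm i)) * w := fun x w => rfl
    obtain ⟨L', hL', r, D, y, hD, -, hsum⟩ := (h (2 * j) j i L hL).1 A'' (by
      intro s hs x w
      rw [hA'', hA'', Representation.trivial_apply]
      rw [hA1 s hs fun i => x (e0.symm i)]
      ring)
    have key : T = ∑ a, ∑ π : Equiv.Perm (Fin j ⊕ Fin j), (((Equiv.Perm.sign π : ℤ) : ℚ_[l]) * y a 1) •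
        mulForm (π.trans e0) (fun b => (D a b).compl₁₂
          (LinearMap.single ℚ_[l] (fun _ : Fin (2 * j) => V) (e0 (π (Sum.inl b))))
          (LinearMap.single ℚ_[l] (fun _ : Fin (2 * j) => V) (e0 (π (Sum.inr b))))) := by
      refine MultilinearMap.ext fun u => ?_
      have h1 := hsum (fun t => LinearMap.single ℚ_[l] (fun _ : Fin (2 * j) => V) (e0 t) (u (e0 t))) 1
      rw [hA'', mul_one] at h1
      simp only [Equiv.apply_symm_apply] at h1
      rw [← hA2 u, h1, sum_apply]
      refine Finset.sum_congr rfl fun a _ => ?_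
      rw [sum_apply, Finset.sum_mul]
      refine Finset.sum_congr rfl fun π _ => ?_
      rw [smul_apply, smul_eq_mul, mul_right_comm]
      rfl
    rw [key]
    refine Submodule.sum_mem _ fun a _ => Submodule.sum_mem _ fun π _ => Submodule.smul_mem _ _
      (Submodule.subset_span ⟨L', j, π.trans e0, _, hL', ?_, fun v => rfl⟩)
    intro b s hs u w
    have h1 := (hD a b).2 s hs
      (LinearMap.single ℚ_[l] (fun _ : Fin (2 * j) => V) (e0 (π (Sum.inl b))) u)
      (LinearMap.single ℚ_[l] (fun _ : Fin (2 * j) => V) (e0 (π (Sum.inr b))) w)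
    rw [LinearMap.compl₁₂_apply, LinearMap.compl₁₂_apply]
    rw [← repPow_single ρ (2 * j) s, ← repPow_single ρ (2 * j) s]
    exact h1
  · have h1 := (h (2 * j + 1) j i L hL).2 A' (by
      intro s hs x w
      rw [hA', hA', Representation.trivial_apply]
      rw [hA1 s hs x]
      ring)
    have h2 : T = 0 := by
      refine MultilinearMap.ext fun u => ?_
      have h3 := hA' (fun j' => LinearMap.single ℚ_[l] (fun _ : Fin (2 * j + 1) => V) j' (u j')) 1
      rw [h1, hA2 u, mul_one] at h3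
      exact h3.symm
    rw [h2]
    exact Submodule.zero_mem _

end TUT
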