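import Pool.Agent.Lib.MP_021685_agUT.M5
import Pool.Agent.Lib.MP_021685_agUT.H1
import Pool.Agent.Lib.MP_021685_agTT.BW
import Pool.Agent.Lib.MP_021685_agTT.LC

/-! From forms over `ℚ_l` to forms over `ℂ`. -/

set_option autoImplicit false

namespace TUT

open TensorProduct Pool.Agent.Lib.MP_021685_agTT

/-- The forms over `ℂ` given by a combination of products of pairings over `ℚ_l`. -/
private theorem M6_lift {K : Type} [Field K] {l : ℕ} [Fact l.Prime] [Algebra ℚ_[l] ℂ] {V : Type} [AddCommGroup V]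
    [Module ℚ_[l] V] [FiniteDimensional ℚ_[l] V] {ρ : Representation ℚ_[l] (GalK K) V} {k : ℕ}
    (T : MultilinearMap ℚ_[l] (fun _ : Fin k => V) ℚ_[l])
    (hT : T ∈ Submodule.span ℚ_[l] {T' | ∃ (L' : IntermediateField K (AlgebraicClosure K)) (m : ℕ)
      (ε : Fin m ⊕ Fin m ≃ Fin k) (D : Fin m → V →ₗ[ℚ_[l]] V →ₗ[ℚ_[l]] ℚ_[l]), FiniteDimensional K L' ∧
      (∀ j, ∀ s ∈ L'.fixingSubgroup, ∀ u w, D j (ρ s u) (ρ s w) = (cyc K l s : ℚ_[l]) * D j u w) ∧
      ∀ v, T' v = ∏ j, D j (v (ε (Sum.inl j))) (v (ε (Sum.inr j)))}) :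
    ∃ TC ∈ Submodule.span ℂ {T' : MultilinearMap ℂ (fun _ : Fin k => ℂ ⊗[ℚ_[l]] V) ℂ |
      ∃ (L' : IntermediateField K (AlgebraicClosure K)) (m : ℕ)
      (ε : Fin m ⊕ Fin m ≃ Fin k) (β : Fin m → (ℂ ⊗[ℚ_[l]] V) →ₗ[ℂ] (ℂ ⊗[ℚ_[l]] V) →ₗ[ℂ] ℂ), FiniteDimensional K L' ∧
      (∀ j, TGR.IsPairing (repC ρ) (charC (cyc K l)) L'.fixingSubgroup (β j)) ∧
      ∀ v, T' v = ∏ j, β j (v (ε (Sum.inl j))) (v (ε (Sum.inr j)))},
      ∀ v : Fin k → V, TC (fun a => 1 ⊗ₜ v a) = algebraMap ℚ_[l] ℂ (T v) := by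
  induction hT using Submodule.span_induction with
  | mem T' hT' =>
    obtain ⟨L', m, ε, D, hL', hD, hT'⟩ := hT'
    refine ⟨mulForm ε fun j => bilC (D j), Submodule.subset_span ⟨L', m, ε, fun j => bilC (D j), hL', ?_, fun v => rfl⟩,
      fun v => ?_⟩
    · intro j s hs u w
      have h : (bilC (D j)).compl₁₂ ((ρ s).baseChange ℂ) ((ρ s).baseChange ℂ) =
          (charC (cyc K l) s : ℂ) • bilC (D j) := by
        refine bil_ext fun v w => ?_
        rw [LinearMap.compl₁₂_apply, LinearMap.baseChange_tmul, LinearMap.baseChange_tmul, bilC_tmul,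
          hD j s hs, LinearMap.smul_apply, LinearMap.smul_apply, bilC_tmul, map_mul, smul_eq_mul, charC_apply]
      have h1 := LinearMap.congr_fun₂ h u w
      rwa [LinearMap.compl₁₂_apply, LinearMap.smul_apply, LinearMap.smul_apply, smul_eq_mul] at h1
    · rw [hT' v, map_prod]
      show (∏ j, bilC (D j) (1 ⊗ₜ v (ε (Sum.inl j))) (1 ⊗ₜ v (ε (Sum.inr j)))) = _
      exact Finset.prod_congr rfl fun j _ => bilC_tmul (D j) _ _
  | zero =>
    refine ⟨0, Submodule.zero_mem _, fun v => ?_⟩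
    rw [zero_apply, zero_apply, map_zero]
  | add x y _ _ hx hy =>
    obtain ⟨X, hX, hX'⟩ := hx
    obtain ⟨Y, hY, hY'⟩ := hy
    refine ⟨X + Y, Submodule.add_mem _ hX hY, fun v => ?_⟩
    rw [add_apply, add_apply, map_add, hX', hY']
  | smul a x _ hx =>
    obtain ⟨X, hX, hX'⟩ := hx
    refine ⟨algebraMap ℚ_[l] ℂ a • X, Submodule.smul_mem _ _ hX, fun v => ?_⟩
    rw [smul_apply, smul_apply, hX', smul_eq_mul, smul_eq_mul, map_mul]

/-- PROOF.  The map `v ↦ T (1 ⊗ v ..)` is `ℚ_l`-multilinear with values in `ℂ`; its values on a basis of `V` (so all values) are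
in a finite-dimensional `ℚ_l`-subspace of `ℂ`, with basis `c j`: `T (1 ⊗ v) = ∑ c j T j v`, `T j : V ^ k → ℚ_l` multilinear
(compose with the coordinate forms, extended to `ℂ`, or use a `ℚ_l`-basis of `ℂ`).  The `T j` are Tate forms of weight `i` over
`L` (`repC ρ s (1 ⊗ v) = 1 ⊗ ρ s v`, `charC` has values in `ℚ_l` (`charC_zpow`), the `c j` are independent).  By
`multi_of_generated` `T j` is a combination of products `∏ D (v ..) (v ..)`.  `T` is determined by its values at the `1 ⊗ v`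
(`Basis.ext_multilinear` for the basis `1 ⊗ b`, or as in `BW.lean`), so `T` is the combination of the forms
`∏ bilC D (v ..) (v ..)` (`mulForm` in `DG.lean` gives them as multilinear maps; `bilC_tmul`), and `bilC D` is a pairing over `L'`
(as in `hasForm_repC`, `LC.lean`). -/
theorem core_of_generated {K : Type} [Field K] {l : ℕ} [Fact l.Prime] [Algebra ℚ_[l] ℂ] {V : Type} [AddCommGroup V]
    [Module ℚ_[l] V] [FiniteDimensional ℚ_[l] V] {ρ : Representation ℚ_[l] (GalK K) V}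
    (h : Generated ρ (Representation.trivial ℚ_[l] (GalK K) ℚ_[l])) (L : IntermediateField K (AlgebraicClosure K))
    (hL : FiniteDimensional K L) {k : ℕ} (i : ℤ) (T : MultilinearMap ℂ (fun _ : Fin k => ℂ ⊗[ℚ_[l]] V) ℂ)
    (hT : IsTt (repC ρ) (charC (cyc K l)) L.fixingSubgroup i T) :
    T ∈ Submodule.span ℂ {T' | ∃ (L' : IntermediateField K (AlgebraicClosure K)) (m : ℕ)
      (ε : Fin m ⊕ Fin m ≃ Fin k) (β : Fin m → (ℂ ⊗[ℚ_[l]] V) →ₗ[ℂ] (ℂ ⊗[ℚ_[l]] V) →ₗ[ℂ] ℂ), FiniteDimensional K L' ∧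
      (∀ j, TGR.IsPairing (repC ρ) (charC (cyc K l)) L'.fixingSubgroup (β j)) ∧
      ∀ v, T' v = ∏ j, β j (v (ε (Sum.inl j))) (v (ε (Sum.inr j)))} := by
  classical
  let b := Module.finBasis ℚ_[l] V
  let c := Module.Basis.ofVectorSpace ℚ_[l] ℂ
  let R : MultilinearMap ℚ_[l] (fun _ : Fin k => V) ℂ :=
    (T.restrictScalars ℚ_[l]).compLinearMap fun _ => TensorProduct.mk ℚ_[l] ℂ V 1
  have hR : ∀ v, R v = T (fun a => 1 ⊗ₜ v a) := fun v => rfl
  have hRs : ∀ s ∈ L.fixingSubgroup, ∀ v, R (fun a => ρ s (v a)) =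
      ((cyc K l s ^ i : ℚ_[l]ˣ) : ℚ_[l]) • R v := by
    intro s hs v
    have h1 := hT s hs (fun a => 1 ⊗ₜ v a)
    have h2 : (fun a => repC ρ s ((1 : ℂ) ⊗ₜ[ℚ_[l]] v a)) = fun a => (1 : ℂ) ⊗ₜ[ℚ_[l]] ρ s (v a) :=
      funext fun a => LinearMap.baseChange_tmul _ _ _
    rw [h2, charC_zpow] at h1
    rw [hR, hR, h1, Algebra.smul_def]
  have hTC : ∀ j, ∃ TC ∈ Submodule.span ℂ {T' : MultilinearMap ℂ (fun _ : Fin k => ℂ ⊗[ℚ_[l]] V) ℂ |
      ∃ (L' : IntermediateField K (AlgebraicClosure K)) (m : ℕ)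
      (ε : Fin m ⊕ Fin m ≃ Fin k) (β : Fin m → (ℂ ⊗[ℚ_[l]] V) →ₗ[ℂ] (ℂ ⊗[ℚ_[l]] V) →ₗ[ℂ] ℂ), FiniteDimensional K L' ∧
      (∀ j, TGR.IsPairing (repC ρ) (charC (cyc K l)) L'.fixingSubgroup (β j)) ∧
      ∀ v, T' v = ∏ j, β j (v (ε (Sum.inl j))) (v (ε (Sum.inr j)))},
      ∀ v : Fin k → V, TC (fun a => 1 ⊗ₜ v a) = algebraMap ℚ_[l] ℂ (c.repr (R v) j) := by
    intro j
    refine M6_lift ((c.coord j).compMultilinearMap R)
      (multi_of_generated h L hL i ((c.coord j).compMultilinearMap R) fun s hs v => ?_)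
    rw [LinearMap.compMultilinearMap_apply, LinearMap.compMultilinearMap_apply, hRs s hs v, map_smul, smul_eq_mul]
  choose TC hTC1 hTC2 using hTC
  let J := Finset.univ.biUnion fun f : Fin k → Fin (Module.finrank ℚ_[l] V) => (c.repr (R fun a => b (f a))).support
  have hsum : T = ∑ j ∈ J, c j • TC j := by
    refine Module.Basis.ext_multilinear (fun _ => b.baseChange ℂ) fun f => ?_
    have h3 : (fun a => b.baseChange ℂ (f a)) = fun a => (1 : ℂ) ⊗ₜ[ℚ_[l]] b (f a) :=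
      funext fun a => Module.Basis.baseChange_apply ℂ b (f a)
    rw [h3, sum_apply, ← hR fun a => b (f a)]
    have h4 : R (fun a => b (f a)) = ∑ j ∈ J, c.repr (R fun a => b (f a)) j • c j := by
      conv_lhs => rw [← c.linearCombination_repr (R fun a => b (f a))]
      rw [Finsupp.linearCombination_apply]
      refine Finsupp.sum_of_support_subset _ (fun x hx => ?_) _ fun x _ => zero_smul _ _
      exact Finset.mem_biUnion.2 ⟨f, Finset.mem_univ _, hx⟩
    rw [h4]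
    refine Finset.sum_congr rfl fun j _ => ?_
    rw [smul_apply, hTC2 j fun a => b (f a), smul_eq_mul, mul_comm, ← Algebra.smul_def]
  rw [hsum]
  exact Submodule.sum_mem _ fun j _ => Submodule.smul_mem _ _ (hTC1 j)

end TUT
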