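import Pool.Agent.Lib.MP_021685_agUT.K1

/-! Working context: the commutant of the action is not commutative. -/

set_option autoImplicit false

namespace TUT

open Module

variable {H : Type} [AddCommGroup H] [Module ℂ H] {G : Type} [Group G]

/-- The commutant of the action of `G`. -/
def comm (ρ : Representation ℂ G H) : Submodule ℂ (End ℂ H) where
  carrier := {Y | ∀ s, ρ s * Y = Y * ρ s}
  add_mem' := fun {X Y} hX hY s => by rw [mul_add, add_mul, hX s, hY s]
  zero_mem' := fun s => by rw [mul_zero, zero_mul]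
  smul_mem' := fun c X hX s => by rw [mul_smul_comm, smul_mul_assoc, hX s]

theorem mem_comm {ρ : Representation ℂ G H} {Y : End ℂ H} : Y ∈ comm ρ ↔ ∀ s, ρ s * Y = Y * ρ s := Iff.rfl

/-- The part of the commutant for the block `f`. -/
def cblk {J : Type} (ρ : Representation ℂ G H) (p : J → End ℂ H) (f : J) : Submodule ℂ (End ℂ H) where
  carrier := {Y | Y ∈ comm ρ ∧ Y * p f = Y}
  add_mem' := fun {X Y} hX hY => ⟨(comm ρ).add_mem hX.1 hY.1, by rw [add_mul, hX.2, hY.2]⟩
  zero_mem' := ⟨(comm ρ).zero_mem, zero_mul _⟩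
  smul_mem' := fun c X hX => ⟨(comm ρ).smul_mem c hX.1, by rw [smul_mul_assoc, hX.2]⟩

/-- The hypotheses: the centre of the commutant is spanned by the `p f`, its trace form is non-degenerate, and the double
commutant theorem holds for all subgroups of finite index. -/
structure Big {J : Type} [Fintype J] (e : H →ₗ[ℂ] H →ₗ[ℂ] ℂ) (bar : J → J) (p : J → End ℂ H) (ρ : Representation ℂ G H)
    (μ : G →* ℂˣ) : Prop where
  blk : Blk e bar p
  ne : ∀ f, p f ≠ 0
  he : ∀ s v w, e (ρ s v) (ρ s w) = (μ s : ℂ) * e v w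
  mem : ∀ f, p f ∈ comm ρ
  central : ∀ f, ∀ Y ∈ comm ρ, p f * Y = Y * p f
  centre : ∀ X ∈ comm ρ, (∀ Y ∈ comm ρ, X * Y = Y * X) → X ∈ Submodule.span ℂ (Set.range p)
  nd : ∀ X ∈ comm ρ, (∀ Y ∈ comm ρ, LinearMap.trace ℂ H (X * Y) = 0) → X = 0
  dens : ∀ G' : Subgroup G, G'.FiniteIndex → ∀ X : End ℂ H, (∀ Y ∈ comm ρ, X * Y = Y * X) →
    X ∈ Submodule.span ℂ {Y | ∃ g ∈ G', Y = ρ g}

/-- The first row and column of a system of matrix units of the block `f` of the commutant. -/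
structure MUnit {J : Type} (ρ : Representation ℂ G H) (p : J → End ℂ H) (f : J) (N : ℕ) (ε : End ℂ H)
    (u v : Fin N → End ℂ H) : Prop where
  mem : ε ∈ comm ρ
  umem : ∀ j, u j ∈ comm ρ
  vmem : ∀ j, v j ∈ comm ρ
  idem : ε * ε = ε
  ne : ε ≠ 0
  pf : p f * ε = ε
  ue : ∀ j, u j * ε = u j
  ev : ∀ j, ε * v j = v j
  orth : ∀ i j, v i * u j = if i = j then ε else 0
  sum : ∑ j, u j * v j = p f
  prim : ∀ Y ∈ comm ρ, ∃ c : ℂ, ε * Y * ε = c • ε

/-- Matrix units for all blocks, compatible with the form. -/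
structure MSys {J : Type} (e : H →ₗ[ℂ] H →ₗ[ℂ] ℂ) (bar : J → J) (p : J → End ℂ H) (ρ : Representation ℂ G H) (N : J → ℕ)
    (ε : J → End ℂ H) (u v : ∀ f, Fin (N f) → End ℂ H) : Prop where
  unit : ∀ f, MUnit ρ p f (N f) (ε f) (u f) (v f)
  adj : ∀ f x y, e (ε f x) y = e x (ε (bar f) y)

/-- The restriction of `X` to the image of the idempotent `q` (for `X` commuting with `q`). -/
noncomputable def cut (q X : End ℂ H) : End ℂ (LinearMap.range q) :=
  (q ∘ₗ X ∘ₗ (LinearMap.range q).subtype).codRestrict (LinearMap.range q) fun v => ⟨X v, rfl⟩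

theorem cut_apply (q X : End ℂ H) (v : LinearMap.range q) : ((cut q X v : LinearMap.range q) : H) = q (X v) := rfl

/-- The action on the image of `q`. -/
noncomputable def cutRep (ρ : Representation ℂ G H) (q : End ℂ H) (hq : q * q = q) (hc : q ∈ comm ρ) :
    Representation ℂ G (LinearMap.range q) where
  toFun s := cut q (ρ s)
  map_one' := by
    ext v
    obtain ⟨_, w, rfl⟩ := v
    rw [cut_apply, map_one]
    exact LinearMap.congr_fun hq w
  map_mul' s t := by
    ext v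
    rw [Module.End.mul_apply, cut_apply, cut_apply, cut_apply, map_mul, Module.End.mul_apply]
    have h1 := LinearMap.congr_fun (hc s) (ρ t v)
    have h2 := LinearMap.congr_fun (hc s) (q (ρ t v))
    have h3 := LinearMap.congr_fun hq (ρ t v)
    rw [Module.End.mul_apply, Module.End.mul_apply] at h1 h2
    rw [Module.End.mul_apply] at h3
    rw [← h1, ← h2, h3]

/-- The form on the image of `q`. -/
noncomputable def cutForm (e : H →ₗ[ℂ] H →ₗ[ℂ] ℂ) (q : End ℂ H) :
    LinearMap.range q →ₗ[ℂ] LinearMap.range q →ₗ[ℂ] ℂ :=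
  e.domRestrict₁₂ (LinearMap.range q) (LinearMap.range q)

theorem cutForm_apply (e : H →ₗ[ℂ] H →ₗ[ℂ] ℂ) (q : End ℂ H) (v w : LinearMap.range q) :
    cutForm e q v w = e v w := rfl

/-- `T v` is a product of pairings `β` with the multiplier `μ`. -/
def IsPg (ρ : Representation ℂ G H) (μ : G →* ℂˣ) {k : ℕ} (T' : MultilinearMap ℂ (fun _ : Fin k => H) ℂ) : Prop :=
  ∃ (m : ℕ) (ε : Fin m ⊕ Fin m ≃ Fin k) (β : Fin m → H →ₗ[ℂ] H →ₗ[ℂ] ℂ),
    (∀ j s u v, β j (ρ s u) (ρ s v) = (μ s : ℂ) * β j u v) ∧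
      ∀ v, T' v = ∏ j, β j (v (ε (Sum.inl j))) (v (ε (Sum.inr j)))

end TUT
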