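import Pool.Agent.Lib.MP_021685_agUT.P0

/-! Matrix units. -/

set_option autoImplicit false

namespace TUT

open Module

variable {H : Type} [AddCommGroup H] [Module ℂ H] [FiniteDimensional ℂ H] {G : Type} [Group G] {J : Type} [Fintype J]
  {e : H →ₗ[ℂ] H →ₗ[ℂ] ℂ} {bar : J → J} {p : J → End ℂ H} {ρ : Representation ℂ G H} {μ : G →* ℂˣ}

/-- The commutant as a subalgebra. -/
private def P1_C (ρ : Representation ℂ G H) : Subalgebra ℂ (End ℂ H) where
  carrier := {Y | Y ∈ comm ρ}
  mul_mem' := fun {X Y} hX hY s => by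
    have h1 : ρ s * X = X * ρ s := hX s
    have h2 : ρ s * Y = Y * ρ s := hY s
    rw [← mul_assoc, h1, mul_assoc, h2, mul_assoc]
  add_mem' := fun {X Y} hX hY => (comm ρ).add_mem hX hY
  algebraMap_mem' := fun c s => (Algebra.commutes c (ρ s)).symm

omit [FiniteDimensional ℂ H] in
private theorem P1_mem {ρ : Representation ℂ G H} (X : P1_C ρ) : (X : End ℂ H) ∈ comm ρ := X.2

/-- The commutant is a semisimple ring. -/
private theorem P1_ss (ρ : Representation ℂ G H)
    (hnd : ∀ X ∈ comm ρ, (∀ Y ∈ comm ρ, LinearMap.trace ℂ H (X * Y) = 0) → X = 0) :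
    IsSemisimpleRing (P1_C ρ) := by
  have : IsArtinianRing (P1_C ρ) := IsArtinianRing.of_finite ℂ (P1_C ρ)
  rw [IsArtinianRing.isSemisimpleRing_iff_jacobson, eq_bot_iff]
  intro X hX
  obtain ⟨n, hn⟩ := IsSemiprimaryRing.isNilpotent (R := P1_C ρ)
  rw [Submodule.mem_bot]
  apply Subtype.ext
  refine hnd _ (P1_mem X) fun Y hY => ?_
  have h1 : X * (⟨Y, hY⟩ : P1_C ρ) ∈ Ring.jacobson (P1_C ρ) := Ideal.mul_mem_right _ _ hX
  have h2 := Ideal.pow_mem_pow h1 n
  rw [hn] at h2
  have h3 : (X * (⟨Y, hY⟩ : P1_C ρ)) ^ n = 0 := by simpa using h2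
  have h4 : IsNilpotent ((X : End ℂ H) * Y) := ⟨n, by
    have h5 := congrArg (Subtype.val) h3
    simpa using h5⟩
  exact (LinearMap.isNilpotent_trace_of_isNilpotent h4).eq_zero

omit [FiniteDimensional ℂ H] in
/-- An element of the span of the `p g` times `p f` is a multiple of `p f`. -/
private theorem P1_span (hB : Big e bar p ρ μ) (f : J) {X : End ℂ H} (hX : X ∈ Submodule.span ℂ (Set.range p)) :
    ∃ c : ℂ, X * p f = c • p f := by
  classical
  refine Submodule.span_induction (p := fun X _ => ∃ c : ℂ, X * p f = c • p f) ?_ ?_ ?_ ?_ hX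
  · rintro _ ⟨g, rfl⟩
    by_cases hg : g = f
    · exact ⟨1, by rw [hg, hB.blk.idem, one_smul]⟩
    · exact ⟨0, by rw [hB.blk.orth g f hg, zero_smul]⟩
  · exact ⟨0, by rw [zero_mul, zero_smul]⟩
  · rintro x y _ _ ⟨a, ha⟩ ⟨b, hb⟩
    exact ⟨a + b, by rw [add_mul, ha, hb, add_smul]⟩
  · rintro a x _ ⟨b, hb⟩
    exact ⟨a * b, by rw [smul_mul_assoc, hb, smul_smul]⟩

private theorem P1_single_mul {n : ℕ} {d : Fin n → ℕ} (i : Fin n) (A : Matrix (Fin (d i)) (Fin (d i)) ℂ)
    (x : Π i, Matrix (Fin (d i)) (Fin (d i)) ℂ) :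
    (Pi.single i A : Π i, Matrix (Fin (d i)) (Fin (d i)) ℂ) * x = Pi.single i (A * x i) := by
  funext j
  by_cases h : j = i
  · subst h
    rw [Pi.mul_apply, Pi.single_eq_same, Pi.single_eq_same]
  · rw [Pi.mul_apply, Pi.single_eq_of_ne h, Pi.single_eq_of_ne h, zero_mul]

private theorem P1_mul_single {n : ℕ} {d : Fin n → ℕ} (i : Fin n) (A : Matrix (Fin (d i)) (Fin (d i)) ℂ)
    (x : Π i, Matrix (Fin (d i)) (Fin (d i)) ℂ) :
    x * (Pi.single i A : Π i, Matrix (Fin (d i)) (Fin (d i)) ℂ) = Pi.single i (x i * A) := by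
  funext j
  by_cases h : j = i
  · subst h
    rw [Pi.mul_apply, Pi.single_eq_same, Pi.single_eq_same]
  · rw [Pi.mul_apply, Pi.single_eq_of_ne h, Pi.single_eq_of_ne h, mul_zero]

omit [FiniteDimensional ℂ H] in
/-- The image of `p f` in the product of matrix algebras is the unit of one factor. -/
private theorem P1_block (hB : Big e bar p ρ μ) (f : J) {n : ℕ} {d : Fin n → ℕ}
    (E : P1_C ρ ≃ₐ[ℂ] Π i, Matrix (Fin (d i)) (Fin (d i)) ℂ) :
    ∃ i, E ⟨p f, hB.mem f⟩ = Pi.single i 1 := by
  classical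
  set P : P1_C ρ := ⟨p f, hB.mem f⟩ with hP
  have hne : E P ≠ 0 := fun h => hB.ne f (by
    have h1 : P = 0 := (map_eq_zero_iff E E.injective).1 h
    exact congrArg Subtype.val h1)
  obtain ⟨i, hi⟩ : ∃ i, E P i ≠ 0 := by
    by_contra hc
    push Not at hc
    exact hne (funext hc)
  -- the central idempotent of the factor `i`
  set Z : P1_C ρ := E.symm (Pi.single i 1) with hZ
  have hZc : ∀ Y : P1_C ρ, Z * Y = Y * Z := fun Y => by
    apply E.injective
    rw [map_mul, map_mul, hZ, AlgEquiv.apply_symm_apply, P1_single_mul, P1_mul_single, one_mul, mul_one]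
  have hZs : (Z : End ℂ H) ∈ Submodule.span ℂ (Set.range p) :=
    hB.centre _ (P1_mem Z) fun Y hY => congrArg Subtype.val (hZc ⟨Y, hY⟩)
  obtain ⟨c, hc⟩ := P1_span hB f hZs
  have hc' : Z * P = c • P := Subtype.ext hc
  have h1 : (Pi.single i (E P i) : Π i, Matrix (Fin (d i)) (Fin (d i)) ℂ) = c • E P := by
    have h2 := congrArg E hc'
    rw [map_mul, map_smul, hZ, AlgEquiv.apply_symm_apply, P1_single_mul, one_mul] at h2
    exact h2
  have h3 : c = 1 := by
    have h4 := congrFun h1 i
    rw [Pi.single_eq_same, Pi.smul_apply] at h4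
    have h5 : (1 - c) • E P i = 0 := by rw [sub_smul, one_smul, ← h4, sub_self]
    rcases smul_eq_zero.1 h5 with h6 | h6
    · exact (sub_eq_zero.1 h6).symm
    · exact absurd h6 hi
  rw [h3, one_smul] at h1
  -- `p f` is central, so its component is scalar
  have h4 : ∀ A : Matrix (Fin (d i)) (Fin (d i)) ℂ, E P i * A = A * E P i := fun A => by
    have h5 : P * E.symm (Pi.single i A) = E.symm (Pi.single i A) * P :=
      Subtype.ext (hB.central f _ (P1_mem _))
    have h6 := congrFun (congrArg E h5) i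
    rw [map_mul, map_mul, AlgEquiv.apply_symm_apply, Pi.mul_apply, Pi.mul_apply, Pi.single_eq_same] at h6
    exact h6
  obtain ⟨a, ha⟩ := Matrix.mem_range_scalar_of_commute_single (M := E P i) fun k l _ => (h4 _).symm
  have h7 : E P i * E P i = E P i := by
    have h8 : P * P = P := Subtype.ext (hB.blk.idem f)
    have h9 := congrFun (congrArg E h8) i
    rw [map_mul, Pi.mul_apply] at h9
    exact h9
  have h8 : E P i = 1 := by
    have hs : E P i = a • (1 : Matrix (Fin (d i)) (Fin (d i)) ℂ) := by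
      rw [← ha, Matrix.scalar_apply, Matrix.smul_one_eq_diagonal]
    have h9 : a • (E P i) = E P i := by
      calc a • E P i = (a • (1 : Matrix (Fin (d i)) (Fin (d i)) ℂ)) * E P i := by rw [smul_mul_assoc, one_mul]
        _ = E P i * E P i := by rw [← hs]
        _ = E P i := h7
    have h10 : (a - 1) • E P i = 0 := by rw [sub_smul, one_smul, h9, sub_self]
    rcases smul_eq_zero.1 h10 with h11 | h11
    · rw [← ha, sub_eq_zero.1 h11, map_one]
    · exact absurd h11 hi
  refine ⟨i, ?_⟩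
  rw [← h1, h8]

/-- PROOF.  Let `W = range (p f)`, `B` the subalgebra of `End ℂ W` of the restrictions of the elements of `comm ρ` (they commute
with `p f`; `Y ↦ Y|W` is a bijection of `cblk ρ p f` and `B`; `1 ∈ B` is the restriction of `p f`).
(1) `B` is a semisimple ring: it is artinian (finite-dimensional over `ℂ`) and its Jacobson radical is zero: for `X` in it
(nilpotent ideal) `X Y` is nilpotent, so `trace (X Y) = 0` for all `Y ∈ B`; for `X ∈ cblk ρ p f`, `Y ∈ comm ρ`:
`trace_H (X Y) = trace_W (X Y|W)`, so `X = 0` by `hB.nd`.  (Mathlib: `IsArtinianRing.isSemisimpleRing_iff_jacobson` or similar.)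
(2) By Wedderburn-Artin over the algebraically closed field `ℂ` (Mathlib: `IsSemisimpleRing.exists_algEquiv_pi_matrix...` in
`Mathlib/RingTheory/SimpleModule/WedderburnArtin.lean` and `.../IsAlgClosed.lean`) `B ≃ ∏ i, M_{N i} (ℂ)`.  The centre of `B` is
`ℂ`: if `X ∈ cblk` commutes with `cblk`, it commutes with `comm ρ` (`Y X = Y p f X`, `X Y = X p f Y`, `p f Y ∈ cblk`), so
`X = ∑ c g • p g` (`hB.centre`) and `X = X p f = c f • p f`.  And `B ≠ 0` (`hB.ne`).  So there is exactly one factor: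
`B ≃ M_N (ℂ)`, `N ≥ 1`.
(3) Let `E i j ∈ cblk` correspond to the matrix units: `ε = E 0 0`, `u j = E j 0`, `v j = E 0 j`.  `prim`: `ε Y ε = ε (p f Y) ε`
with `p f Y ∈ cblk`.  `finrank (cblk ρ p f) = finrank (M_N (ℂ)) = N ^ 2`.
(An alternative without Wedderburn-Artin: a primitive idempotent and Schur's lemma.) -/
theorem Big.exists_unit (hB : Big e bar p ρ μ) (f : J) :
    ∃ (N : ℕ) (ε : End ℂ H) (u v : Fin N → End ℂ H), MUnit ρ p f N ε u v ∧ finrank ℂ (cblk ρ p f) = N ^ 2 := by
  classical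
  have := P1_ss ρ hB.nd
  obtain ⟨n, d, hd, ⟨E⟩⟩ := IsSemisimpleRing.exists_algEquiv_pi_matrix_of_isAlgClosed ℂ (P1_C ρ)
  obtain ⟨i, hi⟩ := P1_block hB f E
  have : NeZero (d i) := hd i
  set P : P1_C ρ := ⟨p f, hB.mem f⟩ with hP
  let m : Matrix (Fin (d i)) (Fin (d i)) ℂ → P1_C ρ := fun A => E.symm (Pi.single i A)
  have hEm : ∀ A, E (m A) = Pi.single i A := fun A => E.apply_symm_apply _
  have hmul : ∀ A B, m A * m B = m (A * B) := fun A B => by
    apply E.injective
    rw [map_mul, hEm, hEm, hEm, P1_single_mul, Pi.single_eq_same]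
  have hone : m 1 = P := by
    apply E.injective
    rw [hEm, hi]
  have hsum : ∀ (F : Fin (d i) → Matrix (Fin (d i)) (Fin (d i)) ℂ), ∑ j, m (F j) = m (∑ j, F j) := fun F => by
    apply E.injective
    rw [map_sum, hEm]
    simp only [hEm]
    funext k
    rw [Finset.sum_apply]
    by_cases hk : k = i
    · subst hk
      simp only [Pi.single_eq_same]
    · simp only [Pi.single_eq_of_ne hk, Finset.sum_const_zero]
  have hsmul : ∀ (c : ℂ) A, m (c • A) = c • m A := fun c A => by
    apply E.injective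
    rw [map_smul, hEm, hEm, Pi.single_smul]
  have hzero : m 0 = 0 := by
    apply E.injective
    rw [hEm, Pi.single_zero, map_zero]
  have hinj : ∀ A, m A = 0 → A = 0 := fun A hA => by
    have h1 := hEm A
    rw [hA, map_zero] at h1
    have h2 := congrFun h1 i
    rw [Pi.single_eq_same] at h2
    exact h2.symm
  have vmul : ∀ A B, ((m A : P1_C ρ) : End ℂ H) * (m B : P1_C ρ) = (m (A * B) : P1_C ρ) := fun A B =>
    congrArg Subtype.val (hmul A B)
  have vone : ((m 1 : P1_C ρ) : End ℂ H) = p f := congrArg Subtype.val hone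
  refine ⟨d i, m (Matrix.single 0 0 1), fun j => m (Matrix.single j 0 1), fun j => m (Matrix.single 0 j 1), ?_, ?_⟩
  · refine ⟨P1_mem _, fun j => P1_mem _, fun j => P1_mem _, ?_, ?_, ?_, ?_, ?_, ?_, ?_, ?_⟩
    · rw [vmul, Matrix.single_mul_single_same, mul_one]
    · intro h
      have h1 : m (Matrix.single 0 0 1) = 0 := Subtype.ext h
      have h2 := congrFun (congrFun (hinj _ h1) 0) 0
      rw [Matrix.single_apply_same, Matrix.zero_apply] at h2
      exact one_ne_zero h2
    · rw [← vone, vmul, one_mul]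
    · intro j
      rw [vmul, Matrix.single_mul_single_same, mul_one]
    · intro j
      rw [vmul, Matrix.single_mul_single_same, mul_one]
    · intro k j
      rw [vmul]
      by_cases h : k = j
      · subst h
        rw [Matrix.single_mul_single_same, mul_one, if_pos rfl]
      · rw [Matrix.single_mul_single_of_ne (h := h), if_neg h, hzero]
        rfl
    · have h1 : ∀ j, ((m (Matrix.single j 0 1) : P1_C ρ) : End ℂ H) * (m (Matrix.single 0 j 1) : P1_C ρ)
          = (m (Matrix.single j j 1) : P1_C ρ) := fun j => by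
        rw [vmul, Matrix.single_mul_single_same, mul_one]
      simp only [h1]
      rw [← vone, ← Matrix.sum_single_one, ← hsum]
      exact (map_sum (P1_C ρ).val _ _).symm
    · intro Y hY
      refine ⟨E ⟨Y, hY⟩ i 0 0, ?_⟩
      have h1 : m (Matrix.single 0 0 1) * ⟨Y, hY⟩ * m (Matrix.single 0 0 1)
          = (E ⟨Y, hY⟩ i 0 0) • m (Matrix.single 0 0 1) := by
        apply E.injective
        rw [map_mul, map_mul, map_smul, hEm, P1_single_mul, P1_mul_single, Pi.single_eq_same,
          Matrix.single_mul_mul_single, one_mul, mul_one, ← Pi.single_smul, Matrix.smul_single, smul_eq_mul, mul_one]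
      exact congrArg Subtype.val h1
  · have hX : ∀ X : cblk ρ p f, E ⟨X.1, X.2.1⟩ = Pi.single i (E ⟨X.1, X.2.1⟩ i) := fun X => by
      have h1 : (⟨X.1, X.2.1⟩ : P1_C ρ) * P = ⟨X.1, X.2.1⟩ := Subtype.ext X.2.2
      have h2 := congrArg E h1
      rw [map_mul, hi, P1_mul_single, mul_one] at h2
      exact h2.symm
    let L : cblk ρ p f ≃ₗ[ℂ] Matrix (Fin (d i)) (Fin (d i)) ℂ :=
      { toFun := fun X => E ⟨X.1, X.2.1⟩ i
        map_add' := fun X Y => congrFun (map_add E ⟨X.1, X.2.1⟩ ⟨Y.1, Y.2.1⟩) i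
        map_smul' := fun c X => congrFun (map_smul E c ⟨X.1, X.2.1⟩) i
        invFun := fun A => ⟨(m A : P1_C ρ), P1_mem _, by rw [← vone, vmul, mul_one]⟩
        left_inv := fun X => by
          apply Subtype.ext
          have h1 : m (E ⟨X.1, X.2.1⟩ i) = ⟨X.1, X.2.1⟩ := by
            apply E.injective
            rw [hEm, ← hX X]
          show ((m (E ⟨X.1, X.2.1⟩ i) : P1_C ρ) : End ℂ H) = X.1
          rw [h1]
        right_inv := fun A => by
          have h1 := congrFun (hEm A) i
          rw [Pi.single_eq_same] at h1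
          exact h1 }
    rw [L.finrank_eq, Module.finrank_matrix, Fintype.card_fin, Module.finrank_self, mul_one, sq]

end TUT
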