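import Pool.Agent.Lib.MP_021685_agUT.P1

/-! Matrix units compatible with the form. -/

set_option autoImplicit false

namespace TUT

open Module

variable {H : Type} [AddCommGroup H] [Module ℂ H] [FiniteDimensional ℂ H] {G : Type} [Group G] {J : Type} [Fintype J]
  {e : H →ₗ[ℂ] H →ₗ[ℂ] ℂ} {bar : J → J} {p : J → End ℂ H} {ρ : Representation ℂ G H} {μ : G →* ℂˣ}

private theorem P2_skew {e : H →ₗ[ℂ] H →ₗ[ℂ] ℂ} (alt : ∀ v, e v v = 0) (x y : H) : e x y = - e y x := by
  have h1 := alt (x + y)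
  rw [map_add, map_add, LinearMap.add_apply, LinearMap.add_apply, alt, alt, zero_add, add_zero] at h1
  exact eq_neg_of_add_eq_zero_right h1

private theorem P2_sep {e : H →ₗ[ℂ] H →ₗ[ℂ] ℂ} (alt : ∀ v, e v v = 0) (nd : ∀ v, (∀ w, e v w = 0) → v = 0) {a b : H}
    (h : ∀ x, e x a = e x b) : a = b := by
  have h1 : a - b = 0 := by
    refine nd _ fun w => ?_
    rw [P2_skew alt, map_sub, h w, sub_self, neg_zero]
  exact sub_eq_zero.1 h1

/-- The adjoint. -/
private theorem P2_adj {e : H →ₗ[ℂ] H →ₗ[ℂ] ℂ} (alt : ∀ v, e v v = 0) (nd : ∀ v, (∀ w, e v w = 0) → v = 0) :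
    ∃ ad : End ℂ H →ₗ[ℂ] End ℂ H, ∀ Y x y, e (Y x) y = e x (ad Y y) := by
  have hinj : Function.Injective e := by
    rw [injective_iff_map_eq_zero]
    intro v hv
    exact nd v fun w => by rw [hv]; rfl
  have hdim : finrank ℂ H = finrank ℂ (H →ₗ[ℂ] ℂ) := (Subspace.dual_finrank_eq (K := ℂ) (V := H)).symm
  have hsur : Function.Surjective e := by
    have h1 := (LinearMap.injective_iff_surjective_of_finrank_eq_finrank hdim (f := e)).mp hinj
    exact h1
  obtain ⟨E, hE⟩ : ∃ E : H ≃ₗ[ℂ] (H →ₗ[ℂ] ℂ), ∀ x, E x = e x :=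
    ⟨LinearEquiv.ofBijective e ⟨hinj, hsur⟩, fun x => rfl⟩
  have hex : ∀ Y : End ℂ H, ∃ Z : End ℂ H, ∀ x y, e (Y x) y = e x (Z y) := by
    intro Y
    refine ⟨E.symm.toLinearMap ∘ₗ (LinearMap.lcomp ℂ ℂ Y) ∘ₗ E.toLinearMap, fun x y => ?_⟩
    have h1 : e (E.symm ((E y) ∘ₗ Y)) = (E y) ∘ₗ Y := by
      rw [← hE, LinearEquiv.apply_symm_apply]
    show e (Y x) y = e x (E.symm ((E y) ∘ₗ Y))
    rw [P2_skew alt x, h1, LinearMap.comp_apply, hE, P2_skew alt y, neg_neg]
  choose ad had using hex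
  refine ⟨{ toFun := ad, map_add' := fun X Y => ?_, map_smul' := fun c X => ?_ }, had⟩
  · refine LinearMap.ext fun y => P2_sep alt nd fun x => ?_
    rw [← had, LinearMap.add_apply, LinearMap.add_apply, map_add, map_add, LinearMap.add_apply, had, had]
  · refine LinearMap.ext fun y => P2_sep alt nd fun x => ?_
    rw [← had, LinearMap.smul_apply, LinearMap.smul_apply, map_smul, map_smul, LinearMap.smul_apply, had]
    rfl

/-- PROOF.  Every `Y ∈ End H` has an adjoint `Y'` with `e (Y x) y = e x (Y' y)` (`e` is non-degenerate, `H` finite-dimensional),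
`(X Y)' = Y' X'`, `Y'' = Y` (alternating), and `Y' ∈ comm ρ` for `Y ∈ comm ρ` (`he`, `ρ s` is bijective).
Choose a set `J₊ ⊆ J` which contains exactly one of `f`, `bar f` for each `f` (`bb`, `bne`; e.g. with a linear order or
`Fintype.equivFin`: `f ∈ J₊ ↔ num f < num (bar f)`).  For `f ∈ J₊` take `(N, ε, u, v)` from `Big.exists_unit`, for `f ∉ J₊` take
`(N, ε', j ↦ (v j)', j ↦ (u j)')` for the data `(N, ε, u, v)` of `bar f ∈ J₊`: `(u i)' (v j)' = (v j u i)' = δ ε'`,
`∑ (v j)' (u j)' = (∑ u j v j)' = (p (bar f))' = p f` (`adj`), `prim` for `Y'`; it is convenient to define one function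
`F : J → Σ N, End H × (Fin N → End H) × (Fin N → End H)` by cases. -/
theorem Big.exists_sys (hB : Big e bar p ρ μ) :
    ∃ (N : J → ℕ) (ε : J → End ℂ H) (u v : ∀ f, Fin (N f) → End ℂ H), MSys e bar p ρ N ε u v ∧
      ∀ f, finrank ℂ (cblk ρ p f) = N f ^ 2 := by
  classical
  have hb := hB.blk
  obtain ⟨ad, had⟩ := P2_adj hb.alt hb.nd
  have huniq : ∀ Y Z : End ℂ H, (∀ x y, e (Y x) y = e x (Z y)) → ad Y = Z := by
    intro Y Z h
    refine LinearMap.ext fun y => P2_sep hb.alt hb.nd fun x => ?_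
    rw [← had, h]
  have hadad : ∀ Y, ad (ad Y) = Y := by
    intro Y
    refine huniq _ _ fun x y => ?_
    rw [P2_skew hb.alt, ← had, P2_skew hb.alt, neg_neg]
  have hmul : ∀ X Y, ad (X * Y) = ad Y * ad X := by
    intro X Y
    refine huniq _ _ fun x y => ?_
    rw [Module.End.mul_apply, Module.End.mul_apply, had, had]
  have hp : ∀ f, ad (p f) = p (bar f) := fun f => huniq _ _ (hb.adj f)
  have hp' : ∀ f, ad (p (bar f)) = p f := fun f => by rw [hp, hb.bb]
  have hcomm : ∀ Y ∈ comm ρ, ad Y ∈ comm ρ := by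
    intro Y hY s
    refine LinearMap.ext fun y => P2_sep hb.alt hb.nd fun x => ?_
    have hx : ρ s (ρ s⁻¹ x) = x := by
      rw [← Module.End.mul_apply, ← map_mul, mul_inv_cancel, map_one, Module.End.one_apply]
    rw [Module.End.mul_apply, Module.End.mul_apply, ← hx, hB.he, ← had, ← had]
    have h1 : Y (ρ s (ρ s⁻¹ x)) = ρ s (Y (ρ s⁻¹ x)) := (LinearMap.congr_fun (hY s) (ρ s⁻¹ x)).symm
    rw [h1, hB.he]
  have hunit : ∀ f (N : ℕ) (ε : End ℂ H) (u v : Fin N → End ℂ H), MUnit ρ p (bar f) N ε u v →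
      MUnit ρ p f N (ad ε) (fun j => ad (v j)) (fun j => ad (u j)) := by
    intro f N ε u v h
    refine ⟨hcomm _ h.mem, fun j => hcomm _ (h.vmem j), fun j => hcomm _ (h.umem j), ?_, ?_, ?_, fun j => ?_,
      fun j => ?_, fun i j => ?_, ?_, fun Y hY => ?_⟩
    · rw [← hmul, h.idem]
    · intro h0
      have h1 := hadad ε
      rw [h0, map_zero] at h1
      exact h.ne h1.symm
    · rw [← hp' f, ← hmul, ← hB.central (bar f) ε h.mem, h.pf]
    · rw [← hmul, h.ev]
    · rw [← hmul, h.ue]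
    · rw [← hmul, h.orth]
      by_cases hij : i = j
      · rw [if_pos hij, if_pos hij.symm]
      · rw [if_neg hij, if_neg (fun h1 => hij h1.symm), map_zero]
    · have h1 : ∑ j, ad (v j) * ad (u j) = ad (∑ j, u j * v j) := by
        rw [map_sum]
        exact Finset.sum_congr rfl fun j _ => (hmul _ _).symm
      rw [h1, h.sum, hp']
    · obtain ⟨c, hc⟩ := h.prim (ad Y) (hcomm Y hY)
      refine ⟨c, ?_⟩
      have h1 : ad ε * Y * ad ε = ad (ε * ad Y * ε) := by
        rw [hmul, hmul, hadad, mul_assoc]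
      rw [h1, hc, map_smul]
  have hrk : ∀ f, finrank ℂ (cblk ρ p f) ≤ finrank ℂ (cblk ρ p (bar f)) := by
    intro f
    have hm : ∀ Y ∈ cblk ρ p f, ad Y ∈ cblk ρ p (bar f) := by
      rintro Y ⟨h1, h2⟩
      refine ⟨hcomm Y h1, ?_⟩
      rw [← hp f, ← hmul, hB.central f Y h1, h2]
    refine LinearMap.finrank_le_finrank_of_injective (f := ad.restrict hm) ?_
    rintro ⟨X, hX⟩ ⟨Y, hY⟩ h
    have h1 : ad X = ad Y := congrArg Subtype.val h
    have h2 : X = Y := by rw [← hadad X, h1, hadad]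
    exact Subtype.ext h2
  have hrk' : ∀ f, finrank ℂ (cblk ρ p f) = finrank ℂ (cblk ρ p (bar f)) := by
    intro f
    refine le_antisymm (hrk f) ?_
    have h1 := hrk (bar f)
    rwa [hb.bb] at h1
  choose N₀ ε₀ u₀ v₀ hM hN using fun f => hB.exists_unit f
  obtain ⟨num, hnum⟩ : ∃ num : J → ℕ, Function.Injective num :=
    ⟨fun f => (Fintype.equivFin J f : ℕ), fun f g h => (Fintype.equivFin J).injective (Fin.ext h)⟩
  have hpos : ∀ f, num f < num (bar f) → ¬ num (bar f) < num (bar (bar f)) := by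
    intro f h1 h2
    rw [hb.bb] at h2
    omega
  have hneg : ∀ f, ¬ num f < num (bar f) → num (bar f) < num (bar (bar f)) := by
    intro f h1
    rw [hb.bb]
    have h2 : num (bar f) ≠ num f := fun h3 => hb.bne f (hnum h3)
    omega
  obtain ⟨F, hF⟩ : ∃ F : J → (Σ N : ℕ, End ℂ H × (Fin N → End ℂ H) × (Fin N → End ℂ H)), ∀ f, F f =
      if num f < num (bar f) then ⟨N₀ f, ε₀ f, u₀ f, v₀ f⟩
      else ⟨N₀ (bar f), ad (ε₀ (bar f)), fun j => ad (v₀ (bar f) j), fun j => ad (u₀ (bar f) j)⟩ :=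
    ⟨_, fun _ => rfl⟩
  refine ⟨fun f => (F f).1, fun f => (F f).2.1, fun f => (F f).2.2.1, fun f => (F f).2.2.2, ⟨fun f => ?_, fun f x y => ?_⟩,
    fun f => ?_⟩
  · by_cases h : num f < num (bar f)
    · have h1 := hF f
      rw [if_pos h] at h1
      show MUnit ρ p f (F f).1 (F f).2.1 (F f).2.2.1 (F f).2.2.2
      rw [h1]
      exact hM f
    · have h1 := hF f
      rw [if_neg h] at h1
      show MUnit ρ p f (F f).1 (F f).2.1 (F f).2.2.1 (F f).2.2.2
      rw [h1]
      exact hunit f _ _ _ _ (hM (bar f))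
  · by_cases h : num f < num (bar f)
    · have h1 := hF f
      rw [if_pos h] at h1
      have h2 := hF (bar f)
      rw [if_neg (hpos f h)] at h2
      show e ((F f).2.1 x) y = e x ((F (bar f)).2.1 y)
      rw [h1, h2]
      show e (ε₀ f x) y = e x (ad (ε₀ (bar (bar f))) y)
      rw [hb.bb, had]
    · have h1 := hF f
      rw [if_neg h] at h1
      have h2 := hF (bar f)
      rw [if_pos (hneg f h)] at h2
      show e ((F f).2.1 x) y = e x ((F (bar f)).2.1 y)
      rw [h1, h2]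
      show e (ad (ε₀ (bar f)) x) y = e x (ε₀ (bar f) y)
      rw [had, hadad]
  · by_cases h : num f < num (bar f)
    · have h1 := hF f
      rw [if_pos h] at h1
      show finrank ℂ (cblk ρ p f) = (F f).1 ^ 2
      rw [h1]
      exact hN f
    · have h1 := hF f
      rw [if_neg h] at h1
      show finrank ℂ (cblk ρ p f) = (F f).1 ^ 2
      rw [h1, hrk' f]
      exact hN (bar f)

end TUT
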