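import Mathlib

/-! The trace form of the commutant of a semisimple action. -/

set_option autoImplicit false

namespace TUT

open Module

/-- PROOF.  Suppose `X ≠ 0`.  `ker X` is stable under `M`; let `U` be a stable complement of it, `U ≠ ⊥`.  `X` maps `U`
injectively onto `R = X (U) = range X`, which is stable; let `R'` be a stable complement of `R`.  Let `Y` be the endomorphism which
is `0` on `R'` and the inverse of `X : U → R` on `R`.  `Y` commutes with `M`: on `R'` both sides are `0` (`m` maps `R'` to itself);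
for `r = X u`: `m Y r = m u`, `Y m r = Y (X (m u)) = m u`.  `X Y` is the projection to `R` along `R'`, an idempotent of trace
`finrank R ≠ 0` in `k` (characteristic zero): contradiction to `h0`. -/
theorem trace_nd {k : Type} [Field k] [CharZero k] {V : Type} [AddCommGroup V] [Module k V] [FiniteDimensional k V]
    (M : Set (End k V))
    (hss : ∀ U : Submodule k V, (∀ X ∈ M, ∀ u ∈ U, X u ∈ U) → ∃ U' : Submodule k V, (∀ X ∈ M, ∀ u ∈ U', X u ∈ U') ∧
      IsCompl U U') (X : End k V) (hX : ∀ m ∈ M, m * X = X * m)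
    (h0 : ∀ Y : End k V, (∀ m ∈ M, m * Y = Y * m) → LinearMap.trace k V (X * Y) = 0) : X = 0 := by
  obtain ⟨U, hUM, hU⟩ := hss (LinearMap.ker X) (by
    intro m hm u hu
    rw [LinearMap.mem_ker] at hu ⊢
    have h1 : (X * m) u = (m * X) u := by rw [hX m hm]
    rw [Module.End.mul_apply, Module.End.mul_apply, hu, map_zero] at h1
    exact h1)
  obtain ⟨R', hRM, hR⟩ := hss (LinearMap.range X) (by
    rintro m hm _ ⟨u, rfl⟩
    refine ⟨m u, ?_⟩
    have h1 : (X * m) u = (m * X) u := by rw [hX m hm]
    exact h1)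
  obtain ⟨e, he⟩ : ∃ e : LinearMap.range X →ₗ[k] V, (∀ r, e r ∈ U) ∧ ∀ r : LinearMap.range X, X (e r) = r := by
    refine ⟨U.subtype ∘ₗ (LinearMap.kerComplementEquivRange X hU.symm).symm.toLinearMap, fun r => ?_, fun r => ?_⟩
    · exact Subtype.property _
    · have h1 := (LinearMap.kerComplementEquivRange X hU.symm).apply_symm_apply r
      have h2 := congrArg Subtype.val h1
      exact h2
  obtain ⟨heU, heX⟩ := he
  obtain ⟨Y, hYdef⟩ : ∃ Y : End k V, Y = e ∘ₗ Submodule.projectionOnto (LinearMap.range X) R' hR := ⟨_, rfl⟩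
  have hYR' : ∀ r ∈ R', Y r = 0 := by
    intro r hr
    rw [hYdef, LinearMap.comp_apply, Submodule.projectionOnto_apply_of_mem_right hR hr, map_zero]
  have hXY : ∀ r ∈ LinearMap.range X, X (Y r) = r := by
    intro r hr
    have h1 := heX (Submodule.projectionOnto (LinearMap.range X) R' hR r)
    rw [hYdef, LinearMap.comp_apply, h1]
    exact congrArg Subtype.val (Submodule.projectionOnto_apply_left hR (⟨r, hr⟩ : LinearMap.range X))
  have hYU : ∀ v, Y v ∈ U := by
    intro v
    rw [hYdef]
    exact heU _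
  have hinj : ∀ u ∈ U, X u = 0 → u = 0 := by
    intro u hu h1
    have h2 : u ∈ (LinearMap.ker X) ⊓ U := ⟨LinearMap.mem_ker.mpr h1, hu⟩
    rw [hU.inf_eq_bot] at h2
    exact (Submodule.mem_bot k).mp h2
  have hYX : ∀ u ∈ U, Y (X u) = u := by
    intro u hu
    have h1 : Y (X u) - u ∈ U := U.sub_mem (hYU _) hu
    have h2 : X (Y (X u) - u) = 0 := by
      rw [map_sub, hXY (X u) ⟨u, rfl⟩, sub_self]
    exact sub_eq_zero.mp (hinj _ h1 h2)
  have hcomm : ∀ m ∈ M, m * Y = Y * m := by
    intro m hm
    apply LinearMap.ext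
    intro v
    rw [Module.End.mul_apply, Module.End.mul_apply]
    obtain ⟨r, hr, r', hr', rfl⟩ : ∃ r ∈ LinearMap.range X, ∃ r' ∈ R', r + r' = v := by
      have h1 : v ∈ LinearMap.range X ⊔ R' := by
        rw [hR.sup_eq_top]
        exact Submodule.mem_top
      exact Submodule.mem_sup.mp h1
    rw [map_add, map_add, map_add, map_add, hYR' r' hr', hYR' (m r') (hRM m hm r' hr'), map_zero,
      add_zero, add_zero]
    have h1 : Y r ∈ U := hYU r
    have h2 : X (m (Y r)) = m r := by
      have h3 : (X * m) (Y r) = (m * X) (Y r) := by rw [hX m hm]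
      rw [Module.End.mul_apply, Module.End.mul_apply, hXY r hr] at h3
      exact h3
    rw [← h2, hYX _ (hUM m hm _ h1)]
  have htr := h0 Y hcomm
  have hproj : LinearMap.IsProj (LinearMap.range X) (X * Y) := by
    refine ⟨fun v => ⟨Y v, rfl⟩, fun v hv => ?_⟩
    exact hXY v hv
  rw [hproj.trace] at htr
  have h5 : Module.finrank k (LinearMap.range X) = 0 := by exact_mod_cast htr
  have h6 : LinearMap.range X = ⊥ := Submodule.finrank_eq_zero.mp h5
  exact LinearMap.range_eq_bot.mp h6

end TUT
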