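import Mathlib

/-! Commutants and extension of scalars. -/

set_option autoImplicit false

namespace TUT

open Module TensorProduct

open Classical in
/-- The `j`-th coordinate of an endomorphism of `ℂ ⊗ V`. -/
private noncomputable def Q2_co {k : Type} [Field k] [Algebra k ℂ] {V : Type} [AddCommGroup V] [Module k V]
    {ι : Type} (b : Basis ι k ℂ) (Z : End ℂ (ℂ ⊗[k] V)) (j : ι) : End k V :=
  (TensorProduct.lid k V).toLinearMap ∘ₗ (LinearMap.rTensor V (b.coord j)) ∘ₗ (Z.restrictScalars k) ∘ₗ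
    (TensorProduct.mk k ℂ V 1)

open Classical in
private theorem Q2_co_apply {k : Type} [Field k] [Algebra k ℂ] {V : Type} [AddCommGroup V] [Module k V]
    {ι : Type} (b : Basis ι k ℂ) (Z : End ℂ (ℂ ⊗[k] V)) (j : ι) (v : V) :
    Q2_co b Z j v = TensorProduct.equivFinsuppOfBasisLeft b (Z (1 ⊗ₜ[k] v)) j := by
  rw [TensorProduct.equivFinsuppOfBasisLeft_apply]
  rfl

private theorem Q2_comm {k : Type} [Field k] [Algebra k ℂ] {V : Type} [AddCommGroup V] [Module k V]
    {ι : Type} (b : Basis ι k ℂ) (Z : End ℂ (ℂ ⊗[k] V)) (j : ι) (d : End k V)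
    (h : Z * d.baseChange ℂ = d.baseChange ℂ * Z) : Q2_co b Z j * d = d * Q2_co b Z j := by
  have key : ∀ x : ℂ ⊗[k] V, TensorProduct.lid k V (LinearMap.rTensor V (b.coord j) (d.baseChange ℂ x)) =
      d (TensorProduct.lid k V (LinearMap.rTensor V (b.coord j) x)) := by
    intro x
    induction x with
    | zero => simp
    | tmul c v => simp
    | add x y hx hy => rw [map_add, map_add, map_add, map_add, map_add, map_add, hx, hy]
  ext v
  have h1 : Z (1 ⊗ₜ[k] d v) = d.baseChange ℂ (Z (1 ⊗ₜ[k] v)) := by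
    have := congrArg (fun f : End ℂ (ℂ ⊗[k] V) => f (1 ⊗ₜ[k] v)) h
    simpa using this
  change TensorProduct.lid k V (LinearMap.rTensor V (b.coord j) (Z (1 ⊗ₜ[k] d v))) =
    d (TensorProduct.lid k V (LinearMap.rTensor V (b.coord j) (Z (1 ⊗ₜ[k] v))))
  rw [h1, key]

open Classical in
private theorem Q2_sum {k : Type} [Field k] [Algebra k ℂ] {V : Type} [AddCommGroup V] [Module k V]
    [FiniteDimensional k V] {ι : Type} (b : Basis ι k ℂ) (Z : End ℂ (ℂ ⊗[k] V)) :
    ∃ J : Finset ι, Z = ∑ j ∈ J, b j • (Q2_co b Z j).baseChange ℂ := by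
  let e := Module.finBasis k V
  let J : Finset ι := Finset.univ.biUnion fun i =>
    (TensorProduct.equivFinsuppOfBasisLeft b (Z (1 ⊗ₜ[k] e i))).support
  refine ⟨J, ?_⟩
  have h1 : (Z.restrictScalars k) ∘ₗ (TensorProduct.mk k ℂ V 1) =
      ∑ j ∈ J, (TensorProduct.mk k ℂ V (b j)) ∘ₗ (Q2_co b Z j) := by
    refine e.ext fun i => ?_
    have h2 := TensorProduct.equivFinsuppOfBasisLeft_symm_apply b
      (TensorProduct.equivFinsuppOfBasisLeft b (Z (1 ⊗ₜ[k] e i)))
    rw [LinearEquiv.symm_apply_apply] at h2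
    change Z (1 ⊗ₜ[k] e i) = _
    rw [h2, Finsupp.sum, LinearMap.sum_apply]
    refine Finset.sum_subset_zero_on_sdiff (Finset.subset_biUnion_of_mem
      (fun i => (TensorProduct.equivFinsuppOfBasisLeft b (Z (1 ⊗ₜ[k] e i))).support) (Finset.mem_univ i)) ?_ ?_
    · intro j hj
      have h3 : Q2_co b Z j (e i) = 0 := by
        rw [Q2_co_apply]
        exact Finsupp.notMem_support_iff.mp (Finset.mem_sdiff.mp hj).2
      change b j ⊗ₜ[k] (Q2_co b Z j (e i)) = 0
      rw [h3, TensorProduct.tmul_zero]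
    · intro j _
      change b j ⊗ₜ[k] _ = b j ⊗ₜ[k] (Q2_co b Z j (e i))
      rw [Q2_co_apply]
  refine TensorProduct.AlgebraTensorModule.curry_injective ?_
  refine LinearMap.ext_ring ?_
  refine LinearMap.ext fun v => ?_
  have h4 := congrArg (fun f : V →ₗ[k] ℂ ⊗[k] V => f v) h1
  have h5 : Z (1 ⊗ₜ[k] v) = ∑ j ∈ J, b j ⊗ₜ[k] (Q2_co b Z j v) := by
    simpa [LinearMap.sum_apply] using h4
  change Z (1 ⊗ₜ[k] v) = (∑ j ∈ J, b j • (Q2_co b Z j).baseChange ℂ) (1 ⊗ₜ[k] v)
  rw [h5, LinearMap.sum_apply]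
  refine Finset.sum_congr rfl fun j _ => ?_
  rw [LinearMap.smul_apply, LinearMap.baseChange_tmul, TensorProduct.smul_tmul', smul_eq_mul, mul_one]

/-- PROOF.  As in `I3.lean`: `Z = ∑ j, c j • (X j).baseChange ℂ` with `c j` linearly independent over `k`; then
`∑ j, c j • (m * X j - X j * m).baseChange ℂ = 0` and so `m * X j = X j * m`. -/
theorem expand_comm {k : Type} [Field k] [Algebra k ℂ] {V : Type} [AddCommGroup V] [Module k V] [FiniteDimensional k V]
    (S : Set (End k V)) (Z : End ℂ (ℂ ⊗[k] V)) (hZ : ∀ m ∈ S, m.baseChange ℂ * Z = Z * m.baseChange ℂ) :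
    ∃ (r : ℕ) (c : Fin r → ℂ) (X : Fin r → End k V), (∀ j, ∀ m ∈ S, m * X j = X j * m) ∧
      Z = ∑ j, c j • (X j).baseChange ℂ := by
  classical
  let b := Basis.ofVectorSpace k ℂ
  obtain ⟨J, hJ⟩ := Q2_sum b Z
  refine ⟨J.card, fun i => b (J.equivFin.symm i), fun i => Q2_co b Z (J.equivFin.symm i), fun i m hm => ?_, ?_⟩
  · exact (Q2_comm b Z _ m (hZ m hm).symm).symm
  · rw [Equiv.sum_comp J.equivFin.symm (fun x : J => b x • (Q2_co b Z x).baseChange ℂ),
      Finset.sum_coe_sort J (fun x => b x • (Q2_co b Z x).baseChange ℂ)]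
    exact hJ

end TUT
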