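import Pool.Agent.Lib.MP_021685_agUT.P0
import Pool.Agent.Lib.MP_021685_agUT.Q1
import Pool.Agent.Lib.MP_021685_agUT.Q2
import Pool.Agent.Lib.MP_021685_agTT.GC

/-! The trace form over `ℂ`. -/

set_option autoImplicit false

namespace TUT

open Module TensorProduct Pool.Agent.Lib.MP_021685_agTT

/-- PROOF.  Let `D₀` be the `k`-subspace of `End k V` of the `Y` which commute with all `ρ s`, `Y i` a basis of `D₀`
(`i : Fin d`), `g i j = trace (Y i * Y j)`.  By `trace_nd` (with `M = range ρ`) the matrix `g` has no kernel, so `det g ≠ 0`.  By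
`expand_comm` (`S = range ρ`; `(ρ s).baseChange ℂ = repC ρ s` by `rfl`) `X = ∑ c j • (X j).baseChange ℂ` with `X j ∈ D₀`, so
`X = ∑ i, x i • (Y i).baseChange ℂ` with `x i ∈ ℂ`.  `(Y j).baseChange ℂ ∈ comm (repC ρ)`, so
`0 = trace (X * (Y j).baseChange ℂ) = ∑ i, x i * algebraMap (g i j)` (`LinearMap.trace_baseChange`).  As
`det (algebraMap g) = algebraMap (det g) ≠ 0`: `x = 0`. -/
theorem nd_C {k : Type} [Field k] [CharZero k] [Algebra k ℂ] {V : Type} [AddCommGroup V] [Module k V]
    [FiniteDimensional k V] {G : Type} [Group G] (ρ : Representation k G V)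
    (hss : ∀ U : Submodule k V, (∀ s, ∀ u ∈ U, ρ s u ∈ U) → ∃ U' : Submodule k V, (∀ s, ∀ u ∈ U', ρ s u ∈ U') ∧
      IsCompl U U') (X : End ℂ (ℂ ⊗[k] V)) (hX : X ∈ comm (repC ρ))
    (h0 : ∀ Y ∈ comm (repC ρ), LinearMap.trace ℂ (ℂ ⊗[k] V) (X * Y) = 0) : X = 0 := by
  classical
  let D0 : Submodule k (End k V) :=
    { carrier := {Y | ∀ s, ρ s * Y = Y * ρ s}
      add_mem' := fun {X Y} hX hY s => by rw [mul_add, add_mul, hX s, hY s]
      zero_mem' := fun s => by rw [mul_zero, zero_mul]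
      smul_mem' := fun c X hX s => by rw [mul_smul_comm, smul_mul_assoc, hX s] }
  have hD0 : ∀ Y, Y ∈ D0 ↔ ∀ s, ρ s * Y = Y * ρ s := fun Y => Iff.rfl
  let b := Module.finBasis k D0
  let Y : Fin (Module.finrank k D0) → End k V := fun i => (b i : End k V)
  have hYm : ∀ i, Y i ∈ D0 := fun i => (b i).2
  have hspan : ∀ (Z : End k V) (hZ : Z ∈ D0), Z = ∑ i, b.repr ⟨Z, hZ⟩ i • Y i := by
    intro Z hZ
    have h := congrArg (fun z : D0 => (z : End k V)) (b.sum_repr ⟨Z, hZ⟩)
    simp only [Submodule.coe_sum, Submodule.coe_smul] at h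
    exact h.symm
  -- the Gram matrix
  let g : Matrix (Fin (Module.finrank k D0)) (Fin (Module.finrank k D0)) k :=
    Matrix.of fun i j => LinearMap.trace k V (Y i * Y j)
  have hg : ∀ i j, g i j = LinearMap.trace k V (Y i * Y j) := fun i j => rfl
  have hdet : g.det ≠ 0 := by
    intro hd
    obtain ⟨v, hv, hv0⟩ := Matrix.exists_vecMul_eq_zero_iff.2 hd
    let z : D0 := ∑ i, v i • b i
    have hz : (z : End k V) = ∑ i, v i • Y i := by
      simp only [z, Submodule.coe_sum, Submodule.coe_smul, Y]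
    have hz0 : (z : End k V) = 0 := by
      refine trace_nd (Set.range fun s => ρ s) ?_ (z : End k V) ?_ ?_
      · intro U hU
        obtain ⟨U', hU', hc⟩ := hss U fun s u hu => hU (ρ s) ⟨s, rfl⟩ u hu
        refine ⟨U', ?_, hc⟩
        rintro _ ⟨s, rfl⟩ u hu
        exact hU' s u hu
      · rintro _ ⟨s, rfl⟩
        exact z.2 s
      · intro W hW
        have hWm : W ∈ D0 := fun s => hW (ρ s) ⟨s, rfl⟩
        rw [hspan W hWm, Finset.mul_sum, map_sum]
        refine Finset.sum_eq_zero fun j _ => ?_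
        rw [mul_smul_comm, map_smul, hz, Finset.sum_mul, map_sum]
        have h1 : ∑ i, LinearMap.trace k V (v i • Y i * Y j) = Matrix.vecMul v g j := by
          rw [Matrix.vecMul, dotProduct]
          refine Finset.sum_congr rfl fun i _ => ?_
          rw [smul_mul_assoc, map_smul, smul_eq_mul, hg]
        rw [h1, hv0, Pi.zero_apply, smul_zero]
    have hz1 : z = 0 := Subtype.ext hz0
    apply hv
    funext i
    have h2 := Fintype.linearIndependent_iff.1 b.linearIndependent v hz1 i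
    rw [h2, Pi.zero_apply]
  -- expansion of `X`
  obtain ⟨r, c, X', hX', hXe⟩ := expand_comm (Set.range fun s => ρ s) X (by
    rintro _ ⟨s, rfl⟩
    exact hX s)
  have hmem : X ∈ Submodule.span ℂ (Set.range fun i => (Y i).baseChange ℂ) := by
    rw [hXe]
    refine Submodule.sum_mem _ fun j _ => Submodule.smul_mem _ _ ?_
    have hj : X' j ∈ D0 := fun s => hX' j (ρ s) ⟨s, rfl⟩
    rw [hspan (X' j) hj]
    have h3 : (∑ i, b.repr ⟨X' j, hj⟩ i • Y i).baseChange ℂ =
        ∑ i, algebraMap k ℂ (b.repr ⟨X' j, hj⟩ i) • (Y i).baseChange ℂ := by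
      have h4 := map_sum (Module.End.baseChangeHom k ℂ V) (fun i => b.repr ⟨X' j, hj⟩ i • Y i) Finset.univ
      rw [show (∑ i, b.repr ⟨X' j, hj⟩ i • Y i).baseChange ℂ =
        Module.End.baseChangeHom k ℂ V (∑ i, b.repr ⟨X' j, hj⟩ i • Y i) from rfl, h4]
      refine Finset.sum_congr rfl fun i _ => ?_
      rw [map_smul, algebraMap_smul]
      rfl
    rw [h3]
    exact Submodule.sum_mem _ fun i _ => Submodule.smul_mem _ _ (Submodule.subset_span ⟨i, rfl⟩)
  obtain ⟨x, hx⟩ := (Submodule.mem_span_range_iff_exists_fun ℂ).1 hmem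
  have hvec : Matrix.vecMul x (g.map (algebraMap k ℂ)) = 0 := by
    funext j
    have hYj : (Y j).baseChange ℂ ∈ comm (repC ρ) := by
      intro s
      have h5 := congrArg (Module.End.baseChangeHom k ℂ V) (hYm j s)
      rw [map_mul, map_mul] at h5
      exact h5
    have h6 := h0 _ hYj
    rw [← hx, Finset.sum_mul, map_sum] at h6
    rw [Pi.zero_apply, ← h6, Matrix.vecMul, dotProduct]
    refine Finset.sum_congr rfl fun i _ => ?_
    have h9 : (Y i * Y j).baseChange ℂ = (Y i).baseChange ℂ * (Y j).baseChange ℂ :=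
      map_mul (Module.End.baseChangeHom k ℂ V) (Y i) (Y j)
    rw [Matrix.map_apply, hg, smul_mul_assoc, map_smul, smul_eq_mul, ← LinearMap.trace_baseChange, h9]
  have hx0 : x = 0 := by
    by_contra hne
    have h7 : (g.map (algebraMap k ℂ)).det = 0 := Matrix.exists_vecMul_eq_zero_iff.1 ⟨x, hne, hvec⟩
    have h8 : (g.map (algebraMap k ℂ)).det = algebraMap k ℂ g.det := by
      rw [RingHom.map_det]
      rfl
    rw [h8] at h7
    exact hdet ((map_eq_zero _).1 h7)
  rw [← hx, hx0]
  refine Finset.sum_eq_zero fun i _ => ?_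
  rw [Pi.zero_apply, zero_smul]

end TUT
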