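import Pool.Agent.Lib.MP_021685_agUT.UD

/-! The centre of the span of the algebra. -/

set_option autoImplicit false

namespace TUT

open Module TensorProduct

variable {r : ℕ} {E : Fin r → Type} [∀ i, Field (E i)]

private theorem R1_smul {k : Type} [Field k] [CharZero k] {V : Type} [AddCommGroup V] [Module k V]
    {D : Type} [Ring D] [Algebra ℚ D] (b : D →+* End k V) (q : ℚ) (d : D) : b (q • d) = (q : k) • b d := by
  have h := map_ratCast_smul b ℚ k q d
  rwa [Rat.cast_id] at h

private theorem R1_inj {k : Type} [Field k] [CharZero k] {V : Type} [AddCommGroup V] [Module k V]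
    {D : Type} [Ring D] [Algebra ℚ D] (b : D →+* End k V)
    (hinj : ∀ (m : ℕ) (d : Fin m → D), LinearIndependent ℚ d → LinearIndependent k fun j => b (d j))
    {κ : Type} [Fintype κ] (y : κ → k) (hy : LinearIndependent ℚ y) (w : κ → D)
    (h : ∑ m, y m • b (w m) = 0) (m : κ) : w m = 0 := by
  let W : Submodule ℚ D := Submodule.span ℚ (Set.range w)
  have : FiniteDimensional ℚ W := FiniteDimensional.span_of_finite ℚ (Set.finite_range w)
  let u := Module.finBasis ℚ W
  have hw : ∀ m, w m ∈ W := fun m => Submodule.subset_span ⟨m, rfl⟩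
  have hu : LinearIndependent ℚ fun i => (u i : D) := u.linearIndependent.map' W.subtype (Submodule.ker_subtype W)
  have hs : ∀ m, w m = ∑ i, u.repr ⟨w m, hw m⟩ i • (u i : D) := fun m => by
    have h1 := congrArg Subtype.val (u.sum_repr ⟨w m, hw m⟩)
    rw [AddSubmonoidClass.coe_finsetSum] at h1
    exact h1.symm
  have h2 : ∑ i, (∑ m, y m * ((u.repr ⟨w m, hw m⟩ i : ℚ) : k)) • b (u i : D) = 0 := by
    rw [← h]
    have h3 : ∀ m, y m • b (w m) = ∑ i, (y m * ((u.repr ⟨w m, hw m⟩ i : ℚ) : k)) • b (u i : D) := fun m => by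
      conv_lhs => rw [hs m]
      rw [map_sum, Finset.smul_sum]
      exact Finset.sum_congr rfl fun i _ => by rw [R1_smul, smul_smul]
    rw [Finset.sum_congr rfl fun m _ => h3 m, Finset.sum_comm]
    exact Finset.sum_congr rfl fun i _ => Finset.sum_smul
  have h4 := Fintype.linearIndependent_iff.1 (hinj _ _ hu) _ h2
  have h5 : ∀ i, u.repr ⟨w m, hw m⟩ i = 0 := fun i => by
    have h6 : ∑ m, u.repr ⟨w m, hw m⟩ i • y m = 0 := by
      rw [← h4 i]
      exact Finset.sum_congr rfl fun m _ => by rw [Rat.smul_def, mul_comm]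
    exact Fintype.linearIndependent_iff.1 hy _ h6 m
  rw [hs m]
  exact Finset.sum_eq_zero fun i _ => by rw [h5 i, zero_smul]

/-- PROOF.  `X = ∑ j, x j • b (d j)`.  Let `y` be a `ℚ`-basis of the `ℚ`-span of the `x j` in `k`, `x j = ∑ m, q j m • y m`; so
`X = ∑ m, y m • b (D m)` with `D m = ∑ j, q j m • d j` (`b` is `ℚ`-linear, as every ring homomorphism of `ℚ`-algebras).  For all
`z`: `0 = X * b z - b z * X = ∑ m, y m • b (D m * z - z * D m)`.
Claim: if `∑ m, y m • b (w m) = 0` with `y m` linearly independent over `ℚ`, then all `w m = 0` (let `u` be a `ℚ`-basis of the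
span of the `w m`, `w m = ∑ i, r m i • u i`; `0 = ∑ i, (∑ m, r m i • y m) • b (u i)`, so by `hinj` `∑ m, r m i • y m = 0`, so
`r m i = 0`).  So `D m` commutes with all `z`, so `D m ∈ range c` (`hc.centre`). -/
theorem centre_k {k : Type} [Field k] [CharZero k] {V : Type} [AddCommGroup V] [Module k V]
    {D : Type} [Ring D] [Algebra ℚ D] (b : D →+* End k V)
    (hinj : ∀ (m : ℕ) (d : Fin m → D), LinearIndependent ℚ d → LinearIndependent k fun j => b (d j))
    {c : (∀ i, E i) →+* D} {N : Fin r → ℕ} (hc : IsCentre c N) (X : End k V)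
    (hX : X ∈ Submodule.span k (Set.range b)) (hXb : ∀ z, X * b z = b z * X) :
    X ∈ Submodule.span k (Set.range (b.comp c)) := by
  obtain ⟨n, x, g, hg⟩ := Submodule.mem_span_set'.1 hX
  have hd : ∀ j, ∃ d, b d = (g j : End k V) := fun j => (g j).2
  choose d hd using hd
  let W : Submodule ℚ k := Submodule.span ℚ (Set.range x)
  have : FiniteDimensional ℚ W := FiniteDimensional.span_of_finite ℚ (Set.finite_range x)
  let u := Module.finBasis ℚ W
  have hw : ∀ j, x j ∈ W := fun j => Submodule.subset_span ⟨j, rfl⟩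
  have hu : LinearIndependent ℚ fun i => (u i : k) := u.linearIndependent.map' W.subtype (Submodule.ker_subtype W)
  have hs : ∀ j, x j = ∑ i, u.repr ⟨x j, hw j⟩ i • (u i : k) := fun j => by
    have h1 := congrArg Subtype.val (u.sum_repr ⟨x j, hw j⟩)
    rw [AddSubmonoidClass.coe_finsetSum] at h1
    exact h1.symm
  have hXs : X = ∑ i, (u i : k) • b (∑ j, u.repr ⟨x j, hw j⟩ i • d j) := by
    rw [← hg]
    have h3 : ∀ j, x j • (g j : End k V) = ∑ i, (u i : k) • (((u.repr ⟨x j, hw j⟩ i : ℚ) : k) • b (d j)) :=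
      fun j => by
        conv_lhs => rw [hs j]
        rw [Finset.sum_smul]
        exact Finset.sum_congr rfl fun i _ => by rw [Rat.smul_def, smul_smul, mul_comm, hd j]
    rw [Finset.sum_congr rfl fun j _ => h3 j, Finset.sum_comm]
    refine Finset.sum_congr rfl fun i _ => ?_
    rw [map_sum, Finset.smul_sum]
    exact Finset.sum_congr rfl fun j _ => by rw [R1_smul]
  have hcen : ∀ i, (∑ j, u.repr ⟨x j, hw j⟩ i • d j) ∈ Set.range c := fun i => by
    refine (hc.centre _).1 fun z => sub_eq_zero.1 ?_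
    refine R1_inj b hinj (fun i => (u i : k)) hu
      (fun i => (∑ j, u.repr ⟨x j, hw j⟩ i • d j) * z - z * ∑ j, u.repr ⟨x j, hw j⟩ i • d j) ?_ i
    have h1 := sub_eq_zero.2 (hXb z)
    rw [hXs, Finset.sum_mul, Finset.mul_sum, ← Finset.sum_sub_distrib] at h1
    rw [← h1]
    exact Finset.sum_congr rfl fun i _ => by
      rw [map_sub, map_mul, map_mul, smul_mul_assoc, mul_smul_comm, smul_sub]
  rw [hXs]
  refine Submodule.sum_mem _ fun i _ => Submodule.smul_mem _ _ (Submodule.subset_span ?_)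
  obtain ⟨y, hy⟩ := hcen i
  exact ⟨y, by rw [RingHom.comp_apply, hy]⟩

end TUT
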