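import Pool.Agent.Lib.MP_021685_agUT.UD

/-! The dimension of the blocks. -/

set_option autoImplicit false

namespace TUT

open Module TensorProduct

variable {r : ℕ} {E : Fin r → Type} [∀ i, Field (E i)] [∀ i, NumberField (E i)]

/-- Linear independence is preserved by the extension of scalars. -/
private theorem R2_bc {k : Type} [Field k] [Algebra k ℂ] {V : Type} [AddCommGroup V] [Module k V] {ι : Type} [Fintype ι]
    (φ : ι → End k V) (h : LinearIndependent k φ) : LinearIndependent ℂ fun l => (φ l).baseChange ℂ := by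
  rw [Fintype.linearIndependent_iff] at h ⊢
  intro g hg l
  rw [← Module.forall_dual_apply_eq_zero_iff k (g l)]
  intro L
  refine h (fun l => L (g l)) ?_ l
  ext v
  have h1 := congrArg (fun Z : End ℂ (ℂ ⊗[k] V) => TensorProduct.lid k V (LinearMap.rTensor V L (Z (1 ⊗ₜ[k] v)))) hg
  simpa [LinearMap.sum_apply, TensorProduct.smul_tmul'] using h1

private theorem R2_emb (F : Type) [Field F] : LinearIndependent ℂ (fun (g : F →+* ℂ) (x : F) => g x) := by
  have h := linearIndependent_monoidHom F ℂ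
  refine h.comp (fun g : F →+* ℂ => (g : F →* ℂ)) ?_
  intro g g' h'
  ext x
  exact DFunLike.congr_fun h' x

open Classical in
/-- The dual basis. -/
private theorem R2_dual {F : Type} [Field F] [NumberField F] {n : ℕ} (x : Basis (Fin n) ℚ F) (G₀ : F →+* ℂ) :
    ∃ t : Fin n → ℂ, ∀ G : F →+* ℂ, ∑ m, t m * G (x m) = if G = G₀ then 1 else 0 := by
  obtain ⟨w, hw⟩ : ∃ w : Fin n → ((F →+* ℂ) → ℂ), ∀ m, w m = fun G => G (x m) := ⟨_, fun _ => rfl⟩
  have htop : Submodule.span ℂ (Set.range w) = ⊤ := by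
    by_contra hne
    obtain ⟨L, hL0, hL⟩ := Submodule.exists_le_ker_of_lt_top _ (lt_top_iff_ne_top.2 hne)
    apply hL0
    have h1 : ∀ v : (F →+* ℂ) → ℂ, L v = ∑ G, v G • L (fun G' => if G = G' then 1 else 0) := fun v =>
      LinearMap.pi_apply_eq_sum_univ L v
    have h2 : ∀ m, ∑ G : F →+* ℂ, G (x m) * L (fun G' => if G = G' then 1 else 0) = 0 := by
      intro m
      have h3 : L (w m) = 0 := hL (Submodule.subset_span (Set.mem_range_self m))
      rw [h1, hw] at h3
      exact h3
    have h4 : ∀ y : F, ∑ G : F →+* ℂ, G y * L (fun G' => if G = G' then 1 else 0) = 0 := by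
      intro y
      have h5 : ∀ G : F →+* ℂ, G y = ∑ m, ((x.repr y m : ℚ) : ℂ) * G (x m) := by
        intro G
        conv_lhs => rw [← x.sum_repr y]
        rw [map_sum]
        refine Finset.sum_congr rfl fun m _ => ?_
        rw [map_rat_smul G, Rat.smul_def]
      have h6 : ∀ G : F →+* ℂ, G y * L (fun G' => if G = G' then 1 else 0) =
          ∑ m, ((x.repr y m : ℚ) : ℂ) * (G (x m) * L (fun G' => if G = G' then 1 else 0)) := by
        intro G
        rw [h5, Finset.sum_mul]
        exact Finset.sum_congr rfl fun m _ => mul_assoc _ _ _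
      rw [Finset.sum_congr rfl fun G _ => h6 G, Finset.sum_comm]
      refine Finset.sum_eq_zero fun m _ => ?_
      rw [← Finset.mul_sum, h2, mul_zero]
    have h7 := Fintype.linearIndependent_iff.1 (R2_emb F) (fun G => L (fun G' => if G = G' then 1 else 0)) (by
      funext y
      rw [Finset.sum_apply]
      refine (Finset.sum_congr rfl fun G _ => ?_).trans (h4 y)
      rw [Pi.smul_apply, smul_eq_mul, mul_comm])
    refine LinearMap.ext fun v => ?_
    rw [h1 v, LinearMap.zero_apply]
    refine Finset.sum_eq_zero fun G _ => ?_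
    rw [h7 G, smul_zero]
  have hmem : (fun G : F →+* ℂ => if G = G₀ then (1 : ℂ) else 0) ∈ Submodule.span ℂ (Set.range w) := by
    rw [htop]
    exact Submodule.mem_top
  obtain ⟨t, ht⟩ := (Submodule.mem_span_range_iff_exists_fun ℂ).1 hmem
  refine ⟨t, fun G => ?_⟩
  have h8 := congrFun ht G
  rw [Finset.sum_apply] at h8
  rw [← h8]
  refine Finset.sum_congr rfl fun m _ => ?_
  rw [Pi.smul_apply, hw, smul_eq_mul]

/-- The idempotent `p f` in terms of a basis of the field. -/
private theorem R2_pfb {k : Type} [Field k] [Algebra k ℂ] {V : Type} [AddCommGroup V] [Module k V]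
    {D : Type} [Ring D] (b : D →+* End k V) (c : (∀ i, E i) →+* D)
    (p : (Σ i, E i →+* ℂ) → End ℂ (ℂ ⊗[k] V))
    (hp2 : ∀ x, (b (c x)).baseChange ℂ = ∑ f : Σ i, E i →+* ℂ, f.2 (x f.1) • p f) (i : Fin r) (F : E i →+* ℂ)
    {n : ℕ} (x : Basis (Fin n) ℚ (E i)) :
    ∃ t : Fin n → ℂ, t ≠ 0 ∧ p ⟨i, F⟩ = ∑ m, t m • (b (c (Pi.single i (x m)))).baseChange ℂ := by
  classical
  obtain ⟨t, ht⟩ := R2_dual x F
  refine ⟨t, ?_, ?_⟩
  · intro h0
    have h1 := ht F
    rw [if_pos rfl, h0] at h1
    simp at h1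
  · have h1 : ∀ g : Σ i, E i →+* ℂ, (∑ m, t m * g.2 ((Pi.single i (x m) : ∀ i, E i) g.1)) =
        if g = ⟨i, F⟩ then 1 else 0 := by
      rintro ⟨j, G⟩
      by_cases hj : j = i
      · subst hj
        have h2 : (∑ m, t m * G ((Pi.single j (x m) : ∀ i, E i) j)) = if G = F then 1 else 0 := by
          rw [← ht G]
          exact Finset.sum_congr rfl fun m _ => by rw [Pi.single_eq_same]
        rw [h2]
        by_cases hG : G = F
        · rw [if_pos hG, if_pos (by rw [hG])]
        · have hne : (⟨j, G⟩ : Σ i, E i →+* ℂ) ≠ ⟨j, F⟩ := fun h => hG (eq_of_heq (Sigma.mk.inj h).2)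
          rw [if_neg hG, if_neg hne]
      · rw [if_neg (fun h => hj (Sigma.mk.inj h).1)]
        refine Finset.sum_eq_zero fun m _ => ?_
        rw [Pi.single_eq_of_ne hj, map_zero, mul_zero]
    have h3 : ∑ m, t m • (b (c (Pi.single i (x m)))).baseChange ℂ =
        ∑ g : Σ i, E i →+* ℂ, (∑ m, t m * g.2 ((Pi.single i (x m) : ∀ i, E i) g.1)) • p g := by
      have h4 : ∀ m, t m • (b (c (Pi.single i (x m)))).baseChange ℂ =
          ∑ g : Σ i, E i →+* ℂ, (t m * g.2 ((Pi.single i (x m) : ∀ i, E i) g.1)) • p g := by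
        intro m
        rw [hp2, Finset.smul_sum]
        exact Finset.sum_congr rfl fun g _ => smul_smul _ _ _
      rw [Finset.sum_congr rfl fun m _ => h4 m, Finset.sum_comm]
      exact Finset.sum_congr rfl fun g _ => (Finset.sum_smul).symm
    rw [h3]
    have h5 : ∀ g : Σ i, E i →+* ℂ, (∑ m, t m * g.2 ((Pi.single i (x m) : ∀ i, E i) g.1)) • p g =
        if g = ⟨i, F⟩ then p g else 0 := by
      intro g
      rw [h1 g]
      by_cases hg : g = ⟨i, F⟩
      · rw [if_pos hg, if_pos hg, one_smul]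
      · rw [if_neg hg, if_neg hg, zero_smul]
    rw [Finset.sum_congr rfl fun g _ => h5 g, Finset.sum_ite_eq' Finset.univ (⟨i, F⟩ : Σ i, E i →+* ℂ) p,
      if_pos (Finset.mem_univ _)]

/-- The idempotent `p f` is a combination of the actions of the centre. -/
private theorem R2_pf {k : Type} [Field k] [Algebra k ℂ] {V : Type} [AddCommGroup V] [Module k V]
    {D : Type} [Ring D] (b : D →+* End k V) (c : (∀ i, E i) →+* D)
    (p : (Σ i, E i →+* ℂ) → End ℂ (ℂ ⊗[k] V))
    (hp2 : ∀ x, (b (c x)).baseChange ℂ = ∑ f : Σ i, E i →+* ℂ, f.2 (x f.1) • p f) (f : Σ i, E i →+* ℂ) :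
    ∃ (m : ℕ) (x : Fin m → E f.1) (t : Fin m → ℂ),
      p f = ∑ i, t i • (b (c (Pi.single f.1 (x i)))).baseChange ℂ := by
  obtain ⟨i, F⟩ := f
  obtain ⟨t, _, ht⟩ := R2_pfb b c p hp2 i F (Module.finBasis ℚ (E i))
  exact ⟨_, _, t, ht⟩

/-- The independence of the products. -/
private theorem R2_li {k : Type} [Field k] [Algebra k ℂ] {V : Type} [AddCommGroup V] [Module k V]
    {D : Type} [Ring D] [Algebra ℚ D] (b : D →+* End k V)
    (hinj : ∀ (m : ℕ) (d : Fin m → D), LinearIndependent ℚ d → LinearIndependent k fun j => b (d j))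
    (c : (∀ i, E i) →+* D) (p : (Σ i, E i →+* ℂ) → End ℂ (ℂ ⊗[k] V))
    (hp2 : ∀ x, (b (c x)).baseChange ℂ = ∑ f : Σ i, E i →+* ℂ, f.2 (x f.1) • p f)
    (f : Σ i, E i →+* ℂ) {n : ℕ} (d : Fin n → D) (hd : ∀ z, ∃! y : Fin n → E f.1,
      c (Pi.single f.1 1) * z = ∑ j, c (Pi.single f.1 (y j)) * d j) :
    LinearIndependent ℂ fun j => p f * (b (d j)).baseChange ℂ := by
  classical
  obtain ⟨i, F⟩ := f
  obtain ⟨N, x⟩ : ∃ N, Nonempty (Basis (Fin N) ℚ (E i)) := ⟨_, ⟨Module.finBasis ℚ (E i)⟩⟩
  obtain ⟨x⟩ := x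
  obtain ⟨t, ht0, ht⟩ := R2_pfb b c p hp2 i F x
  -- the products are independent over the rational numbers
  have h0 : LinearIndependent ℚ fun l : Fin n × Fin N => c (Pi.single i (x l.2)) * d l.1 := by
    rw [Fintype.linearIndependent_iff]
    intro q hq
    have h1 : ∀ j, ∑ m, q (j, m) • (c (Pi.single i (x m)) * d j) =
        c (Pi.single i (∑ m, q (j, m) • x m)) * d j := by
      intro j
      have h2 : (Pi.single i (∑ m, q (j, m) • x m) : ∀ i, E i) = ∑ m, q (j, m) • (Pi.single i (x m) : ∀ i, E i) := by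
        have h3 := map_sum (LinearMap.single ℚ E i) (fun m => q (j, m) • x m) Finset.univ
        simp only [map_smul] at h3
        exact h3
      rw [h2, map_sum, Finset.sum_mul]
      refine Finset.sum_congr rfl fun m _ => ?_
      rw [map_rat_smul c, smul_mul_assoc]
    rw [Fintype.sum_prod_type, Finset.sum_congr rfl fun j _ => h1 j] at hq
    obtain ⟨y, _, hy⟩ := hd 0
    have h4 : (fun j => ∑ m, q (j, m) • x m) = y := by
      refine hy _ ?_
      rw [mul_zero]
      exact hq.symm
    have h5 : (fun _ => (0 : E i)) = y := by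
      refine hy _ ?_
      simp
    rintro ⟨j, m⟩
    have h6 : ∑ m, q (j, m) • x m = 0 := by
      rw [← h5] at h4
      exact congrFun h4 j
    exact Fintype.linearIndependent_iff.1 x.linearIndependent (fun m => q (j, m)) h6 m
  have h1 : LinearIndependent k fun l : Fin n × Fin N => b (c (Pi.single i (x l.2)) * d l.1) := by
    have h2 := hinj (n * N) (fun l => c (Pi.single i (x (finProdFinEquiv.symm l).2)) * d (finProdFinEquiv.symm l).1)
      (h0.comp _ finProdFinEquiv.symm.injective)
    have h3 := h2.comp _ (finProdFinEquiv (m := n) (n := N)).injective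
    have h4 : (fun l : Fin (n * N) => b (c (Pi.single i (x (finProdFinEquiv.symm l).2)) * d (finProdFinEquiv.symm l).1)) ∘
        finProdFinEquiv = fun l : Fin n × Fin N => b (c (Pi.single i (x l.2)) * d l.1) := by
      funext l
      simp only [Function.comp_apply, Equiv.symm_apply_apply]
    rwa [h4] at h3
  have h2 := Fintype.linearIndependent_iff.1 (R2_bc _ h1)
  rw [Fintype.linearIndependent_iff]
  intro s hs j
  obtain ⟨m, hm⟩ : ∃ m, t m ≠ 0 := by
    by_contra hcon
    push Not at hcon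
    exact ht0 (funext hcon)
  have h3 : s j * t m = 0 := by
    refine h2 (fun l => s l.1 * t l.2) ?_ (j, m)
    rw [Fintype.sum_prod_type, ← hs]
    refine Finset.sum_congr rfl fun j _ => ?_
    rw [ht, Finset.sum_mul, Finset.smul_sum]
    refine Finset.sum_congr rfl fun m _ => ?_
    show (s j * t m) • (b (c (Pi.single i (x m)) * d j)).baseChange ℂ =
      s j • (t m • (b (c (Pi.single i (x m)))).baseChange ℂ * (b (d j)).baseChange ℂ)
    rw [map_mul, LinearMap.baseChange_mul, smul_mul_assoc, smul_smul]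
  exact (mul_eq_zero.1 h3).resolve_right hm

private theorem R2_mul {k : Type} [Field k] [Algebra k ℂ] {V : Type} [AddCommGroup V] [Module k V] (x y : End k V) :
    (x * y).baseChange ℂ = x.baseChange ℂ * y.baseChange ℂ :=
  map_mul (Module.End.baseChangeHom k ℂ V) x y

/-- Part (3): the block `f` of the span is spanned by the `p f * b (d j)`. -/
private theorem R2_span {k : Type} [Field k] [Algebra k ℂ] {V : Type} [AddCommGroup V] [Module k V]
    {D : Type} [Ring D] (b : D →+* End k V)
    {c : (∀ i, E i) →+* D} (hcen : ∀ x z, c x * z = z * c x)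
    (p : (Σ i, E i →+* ℂ) → End ℂ (ℂ ⊗[k] V)) (hp0 : ∀ f, p f * p f = p f) (hp1 : ∀ f g, f ≠ g → p f * p g = 0)
    (hp2 : ∀ x, (b (c x)).baseChange ℂ = ∑ f : Σ i, E i →+* ℂ, f.2 (x f.1) • p f)
    (hp3 : ∀ f, p f ∈ Submodule.span ℂ {Y : End ℂ (ℂ ⊗[k] V) | ∃ x, Y = (b (c x)).baseChange ℂ})
    (f : Σ i, E i →+* ℂ) {n : ℕ} (d : Fin n → D)
    (hd : ∀ z, ∃ y : Fin n → E f.1, c (Pi.single f.1 1) * z = ∑ j, c (Pi.single f.1 (y j)) * d j)
    (Y : End ℂ (ℂ ⊗[k] V)) :
    Y ∈ Submodule.span ℂ (Set.range fun j => p f * (b (d j)).baseChange ℂ) ↔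
      Y ∈ Submodule.span ℂ {Z : End ℂ (ℂ ⊗[k] V) | ∃ z, Z = (b z).baseChange ℂ} ∧ Y * p f = Y := by
  classical
  -- `p f` commutes with the `b w`
  have hcomm : ∀ w : D, p f * (b w).baseChange ℂ = (b w).baseChange ℂ * p f := by
    intro w
    have h : ∀ Z ∈ Submodule.span ℂ {Y : End ℂ (ℂ ⊗[k] V) | ∃ x, Y = (b (c x)).baseChange ℂ},
        Z * (b w).baseChange ℂ = (b w).baseChange ℂ * Z := by
      intro Z hZ
      induction hZ using Submodule.span_induction with
      | mem x hx =>
        obtain ⟨y, rfl⟩ := hx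
        rw [← R2_mul, ← R2_mul, ← map_mul, ← map_mul, hcen]
      | zero => rw [zero_mul, mul_zero]
      | add x y _ _ hx hy => rw [add_mul, mul_add, hx, hy]
      | smul a x _ hx => rw [smul_mul_assoc, mul_smul_comm, hx]
    exact h _ (hp3 f)
  have hcx : ∀ x, p f * (b (c x)).baseChange ℂ = f.2 (x f.1) • p f := by
    intro x
    rw [hp2, Finset.mul_sum, Finset.sum_eq_single f]
    · rw [mul_smul_comm, hp0]
    · intro g _ hg
      rw [mul_smul_comm, hp1 f g (Ne.symm hg), smul_zero]
    · intro hf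
      exact absurd (Finset.mem_univ f) hf
  have hone : p f * (b (c (Pi.single f.1 1))).baseChange ℂ = p f := by
    rw [hcx, Pi.single_eq_same, map_one, one_smul]
  have hmem : ∀ w : D, p f * (b w).baseChange ℂ ∈
      Submodule.span ℂ (Set.range fun j => p f * (b (d j)).baseChange ℂ) := by
    intro w
    obtain ⟨y, hy⟩ := hd w
    have h1 : p f * (b w).baseChange ℂ = ∑ j, f.2 (y j) • (p f * (b (d j)).baseChange ℂ) := by
      have h2 : (b (∑ j, c (Pi.single f.1 (y j)) * d j)).baseChange ℂ =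
          ∑ j, (b (c (Pi.single f.1 (y j)))).baseChange ℂ * (b (d j)).baseChange ℂ := by
        have h3 := map_sum (Module.End.baseChangeHom k ℂ V)
          (fun j => b (c (Pi.single f.1 (y j)) * d j)) Finset.univ
        rw [map_sum b]
        refine h3.trans (Finset.sum_congr rfl fun j _ => ?_)
        rw [map_mul b]
        exact R2_mul _ _
      calc p f * (b w).baseChange ℂ = p f * (b (c (Pi.single f.1 1))).baseChange ℂ * (b w).baseChange ℂ := by rw [hone]
        _ = p f * (b (c (Pi.single f.1 1) * w)).baseChange ℂ := by rw [mul_assoc, ← R2_mul, ← map_mul]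
        _ = p f * ∑ j, (b (c (Pi.single f.1 (y j)))).baseChange ℂ * (b (d j)).baseChange ℂ := by rw [hy, h2]
        _ = ∑ j, f.2 (y j) • (p f * (b (d j)).baseChange ℂ) := by
          rw [Finset.mul_sum]
          refine Finset.sum_congr rfl fun j _ => ?_
          rw [← mul_assoc, hcx, Pi.single_eq_same, smul_mul_assoc]
    rw [h1]
    exact Submodule.sum_mem _ fun j _ => Submodule.smul_mem _ _ (Submodule.subset_span ⟨j, rfl⟩)
  constructor
  · intro hY
    induction hY using Submodule.span_induction with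
    | mem x hx =>
      obtain ⟨j, rfl⟩ := hx
      refine ⟨?_, ?_⟩
      · have h4 : ∀ Z ∈ Submodule.span ℂ {Y : End ℂ (ℂ ⊗[k] V) | ∃ x, Y = (b (c x)).baseChange ℂ},
            Z * (b (d j)).baseChange ℂ ∈ Submodule.span ℂ {Z : End ℂ (ℂ ⊗[k] V) | ∃ z, Z = (b z).baseChange ℂ} := by
          intro Z hZ
          induction hZ using Submodule.span_induction with
          | mem x hx =>
            obtain ⟨y, rfl⟩ := hx
            rw [← R2_mul, ← map_mul]
            exact Submodule.subset_span ⟨_, rfl⟩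
          | zero =>
            rw [zero_mul]
            exact Submodule.zero_mem _
          | add x y _ _ hx hy =>
            rw [add_mul]
            exact Submodule.add_mem _ hx hy
          | smul a x _ hx =>
            rw [smul_mul_assoc]
            exact Submodule.smul_mem _ _ hx
        exact h4 _ (hp3 f)
      · show p f * (b (d j)).baseChange ℂ * p f = p f * (b (d j)).baseChange ℂ
        rw [mul_assoc, ← hcomm, ← mul_assoc, hp0]
    | zero => exact ⟨Submodule.zero_mem _, zero_mul _⟩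
    | add x y _ _ hx hy => exact ⟨Submodule.add_mem _ hx.1 hy.1, by rw [add_mul, hx.2, hy.2]⟩
    | smul a x _ hx => exact ⟨Submodule.smul_mem _ _ hx.1, by rw [smul_mul_assoc, hx.2]⟩
  · rintro ⟨hY, hYp⟩
    rw [← hYp]
    clear hYp
    induction hY using Submodule.span_induction with
    | mem x hx =>
      obtain ⟨z, rfl⟩ := hx
      rw [← hcomm]
      exact hmem z
    | zero =>
      rw [zero_mul]
      exact Submodule.zero_mem _
    | add x y _ _ hx hy =>
      rw [add_mul]
      exact Submodule.add_mem _ hx hy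
    | smul a x _ hx =>
      rw [smul_mul_assoc]
      exact Submodule.smul_mem _ _ hx

/-- PROOF.  Let `i = f.1`, `x` a `ℚ`-basis of `E i`, `d` from `hc.deg i`.
(0) `z j m := c (Pi.single i (x m)) * d j` are linearly independent over `ℚ` in `D`: a relation is
`∑ j, c (Pi.single i (y j)) * d j = 0` with `y j = ∑ m, q j m • x m`; by the uniqueness in `hc.deg i` (for `z = 0`) `y j = 0`.
So by `hinj` the `b (z j m)` are linearly independent over `k` in `End k V`, and the `(b (z j m)).baseChange ℂ` over `ℂ` (as in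
`MP_021685_agUT/I3.lean`, `Q2.lean`: `V` is finite-dimensional, `End ℂ (ℂ ⊗ V) = ℂ ⊗ End k V`).
(1) Write `F = f.2`.  `p f = ∑ m, t m • (b (c (Pi.single i (x m)))).baseChange ℂ` with `t m ∈ ℂ`, not all `0` (`hp3`, `hp2`, `hp1`:
`p f` is in the span of the `(b (c x)).baseChange ℂ`; multiply by `p f * (b (c (Pi.single i 1))).baseChange ℂ = p f`; not all `t m` are
`0`, if `p f ≠ 0`.  Or: let `t` be the dual basis, `∑ m, t m * G (x m) = if G = F then 1 else 0` for all embeddings `G` of `E i`;
then the sum is `∑ g, (∑ m, t m * g.2 (x m)) • p g = p f` by `hp2`.)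
(2) the `p f * (b (d j)).baseChange ℂ` are linearly independent: `∑ j, s j • p f * b (d j) = ∑ j, ∑ m, s j * t m • b (z j m)`, so
`s j * t m = 0` for all `j`, `m`, so `s j = 0`.
(3) They span the set: if `Y ∈ span` of the `(b w).baseChange ℂ` and `Y * p f = Y`: `Y = Y * p f = ∑ s w • b w * p f` and
`b w * p f = p f * b w = p f * b (c (Pi.single i 1) * w) = p f * ∑ j, b (c (Pi.single i (y j))) * b (d j) =
∑ j, F (y j) • p f * b (d j)` (`p f` commutes with the `b w` as it is in the span of the `b (c x)` and `c x` is central by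
`hc.centre`; `p f * b (c x) = F (x i) • p f` by `hp2`, `hp1`, `hp0`).  Conversely `p f * b (d j)` is in the set (`p f` is in the
span of the `b (c x)`). -/
theorem finrank_blk {k : Type} [Field k] [CharZero k] [Algebra k ℂ] {V : Type} [AddCommGroup V] [Module k V]
    [FiniteDimensional k V] {D : Type} [Ring D] [Algebra ℚ D] (b : D →+* End k V)
    (hinj : ∀ (m : ℕ) (d : Fin m → D), LinearIndependent ℚ d → LinearIndependent k fun j => b (d j))
    {c : (∀ i, E i) →+* D} {N : Fin r → ℕ} (hc : IsCentre c N)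
    (p : (Σ i, E i →+* ℂ) → End ℂ (ℂ ⊗[k] V)) (hp0 : ∀ f, p f * p f = p f) (hp1 : ∀ f g, f ≠ g → p f * p g = 0)
    (hp2 : ∀ x, (b (c x)).baseChange ℂ = ∑ f : Σ i, E i →+* ℂ, f.2 (x f.1) • p f)
    (hp3 : ∀ f, p f ∈ Submodule.span ℂ {Y : End ℂ (ℂ ⊗[k] V) | ∃ x, Y = (b (c x)).baseChange ℂ})
    (f : Σ i, E i →+* ℂ) (B : Submodule ℂ (End ℂ (ℂ ⊗[k] V)))
    (hB : ∀ Y, Y ∈ B ↔ Y ∈ Submodule.span ℂ {Z : End ℂ (ℂ ⊗[k] V) | ∃ z, Z = (b z).baseChange ℂ} ∧ Y * p f = Y) :
    finrank ℂ B = N f.1 ^ 2 := by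
  obtain ⟨d, hd⟩ := hc.deg f.1
  have hcen : ∀ x z, c x * z = z * c x := fun x z => ((hc.centre (c x)).2 ⟨x, rfl⟩ z)
  have hBs : B = Submodule.span ℂ (Set.range fun j => p f * (b (d j)).baseChange ℂ) := by
    ext Y
    rw [hB, R2_span b hcen p hp0 hp1 hp2 hp3 f d fun z => (hd z).exists]
  rw [hBs, finrank_span_eq_card (R2_li b hinj c p hp2 f d hd), Fintype.card_fin]

end TUT
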