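import Mathlib

/-! Almost all signatures. -/

set_option autoImplicit false

namespace TUT

open Classical in
private noncomputable def S1_equiv {α W : Type} (c : α → α) (e : W → α) (π : α → W) (he : ∀ w, π (e w) = w)
    (hc : ∀ a, π (c a) = π a) (hcc : ∀ a, c (c a) = a) (hpe : ∀ a, a = e (π a) ∨ a = c (e (π a)))
    (hne : ∀ w, c (e w) ≠ e w) (m : ℕ) :
    {s : α → ℕ // ∀ a, s a + s (c a) = m} ≃ (W → Fin (m + 1)) where
  toFun s w := ⟨s.1 (e w), by have := s.2 (e w); omega⟩
  invFun t := ⟨fun a => if a = e (π a) then (t (π a) : ℕ) else m - (t (π a) : ℕ), by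
    intro a
    have hlt := (t (π a)).2
    show (if a = e (π a) then (t (π a) : ℕ) else m - (t (π a) : ℕ)) +
      (if c a = e (π (c a)) then (t (π (c a)) : ℕ) else m - (t (π (c a)) : ℕ)) = m
    rw [hc]
    by_cases h : a = e (π a)
    · have h2 : c a ≠ e (π a) := by
        intro h3
        apply hne (π a)
        rw [← h]
        exact h3.trans h.symm
      rw [if_pos h, if_neg h2]
      omega
    · have h2 : c a = e (π a) := by
        rcases hpe a with h3 | h3
        · exact absurd h3 h
        · have h4 := congrArg c h3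
          rw [hcc] at h4
          exact h4
      rw [if_neg h, if_pos h2]
      omega⟩
  left_inv s := by
    apply Subtype.ext
    funext a
    show (if a = e (π a) then s.1 (e (π a)) else m - s.1 (e (π a))) = s.1 a
    by_cases h : a = e (π a)
    · rw [if_pos h, ← h]
    · rw [if_neg h]
      rcases hpe a with h3 | h3
      · exact absurd h3 h
      · have h4 := s.2 (e (π a))
        rw [← h3] at h4
        omega
  right_inv t := by
    funext w
    apply Fin.ext
    show (if e w = e (π (e w)) then (t (π (e w)) : ℕ) else m - (t (π (e w)) : ℕ)) = (t w : ℕ)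
    rw [he, if_pos rfl]

private theorem S1_first {α W : Type} [Finite W] (c : α → α) (e : W → α) (π : α → W) (he : ∀ w, π (e w) = w)
    (hc : ∀ a, π (c a) = π a) (hcc : ∀ a, c (c a) = a) (hpe : ∀ a, a = e (π a) ∨ a = c (e (π a)))
    (hne : ∀ w, c (e w) ≠ e w) (m : ℕ) :
    ({s : α → ℕ | ∀ a, s a + s (c a) = m}).ncard = (m + 1) ^ Nat.card W := by
  have h1 : ({s : α → ℕ | ∀ a, s a + s (c a) = m}).ncard = Nat.card {s : α → ℕ // ∀ a, s a + s (c a) = m} := by
    rw [← Nat.card_coe_set_eq]
    rfl
  rw [h1, Nat.card_congr (S1_equiv c e π he hc hcc hpe hne m), Nat.card_fun, Nat.card_eq_fintype_card,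
    Fintype.card_fin]

private theorem S1_cnt (m : ℕ) :
    Nat.card {x : Fin (m + 1) // ¬ Nat.Coprime (x : ℕ) (m - (x : ℕ))} ≤ m + 1 - Nat.totient m := by
  classical
  have h1 : Nat.card {x : Fin (m + 1) // ¬ Nat.Coprime (x : ℕ) (m - (x : ℕ))} =
      ((Finset.range (m + 1)).filter fun x => ¬ Nat.Coprime x (m - x)).card := by
    have h2 : Nat.card {x : Fin (m + 1) // ¬ Nat.Coprime (x : ℕ) (m - (x : ℕ))} =
        Nat.card ((Finset.range (m + 1)).filter fun x => ¬ Nat.Coprime x (m - x)) := by
      refine Nat.card_congr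
        { toFun := fun x => ⟨(x.1 : ℕ), Finset.mem_filter.2 ⟨Finset.mem_range.2 x.1.2, x.2⟩⟩
          invFun := fun x => ⟨⟨x.1, Finset.mem_range.1 (Finset.mem_filter.1 x.2).1⟩, (Finset.mem_filter.1 x.2).2⟩
          left_inv := fun x => rfl
          right_inv := fun x => rfl }
    rw [h2, Nat.card_eq_fintype_card, Fintype.card_coe]
  rw [h1]
  have h3 := Finset.card_filter_add_card_filter_not (s := Finset.range (m + 1)) (fun x => Nat.Coprime x (m - x))
  have h4 : Nat.totient m ≤ ((Finset.range (m + 1)).filter fun x => Nat.Coprime x (m - x)).card := by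
    rw [Nat.totient_eq_card_coprime]
    apply Finset.card_le_card
    intro x hx
    rw [Finset.mem_filter, Finset.mem_range] at hx ⊢
    refine ⟨by omega, ?_⟩
    have h5 : Nat.Coprime x m := hx.2.symm
    have h6 : Nat.Coprime x (m - x) := (Nat.coprime_sub_self_right hx.1.le).2 h5
    exact h6
  rw [Finset.card_range] at h3
  omega

private theorem S1_second {α W : Type} [Finite W] (c : α → α) (e : W → α) (π : α → W)
    (hpe : ∀ a, a = e (π a) ∨ a = c (e (π a))) (m : ℕ) :
    ({s : α → ℕ | (∀ a, s a + s (c a) = m) ∧ ∀ a, ¬ Nat.Coprime (s a) (s (c a))}).ncard ≤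
      (m + 1 - Nat.totient m) ^ Nat.card W := by
  have h1 : ({s : α → ℕ | (∀ a, s a + s (c a) = m) ∧ ∀ a, ¬ Nat.Coprime (s a) (s (c a))}).ncard =
      Nat.card {s : α → ℕ // (∀ a, s a + s (c a) = m) ∧ ∀ a, ¬ Nat.Coprime (s a) (s (c a))} := by
    rw [← Nat.card_coe_set_eq]
    rfl
  have hval : ∀ s : α → ℕ, (∀ a, s a + s (c a) = m) → ∀ a, s (c a) = m - s a := by
    intro s hs a
    have := hs a
    omega
  let f : {s : α → ℕ // (∀ a, s a + s (c a) = m) ∧ ∀ a, ¬ Nat.Coprime (s a) (s (c a))} →
      (W → {x : Fin (m + 1) // ¬ Nat.Coprime (x : ℕ) (m - (x : ℕ))}) :=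
    fun s w => ⟨⟨s.1 (e w), by have := s.2.1 (e w); omega⟩, by
      have h2 := s.2.2 (e w)
      rw [hval s.1 s.2.1] at h2
      exact h2⟩
  have hf : Function.Injective f := by
    intro s t h
    have h2 : ∀ w, s.1 (e w) = t.1 (e w) := by
      intro w
      have h3 := congrFun h w
      exact congrArg (fun z : {x : Fin (m + 1) // ¬ Nat.Coprime (x : ℕ) (m - (x : ℕ))} => ((z.1 : Fin (m + 1)) : ℕ)) h3
    apply Subtype.ext
    funext a
    rcases hpe a with h3 | h3
    · rw [h3]
      exact h2 _
    · rw [h3, hval s.1 s.2.1, hval t.1 t.2.1, h2]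
  rw [h1]
  refine (Nat.card_le_card_of_injective f hf).trans ?_
  rw [Nat.card_fun]
  exact Nat.pow_le_pow_left (S1_cnt m) _

/-- PROOF.  The embeddings of `E` form `g` pairs `{φ, conj φ}` (`conj φ ≠ φ` as `E` is totally complex; `card = 2 g`).  A function
`s` with `s φ + s (conj φ) = m` is given by its values in `{0, .., m}` at one embedding of each pair: `(m + 1) ^ g` functions; for
the second count the values `x` satisfy `¬ Coprime x (m - x)`: at least `Nat.totient m` of the `m + 1` numbers `x ≤ m` have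
`Coprime x (m - x)` (`gcd x (m - x) = gcd x m`).  (Choose a section: a finite set `P` of embeddings with exactly one of each pair,
e.g. by a linear order or `Fintype.equivFin`, or use `NumberField.InfinitePlace`: `s ↦ (w ↦ s w.embedding)` is a bijection to the
functions on the infinite places with values in `Fin (m + 1)`, and there are `g` infinite places, all complex.) -/
theorem sign_count (E : Type) [Field E] [NumberField E] (hE : NumberField.IsCMField E) (g : ℕ)
    (hg : Module.finrank ℚ E = 2 * g) (m : ℕ) (hm : 1 ≤ m) :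
    ({s : (E →+* ℂ) → ℕ | ∀ φ, s φ + s ((starRingEnd ℂ).comp φ) = m}).ncard = (m + 1) ^ g ∧
      ({s : (E →+* ℂ) → ℕ | (∀ φ, s φ + s ((starRingEnd ℂ).comp φ) = m) ∧
        ∀ φ, ¬ Nat.Coprime (s φ) (s ((starRingEnd ℂ).comp φ))}).ncard ≤ (m + 1 - Nat.totient m) ^ g := by
  have htc : NumberField.IsTotallyComplex E := hE.to_isTotallyComplex
  have hc : ∀ φ : E →+* ℂ, (starRingEnd ℂ).comp φ = NumberField.ComplexEmbedding.conjugate φ :=
    fun φ => RingHom.ext fun x => rfl
  have hcc : ∀ φ : E →+* ℂ, (starRingEnd ℂ).comp ((starRingEnd ℂ).comp φ) = φ := by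
    intro φ
    ext x
    simp
  have hcard : Nat.card (NumberField.InfinitePlace E) = g := by
    have h1 := NumberField.InfinitePlace.card_add_two_mul_card_eq_rank E
    have h2 := NumberField.InfinitePlace.card_eq_nrRealPlaces_add_nrComplexPlaces (K := E)
    have h3 := NumberField.IsTotallyComplex.nrRealPlaces_eq_zero (K := E)
    rw [Nat.card_eq_fintype_card]
    rw [hg] at h1
    omega
  have he : ∀ w : NumberField.InfinitePlace E, NumberField.InfinitePlace.mk w.embedding = w :=
    NumberField.InfinitePlace.mk_embedding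
  have hcm : ∀ φ : E →+* ℂ, NumberField.InfinitePlace.mk ((starRingEnd ℂ).comp φ) = NumberField.InfinitePlace.mk φ := by
    intro φ
    rw [hc]
    exact NumberField.InfinitePlace.mk_conjugate_eq φ
  have hpe : ∀ φ : E →+* ℂ, φ = (NumberField.InfinitePlace.mk φ).embedding ∨
      φ = (starRingEnd ℂ).comp (NumberField.InfinitePlace.mk φ).embedding := by
    intro φ
    have h1 := he (NumberField.InfinitePlace.mk φ)
    rcases NumberField.InfinitePlace.mk_eq_iff.1 h1 with h2 | h2
    · exact Or.inl h2.symm
    · right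
      rw [hc]
      exact h2.symm
  have hne : ∀ w : NumberField.InfinitePlace E, (starRingEnd ℂ).comp w.embedding ≠ w.embedding := by
    intro w h
    rw [hc] at h
    have h1 : NumberField.InfinitePlace.IsReal w :=
      NumberField.InfinitePlace.isReal_iff.2 (NumberField.ComplexEmbedding.isReal_iff.2 h)
    have h2 : NumberField.InfinitePlace.IsComplex w := htc.isComplex w
    exact NumberField.InfinitePlace.not_isReal_iff_isComplex.2 h2 h1
  have hA := S1_first (fun φ : E →+* ℂ => (starRingEnd ℂ).comp φ)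
    (fun w : NumberField.InfinitePlace E => w.embedding) NumberField.InfinitePlace.mk he hcm hcc hpe hne m
  have hB := S1_second (fun φ : E →+* ℂ => (starRingEnd ℂ).comp φ)
    (fun w : NumberField.InfinitePlace E => w.embedding) NumberField.InfinitePlace.mk hpe m
  rw [hcard] at hA hB
  exact ⟨hA, hB⟩

end TUT
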