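import Pool.Agent.Lib.MP_021685_agUT.P2
import Pool.Agent.Lib.MP_021685_agUT.P5
import Pool.Agent.Lib.MP_021685_agTG.GD

/-! Twists give exotic forms. -/

set_option autoImplicit false

namespace TUT

open Module

variable {H : Type} [AddCommGroup H] [Module ℂ H] [FiniteDimensional ℂ H] {G : Type} [Group G] {J : Type} [Fintype J]
  {e : H →ₗ[ℂ] H →ₗ[ℂ] ℂ} {bar : J → J} {p : J → End ℂ H} {ρ : Representation ℂ G H} {μ : G →* ℂˣ}

section T2a

variable {N : J → ℕ} {ε : J → End ℂ H} {u v : ∀ f, Fin (N f) → End ℂ H}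

omit [FiniteDimensional ℂ H] in
private theorem T2_mulmem {X Y : End ℂ H} (hX : X ∈ comm ρ) (hY : Y ∈ comm ρ) : X * Y ∈ comm ρ := fun s => by
  rw [← mul_assoc, hX s, mul_assoc, hY s, mul_assoc]

omit [FiniteDimensional ℂ H] in
private theorem T2_ep (hS : MSys e bar p ρ N ε u v) (hB : Big e bar p ρ μ) (f : J) : ε f * p f = ε f := by
  rw [← hB.central f (ε f) (hS.unit f).mem, (hS.unit f).pf]

omit [FiniteDimensional ℂ H] in
private theorem T2_pu (hS : MSys e bar p ρ N ε u v) (hB : Big e bar p ρ μ) (f : J) (j : Fin (N f)) :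
    u f j * p f = u f j := by
  rw [← (hS.unit f).ue j, mul_assoc, T2_ep hS hB f]

omit [FiniteDimensional ℂ H] [Fintype J] in
private theorem T2_pv (hS : MSys e bar p ρ N ε u v) (f : J) (j : Fin (N f)) :
    p f * v f j = v f j := by
  rw [← (hS.unit f).ev j, ← mul_assoc, (hS.unit f).pf]

omit [FiniteDimensional ℂ H] [Fintype J] in
/-- The coefficients of `Y` in the block `f`. -/
private theorem T2_coef (hS : MSys e bar p ρ N ε u v) (f : J) (Y : End ℂ H) (hY : Y ∈ comm ρ) :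
    ∃ c : Fin (N f) → Fin (N f) → ℂ, ∀ i j, v f i * Y * u f j = c i j • ε f := by
  have h : ∀ i j, ∃ c : ℂ, v f i * Y * u f j = c • ε f := fun i j => by
    obtain ⟨c, hc⟩ := (hS.unit f).prim (v f i * Y * u f j)
      (T2_mulmem (T2_mulmem ((hS.unit f).vmem i) hY) ((hS.unit f).umem j))
    refine ⟨c, ?_⟩
    rw [← hc, mul_assoc (ε f), mul_assoc (v f i * Y), (hS.unit f).ue j, ← mul_assoc (ε f), ← mul_assoc (ε f),
      (hS.unit f).ev i]
  choose c hc using h
  exact ⟨c, hc⟩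

omit [FiniteDimensional ℂ H] in
private theorem T2_comm (hS : MSys e bar p ρ N ε u v) (hB : Big e bar p ρ μ) (f : J) (X' Y : End ℂ H)
    (hY : Y ∈ comm ρ) :
    (∑ j, u f j * X' * v f j) * Y = Y * ∑ j, u f j * X' * v f j := by
  obtain ⟨c, hc⟩ := T2_coef hS f Y hY
  have h1 : ∀ j, Y * u f j = ∑ i, c i j • u f i := fun j => by
    have h2 : Y * u f j = p f * (Y * u f j) := by
      rw [hB.central f (Y * u f j) (T2_mulmem hY ((hS.unit f).umem j)), mul_assoc, T2_pu hS hB f j]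
    rw [h2, ← (hS.unit f).sum, Finset.sum_mul]
    refine Finset.sum_congr rfl fun i _ => ?_
    rw [mul_assoc, ← mul_assoc (v f i), hc i j, mul_smul_comm, (hS.unit f).ue i]
  have h3 : ∀ i, v f i * Y = ∑ j, c i j • v f j := fun i => by
    have h2 : v f i * Y = v f i * Y * p f := by
      rw [← hB.central f (v f i * Y) (T2_mulmem ((hS.unit f).vmem i) hY), ← mul_assoc, T2_pv hS f i]
    rw [h2, ← (hS.unit f).sum, Finset.mul_sum]
    refine Finset.sum_congr rfl fun j _ => ?_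
    rw [← mul_assoc, hc i j, smul_mul_assoc, (hS.unit f).ev j]
  rw [Finset.sum_mul, Finset.mul_sum]
  have h4 : ∀ i, u f i * X' * v f i * Y = ∑ j, c i j • (u f i * X' * v f j) := fun i => by
    rw [mul_assoc (u f i * X'), h3 i, Finset.mul_sum]
    exact Finset.sum_congr rfl fun j _ => mul_smul_comm _ _ _
  have h5 : ∀ j, Y * (u f j * X' * v f j) = ∑ i, c i j • (u f i * X' * v f j) := fun j => by
    rw [← mul_assoc, ← mul_assoc, h1 j, Finset.sum_mul, Finset.sum_mul]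
    exact Finset.sum_congr rfl fun i _ => by rw [smul_mul_assoc, smul_mul_assoc]
  rw [Finset.sum_congr rfl fun i _ => h4 i, Finset.sum_congr rfl fun j _ => h5 j, Finset.sum_comm]

omit [FiniteDimensional ℂ H] in
private theorem T2_blockf (hS : MSys e bar p ρ N ε u v) (hB : Big e bar p ρ μ) (f : J) (X' : End ℂ H)
    (hX' : ε f * X' = X' * ε f) :
    ε f * (∑ j, u f j * X' * v f j) * ε f = X' * ε f := by
  obtain ⟨a, ha⟩ : ∃ a : Fin (N f) → ℂ, ∀ j, ε f * u f j = a j • ε f := by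
    have h : ∀ j, ∃ c : ℂ, ε f * u f j = c • ε f := fun j => by
      obtain ⟨c, hc⟩ := (hS.unit f).prim (u f j) ((hS.unit f).umem j)
      exact ⟨c, by rw [← hc, mul_assoc, (hS.unit f).ue j]⟩
    choose c hc using h
    exact ⟨c, hc⟩
  obtain ⟨b, hb⟩ : ∃ b : Fin (N f) → ℂ, ∀ j, v f j * ε f = b j • ε f := by
    have h : ∀ j, ∃ c : ℂ, v f j * ε f = c • ε f := fun j => by
      obtain ⟨c, hc⟩ := (hS.unit f).prim (v f j) ((hS.unit f).vmem j)
      exact ⟨c, by rw [← hc, (hS.unit f).ev j]⟩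
    choose c hc using h
    exact ⟨c, hc⟩
  have h1 : (∑ j, a j * b j) • ε f = ε f := by
    have h2 : ε f * p f * ε f = ε f := by rw [T2_ep hS hB f, (hS.unit f).idem]
    rw [← (hS.unit f).sum, Finset.mul_sum, Finset.sum_mul] at h2
    have h3 : ∀ j, ε f * (u f j * v f j) * ε f = (a j * b j) • ε f := fun j => by
      rw [← mul_assoc, mul_assoc, hb j, ha j, smul_mul_smul_comm, (hS.unit f).idem]
    rw [Finset.sum_congr rfl fun j _ => h3 j, ← Finset.sum_smul] at h2
    exact h2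
  have h4 : ∀ j, ε f * (u f j * X' * v f j) * ε f = (a j * b j) • (X' * ε f) := fun j => by
    rw [mul_assoc (u f j), ← mul_assoc (ε f), mul_assoc, mul_assoc X', hb j, ha j, smul_mul_assoc, mul_smul_comm,
      mul_smul_comm, ← mul_assoc, hX', mul_assoc, (hS.unit f).idem, smul_smul]
  rw [Finset.mul_sum, Finset.sum_mul, Finset.sum_congr rfl fun j _ => h4 j, ← Finset.sum_smul, ← mul_smul_comm, h1]

private theorem T2_dual {V : Type} [AddCommGroup V] [Module ℂ V] {x : V} (hx : x ≠ 0) :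
    ∃ l : V →ₗ[ℂ] ℂ, l x = 1 := by
  obtain ⟨l, hl⟩ : ∃ l : Module.Dual ℂ V, l x ≠ 0 := by
    by_contra hc
    push Not at hc
    exact hx ((Module.forall_dual_apply_eq_zero_iff ℂ x).1 hc)
  exact ⟨(l x)⁻¹ • l, by rw [LinearMap.smul_apply, smul_eq_mul, inv_mul_cancel₀ hl]⟩

/-- Every endomorphism of the image of `ε f` is induced by an element of the span of the `ρ g`, `g ∈ G'`. -/
private theorem T2_dens (hS : MSys e bar p ρ N ε u v) (hB : Big e bar p ρ μ) (f : J) (X' : End ℂ H)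
    (hX' : ε f * X' * ε f = X') (G' : Subgroup G) (hG' : G'.FiniteIndex) :
    ∃ Z ∈ Submodule.span ℂ {Y | ∃ g ∈ G', Y = ρ g}, Z * ε f = X' ∧ ε f * Z = X' ∧ ∀ Y ∈ comm ρ, Z * Y = Y * Z := by
  have h1 : ε f * X' = X' := by rw [← hX', ← mul_assoc, ← mul_assoc, (hS.unit f).idem]
  have h2 : X' * ε f = X' := by
    conv_lhs => rw [← hX', mul_assoc, (hS.unit f).idem]
    exact hX'
  have hc : ∀ Y ∈ comm ρ, (∑ j, u f j * X' * v f j) * Y = Y * ∑ j, u f j * X' * v f j := fun Y hY =>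
    T2_comm hS hB f X' Y hY
  have h3 : (∑ j, u f j * X' * v f j) * ε f = X' := by
    have h4 := T2_blockf hS hB f X' (h1.trans h2.symm)
    rw [mul_assoc, hc (ε f) (hS.unit f).mem, ← mul_assoc, (hS.unit f).idem, h2] at h4
    rw [hc (ε f) (hS.unit f).mem]
    exact h4
  exact ⟨_, hB.dens G' hG' _ hc, h3, by rw [← hc (ε f) (hS.unit f).mem, h3], hc⟩

omit [FiniteDimensional ℂ H] [Fintype J] in
private theorem T2_mem {f : J} (hS : MSys e bar p ρ N ε u v) {y : H} (hy : y ∈ LinearMap.range (ε f)) : ε f y = y := by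
  obtain ⟨z, rfl⟩ := hy
  exact LinearMap.congr_fun (hS.unit f).idem z

/-- The image of `ε f` is irreducible. -/
private theorem T2_trans (hS : MSys e bar p ρ N ε u v) (hB : Big e bar p ρ μ) (f : J) (G' : Subgroup G)
    (hG' : G'.FiniteIndex) {x y : H} (hx : x ∈ LinearMap.range (ε f)) (hx0 : x ≠ 0) (hy : y ∈ LinearMap.range (ε f)) :
    ∃ Z ∈ Submodule.span ℂ {Y | ∃ g ∈ G', Y = ρ g}, Z x = y := by
  obtain ⟨l, hl⟩ := T2_dual hx0
  set X' : End ℂ H := (l.smulRight y) ∘ₗ ε f with hX'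
  have ha : ∀ z, X' z = l (ε f z) • y := fun z => rfl
  have h1 : ε f * X' * ε f = X' := by
    refine LinearMap.ext fun z => ?_
    rw [Module.End.mul_apply, Module.End.mul_apply, ha, ha, map_smul, T2_mem hS hy]
    have h2 : ε f (ε f z) = ε f z := LinearMap.congr_fun (hS.unit f).idem z
    rw [h2]
  obtain ⟨Z, hZ, hZ1, _, _⟩ := T2_dens hS hB f X' h1 G' hG'
  refine ⟨Z, hZ, ?_⟩
  have h3 := LinearMap.congr_fun hZ1 x
  rw [Module.End.mul_apply, T2_mem hS hx, ha, T2_mem hS hx, hl, one_smul] at h3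
  exact h3

omit [FiniteDimensional ℂ H] in
/-- A subspace which is stable under the `ρ s` is stable under their span. -/
private theorem T2_stable (K : Submodule ℂ H) (G' : Subgroup G) (hK : ∀ s ∈ G', ∀ x ∈ K, ρ s x ∈ K) {Z : End ℂ H}
    (hZ : Z ∈ Submodule.span ℂ {Y | ∃ g ∈ G', Y = ρ g}) : ∀ x ∈ K, Z x ∈ K := by
  refine Submodule.span_induction (p := fun Z _ => ∀ x ∈ K, Z x ∈ K) ?_ ?_ ?_ ?_ hZ
  · rintro _ ⟨g, hg, rfl⟩ x hx
    exact hK g hg x hx
  · intro x _
    exact K.zero_mem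
  · intro a b _ _ ha hb x hx
    exact K.add_mem (ha x hx) (hb x hx)
  · intro c a _ ha x hx
    exact K.smul_mem c (ha x hx)

/-- Schur's lemma for the image of `ε f` and the subgroups of finite index. -/
private theorem T2_scal (hS : MSys e bar p ρ N ε u v) (hB : Big e bar p ρ μ) (f : J) (G' : Subgroup G)
    (hG' : G'.FiniteIndex) (φ : End ℂ H) (hφ : ∀ s ∈ G', φ * ρ s = ρ s * φ) :
    ∃ c : ℂ, ε f * φ * ε f = c • ε f := by
  have hspan : ∀ Z ∈ Submodule.span ℂ {Y | ∃ g ∈ G', Y = ρ g}, φ * Z = Z * φ := fun Z hZ => by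
    refine Submodule.span_induction (p := fun Z _ => φ * Z = Z * φ) ?_ ?_ ?_ ?_ hZ
    · rintro _ ⟨g, hg, rfl⟩
      exact hφ g hg
    · rw [mul_zero, zero_mul]
    · intro a b _ _ ha hb
      rw [mul_add, add_mul, ha, hb]
    · intro c a _ ha
      rw [mul_smul_comm, smul_mul_assoc, ha]
  obtain ⟨x, hx⟩ : ∃ x, ε f x ≠ 0 := by
    by_contra hc
    push Not at hc
    exact (hS.unit f).ne (LinearMap.ext hc)
  obtain ⟨l, hl⟩ := T2_dual hx
  refine ⟨l (ε f (φ (ε f x))), ?_⟩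
  refine LinearMap.ext fun z => ?_
  set X' : End ℂ H := (l.smulRight (ε f z)) ∘ₗ ε f with hX'
  have ha : ∀ w, X' w = l (ε f w) • ε f z := fun w => rfl
  have hid : ∀ w, ε f (ε f w) = ε f w := fun w => LinearMap.congr_fun (hS.unit f).idem w
  have h1 : ε f * X' * ε f = X' := by
    refine LinearMap.ext fun w => ?_
    rw [Module.End.mul_apply, Module.End.mul_apply, ha, ha, map_smul, hid, hid]
  obtain ⟨Z, hZ, hZ1, hZ2, _⟩ := T2_dens hS hB f X' h1 G' hG'
  have h2 : Z (ε f x) = ε f z := by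
    have h3 := LinearMap.congr_fun hZ1 x
    rw [Module.End.mul_apply, ha, hl, one_smul] at h3
    exact h3
  have h4 : ε f (Z (φ (ε f x))) = l (ε f (φ (ε f x))) • ε f z := by
    have h5 := LinearMap.congr_fun hZ2 (φ (ε f x))
    rw [Module.End.mul_apply, ha] at h5
    exact h5
  have h6 : φ (Z (ε f x)) = Z (φ (ε f x)) := LinearMap.congr_fun (hspan Z hZ) (ε f x)
  rw [Module.End.mul_apply, Module.End.mul_apply, LinearMap.smul_apply, ← h4, ← h6, h2]

/-- A twist between two blocks gives a twist between the images of `ε f` and `ε g`, which is bijective. -/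
private theorem T2_theta (hS : MSys e bar p ρ N ε u v) (hB : Big e bar p ρ μ) {f g : J} (G' : Subgroup G)
    (hG' : G'.FiniteIndex) (χ : G → ℂ) (Θ : End ℂ H) (hΘ : ∀ s ∈ G', Θ * ρ s = χ s • (ρ s * Θ))
    (h0 : p g * Θ * p f ≠ 0) :
    ∃ θ θ' : End ℂ H, θ = ε g * θ * ε f ∧ θ' = ε f * θ' * ε g ∧ θ' * θ = ε f ∧ θ * θ' = ε g ∧
      (∀ s ∈ G', θ * ρ s = χ s • (ρ s * θ)) ∧ (∀ s ∈ G', ρ s * θ' = χ s • (θ' * ρ s)) := by
  obtain ⟨i, j, hij⟩ : ∃ i j, v g i * Θ * u f j ≠ 0 := by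
    by_contra hc
    push Not at hc
    refine h0 ?_
    rw [← (hS.unit g).sum, ← (hS.unit f).sum, Finset.sum_mul, Finset.sum_mul]
    refine Finset.sum_eq_zero fun i _ => ?_
    rw [Finset.mul_sum]
    refine Finset.sum_eq_zero fun j _ => ?_
    rw [mul_assoc (u g i), ← mul_assoc (u g i * (v g i * Θ)), mul_assoc (u g i), hc i j, mul_zero, zero_mul]
  set θ : End ℂ H := v g i * Θ * u f j with hθ
  have hθ1 : ε g * θ = θ := by rw [hθ, ← mul_assoc, ← mul_assoc, (hS.unit g).ev i]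
  have hθ2 : θ * ε f = θ := by rw [hθ, mul_assoc, (hS.unit f).ue j]
  have hθ3 : ∀ s ∈ G', θ * ρ s = χ s • (ρ s * θ) := fun s hs => by
    rw [hθ, mul_assoc, ← (hS.unit f).umem j s, ← mul_assoc, mul_assoc (v g i), hΘ s hs, mul_smul_comm, smul_mul_assoc,
      ← mul_assoc (v g i), ← (hS.unit g).vmem i s, mul_assoc, mul_assoc, mul_assoc]
  clear_value θ
  have hmf : ∀ s, ρ s * ε f = ε f * ρ s := (hS.unit f).mem
  have hmg : ∀ s, ρ s * ε g = ε g * ρ s := (hS.unit g).mem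
  have hinv : ∀ s, ρ s * ρ s⁻¹ = 1 := fun s => by rw [← map_mul, mul_inv_cancel, map_one]
  have hχ : ∀ s ∈ G', χ s ≠ 0 := fun s hs h => by
    have h1 := hθ3 s hs
    rw [h, zero_smul] at h1
    apply hij
    calc θ = θ * (ρ s * ρ s⁻¹) := by rw [hinv, mul_one]
      _ = 0 := by rw [← mul_assoc, h1, zero_mul]
  obtain ⟨x0, hx0⟩ : ∃ x, θ x ≠ 0 := by
    by_contra hc
    push Not at hc
    exact hij (LinearMap.ext hc)
  -- injectivity
  have hK : ∀ s ∈ G', ∀ x ∈ LinearMap.ker θ, ρ s x ∈ LinearMap.ker θ := fun s hs x hx => by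
    rw [LinearMap.mem_ker] at hx ⊢
    have h1 := LinearMap.congr_fun (hθ3 s hs) x
    rw [Module.End.mul_apply, LinearMap.smul_apply, Module.End.mul_apply, hx, map_zero, smul_zero] at h1
    exact h1
  have hinj : ∀ x ∈ LinearMap.range (ε f), θ x = 0 → x = 0 := fun x hx hx1 => by
    by_contra hx2
    obtain ⟨Z, hZ, hZx⟩ := T2_trans hS hB f G' hG' hx hx2 (y := ε f x0) ⟨x0, rfl⟩
    have h1 := T2_stable (LinearMap.ker θ) G' hK hZ x hx1
    rw [hZx, LinearMap.mem_ker, ← Module.End.mul_apply, hθ2] at h1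
    exact hx0 h1
  -- surjectivity
  have hR : ∀ s ∈ G', ∀ y ∈ LinearMap.range θ, ρ s y ∈ LinearMap.range θ := by
    rintro s hs _ ⟨x, rfl⟩
    refine ⟨(χ s)⁻¹ • ρ s x, ?_⟩
    have h1 := LinearMap.congr_fun (hθ3 s hs) x
    rw [Module.End.mul_apply, LinearMap.smul_apply, Module.End.mul_apply] at h1
    rw [map_smul, h1, smul_smul, inv_mul_cancel₀ (hχ s hs), one_smul]
  have hsurj : ∀ y ∈ LinearMap.range (ε g), y ∈ LinearMap.range θ := fun y hy => by
    have h1 : θ x0 ∈ LinearMap.range (ε g) := ⟨θ x0, LinearMap.congr_fun hθ1 x0⟩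
    obtain ⟨Z, hZ, hZx⟩ := T2_trans hS hB g G' hG' h1 hx0 hy
    rw [← hZx]
    exact T2_stable (LinearMap.range θ) G' hR hZ _ ⟨x0, rfl⟩
  -- the bijection
  have hgr : ∀ x : LinearMap.range (ε f), θ (x : H) ∈ LinearMap.range (ε g) := fun x =>
    ⟨θ x, LinearMap.congr_fun hθ1 x⟩
  set t : LinearMap.range (ε f) →ₗ[ℂ] LinearMap.range (ε g) :=
    (θ ∘ₗ (LinearMap.range (ε f)).subtype).codRestrict (LinearMap.range (ε g)) hgr with ht
  have hta : ∀ x, ((t x : LinearMap.range (ε g)) : H) = θ x := fun x => rfl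
  have htb : Function.Bijective t := by
    constructor
    · rw [← LinearMap.ker_eq_bot, LinearMap.ker_eq_bot']
      intro x hx
      apply Subtype.ext
      exact hinj x x.2 (by rw [← hta, hx]; rfl)
    · intro y
      obtain ⟨x, hx⟩ := hsurj y y.2
      refine ⟨⟨ε f x, x, rfl⟩, Subtype.ext ?_⟩
      rw [hta]
      exact (LinearMap.congr_fun hθ2 x).trans hx
  let E := LinearEquiv.ofBijective t htb
  set θ' : End ℂ H := (LinearMap.range (ε f)).subtype ∘ₗ E.symm.toLinearMap ∘ₗ (ε g).rangeRestrict with hθ'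
  have hθ'a : ∀ z, θ' z = (E.symm ⟨ε g z, z, rfl⟩ : LinearMap.range (ε f)) := fun z => rfl
  have h1 : θ' * θ = ε f := by
    refine LinearMap.ext fun z => ?_
    rw [Module.End.mul_apply, hθ'a]
    have h2 : (⟨ε g (θ z), θ z, rfl⟩ : LinearMap.range (ε g)) = E ⟨ε f z, z, rfl⟩ := by
      apply Subtype.ext
      show ε g (θ z) = θ (ε f z)
      rw [← Module.End.mul_apply, hθ1, ← Module.End.mul_apply, hθ2]
    rw [h2, LinearEquiv.symm_apply_apply]
  have h2 : θ * θ' = ε g := by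
    refine LinearMap.ext fun z => ?_
    rw [Module.End.mul_apply, hθ'a, ← hta]
    have h3 : t (E.symm ⟨ε g z, z, rfl⟩) = ⟨ε g z, z, rfl⟩ := E.apply_symm_apply _
    rw [h3]
  have h3 : ε f * θ' = θ' := by
    refine LinearMap.ext fun z => ?_
    rw [Module.End.mul_apply, hθ'a]
    exact T2_mem hS (E.symm ⟨ε g z, z, rfl⟩).2
  have h4 : θ' * ε g = θ' := by
    refine LinearMap.ext fun z => ?_
    rw [Module.End.mul_apply, hθ'a, hθ'a]
    have h5 : (⟨ε g (ε g z), ε g z, rfl⟩ : LinearMap.range (ε g)) = ⟨ε g z, z, rfl⟩ :=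
      Subtype.ext (LinearMap.congr_fun (hS.unit g).idem z)
    rw [h5]
  refine ⟨θ, θ', ?_, ?_, h1, h2, hθ3, fun s hs => ?_⟩
  · rw [hθ1, hθ2]
  · rw [h3, h4]
  · calc ρ s * θ' = ρ s * (ε f * θ') := by rw [h3]
      _ = θ' * (θ * ρ s) * θ' := by rw [← mul_assoc, hmf s, ← h1]; simp only [mul_assoc]
      _ = χ s • (θ' * ρ s * (θ * θ')) := by
        rw [hθ3 s hs, mul_smul_comm, smul_mul_assoc]
        simp only [mul_assoc]
      _ = χ s • (θ' * ρ s) := by rw [h2, mul_assoc, hmg s, ← mul_assoc, h4]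

end T2a

omit [FiniteDimensional ℂ H] in
private theorem T2_skew {e : H →ₗ[ℂ] H →ₗ[ℂ] ℂ} (alt : ∀ v, e v v = 0) (x y : H) : e x y = - e y x := by
  have h1 := alt (x + y)
  rw [map_add, map_add, LinearMap.add_apply, LinearMap.add_apply, alt, alt, zero_add, add_zero] at h1
  exact eq_neg_of_add_eq_zero_right h1

/-- The endomorphism of a pairing. -/
private theorem T2_phi (hb : Blk e bar p) (he : ∀ s v w, e (ρ s v) (ρ s w) = (μ s : ℂ) * e v w)
    (G'' : Subgroup G) (β : H →ₗ[ℂ] H →ₗ[ℂ] ℂ) (hβ : TGR.IsPairing ρ μ G'' β) :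
    ∃ φ : End ℂ H, (∀ x y, β x y = e (φ x) y) ∧ ∀ s ∈ G'', φ * ρ s = ρ s * φ := by
  have hinj : Function.Injective e := by
    rw [injective_iff_map_eq_zero]
    intro v hv
    exact hb.nd v fun w => by rw [hv, LinearMap.zero_apply]
  have hdim : finrank ℂ H = finrank ℂ (H →ₗ[ℂ] ℂ) := (Subspace.dual_finrank_eq (K := ℂ) (V := H)).symm
  obtain ⟨φ, hφ⟩ : ∃ φ : End ℂ H, ∀ x, e (φ x) = β x := by
    refine ⟨(LinearMap.linearEquivOfInjective e hinj hdim).symm.toLinearMap ∘ₗ β, fun x => ?_⟩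
    exact (LinearMap.linearEquivOfInjective e hinj hdim).apply_symm_apply (β x)
  refine ⟨φ, fun x y => by rw [hφ], fun s hs => ?_⟩
  refine LinearMap.ext fun x => ?_
  have h2 : ∀ w, e (φ (ρ s x) - ρ s (φ x)) w = 0 := by
    intro w
    have h3 : w = ρ s (ρ s⁻¹ w) := by
      rw [← Module.End.mul_apply, ← map_mul, mul_inv_cancel, map_one, Module.End.one_apply]
    rw [map_sub, LinearMap.sub_apply, h3, he, hφ, hφ, hβ s hs]
    ring
  exact sub_eq_zero.1 (hb.nd _ h2)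

/-- A pairing is zero on the blocks which are not conjugate. -/
private theorem T2_zero (hB : Big e bar p ρ μ) (G'' : Subgroup G) (hG'' : G''.FiniteIndex)
    (β : H →ₗ[ℂ] H →ₗ[ℂ] ℂ) (hβ : TGR.IsPairing ρ μ G'' β) {f g : J} (hfg : g ≠ bar f) {x y : H}
    (hx : p f x = x) (hy : p g y = y) : β x y = 0 := by
  obtain ⟨φ, hφ, h1⟩ := T2_phi hB.blk hB.he G'' β hβ
  have h2 : ∀ Y ∈ Submodule.span ℂ {Y | ∃ g ∈ G'', Y = ρ g}, φ * Y = Y * φ := by
    intro Y hY
    induction hY using Submodule.span_induction with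
    | mem x hx =>
      obtain ⟨s, hs, rfl⟩ := hx
      exact h1 s hs
    | zero => rw [mul_zero, zero_mul]
    | add x y _ _ hx hy => rw [mul_add, add_mul, hx, hy]
    | smul a x _ hx => rw [mul_smul_comm, smul_mul_assoc, hx]
  have h4 : φ (p f x) = p f (φ x) :=
    LinearMap.congr_fun (h2 _ (hB.dens G'' hG'' (p f) fun Y hY => hB.central f Y hY)) x
  have h5 : p (bar f) (p g y) = 0 := LinearMap.congr_fun (hB.blk.orth (bar f) g (Ne.symm hfg)) y
  rw [hφ, ← hx, h4, ← hy, hB.blk.adj, h5, map_zero]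

/-- The dimension of the image of `ε f` is at least two. -/
private theorem T2_dim {N : J → ℕ} {ε : J → End ℂ H} {u v : ∀ f, Fin (N f) → End ℂ H} (hB : Big e bar p ρ μ)
    (hS : MSys e bar p ρ N ε u v) (f : J) (hdim : finrank ℂ (LinearMap.range (p f)) ≠ N f) :
    2 ≤ finrank ℂ (LinearMap.range (ε f)) := by
  have h1 := hS.rank hB 1 (fun Y _ => by rw [one_mul, mul_one]) f
  rw [one_mul] at h1
  have h2 : finrank ℂ (LinearMap.range (cut (∑ f, ε f) 1 * cut (∑ f, ε f) (ε f))) ≤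
      finrank ℂ (LinearMap.range (ε f)) := by
    have h3 : Submodule.map (LinearMap.range (∑ f, ε f)).subtype
        (LinearMap.range (cut (∑ f, ε f) 1 * cut (∑ f, ε f) (ε f))) ≤ LinearMap.range (ε f) := by
      have hpε : ∀ g, ε g * p g = ε g := fun g => by
        rw [← hB.central g _ (hS.unit g).mem, (hS.unit g).pf]
      have hqε : (∑ g, ε g) * ε f = ε f := by
        rw [Finset.sum_mul, Finset.sum_eq_single f]
        · exact (hS.unit f).idem
        · intro g _ hg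
          have h1 : ε g * ε f = ε g * (p g * p f) * ε f := by
            rw [← mul_assoc, hpε g, mul_assoc, (hS.unit f).pf]
          rw [h1, hB.blk.orth g f hg, mul_zero, zero_mul]
        · intro hf
          exact absurd (Finset.mem_univ f) hf
      rintro _ ⟨_, ⟨w, rfl⟩, rfl⟩
      refine ⟨(w : H), ?_⟩
      show (ε f) (w : H) = ((cut (∑ f, ε f) 1 (cut (∑ f, ε f) (ε f) w) : LinearMap.range (∑ f, ε f)) : H)
      rw [cut_apply, cut_apply, Module.End.one_apply]
      have e1 := LinearMap.congr_fun hqε w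
      rw [Module.End.mul_apply] at e1
      rw [e1, e1]
    rw [← Submodule.finrank_map_subtype_eq]
    exact Submodule.finrank_mono h3
  refine le_trans ?_ h2
  by_contra h
  have h4 : finrank ℂ (LinearMap.range (cut (∑ f, ε f) 1 * cut (∑ f, ε f) (ε f))) = 0 ∨
      finrank ℂ (LinearMap.range (cut (∑ f, ε f) 1 * cut (∑ f, ε f) (ε f))) = 1 := by omega
  rcases h4 with h4 | h4
  · rw [h4, mul_zero] at h1
    refine hB.ne f (LinearMap.range_eq_bot.1 ?_)
    exact Submodule.finrank_eq_zero.1 h1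
  · rw [h4, mul_one] at h1
    exact hdim h1

/-- The form. -/
private noncomputable def T2_T (e : H →ₗ[ℂ] H →ₗ[ℂ] ℂ) (θ θ' : End ℂ H) :
    MultilinearMap ℂ (fun _ : Fin 4 => H) ℂ :=
  MultilinearMap.mk' (fun w => e (θ (w 0)) (w 1) * e (θ' (w 3)) (w 2))
    (by
      intro m i x y
      fin_cases i <;>
        simp [add_mul, mul_add])
    (by
      intro m i c x
      fin_cases i <;>
        simp [mul_assoc, mul_left_comm])

omit [FiniteDimensional ℂ H] in
private theorem T2_T_apply (e : H →ₗ[ℂ] H →ₗ[ℂ] ℂ) (θ θ' : End ℂ H) (w : Fin 4 → H) :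
    T2_T e θ θ' w = e (θ (w 0)) (w 1) * e (θ' (w 3)) (w 2) := rfl

/-- PROOF.  Take `(N, ε, u, v)` from `hB.exists_sys`.  `p g Θ p f ≠ 0` and `p f = ∑ j, u f j v f j`, `p g = ∑ i, u g i v g i`, so some
`θ = v g i * Θ * u f j` (`= ε g θ ε f`) is not `0`; `θ ρ s = χ s ρ s θ` for `s ∈ G'` (`u`, `v` commute with `ρ s`).  Let
`W f = range (ε f)`.  Every `X = ε f Y ε f`-like endomorphism of `W f` is induced by an element of the span of the `ρ s`, `s ∈ G'`:
for `Y ∈ End (W f)` the endomorphism `∑ j, u f j Y v f j` of `H` commutes with `comm ρ` (as in the proof of `MSys.dens` in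
`P3.lean`) and is `Y` on `W f`.  So `W f` is irreducible under `G'`, and so is `W g`.  The kernel of `θ` on `W f` and the image are
`G'`-stable, so `θ : W f → W g` is bijective; let `θ' : H → H` be `ε g` followed by its inverse: `θ' θ = ε f` on `W f`,
`ρ s θ' = χ s • θ' ρ s` on `W g` (so `χ s ≠ 0` for `s ∈ G'`).
Let `T w = e (θ (ε f (w 0))) (w 1) * e (θ' (ε g (w 3))) (w 2)`, a multilinear form of four variables:
`T (s w) = χ s μ s * (χ s)⁻¹ μ s * T w`.
The dimension of `W f` is at least two: `finrank (range (p f)) = N f * dim (W f)` (`MSys.rank` for `h = 1`, or directly), and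
`hdim`.  Choose `w 0 ≠ 0` in `W f`, `w 2 ≠ 0` in `W (bar f)` with `e (w 0) (w 2) = 0` (`W (bar f)` is dual to `W f` by `e`:
`e (ε f x) y = e x (ε (bar f) y)`), `w 1 ∈ W (bar g)` with `e (θ (w 0)) (w 1) ≠ 0`, `x ∈ W f` with `e x (w 2) ≠ 0` and `w 3 = θ x`.
Then `T w ≠ 0`.
A pairing `β` for `G''` is `β x y = e (φ x) y` with `φ` commuting with the `ρ s`, `s ∈ G''` (as in the proof of `pairing_zero` in
`M3.lean`), so `φ` commutes with all `X` in their span, that is (`hB.dens`) with the commutant of `comm ρ`.  `p f`, `p g`, .. are in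
it, so `β (w a) (w b) = 0` if the blocks of `w a` and `w b` are not conjugate: the blocks are `f`, `bar g`, `bar f`, `g`, so only
`{0, 2}` and `{1, 3}` (`hgf`, `hgb`, `bne`).  And `β (w 0) (w 2) = e (ε f φ ε f (w 0)) (w 2)`, where `ε f φ ε f` commutes with the
endomorphisms of `W f` (which are induced by the commutant of `comm ρ`), so it is a scalar on `W f` and
`β (w 0) (w 2) = c e (w 0) (w 2) = 0`; similarly `β (w 2) (w 0) = 0` (use `ε (bar f)`).  So every product is `0`: the factor which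
contains `w 0` is zero. -/
theorem Big.exists_exotic (hB : Big e bar p ρ μ) {f g : J} (hgf : g ≠ f) (hgb : g ≠ bar f) {N : ℕ}
    (hN : finrank ℂ (cblk ρ p f) = N ^ 2) (hdim : finrank ℂ (LinearMap.range (p f)) ≠ N) (G' : Subgroup G)
    (hG' : G'.FiniteIndex) (χ : G → ℂ) (Θ : End ℂ H) (hΘ : ∀ s ∈ G', Θ * ρ s = χ s • (ρ s * Θ))
    (h0 : p g * Θ * p f ≠ 0) :
    ∃ (T : MultilinearMap ℂ (fun _ : Fin 4 => H) ℂ) (w : Fin 4 → H), IsTt ρ μ G' 2 T ∧ T w ≠ 0 ∧
      ∀ G'' : Subgroup G, G''.FiniteIndex → ∀ (m : ℕ) (η : Fin m ⊕ Fin m ≃ Fin 4) (β : Fin m → H →ₗ[ℂ] H →ₗ[ℂ] ℂ),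
        (∀ j, TGR.IsPairing ρ μ G'' (β j)) → ∏ j, β j (w (η (Sum.inl j))) (w (η (Sum.inr j))) = 0 := by
  obtain ⟨Nf, ε, u, v, hS, hNf⟩ := hB.exists_sys
  have hNN : N = Nf f := by
    have h1 := (hNf f).symm.trans hN
    exact (Nat.pow_left_injective two_ne_zero h1).symm
  have hd := T2_dim hB hS f (by rw [← hNN]; exact hdim)
  obtain ⟨θ, θ', h1, h2, h3, h4, h5, h6⟩ := T2_theta hS hB G' hG' χ Θ hΘ h0
  have hb := hB.blk
  have hεp : ∀ f x, ε f x = x → p f x = x := fun f x hx => by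
    rw [← hx, ← Module.End.mul_apply, (hS.unit f).pf]
  have hεε : ∀ f x, ε f (ε f x) = ε f x := fun f x => LinearMap.congr_fun (hS.unit f).idem x
  have hadj' : ∀ x y, e (ε (bar f) x) y = e x (ε f y) := fun x y => by
    rw [hS.adj, hb.bb]
  -- the choice of the vectors
  obtain ⟨w2, hw2, hw20⟩ : ∃ w2, ε (bar f) w2 = w2 ∧ w2 ≠ 0 := by
    by_contra hc
    push Not at hc
    exact (hS.unit (bar f)).ne (LinearMap.ext fun x => hc _ (hεε _ x))
  obtain ⟨w0, hw0, hw00, hw02⟩ : ∃ w0, ε f w0 = w0 ∧ w0 ≠ 0 ∧ e w0 w2 = 0 := by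
    have h7 : LinearMap.ker ((e.flip w2).comp (LinearMap.range (ε f)).subtype) ≠ ⊥ := by
      apply LinearMap.ker_ne_bot_of_finrank_lt
      rw [Module.finrank_self]
      omega
    obtain ⟨⟨_, y, rfl⟩, hy, hy0⟩ := Submodule.exists_mem_ne_zero_of_ne_bot h7
    refine ⟨ε f y, hεε f y, fun h => hy0 (Subtype.ext h), ?_⟩
    exact LinearMap.mem_ker.1 hy
  obtain ⟨x, hx, hx2⟩ : ∃ x, ε f x = x ∧ e x w2 ≠ 0 := by
    by_contra hc
    push Not at hc
    refine hw20 (hb.nd _ fun y => ?_)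
    rw [T2_skew hb.alt, ← hw2, ← hS.adj, hc _ (hεε f y), neg_zero]
  obtain ⟨w1, hw1, hw01⟩ : ∃ w1, ε (bar g) w1 = w1 ∧ e (θ w0) w1 ≠ 0 := by
    by_contra hc
    push Not at hc
    have h7 : θ w0 = 0 := by
      refine hb.nd _ fun y => ?_
      have h8 : ε g (θ w0) = θ w0 := by
        rw [h1, mul_assoc, Module.End.mul_apply, hεε]
      rw [← h8, hS.adj]
      exact hc _ (hεε _ y)
    have h8 := LinearMap.congr_fun h3 w0
    rw [Module.End.mul_apply, h7, map_zero, hw0] at h8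
    exact hw00 h8.symm
  have hw3 : ε g (θ x) = θ x := by
    rw [h1, mul_assoc, Module.End.mul_apply, hεε]
  refine ⟨T2_T e θ θ', ![w0, w1, w2, θ x], ?_, ?_, ?_⟩
  · intro s hs w
    rw [T2_T_apply, T2_T_apply]
    have h7 : θ (ρ s (w 0)) = χ s • ρ s (θ (w 0)) := LinearMap.congr_fun (h5 s hs) (w 0)
    have h8 : ρ s (θ' (w 3)) = χ s • θ' (ρ s (w 3)) := LinearMap.congr_fun (h6 s hs) (w 3)
    have h9 : χ s * e (θ' (ρ s (w 3))) (ρ s (w 2)) = (μ s : ℂ) * e (θ' (w 3)) (w 2) := by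
      rw [← hB.he, h8, map_smul, LinearMap.smul_apply, smul_eq_mul]
    have h10 : ((μ s ^ (2 : ℤ) : ℂˣ) : ℂ) = (μ s : ℂ) * (μ s : ℂ) := by
      rw [zpow_ofNat, Units.val_pow_eq_pow_val, sq]
    rw [h7, map_smul, LinearMap.smul_apply, smul_eq_mul, hB.he, h10]
    linear_combination ((μ s : ℂ) * e (θ (w 0)) (w 1)) * h9
  · rw [T2_T_apply]
    have h7 : θ' (θ x) = x := by
      have h8 := LinearMap.congr_fun h3 x
      rw [Module.End.mul_apply, hx] at h8
      exact h8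
    show e (θ w0) w1 * e (θ' (θ x)) w2 ≠ 0
    rw [h7]
    exact mul_ne_zero hw01 hx2
  · intro G'' hG'' m η β hβ
    have hz : ∀ (β : H →ₗ[ℂ] H →ₗ[ℂ] ℂ), TGR.IsPairing ρ μ G'' β → ∀ a : Fin 4, a ≠ 0 →
        β w0 ((![w0, w1, w2, θ x] : Fin 4 → H) a) = 0 ∧ β ((![w0, w1, w2, θ x] : Fin 4 → H) a) w0 = 0 := by
      intro β hβ a ha
      have hgb' : bar g ≠ f := fun h => hgb (by rw [← h, hb.bb])
      have hgf' : bar g ≠ bar f := fun h => hgf (by rw [← hb.bb g, h, hb.bb])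
      fin_cases a
      · exact absurd rfl ha
      · refine ⟨?_, ?_⟩
        · exact T2_zero hB G'' hG'' β hβ hgf' (hεp f w0 hw0) (hεp (bar g) w1 hw1)
        · exact T2_zero hB G'' hG'' β hβ (by rw [hb.bb]; exact Ne.symm hgf) (hεp (bar g) w1 hw1) (hεp f w0 hw0)
      · obtain ⟨φ, hφ, hφc⟩ := T2_phi hb hB.he G'' β hβ
        obtain ⟨c, hc⟩ := T2_scal hS hB f G'' hG'' φ hφc
        obtain ⟨c', hc'⟩ := T2_scal hS hB (bar f) G'' hG'' φ hφc
        refine ⟨?_, ?_⟩
        · show β w0 w2 = 0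
          have h7 := LinearMap.congr_fun hc w0
          rw [Module.End.mul_apply, Module.End.mul_apply, LinearMap.smul_apply, hw0] at h7
          rw [hφ, ← hw2, ← hS.adj, h7, map_smul, LinearMap.smul_apply, hw02, smul_zero]
        · show β w2 w0 = 0
          have h7 := LinearMap.congr_fun hc' w2
          rw [Module.End.mul_apply, Module.End.mul_apply, LinearMap.smul_apply, hw2] at h7
          rw [hφ, ← hw0, ← hadj', h7, map_smul, LinearMap.smul_apply, T2_skew hb.alt, hw02, neg_zero,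
            smul_zero]
      · refine ⟨?_, ?_⟩
        · exact T2_zero hB G'' hG'' β hβ hgb (hεp f w0 hw0) (hεp g (θ x) hw3)
        · exact T2_zero hB G'' hG'' β hβ (Ne.symm hgb') (hεp g (θ x) hw3) (hεp f w0 hw0)
    obtain ⟨j | j, hj⟩ : ∃ j, η j = 0 := ⟨η.symm 0, η.apply_symm_apply 0⟩
    · refine Finset.prod_eq_zero (Finset.mem_univ j) ?_
      rw [hj]
      refine (hz (β j) (hβ j) _ fun h => ?_).1
      have h7 := η.injective (h.trans hj.symm)
      exact absurd h7 (by simp)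
    · refine Finset.prod_eq_zero (Finset.mem_univ j) ?_
      rw [hj]
      refine (hz (β j) (hβ j) _ fun h => ?_).2
      have h7 := η.injective (h.trans hj.symm)
      exact absurd h7 (by simp)

end TUT
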