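import Pool.Agent.Lib.MP_021685_agTT.GD
import Pool.Agent.Lib.MP_021685_agSP.D0

/-! Definitions used in the statement of `MP_021685_ag.UnitaryType`. -/

set_option autoImplicit false

namespace TUT

open TensorProduct Pool.Agent.Lib.MP_17a322_nt.VA Pool.Agent.Lib.MP_021685_agTT

section

variable {r : ℕ} {E : Fin r → Type} [∀ i, Field (E i)]

/-- The complex conjugate of an embedding of one of the fields `E i`. -/
noncomputable def cj (f : Σ i, E i →+* ℂ) : Σ i, E i →+* ℂ := ⟨f.1, (starRingEnd ℂ).comp f.2⟩

/-- `c` identifies the product of the fields `E i` with the centre of the algebra `D`, and the part of `D` over `E i` (the `i`-th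
simple factor of `D`) has a basis over `E i` of `N i ^ 2` elements. -/
structure IsCentre {D : Type} [Ring D] (c : (∀ i, E i) →+* D) (N : Fin r → ℕ) : Prop where
  centre : ∀ z, (∀ x, z * x = x * z) ↔ z ∈ Set.range c
  pos : ∀ i, 0 < N i
  deg : ∀ i, ∃ d : Fin (N i ^ 2) → D, ∀ z, ∃! y : Fin (N i ^ 2) → E i,
    c (Pi.single i 1) * z = ∑ j, c (Pi.single i (y j)) * d j

variable {k : Type} [Field k] [Algebra k ℂ] {V : Type} [AddCommGroup V] [Module k V]

/-- The part of `ℂ ⊗ V` on which every element `x` of the product of the fields `E i` acts, through `a`, as the number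
`f.2 (x f.1)`, `f` an embedding of the field `E f.1`. -/
noncomputable def part (a : (∀ i, E i) →+* Module.End k V) (f : Σ i, E i →+* ℂ) : Submodule ℂ (ℂ ⊗[k] V) :=
  ⨅ x : ∀ i, E i, Module.End.eigenspace ((a x).baseChange ℂ) (f.2 (x f.1))

/-- The adjoint for `e` of the action of the element `x` is the action of its complex conjugate. -/
def IsRosati (a : (∀ i, E i) →+* Module.End k V) (e : V →ₗ[k] V →ₗ[k] k) : Prop :=
  ∀ x y : ∀ i, E i, (∀ f : Σ i, E i →+* ℂ, f.2 (y f.1) = starRingEnd ℂ (f.2 (x f.1))) →
    ∀ v w, e (a x v) w = e v (a y w)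

/-- `n σ f` are the multiplicities of the embeddings `f` on a space over `K` on which `x` has the trace `t x`. -/
def IsType [∀ i, NumberField (E i)] {K : Type} [Field K] (t : (∀ i, E i) → K)
    (n : (K →+* ℂ) → (Σ i, E i →+* ℂ) → ℕ) : Prop :=
  ∀ (σ : K →+* ℂ) (x : ∀ i, E i), σ (t x) = ∑ f : Σ i, E i →+* ℂ, (n σ f : ℂ) * f.2 (x f.1)

end

/-- `G'` is the Galois group of a finite extension of `K`. -/
def IsFix (K : Type) [Field K] (G' : Subgroup (GalK K)) : Prop :=
  ∃ L : IntermediateField K (AlgebraicClosure K), FiniteDimensional K L ∧ G' = L.fixingSubgroup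

variable {G : Type} [Group G]

/-- The theorems of Tate and Faltings on the action `b` of the endomorphism algebra `D` on the Tate module and on the actions of
the subgroups `G'` with `P G'` (the Galois groups of the finite extensions of `K`; all endomorphisms are defined over `K`). -/
structure IsFaltings {k : Type} [Field k] {V : Type} [AddCommGroup V] [Module k V] (P : Subgroup G → Prop)
    (ρ : Representation k G V) {D : Type} [Ring D] [Algebra ℚ D] (b : D →+* Module.End k V) : Prop where
  comm : ∀ s x, ρ s * b x = b x * ρ s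
  inj : ∀ (m : ℕ) (d : Fin m → D), LinearIndependent ℚ d → LinearIndependent k fun j => b (d j)
  semisimple : ∀ G', P G' → ∀ U : Submodule k V, (∀ s ∈ G', ∀ u ∈ U, ρ s u ∈ U) →
    ∃ U' : Submodule k V, (∀ s ∈ G', ∀ u ∈ U', ρ s u ∈ U') ∧ IsCompl U U'
  full : ∀ G', P G' → ∀ X : Module.End k V, (∀ s ∈ G', ρ s * X = X * ρ s) → X ∈ Submodule.span k (Set.range b)

variable {H : Type} [AddCommGroup H] [Module ℂ H] {J : Type}

/-- The theorems of Tate and Sen, `H = ℂ ⊗ V_l (A)`: the projector `h` to the part of weight `1` in the Hodge-Tate decomposition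
(the tangent space) has the rank `n f` on the part `U f`, and all Tate forms of weight `i` (on the powers of `A`, over the finite
extensions of `K`) are homogeneous of weight `i`. -/
def IsHT (P : Subgroup G → Prop) (ρ : Representation ℂ G H) (μ : G →* ℂˣ) (U : J → Submodule ℂ H) (n : J → ℕ)
    (h : Module.End ℂ H) : Prop :=
  h * h = h ∧ (∀ f, Module.finrank ℂ ((U f).map h) = n f) ∧
    ∀ G', P G' → ∀ (k : ℕ) (i : ℤ) (T : MultilinearMap ℂ (fun _ : Fin k => H) ℂ),
      (∀ s ∈ G', ∀ v, T (fun j => ρ s (v j)) = ((μ s ^ i : ℂˣ) : ℂ) * T v) →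
        ∀ v, ∑ j, T (Function.update v j (h (v j))) = i * T v

end TUT
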