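import Pool.Agent.Lib.MP_021685_agUT.UD2

/-! Definitions used in the statement of `MP_021685_ag.UnitaryType`: the statement. -/

set_option autoImplicit false

namespace TUT

open Polynomial TensorProduct Pool.Agent.Lib.MP_17a322_nt.VA Pool.Agent.Lib.MP_021685_agTT

section

variable {r : ℕ} {E : Fin r → Type} [∀ i, Field (E i)] {K : Type} [Field K]
  (n : (K →+* ℂ) → (Σ i, E i →+* ℂ) → ℕ) (N : Fin r → ℕ)

/-- For every `i` there are one embedding `σ` of `K` and one embedding `φ` of `E i` such that the greatest common divisor of the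
multiplicities of `φ` and its complex conjugate is `N i` (it divides both). -/
def Coprime : Prop :=
  ∀ i, ∃ (σ : K →+* ℂ) (φ : E i →+* ℂ), Nat.gcd (n σ ⟨i, φ⟩) (n σ (cj ⟨i, φ⟩)) = N i

/-- The number `m i` is `m`: the sum of the multiplicities of two conjugate embeddings of `E i` is `m * N i`. -/
def IsRank (i : Fin r) (m : ℕ) : Prop :=
  ∀ (σ : K →+* ℂ) (φ : E i →+* ℂ), n σ ⟨i, φ⟩ + n σ (cj ⟨i, φ⟩) = m * N i

end

section

variable {K : Type} [Field K] {l : ℕ} [Fact l.Prime] {V : Type} [AddCommGroup V] [Module ℚ_[l] V]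

/-- All Tate classes on all powers of the abelian variety with the Tate module `V`, over all finite extensions of `K`, are sums of
products of Tate classes of degree two. -/
def AllTate (ρ : Representation ℚ_[l] (GalK K) V) : Prop :=
  Generated ρ (Representation.trivial ℚ_[l] (GalK K) ℚ_[l])

variable [Algebra ℚ_[l] ℂ] {r : ℕ} {E : Fin r → Type} [∀ i, Field (E i)] [∀ i, NumberField (E i)]

/-- The theorems for the separated families of fields `E i`: all multiplicities with one coprime pair for each `i` and no `m i`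
equal to `2`; all multiplicities at all, if every `m i` is `1` or an odd prime number; in these cases there are no links, and the
multiplicities are not degenerate if for each `i` one of them is different from its conjugate. -/
def Separated (ρ : Representation ℚ_[l] (GalK K) V) (n : (K →+* ℂ) → (Σ i, E i →+* ℂ) → ℕ) (N : Fin r → ℕ) : Prop :=
  TSP.Sep E →
    (Coprime n N → (∀ i, ¬ IsRank n N i 2) → AllTate ρ) ∧
    (IsShimura n N → (∀ i, ∃ m : ℕ, IsRank n N i m ∧ (m = 1 ∨ m.Prime ∧ m ≠ 2)) → AllTate ρ) ∧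
    (Coprime n N → (∀ i, ¬ IsRank n N i 2) → NoLink n N) ∧
    ((∀ i, ∃ (σ : K →+* ℂ) (φ : E i →+* ℂ), n σ ⟨i, φ⟩ ≠ n σ (cj ⟨i, φ⟩)) → Nondeg n)

/-- The criterion for all fields: if there is one coprime pair for each `i`, all Tate classes are sums of products of Tate classes
of degree two if and only if there are no twists and the multiplicities are not degenerate; instead of no twists it is enough
that there are no numerical links. -/
def Criterion (ρ : Representation ℚ_[l] (GalK K) V) (a : (∀ i, E i) →+* Module.End ℚ_[l] V)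
    (n : (K →+* ℂ) → (Σ i, E i →+* ℂ) → ℕ) (N : Fin r → ℕ) : Prop :=
  (Coprime n N → NoLink n N → Nondeg n → AllTate ρ) ∧
    (Coprime n N → NoTwist (repC ρ) (part a) N → Nondeg n → AllTate ρ) ∧
    (AllTate ρ → NoTwist (repC ρ) (part a) N) ∧
    (IsSerre (repC ρ) (IsFix K) (part a) n → AllTate ρ → Nondeg n)

end

/-- The theorems on abelian varieties all whose simple factors are of type IV. -/
def Main : Prop :=
  ∀ (K : Type) [Field K] (M : ℕ) (A : AV K M) (l : ℕ) [Fact l.Prime] [Algebra ℚ_[l] ℂ]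
    (V : Type) [AddCommGroup V] [Module ℚ_[l] V] [FiniteDimensional ℚ_[l] V] (ι : (ℕ → A.Pts (AlgebraicClosure K)) → V)
    (ρ : Representation ℚ_[l] (GalK K) V) (e : V →ₗ[ℚ_[l]] V →ₗ[ℚ_[l]] ℚ_[l])
    (D : Type) [Ring D] [Algebra ℚ D] (b : D →+* Module.End ℚ_[l] V)
    (r : ℕ) (E : Fin r → Type) [∀ i, Field (E i)] [∀ i, NumberField (E i)] (c : (∀ i, E i) →+* D)
    (t : (∀ i, E i) → K) (n : (K →+* ℂ) → (Σ i, E i →+* ℂ) → ℕ) (N : Fin r → ℕ),
    IsUnitary A l ι ρ e b c t n N → Separated ρ n N ∧ Criterion ρ (b.comp c) n N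

/-- The monic integer polynomials of degree `g` all of whose roots are real numbers in `[-B, 0)`. -/
def Tot (g B : ℕ) : Set ℤ[X] :=
  {t | t.Monic ∧ t.natDegree = g ∧ ∀ z : ℂ, aeval z t = 0 → ∃ x : ℝ, (x : ℂ) = z ∧ -(B : ℝ) ≤ x ∧ x < 0}

/-- The number field `E` is generated by a root of `t (X ^ 2)`. -/
def IsRootField (t : ℤ[X]) (E : Type) [Field E] [NumberField E] : Prop :=
  ∃ x : E, aeval (x ^ 2) t = 0 ∧ IntermediateField.adjoin ℚ {x} = ⊤

/-- The property of the polynomials `t i`: all the number fields `E i` generated by roots of the `t i (X ^ 2)` are CM fields of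
degree `2 g`, and they are separated. -/
def SepRoot (g : ℕ) {r : ℕ} (t : Fin r → ℤ[X]) : Prop :=
  ∀ (E : Fin r → Type) [∀ i, Field (E i)] [∀ i, NumberField (E i)], (∀ i, IsRootField (t i) (E i)) →
    (∀ i, NumberField.IsCMField (E i) ∧ Module.finrank ℚ (E i) = 2 * g) ∧ TSP.Sep E

/-- One hundred per cent of the CM fields of degree `2 g` are separated. -/
def AlmostAllFields : Prop :=
  ∀ g : ℕ, 3 ≤ g →
    (∀ (E : Type) [Field E] [NumberField E], NumberField.IsCMField E → Module.finrank ℚ E = 2 * g →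
      ∃ B : ℕ, 1 ≤ B ∧ ∃ t ∈ Tot g B, IsRootField t E) ∧
    ∃ C c : ℝ, 0 < c ∧ ∀ B : ℕ, 1 ≤ B → (Tot g B).Finite ∧ 0 < (Tot g B).ncard ∧
      ∀ (δ : ℝ) (Y : Set ℤ[X]), 0 < δ → Y ⊆ Tot g B → δ * ((Tot g B).ncard : ℝ) ≤ (Y.ncard : ℝ) → ∀ r : ℕ,
        (({t : Fin r → ℤ[X] | (∀ i, t i ∈ Y) ∧ ¬ SepRoot g t}).ncard : ℝ) ≤
          C * r * Real.exp (-c * Real.sqrt (Real.log B)) / δ * (Y.ncard : ℝ) ^ r

/-- Almost all multiplicities `s` on a CM field of degree `2 g` with `s φ + s (conj φ) = m` have a coprime pair. -/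
def AlmostAllSignatures : Prop :=
  ∀ (E : Type) [Field E] [NumberField E], NumberField.IsCMField E → ∀ g : ℕ, Module.finrank ℚ E = 2 * g →
    ∀ m : ℕ, 1 ≤ m →
      ({s : (E →+* ℂ) → ℕ | ∀ φ, s φ + s ((starRingEnd ℂ).comp φ) = m}).ncard = (m + 1) ^ g ∧
        ({s : (E →+* ℂ) → ℕ | (∀ φ, s φ + s ((starRingEnd ℂ).comp φ) = m) ∧
          ∀ φ, ¬ Nat.Coprime (s φ) (s ((starRingEnd ℂ).comp φ))}).ncard ≤ (m + 1 - Nat.totient m) ^ g

/-- The Tate module exists for every abelian variety and every prime number. -/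
def Models : Prop :=
  ∀ (K : Type) [Field K] (M : ℕ) (A : AV K M) (l : ℕ) [Fact l.Prime],
    ∃ (V : Type) (_ : AddCommGroup V) (_ : Module ℚ_[l] V) (_ : FiniteDimensional ℚ_[l] V)
      (ι : (ℕ → A.Pts (AlgebraicClosure K)) → V) (ρ : Representation ℚ_[l] (GalK K) V), IsGalMod A l ι ρ

end TUT
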