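import Pool.Agent.Lib.MP_021685_agUT.K4
import Pool.Agent.Lib.MP_021685_agUT.L1
import Pool.Agent.Lib.MP_021685_agUT.I2
import Pool.Agent.Lib.MP_021685_agUT.J0
import Pool.Agent.Lib.MP_021685_agUT.J3
import Pool.Agent.Lib.MP_021685_agUT.UD2
import Pool.Agent.Lib.MP_021685_agUT.M3
import Pool.Agent.Lib.MP_021685_agUT.M4
import Pool.Agent.Lib.MP_021685_agUT.M6
import Pool.Agent.Lib.MP_021685_agUT.Q3
import Pool.Agent.Lib.MP_021685_agUT.R1
import Pool.Agent.Lib.MP_021685_agUT.R2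
import Pool.Agent.Lib.MP_021685_agUT.T2

/-! The theorem in terms of Tate modules. -/

set_option autoImplicit false

namespace TUT

open TensorProduct Module Pool.Agent.Lib.MP_17a322_nt.VA Pool.Agent.Lib.MP_021685_agTT

theorem bc_span {k : Type} [Field k] [Algebra k ℂ] {V : Type} [AddCommGroup V] [Module k V] {ι : Type}
    (g : ι → End k V) {X : End k V} (hX : X ∈ Submodule.span k (Set.range g)) :
    X.baseChange ℂ ∈ Submodule.span ℂ {Z : End ℂ (ℂ ⊗[k] V) | ∃ z, Z = (g z).baseChange ℂ} := by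
  induction hX using Submodule.span_induction with
  | mem X hX =>
    obtain ⟨z, rfl⟩ := hX
    exact Submodule.subset_span ⟨z, rfl⟩
  | zero =>
    rw [LinearMap.baseChange_zero]
    exact Submodule.zero_mem _
  | add X Y _ _ hX hY =>
    rw [LinearMap.baseChange_add]
    exact Submodule.add_mem _ hX hY
  | smul c X _ hX =>
    rw [LinearMap.baseChange_smul, ← algebraMap_smul ℂ c]
    exact Submodule.smul_mem _ _ hX

theorem bc_comm {k : Type} [Field k] [Algebra k ℂ] {V : Type} [AddCommGroup V] [Module k V] {X Y : End k V}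
    (h : X * Y = Y * X) : X.baseChange ℂ * Y.baseChange ℂ = Y.baseChange ℂ * X.baseChange ℂ := by
  rw [Module.End.mul_eq_comp, Module.End.mul_eq_comp, ← LinearMap.baseChange_comp, ← LinearMap.baseChange_comp,
    ← Module.End.mul_eq_comp, ← Module.End.mul_eq_comp, h]

theorem span_comm {k : Type} [Field k] {V : Type} [AddCommGroup V] [Module k V] {S : Set (End k V)} {X : End k V}
    (hX : X ∈ Submodule.span k S) {Y : End k V} (h : ∀ Z ∈ S, Z * Y = Y * Z) : X * Y = Y * X := by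
  induction hX using Submodule.span_induction with
  | mem Z hZ => exact h Z hZ
  | zero => rw [mul_zero, zero_mul]
  | add x y _ _ hx hy => rw [mul_add, add_mul, hx, hy]
  | smul c x _ hx => rw [mul_smul_comm, smul_mul_assoc, hx]

section

variable {r : ℕ} {E : Fin r → Type} [∀ i, Field (E i)]

theorem cj_cj (f : Σ i, E i →+* ℂ) : cj (cj f) = f := by
  obtain ⟨i, φ⟩ := f
  show (⟨i, (starRingEnd ℂ).comp ((starRingEnd ℂ).comp φ)⟩ : Σ i, E i →+* ℂ) = ⟨i, φ⟩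
  have h1 : (starRingEnd ℂ).comp ((starRingEnd ℂ).comp φ) = φ := by
    ext x
    exact Complex.conj_conj (φ x)
  rw [h1]

theorem cj_ne [∀ i, NumberField (E i)] (hCM : ∀ i, NumberField.IsCMField (E i)) (f : Σ i, E i →+* ℂ) : cj f ≠ f := by
  obtain ⟨i, φ⟩ := f
  intro h
  have h1 : (starRingEnd ℂ).comp φ = φ := eq_of_heq (Sigma.mk.inj h).2
  have := hCM i
  have h2 : ¬ NumberField.ComplexEmbedding.IsReal φ := by
    have h3 : NumberField.IsTotallyComplex (E i) := inferInstance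
    have h4 := h3.isComplex (NumberField.InfinitePlace.mk φ)
    intro h5
    rw [← NumberField.InfinitePlace.not_isReal_iff_isComplex] at h4
    exact h4 ⟨φ, h5, rfl⟩
  exact h2 h1

end

theorem exists_conj_fix {K : Type} [Field K] (L : IntermediateField K (AlgebraicClosure K)) (hL : FiniteDimensional K L)
    (g : GalK K) : ∃ L' : IntermediateField K (AlgebraicClosure K), FiniteDimensional K L' ∧
      ∀ s ∈ L'.fixingSubgroup, g * s * g⁻¹ ∈ L.fixingSubgroup := by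
  refine ⟨L.map ((g⁻¹ : GalK K) : AlgebraicClosure K →ₐ[K] AlgebraicClosure K), inferInstance, fun s hs => ?_⟩
  rw [IntermediateField.mem_fixingSubgroup_iff] at hs ⊢
  intro x hx
  have h1 := hs (g⁻¹ x) ⟨x, hx, rfl⟩
  show g (s (g⁻¹ x)) = x
  rw [h1]
  exact g.apply_symm_apply x

section

variable {K : Type} [Field K] {M : ℕ} {A : AV K M} {l : ℕ} [Fact l.Prime] [Algebra ℚ_[l] ℂ]
    {V : Type} [AddCommGroup V] [Module ℚ_[l] V] [FiniteDimensional ℚ_[l] V] {ι : (ℕ → A.Pts (AlgebraicClosure K)) → V}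
    {ρ : Representation ℚ_[l] (GalK K) V} {e : V →ₗ[ℚ_[l]] V →ₗ[ℚ_[l]] ℚ_[l]}
    {D : Type} [Ring D] [Algebra ℚ D] {b : D →+* Module.End ℚ_[l] V}
    {r : ℕ} {E : Fin r → Type} [∀ i, Field (E i)] [∀ i, NumberField (E i)] {c : (∀ i, E i) →+* D}
    {t : (∀ i, E i) → K} {n : (K →+* ℂ) → (Σ i, E i →+* ℂ) → ℕ} {N : Fin r → ℕ}

/-- The data over `ℂ`. -/
structure Frame (ρ : Representation ℚ_[l] (GalK K) V) (e : V →ₗ[ℚ_[l]] V →ₗ[ℚ_[l]] ℚ_[l])
    (a : (∀ i, E i) →+* Module.End ℚ_[l] V) (n : (K →+* ℂ) → (Σ i, E i →+* ℂ) → ℕ) (N : Fin r → ℕ)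
    (p : (Σ i, E i →+* ℂ) → End ℂ (ℂ ⊗[ℚ_[l]] V)) (h : (K →+* ℂ) → End ℂ (ℂ ⊗[ℚ_[l]] V)) : Prop where
  big : Big (bilC e) cj p (repC ρ) (charC (cyc K l))
  range : ∀ f, LinearMap.range (p f) = part a f
  dim : ∀ f, finrank ℂ (cblk (repC ρ) p f) = N f.1 ^ 2
  pos : ∀ i, 0 < N i
  idem : ∀ σ, h σ * h σ = h σ
  kills : ∀ σ, Kills (repC ρ) (charC (cyc K l)) (IsFix K) (h σ) 1
  rank : ∀ σ f, finrank ℂ (LinearMap.range (h σ * p f)) = n σ f

theorem isFix_bot : ∃ G', IsFix K G' := ⟨_, ⊥, inferInstance, rfl⟩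

theorem mem_comm_iff (hF : IsFaltings (IsFix K) ρ b) (Y : End ℂ (ℂ ⊗[ℚ_[l]] V)) : Y ∈ comm (repC ρ) ↔
    Y ∈ Submodule.span ℂ {Z : End ℂ (ℂ ⊗[ℚ_[l]] V) | ∃ z, Z = (b z).baseChange ℂ} := by
  constructor
  · intro hY
    obtain ⟨m, x, X, hX, rfl⟩ := expand_comm (Set.range ρ) Y (by
      rintro _ ⟨s, rfl⟩
      exact hY s)
    refine Submodule.sum_mem _ fun j _ => Submodule.smul_mem _ _ (bc_span _ ?_)
    exact hF.full _ ⟨⊥, inferInstance, rfl⟩ (X j) fun s _ => hX j _ ⟨s, rfl⟩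
  · intro hY s
    refine (span_comm hY ?_).symm
    rintro _ ⟨z, rfl⟩
    exact bc_comm (hF.comm s z).symm

theorem IsUnitary.frame (hu : IsUnitary A l ι ρ e b c t n N) : ∃ p h, Frame ρ e (b.comp c) n N p h := by
  classical
  have hι := hu.tate
  have hCM := hu.cm
  have hF := hu.faltings
  have hR := hu.rosati
  have hHT := hu.ht
  obtain ⟨hnd, halt, he⟩ := hu.weil
  have he : ∀ (s : GalK K) (v w : V), e (ρ s v) (ρ s w) = (cyc K l s : ℚ_[l]) * e v w := fun s => he s (by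
    rw [IntermediateField.fixingSubgroup_bot]
    exact Subgroup.mem_top _)
  obtain ⟨p, hp1, hp2, hp3, hp4, hp5, hp6, hp7⟩ := exists_idem (b.comp c)
  have hadj := hp7 hCM (bilC e) fun x y hxy v w => by
    have h1 : (bilC e) ∘ₗ (((b.comp c) x).baseChange ℂ) = (bilC e).compl₂ (((b.comp c) y).baseChange ℂ) := by
      refine bil_ext fun v w => ?_
      rw [LinearMap.comp_apply, LinearMap.compl₂_apply, LinearMap.baseChange_tmul, LinearMap.baseChange_tmul,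
        bilC_tmul, bilC_tmul, hR x y hxy]
    exact LinearMap.congr_fun₂ h1 v w
  have heC : ∀ (s : GalK K) (v w : ℂ ⊗[ℚ_[l]] V), bilC e (repC ρ s v) (repC ρ s w) =
      (charC (cyc K l) s : ℂ) * bilC e v w := by
    intro s v w
    have h : (bilC e).compl₁₂ ((ρ s).baseChange ℂ) ((ρ s).baseChange ℂ) = (charC (cyc K l) s : ℂ) • bilC e := by
      refine bil_ext fun v w => ?_
      rw [LinearMap.compl₁₂_apply, LinearMap.baseChange_tmul, LinearMap.baseChange_tmul, bilC_tmul,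
        he, LinearMap.smul_apply, LinearMap.smul_apply, bilC_tmul, map_mul, smul_eq_mul, charC_apply]
    have h1 := LinearMap.congr_fun₂ h v w
    rwa [LinearMap.compl₁₂_apply, LinearMap.smul_apply, LinearMap.smul_apply, smul_eq_mul] at h1
  have hb : Blk (bilC e) cj p := ⟨bilC_alt e halt, bilC_nondeg e halt hnd, cj_cj, cj_ne hCM, hp1, hp2, hp3, hadj⟩
  have hmem : ∀ f, p f ∈ comm (repC ρ) := fun f => (mem_comm_iff hF _).2
    (Submodule.span_mono (by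
      rintro _ ⟨x, rfl⟩
      exact ⟨c x, rfl⟩) (hp6 f))
  have hdim : ∀ f, finrank ℂ (cblk (repC ρ) p f) = N f.1 ^ 2 := fun f =>
    finrank_blk b hF.inj hu.centre p hp1 hp2 hp5 hp6 f (cblk (repC ρ) p f) fun Y => by
      rw [← mem_comm_iff hF]
      exact Iff.rfl
  choose h hh using hHT
  refine ⟨p, h, ⟨hb, fun f hf => ?_, heC, hmem, fun f Y hY => ?_, fun X hX hXc => ?_, fun X hX h0 => ?_,
    fun G' hG' X hX => ?_⟩, hp4, hdim, hu.centre.pos, fun σ => (hh σ).1, ?_, fun σ f => ?_⟩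
  · have h1 : cblk (repC ρ) p f = ⊥ := by
      rw [eq_bot_iff]
      intro Y hY
      have h2 : Y * p f = Y := hY.2
      rw [hf, mul_zero] at h2
      rw [← h2]
      exact Submodule.zero_mem _
    have h2 := hdim f
    rw [h1, finrank_bot] at h2
    exact absurd h2 (Nat.pow_pos (hu.centre.pos f.1)).ne
  · refine span_comm (hp6 f) ?_
    rintro _ ⟨x, rfl⟩
    refine (span_comm ((mem_comm_iff hF Y).1 hY) ?_).symm
    rintro _ ⟨z, rfl⟩
    refine bc_comm ?_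
    show b z * b (c x) = b (c x) * b z
    rw [← map_mul, ← map_mul, (hu.centre.centre (c x)).2 ⟨x, rfl⟩ z]
  · obtain ⟨m, y, Z, hZ, rfl⟩ := expand_comm (Set.range ρ ∪ Set.range b) X (by
      rintro _ (⟨s, rfl⟩ | ⟨z, rfl⟩)
      · exact hX s
      · exact (hXc _ ((mem_comm_iff hF _).2 (Submodule.subset_span ⟨z, rfl⟩))).symm)
    refine Submodule.sum_mem _ fun j _ => Submodule.smul_mem _ _ ?_
    have h1 := hF.full _ ⟨⊥, inferInstance, rfl⟩ (Z j) fun s _ => hZ j _ (Or.inl ⟨s, rfl⟩)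
    have h2 := centre_k b hF.inj hu.centre (Z j) h1 fun z => (hZ j _ (Or.inr ⟨z, rfl⟩)).symm
    refine Submodule.span_le.2 ?_ (bc_span _ h2)
    rintro _ ⟨x, rfl⟩
    show ((b.comp c) x).baseChange ℂ ∈ Submodule.span ℂ (Set.range p)
    rw [hp5]
    exact Submodule.sum_mem _ fun f _ => Submodule.smul_mem _ _ (Submodule.subset_span ⟨f, rfl⟩)
  · refine nd_C ρ (fun U hU => ?_) X hX h0
    obtain ⟨U', h1, h2⟩ := hF.semisimple _ ⟨⊥, inferInstance, rfl⟩ U fun s _ => hU s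
    exact ⟨U', fun s => h1 s (by
      rw [IntermediateField.fixingSubgroup_bot]
      exact Subgroup.mem_top _), h2⟩
  · exact dens_galois ρ (cont_V hι) b hF G' hG' X fun z =>
      hX _ ((mem_comm_iff hF _).2 (Submodule.subset_span ⟨z, rfl⟩))
  · intro σ G' hG' k i T hT v
    rw [mul_one]
    exact (hh σ).2.2 G' hG' k i T hT v
  · rw [Module.End.mul_eq_comp, LinearMap.range_comp, hp4]
    exact (hh σ).2.1 f

theorem isFix_conj (G' : Subgroup (GalK K)) (hG' : IsFix K G') (g : GalK K) :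
    ∃ G'', IsFix K G'' ∧ ∀ s ∈ G'', g * s * g⁻¹ ∈ G' := by
  obtain ⟨L, hL, rfl⟩ := hG'
  obtain ⟨L', hL', h1⟩ := exists_conj_fix L hL g
  exact ⟨_, ⟨L', hL', rfl⟩, h1⟩

variable {a : (∀ i, E i) →+* Module.End ℚ_[l] V} {p : (Σ i, E i →+* ℂ) → End ℂ (ℂ ⊗[ℚ_[l]] V)}
  {h : (K →+* ℂ) → End ℂ (ℂ ⊗[ℚ_[l]] V)}

theorem Frame.sum (hf : Frame ρ e a n N p h) (σ : K →+* ℂ) (f : Σ i, E i →+* ℂ) :
    n σ f + n σ (cj f) = finrank ℂ (LinearMap.range (p f)) := by
  rcases subsingleton_or_nontrivial (ℂ ⊗[ℚ_[l]] V) with hs | hs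
  · exact absurd (LinearMap.ext fun x => Subsingleton.elim _ _) (hf.big.ne f)
  · obtain ⟨B, c, hA, -, hk, -⟩ :=
      exists_lie hf.big.blk (repC ρ) (charC (cyc K l)) hf.big.he (fun s f => hf.big.mem f s) (IsFix K) isFix_bot
        isFix_conj
    rw [← hf.rank, ← hf.rank]
    exact finrank_add hf.big.blk hA (hk _ _ (hf.kills σ)).1 (hf.idem σ) (hk _ _ (hf.kills σ)).2 f

theorem Frame.finite (hf : Frame ρ e a n N p h) : (Set.range n).Finite := by
  classical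
  refine (Set.finite_Iic (fun f => finrank ℂ (LinearMap.range (p f)))).subset ?_
  rintro _ ⟨σ, rfl⟩ f
  show n σ f ≤ finrank ℂ (LinearMap.range (p f))
  have h1 := hf.sum σ f
  omega

/-- The criterion, sufficiency. -/
theorem IsUnitary.generated (hu : IsUnitary A l ι ρ e b c t n N)
    (hcop : ∀ i, ∃ (σ : K →+* ℂ) (φ : E i →+* ℂ), Nat.gcd (n σ ⟨i, φ⟩) (n σ (cj ⟨i, φ⟩)) = N i)
    (hlink : NoLink n N ∨ NoTwist (repC ρ) (part (b.comp c)) N) (hnd : Nondeg n) : Generated ρ (Representation.trivial ℚ_[l] (GalK K) ℚ_[l]) := by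
  classical
  obtain ⟨p, h, hf⟩ := hu.frame
  have hn : ∀ (τ : ℂ ≃+* ℂ) (σ : K →+* ℂ) (f : Σ i, E i →+* ℂ),
      n ((τ : ℂ →+* ℂ).comp σ) ⟨f.1, (τ : ℂ →+* ℂ).comp f.2⟩ = n σ f := fun τ σ f => hu.type.comp τ σ f
  have hcop' : ∀ f : Σ i, E i →+* ℂ, ∃ σ : K →+* ℂ, Nat.gcd (n σ f) (n σ (cj f)) = N f.1 := by
    rintro ⟨i, φ⟩
    exact prop_one hu.cm hn (fun x y => Nat.gcd x y = N i) i (hcop i) φ
  have := hf.finite.fintype
  let sg : Set.range n → (K →+* ℂ) := fun s => s.2.choose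
  have hsg : ∀ s : Set.range n, n (sg s) = s.1 := fun s => s.2.choose_spec
  refine generated_of fun L hL k i T hT => ?_
  refine product_of_pg (fun T hT => ?_) (repC (Representation.trivial ℚ_[l] (GalK K) ℚ_[l])) (fun g w => ?_) T hT
  · refine hf.big.core (IsFix K) isFix_bot isFix_conj (fun s : Set.range n => h (sg s)) (fun s f => s.1 f)
      (fun f => N f.1) (fun f => hf.pos _) hf.dim (fun f => rfl) (fun s => hf.idem _) (fun s => hf.kills _)
      (fun s f => by rw [hf.rank, hsg]) (fun f => ?_) (fun f g h1 h2 h3 h4 => ?_) (fun f => ?_) ⟨L, hL, rfl⟩ T hT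
    · obtain ⟨σ, hσ⟩ := hcop' f
      exact ⟨⟨n σ, σ, rfl⟩, hσ⟩
    · rcases hlink with hlink | hlink
      · obtain ⟨σ, hσ⟩ := hlink f g h1 h2 (fun σ => h3 ⟨n σ, σ, rfl⟩) fun σ => h4 ⟨n σ, σ, rfl⟩
        exact Or.inl ⟨⟨n σ, σ, rfl⟩, hσ⟩
      · refine Or.inr fun Θ h5 h6 h7 => ?_
        choose χ hχ using h7
        have h8 : finrank ℂ (part (b.comp c) f) ≠ N f.1 := by
          obtain ⟨σ, -⟩ := hcop' f
          have h9 := h3 ⟨n σ, σ, rfl⟩
          have h10 : n σ f + n σ (cj f) = finrank ℂ (part (b.comp c) f) := by rw [hf.sum, hf.range]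
          have h11 := hf.pos f.1
          show finrank ℂ (part (b.comp c) f) ≠ N f.1
          have h12 : 2 * N f.1 ≤ n σ f + n σ (cj f) := h9
          omega
        have h9 := hlink f g h1 h2 h8 χ Θ (fun v hv => by
          rw [← hf.range g]
          exact ⟨Θ v, LinearMap.congr_fun h5 v⟩) fun s v hv => LinearMap.congr_fun (hχ s) v
        rw [← h6]
        refine LinearMap.ext fun v => ?_
        exact h9 (p f v) (by rw [← hf.range f]; exact ⟨v, rfl⟩)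
    · exact centre_of_nondeg cj hf.big.blk.bb hf.big.blk.bne
        (fun s => ⟨fun f => s.1 (cj f), (starRingEnd ℂ).comp (sg s), funext fun f => by
          rw [conj_type hn, hsg]⟩) (fun (s : Set.range n) f => s.1 f)
        (fun s f => rfl) (fun z hz h0 => hnd z hz fun σ => h0 ⟨n σ, σ, rfl⟩) f
  · show ((Representation.trivial ℚ_[l] (GalK K) ℚ_[l]) g).baseChange ℂ w = w
    have h1 : (Representation.trivial ℚ_[l] (GalK K) ℚ_[l]) g = LinearMap.id := rfl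
    rw [h1, LinearMap.baseChange_id]
    rfl

/-- Separated fields: there are no links. -/
theorem IsUnitary.noLink (hu : IsUnitary A l ι ρ e b c t n N) (hsep : TSP.Sep E)
    (hcop : ∀ i, ∃ (σ : K →+* ℂ) (φ : E i →+* ℂ), Nat.gcd (n σ ⟨i, φ⟩) (n σ (cj ⟨i, φ⟩)) = N i ∧
      n σ ⟨i, φ⟩ + n σ (cj ⟨i, φ⟩) ≠ 2 * N i) : NoLink n N := by
  obtain ⟨p, h, hf⟩ := hu.frame
  have hn : ∀ (τ : ℂ ≃+* ℂ) (σ : K →+* ℂ) (f : Σ i, E i →+* ℂ),
      n ((τ : ℂ →+* ℂ).comp σ) ⟨f.1, (τ : ℂ →+* ℂ).comp f.2⟩ = n σ f := fun τ σ f => hu.type.comp τ σ f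
  have hall : ∀ f : Σ i, E i →+* ℂ, ∃ σ : K →+* ℂ, Nat.gcd (n σ f) (n σ (cj f)) = N f.1 ∧
      n σ f + n σ (cj f) ≠ 2 * N f.1 := by
    rintro ⟨i, φ⟩
    exact prop_one hu.cm hn (fun x y => Nat.gcd x y = N i ∧ x + y ≠ 2 * N i) i (hcop i) φ
  exact fun f g h1 h2 h3 _ => no_link hsep hn (fun σ σ' f => by rw [hf.sum, hf.sum]) hf.pos hall f g h1 h2 h3

/-- Separated fields: the multiplicities are not degenerate. -/
theorem IsUnitary.nondeg_sep (hu : IsUnitary A l ι ρ e b c t n N) (hsep : TSP.Sep E)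
    (h1 : ∀ i, ∃ (σ : K →+* ℂ) (φ : E i →+* ℂ), n σ ⟨i, φ⟩ ≠ n σ (cj ⟨i, φ⟩)) : Nondeg n := by
  have hn : ∀ (τ : ℂ ≃+* ℂ) (σ : K →+* ℂ) (f : Σ i, E i →+* ℂ),
      n ((τ : ℂ →+* ℂ).comp σ) ⟨f.1, (τ : ℂ →+* ℂ).comp f.2⟩ = n σ f := fun τ σ f => hu.type.comp τ σ f
  refine nondeg_of_sep hu.cm hsep hn ?_
  rintro ⟨i, φ⟩
  exact prop_one hu.cm hn (fun x y => x ≠ y) i (h1 i) φ

/-- The theorem for separated fields. -/
theorem IsUnitary.generated_sep (hu : IsUnitary A l ι ρ e b c t n N) (hsep : TSP.Sep E)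
    (hcop : ∀ i, ∃ (σ : K →+* ℂ) (φ : E i →+* ℂ), Nat.gcd (n σ ⟨i, φ⟩) (n σ (cj ⟨i, φ⟩)) = N i ∧
      n σ ⟨i, φ⟩ + n σ (cj ⟨i, φ⟩) ≠ 2 * N i) : Generated ρ (Representation.trivial ℚ_[l] (GalK K) ℚ_[l]) := by
  refine hu.generated (fun i => ?_) (Or.inl (hu.noLink hsep hcop)) (hu.nondeg_sep hsep fun i => ?_)
  · obtain ⟨σ, φ, h1, -⟩ := hcop i
    exact ⟨σ, φ, h1⟩
  · obtain ⟨σ, φ, h1, h2⟩ := hcop i
    refine ⟨σ, φ, fun h3 => h2 ?_⟩
    rw [← h3, Nat.gcd_self] at h1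
    omega

/-- The multiplicities are divisible by `N i`. -/
theorem IsUnitary.dvd (hu : IsUnitary A l ι ρ e b c t n N) (σ : K →+* ℂ) (f : Σ i, E i →+* ℂ) : N f.1 ∣ n σ f := by
  obtain ⟨p, h, hf⟩ := hu.frame
  rw [← hf.rank σ f]
  exact hf.big.dvd hf.dim (h σ) (fun Y hY => Kills.comm hf.big.blk.nd hf.big.he isFix_bot (hf.kills σ) Y hY) f

/-- The condition on the multiplicities for prime numbers. -/
theorem IsUnitary.cop_prime (hu : IsUnitary A l ι ρ e b c t n N) (hS : IsShimura n N) (i : Fin r)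
    (hq : ∃ q : ℕ, (q = 1 ∨ q.Prime ∧ q ≠ 2) ∧ ∀ (σ : K →+* ℂ) (φ : E i →+* ℂ),
      n σ ⟨i, φ⟩ + n σ (cj ⟨i, φ⟩) = q * N i) :
    ∃ (σ : K →+* ℂ) (φ : E i →+* ℂ), Nat.gcd (n σ ⟨i, φ⟩) (n σ (cj ⟨i, φ⟩)) = N i ∧
      n σ ⟨i, φ⟩ + n σ (cj ⟨i, φ⟩) ≠ 2 * N i := by
  obtain ⟨σ, hσ⟩ := hS i
  obtain ⟨q, hq1, hq2⟩ := hq
  have hN := hu.centre.pos i
  have hdvd : ∀ f : Σ i, E i →+* ℂ, N f.1 ∣ n σ f := fun f => hu.dvd σ f
  rcases hq1 with rfl | ⟨hp, h2⟩
  · obtain ⟨φ⟩ : Nonempty (E i →+* ℂ) := inferInstance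
    refine ⟨σ, φ, ?_, ?_⟩
    · obtain ⟨x, hx⟩ := hdvd ⟨i, φ⟩
      obtain ⟨y, hy⟩ := hdvd (cj ⟨i, φ⟩)
      have h1 := hq2 σ φ
      have hy' : n σ (cj ⟨i, φ⟩) = N i * y := hy
      have hx' : n σ ⟨i, φ⟩ = N i * x := hx
      rw [hx', hy', one_mul, ← mul_add] at h1
      have h3 : x + y = 1 := Nat.eq_of_mul_eq_mul_left hN (by rw [h1, mul_one])
      rw [hx', hy', Nat.gcd_mul_left]
      have h4 : x = 0 ∧ y = 1 ∨ x = 1 ∧ y = 0 := by omega
      rcases h4 with ⟨rfl, rfl⟩ | ⟨rfl, rfl⟩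
      · rw [Nat.gcd_zero_left, mul_one]
      · rw [Nat.gcd_zero_right, mul_one]
    · rw [hq2 σ φ]
      omega
  · obtain ⟨φ, h3, h4⟩ : ∃ φ : E i →+* ℂ, n σ ⟨i, φ⟩ ≠ 0 ∧ n σ (cj ⟨i, φ⟩) ≠ 0 := by
      by_contra hcon
      push Not at hcon
      obtain ⟨φ⟩ : Nonempty (E i →+* ℂ) := inferInstance
      have h5 := hσ (fun φ => by
        by_cases h6 : n σ ⟨i, φ⟩ = 0
        · exact Or.inl h6
        · exact Or.inr (hcon φ h6)) φ
      rw [hq2 σ φ] at h5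
      have h6 : q = 1 := Nat.eq_of_mul_eq_mul_right hN (by rw [h5, one_mul])
      exact hp.one_lt.ne' h6
    refine ⟨σ, φ, ?_, ?_⟩
    · obtain ⟨x, hx⟩ := hdvd ⟨i, φ⟩
      obtain ⟨y, hy⟩ := hdvd (cj ⟨i, φ⟩)
      have h1 := hq2 σ φ
      have hy' : n σ (cj ⟨i, φ⟩) = N i * y := hy
      have hx' : n σ ⟨i, φ⟩ = N i * x := hx
      rw [hx', hy', mul_comm q, ← mul_add] at h1
      have h5 : x + y = q := Nat.eq_of_mul_eq_mul_left hN h1
      have hx0 : x ≠ 0 := fun h => h3 (by rw [hx', h, mul_zero])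
      have hy0 : y ≠ 0 := fun h => h4 (by rw [hy', h, mul_zero])
      rw [hx', hy', Nat.gcd_mul_left]
      have h6 : Nat.Coprime x y := by
        have h7 : Nat.Coprime q x := (Nat.Prime.coprime_iff_not_dvd hp).2 fun h => by
          have h8 := Nat.le_of_dvd (Nat.pos_of_ne_zero hx0) h
          omega
        rw [← h5, add_comm] at h7
        have h8 : Nat.Coprime y x := (Nat.coprime_add_self_left).1 h7
        exact h8.symm
      rw [h6, mul_one]
    · rw [hq2 σ φ]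
      intro h5
      exact h2 (Nat.eq_of_mul_eq_mul_right hN h5)

/-- The criterion, necessity. -/
theorem IsUnitary.nondeg (hu : IsUnitary A l ι ρ e b c t n N) (hS : IsSerre (repC ρ) (IsFix K) (part (b.comp c)) n)
    (hgen : Generated ρ (Representation.trivial ℚ_[l] (GalK K) ℚ_[l])) : Nondeg n := by
  classical
  obtain ⟨p, h, hf⟩ := hu.frame
  intro z hz h0 f₀
  by_contra hz0
  have hpos : ∀ f, 0 < finrank ℂ (LinearMap.range (p f)) := by
    intro f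
    rw [Nat.pos_iff_ne_zero]
    intro h1
    rw [Submodule.finrank_eq_zero, LinearMap.range_eq_bot] at h1
    exact hf.big.ne f h1
  obtain ⟨_, ⟨L, hL, rfl⟩, hdet⟩ := hS z h0
  have hdet' : ∀ s ∈ L.fixingSubgroup, ∀ d : (Σ i, E i →+* ℂ) → ℂ, (∀ f, ∃ u : End ℂ (LinearMap.range (p f)),
      (∀ v : LinearMap.range (p f), ((u v : LinearMap.range (p f)) : ℂ ⊗[ℚ_[l]] V) = repC ρ s v) ∧
        LinearMap.det u = d f) → ∏ f, d f ^ z f = 1 := by
    intro s hs d hd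
    refine hdet s hs d fun f => ?_
    have h1 := hd f
    rw [hf.range f] at h1
    exact h1
  obtain ⟨k, i, T, v, hT, hTv, hk, hv⟩ :=
    exists_det_form hf.big.blk hf.big.he (fun s f => hf.big.mem f s) hpos z hz f₀ hz0 _ hdet'
  have hspan := core_of_generated hgen L hL i T hT
  refine hTv ?_
  have key : ∀ T' ∈ Submodule.span ℂ {T' : MultilinearMap ℂ (fun _ : Fin k => ℂ ⊗[ℚ_[l]] V) ℂ | ∃ (L' : IntermediateField K (AlgebraicClosure K)) (m : ℕ)
      (ε : Fin m ⊕ Fin m ≃ Fin k) (β : Fin m → (ℂ ⊗[ℚ_[l]] V) →ₗ[ℂ] (ℂ ⊗[ℚ_[l]] V) →ₗ[ℂ] ℂ), FiniteDimensional K L' ∧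
      (∀ j, TGR.IsPairing (repC ρ) (charC (cyc K l)) L'.fixingSubgroup (β j)) ∧
      ∀ v, T' v = ∏ j, β j (v (ε (Sum.inl j))) (v (ε (Sum.inr j)))}, T' v = 0 := by
    intro T' hT'
    induction hT' using Submodule.span_induction with
    | mem T' h' =>
      obtain ⟨L', m, ε, β, hL', hβ, hT'⟩ := h'
      rw [hT' v]
      have hm : 0 < m := by
        have h1 := Fintype.card_congr ε
        simp only [Fintype.card_sum, Fintype.card_fin] at h1
        omega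
      refine Finset.prod_eq_zero (Finset.mem_univ (⟨0, hm⟩ : Fin m)) ?_
      obtain ⟨f, hf1, hf2⟩ := hv (ε (Sum.inl ⟨0, hm⟩))
      obtain ⟨g, hg1, hg2⟩ := hv (ε (Sum.inr ⟨0, hm⟩))
      refine pairing_zero hf.big.blk hf.big.he _ (hf.big.dens _ (finiteIndex_fixing L') (p f)
        fun Y hY => hf.big.central f Y hY) (β ⟨0, hm⟩) (hβ _) (f := f) (g := g) ?_ _ _ hf2 hg2
      rintro rfl
      rw [hz] at hg1
      omega
    | zero => rfl
    | add x y _ _ hx hy => rw [add_apply, hx, hy, add_zero]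
    | smul c x _ hx => rw [smul_apply, hx, smul_zero]
  exact key T hspan

/-- The criterion, necessity: there are no twists. -/
theorem IsUnitary.noTwist (hu : IsUnitary A l ι ρ e b c t n N)
    (hgen : Generated ρ (Representation.trivial ℚ_[l] (GalK K) ℚ_[l])) : NoTwist (repC ρ) (part (b.comp c)) N := by
  classical
  obtain ⟨p, h, hf⟩ := hu.frame
  intro f g h1 h2 h3 χ Θ h4 h5 v hv
  by_contra hcon
  have hpf : ∀ x, p f x ∈ part (b.comp c) f := fun x => by rw [← hf.range f]; exact ⟨x, rfl⟩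
  have hfix : ∀ g, ∀ x ∈ part (b.comp c) g, p g x = x := by
    intro g x hx
    rw [← hf.range g] at hx
    obtain ⟨y, rfl⟩ := hx
    exact LinearMap.congr_fun (hf.big.blk.idem g) y
  have h6 : p g * (Θ * p f) * p f = Θ * p f := by
    refine LinearMap.ext fun x => ?_
    show p g (Θ (p f (p f x))) = Θ (p f x)
    rw [hfix f _ (hpf x), hfix g _ (h4 _ (hpf x))]
  obtain ⟨T, w, hT, hTw, hw⟩ := hf.big.exists_exotic h1 h2 (hf.dim f) (by rw [hf.range f]; exact h3)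
    (⊥ : IntermediateField K (AlgebraicClosure K)).fixingSubgroup (finiteIndex_fixing _) χ (Θ * p f)
    (fun s _ => by
      refine LinearMap.ext fun x => ?_
      show Θ (p f (repC ρ s x)) = χ s • repC ρ s (Θ (p f x))
      have h7 : p f (repC ρ s x) = repC ρ s (p f x) := (LinearMap.congr_fun (hf.big.mem f s) x).symm
      rw [h7, h5 s _ (hpf x)]) (by
      rw [h6]
      intro h7
      have h8 := LinearMap.congr_fun h7 v
      rw [Module.End.mul_apply, hfix f v hv] at h8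
      exact hcon h8)
  have hspan := core_of_generated hgen ⊥ inferInstance 2 T hT
  refine hTw ?_
  have key : ∀ T' ∈ Submodule.span ℂ {T' : MultilinearMap ℂ (fun _ : Fin 4 => ℂ ⊗[ℚ_[l]] V) ℂ | ∃ (L' : IntermediateField K (AlgebraicClosure K)) (m : ℕ)
      (ε : Fin m ⊕ Fin m ≃ Fin 4) (β : Fin m → (ℂ ⊗[ℚ_[l]] V) →ₗ[ℂ] (ℂ ⊗[ℚ_[l]] V) →ₗ[ℂ] ℂ), FiniteDimensional K L' ∧
      (∀ j, TGR.IsPairing (repC ρ) (charC (cyc K l)) L'.fixingSubgroup (β j)) ∧
      ∀ v, T' v = ∏ j, β j (v (ε (Sum.inl j))) (v (ε (Sum.inr j)))}, T' w = 0 := by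
    intro T' hT'
    induction hT' using Submodule.span_induction with
    | mem T' h' =>
      obtain ⟨L', m, ε, β, hL', hβ, hT'⟩ := h'
      rw [hT' w]
      exact hw _ (finiteIndex_fixing L') m ε β hβ
    | zero => rfl
    | add x y _ _ hx hy => rw [add_apply, hx, hy, add_zero]
    | smul c x _ hx => rw [smul_apply, hx, smul_zero]
  exact key T hspan

end

end TUT
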