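import Pool.Agent.Lib.MP_021685_agUT.Z3
import Pool.Agent.Lib.MP_021685_agUT.UD3
import Pool.Agent.Lib.MP_021685_agUT.S1

/-! The statement. -/

set_option autoImplicit false

namespace TUT

open TensorProduct Module Pool.Agent.Lib.MP_17a322_nt.VA Pool.Agent.Lib.MP_021685_agTT

section

variable {K : Type} [Field K] {M : ℕ} {A : AV K M} {l : ℕ} [Fact l.Prime] [Algebra ℚ_[l] ℂ]
    {V : Type} [AddCommGroup V] [Module ℚ_[l] V] [FiniteDimensional ℚ_[l] V] {ι : (ℕ → A.Pts (AlgebraicClosure K)) → V}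
    {ρ : Representation ℚ_[l] (GalK K) V} {e : V →ₗ[ℚ_[l]] V →ₗ[ℚ_[l]] ℚ_[l]}
    {D : Type} [Ring D] [Algebra ℚ D] {b : D →+* Module.End ℚ_[l] V}
    {r : ℕ} {E : Fin r → Type} [∀ i, Field (E i)] [∀ i, NumberField (E i)] {c : (∀ i, E i) →+* D}
    {t : (∀ i, E i) → K} {n : (K →+* ℂ) → (Σ i, E i →+* ℂ) → ℕ} {N : Fin r → ℕ}

/-- The sum of the multiplicities of two conjugate embeddings of `E i` depends on `i` only. -/
theorem IsUnitary.rank_const (hu : IsUnitary A l ι ρ e b c t n N) (i : Fin r) (σ σ' : K →+* ℂ) (φ φ' : E i →+* ℂ) :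
    n σ' ⟨i, φ'⟩ + n σ' (cj ⟨i, φ'⟩) = n σ ⟨i, φ⟩ + n σ (cj ⟨i, φ⟩) := by
  obtain ⟨p, h, hf⟩ := hu.frame
  have hn : ∀ (τ : ℂ ≃+* ℂ) (σ : K →+* ℂ) (f : Σ i, E i →+* ℂ),
      n ((τ : ℂ →+* ℂ).comp σ) ⟨f.1, (τ : ℂ →+* ℂ).comp f.2⟩ = n σ f := fun τ σ f => hu.type.comp τ σ f
  obtain ⟨σ'', h1⟩ := prop_one hu.cm hn (fun x y => x + y = n σ ⟨i, φ⟩ + n σ (cj ⟨i, φ⟩)) i ⟨σ, φ, rfl⟩ φ'
  rw [← h1, hf.sum, hf.sum]

theorem IsUnitary.cop_of (hu : IsUnitary A l ι ρ e b c t n N) (h1 : Coprime n N) (h2 : ∀ i, ¬ IsRank n N i 2) (i : Fin r) :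
    ∃ (σ : K →+* ℂ) (φ : E i →+* ℂ), Nat.gcd (n σ ⟨i, φ⟩) (n σ (cj ⟨i, φ⟩)) = N i ∧
      n σ ⟨i, φ⟩ + n σ (cj ⟨i, φ⟩) ≠ 2 * N i := by
  obtain ⟨σ, φ, h3⟩ := h1 i
  refine ⟨σ, φ, h3, fun h4 => h2 i fun σ' φ' => ?_⟩
  rw [hu.rank_const i σ σ' φ φ', h4]

theorem IsUnitary.separated (hu : IsUnitary A l ι ρ e b c t n N) : Separated ρ n N := by
  intro hsep
  refine ⟨fun h1 h2 => hu.generated_sep hsep (hu.cop_of h1 h2), fun h1 h2 => hu.generated_sep hsep fun i => ?_,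
    fun h1 h2 => hu.noLink hsep (hu.cop_of h1 h2), fun h1 => hu.nondeg_sep hsep h1⟩
  obtain ⟨m, h3, h4⟩ := h2 i
  exact hu.cop_prime h1 i ⟨m, h4, h3⟩

theorem IsUnitary.criterion (hu : IsUnitary A l ι ρ e b c t n N) : Criterion ρ (b.comp c) n N :=
  ⟨fun h1 h2 h3 => hu.generated h1 (Or.inl h2) h3, fun h1 h2 h3 => hu.generated h1 (Or.inr h2) h3, hu.noTwist,
    fun h1 h2 => hu.nondeg h1 h2⟩

end

theorem main : Main := fun _ _ _ _ _ _ _ _ _ _ _ _ _ _ _ _ _ _ _ _ _ _ _ _ _ _ hu => ⟨hu.separated, hu.criterion⟩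

theorem almostAllSignatures : AlmostAllSignatures := fun E _ _ hE g hg m hm => sign_count E hE g hg m hm

end TUT
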